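import Pool.Agent.H4G.Six.Ex.ExHS

/-!
# (G7, L2) combinatorial facts about the horizontal decomposition (helper46)

`Ret r y β l`: the points `y i` are met by the permutation `r` in the cyclic order `β`, the first
return from `y i` takes `l i` steps. It holds for the lower sides (`HS.retB`) and for the upper
sides (`HS.retT`) of the cylinders. `wd β l i` is the sum of `l` over the cycle of `i`: the width.
-/

set_option autoImplicit false

namespace Pool.Agent.H4G.Six

open Pool.Agent.H4G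

variable {X : Type} {O : PO X}

/-- marked points with their first return -/
structure Ret (r : Equiv.Perm X) (y : ZMod 5 → X) (β : Equiv.Perm (ZMod 5)) (l : ZMod 5 → ℕ) :
    Prop where
  inj : Function.Injective y
  lpos : ∀ i, 0 < l i
  next : ∀ i, (r ^ l i) (y i) = y (β i)
  first : ∀ i (k : ℕ), 0 < k → k < l i → ∀ j, (r ^ k) (y i) ≠ y j

/-- the sum of `l` over the cycle of `i` -/
def wd (β : Equiv.Perm (ZMod 5)) (l : ZMod 5 → ℕ) (i : ZMod 5) : ℕ :=
  ∑ m ∈ Finset.univ.filter (fun m => β.SameCycle i m), l m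

section Ret

variable {r : Equiv.Perm X} {y : ZMod 5 → X} {β : Equiv.Perm (ZMod 5)} {l : ZMod 5 → ℕ}

theorem Ret.iter (R : Ret r y β l) (i : ZMod 5) (n : ℕ) :
    (r ^ (∑ m ∈ Finset.range n, l ((β ^ m) i))) (y i) = y ((β ^ n) i) := by
  induction n with
  | zero => simp
  | succ n ih =>
    rw [Finset.sum_range_succ, add_comm, pow_add, Equiv.Perm.mul_apply, ih, R.next, pow_succ']
    rfl

theorem sum_shift (β : Equiv.Perm (ZMod 5)) (l : ZMod 5 → ℕ) (i : ZMod 5) (n : ℕ) :
    ∑ m ∈ Finset.range (n + 1), l ((β ^ m) i) =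
      l i + ∑ m ∈ Finset.range n, l ((β ^ m) (β i)) := by
  rw [Finset.sum_range_succ', add_comm]
  congr 1

theorem Ret.ret (R : Ret r y β l) : ∀ (k : ℕ) (i j : ZMod 5), (r ^ k) (y i) = y j →
    ∃ n, k = ∑ m ∈ Finset.range n, l ((β ^ m) i) ∧ j = (β ^ n) i := by
  intro k
  induction k using Nat.strong_induction_on with
  | _ k ih =>
    intro i j hk
    by_cases h0 : k = 0
    · subst h0
      exact ⟨0, by simp, by simpa using (R.inj hk).symm⟩
    · have h1 : l i ≤ k := by
        by_contra h2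
        exact R.first i k (by omega) (by omega) j hk
      have hl := R.lpos i
      have e : r ^ k = r ^ (k - l i) * r ^ l i := by rw [← pow_add]; congr 1; omega
      rw [e, Equiv.Perm.mul_apply, R.next] at hk
      obtain ⟨n, hn1, hn2⟩ := ih (k - l i) (by omega) (β i) j hk
      refine ⟨n + 1, ?_, ?_⟩
      · rw [sum_shift, ← hn1]; omega
      · rw [hn2, pow_succ]; rfl

theorem minPer_pos (β : Equiv.Perm (ZMod 5)) (i : ZMod 5) : 0 < Function.minimalPeriod β i := by
  refine Function.IsPeriodicPt.minimalPeriod_pos (n := orderOf β) (orderOf_pos β) ?_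
  show (β^[orderOf β]) i = i
  rw [← Equiv.Perm.coe_pow, pow_orderOf_eq_one]
  rfl

theorem pow_fix_iff (β : Equiv.Perm (ZMod 5)) (i : ZMod 5) (n : ℕ) :
    (β ^ n) i = i ↔ Function.minimalPeriod β i ∣ n := by
  rw [← Function.isPeriodicPt_iff_minimalPeriod_dvd]
  show (β ^ n) i = i ↔ (β^[n]) i = i
  rw [← Equiv.Perm.coe_pow]

theorem sum_cycle (β : Equiv.Perm (ZMod 5)) (l : ZMod 5 → ℕ) (i : ZMod 5) :
    ∑ m ∈ Finset.range (Function.minimalPeriod β i), l ((β ^ m) i) = wd β l i := by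
  classical
  have hinj : Set.InjOn (fun m : ℕ => (β ^ m) i)
      (Finset.range (Function.minimalPeriod β i) : Set ℕ) := by
    have h := Function.iterate_injOn_Iio_minimalPeriod (f := β) (x := i)
    intro a ha c hc hac
    refine h (by simpa using ha) (by simpa using hc) ?_
    simpa [Equiv.Perm.coe_pow] using hac
  unfold wd
  rw [← Finset.sum_image (f := l) hinj]
  refine Finset.sum_congr ?_ fun _ _ => rfl
  ext m
  simp only [Finset.mem_image, Finset.mem_range, Finset.mem_filter, Finset.mem_univ, true_and]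
  constructor
  · rintro ⟨a, -, rfl⟩
    exact ⟨(a : ℤ), by simp⟩
  · intro hm
    obtain ⟨n, hn⟩ := hm.exists_nat_pow_eq
    refine ⟨n % Function.minimalPeriod β i, Nat.mod_lt _ (minPer_pos β i), ?_⟩
    rw [← hn]
    have h3 := Function.iterate_mod_minimalPeriod_eq (f := β) (x := i) (n := n)
    simpa [Equiv.Perm.coe_pow] using h3

theorem sum_mul (β : Equiv.Perm (ZMod 5)) (l : ZMod 5 → ℕ) (i : ZMod 5) {p : ℕ}
    (hp : (β ^ p) i = i) (q : ℕ) :
    ∑ m ∈ Finset.range (p * q), l ((β ^ m) i) = q * ∑ m ∈ Finset.range p, l ((β ^ m) i) := by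
  induction q with
  | zero => simp
  | succ q ih =>
    rw [Nat.mul_succ, Finset.sum_range_add, ih]
    have h1 : ∀ m, (β ^ (p * q + m)) i = (β ^ m) i := by
      intro m
      have h2 : (β ^ (p * q)) i = i := by
        rw [pow_fix_iff] at hp ⊢
        exact Dvd.dvd.mul_right hp q
      rw [add_comm, pow_add, Equiv.Perm.mul_apply, h2]
    simp only [h1]
    ring

theorem Ret.per (R : Ret r y β l) (i : ZMod 5) : (r ^ wd β l i) (y i) = y i := by
  rw [← sum_cycle, R.iter]
  congr 1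
  exact (pow_fix_iff β i _).2 (dvd_refl _)

theorem Ret.dvdNat (R : Ret r y β l) {i : ZMod 5} {k : ℕ} (h : (r ^ k) (y i) = y i) :
    wd β l i ∣ k := by
  obtain ⟨n, h1, h2⟩ := R.ret k i i h
  obtain ⟨q, rfl⟩ := (pow_fix_iff β i n).1 h2.symm
  rw [h1, sum_mul β l i ((pow_fix_iff β i _).2 (dvd_refl _)), sum_cycle]
  exact Dvd.intro_left q rfl

theorem Ret.wpos (R : Ret r y β l) (i : ZMod 5) : 0 < wd β l i := by
  classical
  unfold wd
  refine Finset.sum_pos (fun m _ => R.lpos m) ⟨i, ?_⟩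
  simpa using Equiv.Perm.SameCycle.refl β i

theorem zfix_iff (r : Equiv.Perm X) (z : X) (k : ℤ) : (r ^ k) z = z ↔ (r ^ k.natAbs) z = z := by
  rcases Int.natAbs_eq k with h | h
  · conv_lhs => rw [h, zpow_natCast]
  · conv_lhs => rw [h, zpow_neg, zpow_natCast, Equiv.Perm.inv_eq_iff_eq]
    exact eq_comm

/-- the width is the period of the row -/
theorem Ret.dvd (R : Ret r y β l) (i : ZMod 5) (k : ℤ) :
    (r ^ k) (y i) = y i ↔ (wd β l i : ℤ) ∣ k := by
  rw [zfix_iff]
  constructor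
  · intro h
    exact Int.dvd_natAbs.1 (Int.natCast_dvd_natCast.2 (R.dvdNat h))
  · intro h
    obtain ⟨q, hq⟩ := Int.natCast_dvd_natCast.1 (Int.dvd_natAbs.2 h)
    rw [hq, pow_mul]
    have h1 : ∀ q : ℕ, ((r ^ wd β l i) ^ q) (y i) = y i := by
      intro q
      induction q with
      | zero => rfl
      | succ q ih => rw [pow_succ, Equiv.Perm.mul_apply, R.per, ih]
    exact h1 q

theorem Ret.same (R : Ret r y β l) {i j : ZMod 5} {k : ℤ} (h : (r ^ k) (y i) = y j) :
    β.SameCycle i j := by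
  rcases Int.natAbs_eq k with h1 | h1
  · rw [h1, zpow_natCast] at h
    obtain ⟨n, -, h2⟩ := R.ret _ i j h
    exact ⟨n, by rw [zpow_natCast]; exact h2.symm⟩
  · rw [h1, zpow_neg, zpow_natCast, Equiv.Perm.inv_eq_iff_eq] at h
    obtain ⟨n, -, h2⟩ := R.ret _ j i h.symm
    exact Equiv.Perm.SameCycle.symm ⟨n, by rw [zpow_natCast]; exact h2.symm⟩

theorem Ret.of_same (R : Ret r y β l) {i j : ZMod 5} (h : β.SameCycle i j) :
    ∃ k : ℕ, (r ^ k) (y i) = y j := by
  obtain ⟨n, hn⟩ := h.exists_nat_pow_eq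
  exact ⟨_, by rw [R.iter, hn]⟩

/-- every point of the row lies over a marked point -/
theorem Ret.coverNat (R : Ret r y β l) : ∀ (k : ℕ) (i : ZMod 5),
    ∃ m, β.SameCycle i m ∧ ∃ c < l m, (r ^ k) (y i) = (r ^ c) (y m) := by
  intro k
  induction k using Nat.strong_induction_on with
  | _ k ih =>
    intro i
    by_cases h0 : k < l i
    · exact ⟨i, Equiv.Perm.SameCycle.refl _ _, k, h0, rfl⟩
    · have hl := R.lpos i
      have e : r ^ k = r ^ (k - l i) * r ^ l i := by rw [← pow_add]; congr 1; omega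
      obtain ⟨m, hm, c, hc, h1⟩ := ih (k - l i) (by omega) (β i)
      refine ⟨m, Equiv.Perm.sameCycle_apply_left.1 hm, c, hc, ?_⟩
      rw [e, Equiv.Perm.mul_apply, R.next, h1]

theorem Ret.cover [Finite X] (R : Ret r y β l) (k : ℤ) (i : ZMod 5) :
    ∃ m, β.SameCycle i m ∧ ∃ c < l m, (r ^ k) (y i) = (r ^ c) (y m) := by
  obtain ⟨n, hn⟩ : ∃ n : ℕ, (r ^ n) (y i) = (r ^ k) (y i) :=
    Equiv.Perm.SameCycle.exists_nat_pow_eq ⟨k, rfl⟩
  rw [← hn]
  exact R.coverNat n i

end Ret

/-- the order of the saddles on the upper sides -/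
def tp (b : Equiv.Perm (ZMod 5)) : Equiv.Perm (ZMod 5) := b.trans (Equiv.addRight 1)

theorem tp_apply (b : Equiv.Perm (ZMod 5)) (i : ZMod 5) : tp b i = b i + 1 := rfl

section HS

variable {x : ZMod 5 → X} {b : Equiv.Perm (ZMod 5)} {l h : ZMod 5 → ℕ}

/-- the next saddle seen from below -/
theorem HS.nextTop (H : HS O x b l h) (i : ZMod 5) :
    (O.r ^ l i) (O.u.symm (x i)) = O.u.symm (x (b i + 1)) := by
  have hl := H.lpos i
  obtain ⟨m, hm⟩ : ∃ m, l i = m + 1 := ⟨l i - 1, by omega⟩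
  have h0 := H.below i (m := m) (by omega)
  have h1 := H.next i
  have h2 := H.rot (b i)
  have e2 : x (b i) = O.r ((O.r ^ m) (x i)) := by
    rw [← h1, hm, pow_succ']; rfl
  have h3 : x (b i + 1) = O.u (O.r (O.u.symm (O.r.symm (x (b i))))) := h2
  rw [hm, pow_succ', Equiv.Perm.mul_apply, ← zpow_natCast, h0, h3, e2, O.r.symm_apply_apply,
    O.u.symm_apply_apply, zpow_natCast]

theorem HS.retB (H : HS O x b l h) : Ret O.r x b l where
  inj := H.inj
  lpos := H.lpos
  next := H.next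
  first := fun i k hk hk2 j hj => H.ne_reg (i := j) (H.reg i k hk hk2) hj.symm

theorem HS.retT (H : HS O x b l h) : Ret O.r (fun j => O.u.symm (x j)) (tp b) l where
  inj := fun i j hij => H.inj (O.u.symm.injective hij)
  lpos := H.lpos
  next := H.nextTop
  first := by
    intro i k hk hk2 j hj
    have h1 := H.below i hk2
    rw [zpow_natCast] at h1
    have h2 := O.u.symm.injective (h1.symm.trans hj)
    exact H.ne_reg (i := j) (H.reg i k hk hk2) h2.symm

/-- two saddles above the same cylinder are in the same upper row -/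
theorem HS.up_top (H : HS O x b l h) {i j j' : ZMod 5} {t t' : ℤ} (h1 : Up O x h i j t)
    (h2 : Up O x h i j' t') : (tp b).SameCycle j j' := by
  unfold Up at h1 h2
  refine H.retT.same (k := t' - t) ?_
  show (O.r ^ (t' - t)) (O.u.symm (x j)) = O.u.symm (x j')
  rw [← h1, ← h2, ← zr_add]
  congr 2
  ring

theorem HS.up_same (H : HS O x b l h) {i j j' : ZMod 5} {t : ℤ} (h1 : Up O x h i j t)
    (h2 : (tp b).SameCycle j j') : ∃ t', Up O x h i j' t' := by
  obtain ⟨k, hk⟩ := H.retT.of_same h2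
  refine ⟨k + t, ?_⟩
  unfold Up at h1 ⊢
  rw [zr_add, h1, zpow_natCast]
  exact hk

theorem HS.hcyc (H : HS O x b l h) {i i' : ZMod 5} (h2 : b.SameCycle i i') : h i' = h i := by
  obtain ⟨n, hn⟩ := h2.exists_nat_pow_eq
  rw [← hn]
  clear hn
  induction n with
  | zero => rfl
  | succ n ih => rw [pow_succ', Equiv.Perm.mul_apply, H.hb, ih]

theorem HS.up_b (H : HS O x b l h) {i i' j : ZMod 5} {t : ℤ} (h1 : Up O x h i j t)
    (h2 : b.SameCycle i i') : ∃ t', Up O x h i' j t' := by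
  obtain ⟨k, hk⟩ := H.retB.of_same h2
  refine ⟨t - k, ?_⟩
  have hh := H.hcyc h2
  have hp := H.hpos i
  unfold Up at h1 ⊢
  have h3 : (O.u ^ (h i' - 1)) (x i') = (O.r ^ (k : ℤ)) ((O.u ^ (h i - 1)) (x i)) := by
    rw [H.comm i (by omega), hh, ← hk, zpow_natCast]
  rw [h3, ← zr_add, ← h1]
  congr 2
  ring

/-- the cylinder below a saddle is unique -/
theorem HS.up_bot (H : HS O x b l h) {i i' j : ZMod 5} {t t' : ℤ} (h1 : Up O x h i j t)
    (h2 : Up O x h i' j t') : b.SameCycle i i' := by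
  have key : ∀ {i i' : ZMod 5} {t t' : ℤ}, Up O x h i j t → Up O x h i' j t' → h i ≤ h i' →
      b.SameCycle i i' := by
    intro i i' t t' h1 h2 hle
    have hp := H.hpos i
    have hp' := H.hpos i'
    unfold Up at h1 h2
    rw [← h1, H.comm i (by omega), H.comm i' (by omega)] at h2
    have e : O.u ^ (h i' - 1) = O.u ^ (h i - 1) * O.u ^ (h i' - h i) := by
      rw [← pow_add]; congr 1; omega
    rw [e, Equiv.Perm.mul_apply] at h2
    have h3 := (O.u ^ (h i - 1)).injective h2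
    have h4 : x i = (O.r ^ (t' - t)) ((O.u ^ (h i' - h i)) (x i')) := by
      have h5 : (O.r ^ (-t)) ((O.r ^ t) (x i)) = (O.r ^ (-t)) ((O.r ^ t') ((O.u ^ (h i' - h i))
          (x i'))) := by
        rw [← h3, H.comm i' (by omega)]
      rw [← zr_add, ← zr_add] at h5
      simp only [neg_add_cancel, zpow_zero, Equiv.Perm.coe_one, id_eq] at h5
      rw [h5]
      congr 2
      ring
    by_cases h0 : h i' - h i = 0
    · rw [h0] at h4
      refine (H.retB.same (k := t' - t) ?_).symm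
      exact h4.symm
    · exact absurd h4 (H.ne_reg (H.inner i' (t' - t) _ (by omega) (by omega)))
  rcases le_total (h i) (h i') with h3 | h3
  · exact key h1 h2 h3
  · exact (key h2 h1 h3).symm

/-- the widths below and above are the same -/
theorem HS.sum (H : HS O x b l h) {i j : ZMod 5} {t : ℤ} (h1 : Up O x h i j t) :
    wd b l i = wd (tp b) l j := by
  have hp := H.hpos i
  have key : ∀ k : ℤ, (wd b l i : ℤ) ∣ k ↔ (wd (tp b) l j : ℤ) ∣ k := by
    intro k
    rw [← H.retB.dvd, ← H.retT.dvd]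
    show (O.r ^ k) (x i) = x i ↔ (O.r ^ k) (O.u.symm (x j)) = O.u.symm (x j)
    unfold Up at h1
    rw [← h1, ← zr_add, add_comm, zr_add, (O.r ^ t).injective.eq_iff, H.comm i (by omega),
      (O.u ^ (h i - 1)).injective.eq_iff]
  exact Nat.dvd_antisymm (Int.natCast_dvd_natCast.1 ((key _).2 (dvd_refl _)))
    (Int.natCast_dvd_natCast.1 ((key _).1 (dvd_refl _)))

/-- the offsets of a pair form a class modulo the width -/
theorem HS.up_iff (H : HS O x b l h) {i j : ZMod 5} {t : ℤ} (h1 : Up O x h i j t) (t' : ℤ) :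
    Up O x h i j t' ↔ (wd b l i : ℤ) ∣ t' - t := by
  rw [H.sum h1, ← H.retT.dvd]
  show _ ↔ (O.r ^ (t' - t)) (O.u.symm (x j)) = O.u.symm (x j)
  have e : (O.r ^ (t' - t)) (O.u.symm (x j)) = (O.r ^ t') ((O.u ^ (h i - 1)) (x i)) := by
    have h2 := h1
    unfold Up at h2
    rw [← h2, ← zr_add]
    congr 2
    ring
  rw [e]
  rfl

theorem HS.up_add (H : HS O x b l h) {i j : ZMod 5} {t : ℤ} (h1 : Up O x h i j t) (n : ℤ) :
    Up O x h i j (t + n * wd b l i) := by
  rw [H.up_iff h1]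
  exact ⟨n, by ring⟩

/-- the row below a row whose lower vertices are regular -/
theorem row_below {z : X} (hz : ∀ a : ℤ, O.rho ((O.r ^ a) z) = (O.r ^ a) z) (a : ℤ) :
    (O.r ^ a) (O.u.symm z) = O.u.symm ((O.r ^ a) z) := by
  induction a using Int.induction_on with
  | zero => simp
  | succ n ih =>
    rw [zr_succ, zr_succ, ih]
    have h1 := hz ((n : ℤ) + 1)
    rw [zr_succ] at h1
    exact reg_low h1
  | pred n ih =>
    have e : (-(n : ℤ)) = (-(n : ℤ) - 1) + 1 := by ring
    have h1 := hz (-(n : ℤ))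
    have h2 : (O.r ^ (-(n : ℤ))) z = O.r ((O.r ^ (-(n : ℤ) - 1)) z) := by
      rw [← zr_succ, ← e]
    have h3 : (O.r ^ (-(n : ℤ))) (O.u.symm z) = O.r ((O.r ^ (-(n : ℤ) - 1)) (O.u.symm z)) := by
      rw [← zr_succ, ← e]
    rw [h2] at h1 ih
    rw [← reg_low h1, h3] at ih
    exact O.r.injective ih

/-- every saddle lies above a cylinder -/
theorem HS.up_exists [Finite X] (H : HS O x b l h) (j : ZMod 5) : ∃ i t, Up O x h i j t := by
  classical
  set w : ℕ → X := fun m => (O.u⁻¹ ^ m) (O.u.symm (x j)) with hw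
  have hws : ∀ m, w (m + 1) = O.u.symm (w m) := by
    intro m
    simp only [hw, pow_succ', Equiv.Perm.mul_apply]
    rfl
  have hreg : ∀ y, (∀ j, y ≠ x j) → O.rho y = y := by
    intro y hy
    by_contra h1
    obtain ⟨i, hi⟩ := (H.sing y).1 h1
    exact hy i hi
  have hex : ∃ k : ℕ, ∃ (a : ℤ) (i : ZMod 5), (O.r ^ a) (w k) = x i := by
    refine ⟨orderOf O.u⁻¹ - 1, 0, j, ?_⟩
    have h2 : O.u⁻¹ ^ (orderOf O.u⁻¹ - 1) * O.u⁻¹ = 1 := by
      rw [← pow_succ, Nat.sub_add_cancel (orderOf_pos _), pow_orderOf_eq_one]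
    have h3 := congrArg (fun g : Equiv.Perm X => g (x j)) h2
    simpa [hw] using h3
  obtain ⟨a, i, hi⟩ := Nat.find_spec hex
  set k := Nat.find hex with hk
  have hrow : ∀ m, m < k → ∀ a : ℤ, O.rho ((O.r ^ a) (w m)) = (O.r ^ a) (w m) := by
    intro m hm a
    refine hreg _ fun i hi => ?_
    exact Nat.find_min hex hm ⟨a, i, hi⟩
  have hup : ∀ m, m ≤ k → (O.u ^ m) (x i) = (O.r ^ a) (w (k - m)) := by
    intro m
    induction m with
    | zero => intro _; simp [hi]
    | succ m ih =>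
      intro hm
      rw [pow_succ', Equiv.Perm.mul_apply, ih (by omega)]
      have e : k - m = (k - (m + 1)) + 1 := by omega
      rw [e, hws, row_below (hrow _ (by omega)), O.u.apply_symm_apply]
  have hw0 : w 0 = O.u.symm (x j) := rfl
  have huk := hup k le_rfl
  rw [Nat.sub_self, hw0] at huk
  have hh : h i = k + 1 := by
    rcases lt_trichotomy (h i) (k + 1) with h1 | h1 | h1
    · exfalso
      have hp := H.hpos i
      obtain ⟨j', t, ht⟩ := H.top i
      rw [hup (h i - 1) (by omega), ← zr_add] at ht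
      have e : k - (h i - 1) = (k - h i) + 1 := by omega
      rw [e, hws, row_below (hrow _ (by omega))] at ht
      have h2 := O.u.symm.injective ht
      exact H.ne_reg (hrow _ (by omega) _) h2.symm
    · exact h1
    · exfalso
      have h2 : (O.r ^ (-a)) ((O.u ^ (k + 1)) (x i)) = x j := by
        rw [H.comm i h1, pow_succ', Equiv.Perm.mul_apply, ← H.comm i (by omega), huk, ← zr_add]
        simp
      exact H.ne_reg (H.inner i (-a) (k + 1) (by omega) h1) h2.symm
  refine ⟨i, -a, ?_⟩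
  unfold Up
  rw [hh, Nat.add_sub_cancel, huk, ← zr_add]
  simp

/-- connectedness -/
theorem HS.conn [Finite X] (hT : O.Trans) (H : HS O x b l h) (S : Set (ZMod 5))
    (hS : S.Nonempty) (hb : ∀ i ∈ S, b i ∈ S) (hu : ∀ i ∈ S, ∀ j t, Up O x h i j t → j ∈ S) :
    S = Set.univ := by
  have hcl : ∀ i ∈ S, ∀ i', b.SameCycle i i' → i' ∈ S := by
    intro i hi i' h1
    obtain ⟨n, hn⟩ := h1.exists_nat_pow_eq
    rw [← hn]
    clear hn
    induction n with
    | zero => exact hi
    | succ n ih => rw [pow_succ', Equiv.Perm.mul_apply]; exact hb _ ih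
  have hun := hT {y | ∃ i ∈ S, ∃ (a : ℤ) (k : ℕ), k < h i ∧ y = (O.r ^ a) ((O.u ^ k) (x i))} ?_ ?_ ?_
  · refine Set.eq_univ_of_forall fun i' => ?_
    have h1 : x i' ∈ {y | ∃ i ∈ S, ∃ (a : ℤ) (k : ℕ), k < h i ∧ y = (O.r ^ a) ((O.u ^ k) (x i))} := by
      rw [hun]; exact Set.mem_univ _
    obtain ⟨i, hi, a, k, hk, h2⟩ := h1
    by_cases h0 : k = 0
    · subst h0
      refine hcl i hi i' (H.retB.same (k := a) ?_)
      exact h2.symm
    · exact absurd h2 (H.ne_reg (H.inner i a k (by omega) hk))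
  · obtain ⟨i, hi⟩ := hS
    exact ⟨x i, i, hi, 0, 0, H.hpos i, rfl⟩
  · rintro y ⟨i, hi, a, k, hk, rfl⟩
    exact ⟨i, hi, a + 1, k, hk, by rw [zr_succ]⟩
  · rintro y ⟨i, hi, a, k, hk, rfl⟩
    by_cases h0 : k + 1 < h i
    · refine ⟨i, hi, a, k + 1, h0, ?_⟩
      rw [H.comm i hk, H.comm i h0, pow_succ']
      rfl
    · have hke : k = h i - 1 := by omega
      obtain ⟨j, t, ht⟩ := H.top i
      obtain ⟨m, hm, c, hc, h1⟩ := H.retT.cover (a - t) j
      obtain ⟨t', ht'⟩ := H.up_same ht hm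
      refine ⟨m, hu i hi m t' ht', c, 0, H.hpos m, ?_⟩
      have e : (O.r ^ a) ((O.u ^ k) (x i)) = (O.r ^ (a - t)) (O.u.symm (x j)) := by
        rw [← ht, ← zr_add, hke]
        congr 2
        ring
      have h3 : (O.r ^ (a - t)) (O.u.symm (x j)) = (O.r ^ c) (O.u.symm (x m)) := h1
      rw [e, h3, ← zpow_natCast, H.below m hc, O.u.apply_symm_apply]
      rfl

end HS

end Pool.Agent.H4G.Six
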