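import Pool.Agent.H4G.Six.Ex.Defs

/-!
# (G7) zero twist towers = Young surfaces (helper2)

`YT O a b c d e f`: `O` is the surface of the Young diagram with columns `a, b, c` and rows
`d, e, f`: the horizontal saddles `n, n + 1, ..., n + 4` are `j, 1', j', 2, 3` of helper31's page.
-/

set_option autoImplicit false

namespace Pool.Agent.H4G.Six

open Pool.Agent.H4G

variable {X : Type}

/-- the tower `Q2` (shift `n`) with zero twists, with its parameters -/
structure YTx (O : PO X) (x : ZMod 5 → X) (B : Equiv.Perm (ZMod 5)) (l h : ZMod 5 → ℕ)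
    (n : ZMod 5) (a b c d e f : ℕ) : Prop where
  H : HS O x B l h
  B0 : B n = n
  B1 : B (n + 1) = n + 4
  B2 : B (n + 2) = n + 1
  B3 : B (n + 3) = n + 3
  B4 : B (n + 4) = n + 2
  l0 : l n = a
  l1 : l (n + 1) = b
  l2 : l (n + 2) = a
  l3 : l (n + 3) = a + b
  l4 : l (n + 4) = c
  h0 : h n = f
  h1 : h (n + 1) = d
  h2 : h (n + 2) = d
  h3 : h (n + 3) = e
  h4 : h (n + 4) = d
  up2 : Up O x h (n + 2) (n + 3) 0
  up3 : Up O x h (n + 3) n 0
  up0 : Up O x h n (n + 2) 0

/-- `O` is the Young surface -/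
def YT (O : PO X) (a b c d e f : ℕ) : Prop :=
  ∃ (x : ZMod 5 → X) (B : Equiv.Perm (ZMod 5)) (l h : ZMod 5 → ℕ) (n : ZMod 5),
    YTx O x B l h n a b c d e f

/-- the transposed origami -/
def PO.tp (O : PO X) : PO X := ⟨O.u, O.r⟩

end Pool.Agent.H4G.Six
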