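import Pool.Agent.H4G.Six.Ex.Dstar
import Pool.Agent.H4G.Six.Ex.Facts
import Pool.Agent.H4G.Six.Ex.YTDefs

/-!
# (G7) the horizontal cylinders cover the surface (helper31)

`HS.card_le`: the number of squares is at most the sum of `l i * h i` (the converse of
`HS.area_le`). `YT.card`: the area of a Young surface.
-/

set_option autoImplicit false

namespace Pool.Agent.H4G.Six

open Pool.Agent.H4G

variable {X : Type} {O : PO X} {x : ZMod 5 → X} {b : Equiv.Perm (ZMod 5)} {l h : ZMod 5 → ℕ}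

/-- every square lies above a saddle -/
theorem HS.squares [Finite X] (hT : O.Trans) (H : HS O x b l h) (y : X) :
    ∃ (m : ZMod 5) (c k : ℕ), c < l m ∧ k < h m ∧ y = (O.u ^ k) ((O.r ^ c) (x m)) := by
  have hun := hT {y | ∃ (i : ZMod 5) (a : ℤ) (k : ℕ), k < h i ∧ y = (O.r ^ a) ((O.u ^ k) (x i))}
    ⟨x 0, 0, 0, 0, H.hpos 0, rfl⟩ ?_ ?_
  · have h1 : y ∈ {y | ∃ (i : ZMod 5) (a : ℤ) (k : ℕ), k < h i ∧
        y = (O.r ^ a) ((O.u ^ k) (x i))} := by
      rw [hun]; exact Set.mem_univ _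
    obtain ⟨i, a, k, hk, h2⟩ := h1
    obtain ⟨m, hm, c, hc, h3⟩ := H.retB.cover a i
    refine ⟨m, c, k, hc, by rw [H.hcyc hm]; exact hk, ?_⟩
    rw [h2, H.comm i hk, h3]
  · rintro y ⟨i, a, k, hk, rfl⟩
    exact ⟨i, a + 1, k, hk, by rw [zr_succ]⟩
  · rintro y ⟨i, a, k, hk, rfl⟩
    by_cases h0 : k + 1 < h i
    · refine ⟨i, a, k + 1, h0, ?_⟩
      rw [H.comm i hk, H.comm i h0, pow_succ']
      rfl
    · have hke : k = h i - 1 := by omega
      obtain ⟨j, t, ht⟩ := H.top i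
      obtain ⟨m, -, c, hc, h1⟩ := H.retT.cover (a - t) j
      refine ⟨m, c, 0, H.hpos m, ?_⟩
      have e : (O.r ^ a) ((O.u ^ k) (x i)) = (O.r ^ (a - t)) (O.u.symm (x j)) := by
        rw [← ht, ← zr_add, hke]
        congr 2
        ring
      have h3 : (O.r ^ (a - t)) (O.u.symm (x j)) = (O.r ^ c) (O.u.symm (x m)) := h1
      rw [e, h3, ← zpow_natCast, H.below m hc, O.u.apply_symm_apply]
      rfl

/-- the number of squares -/
theorem HS.card_le [Finite X] (hT : O.Trans) (H : HS O x b l h) :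
    Nat.card X ≤ ∑ i, l i * h i := by
  classical
  have h1 : Nat.card ((m : ZMod 5) × (Fin (l m) × Fin (h m))) = ∑ i, l i * h i := by
    rw [Nat.card_sigma]
    simp
  rw [← h1]
  refine Nat.card_le_card_of_surjective
    (fun p : (m : ZMod 5) × (Fin (l m) × Fin (h m)) =>
      (O.u ^ (p.2.2 : ℕ)) ((O.r ^ (p.2.1 : ℕ)) (x p.1))) fun y => ?_
  obtain ⟨m, c, k, hc, hk, hy⟩ := H.squares hT y
  exact ⟨⟨m, ⟨c, hc⟩, ⟨k, hk⟩⟩, hy.symm⟩

/-- the number of squares -/
theorem HS.card_eq [Finite X] (hT : O.Trans) (H : HS O x b l h) :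
    Nat.card X = ∑ i, l i * h i := le_antisymm (H.card_le hT) H.area_le

/-- the area of a Young surface -/
theorem YT.card [Finite X] (hT : O.Trans) {a b c d e f : ℕ} (Y : YT O a b c d e f) :
    Nat.card X = (a + b + c) * d + (a + b) * e + a * f := by
  obtain ⟨x, B, l, h, n, Y⟩ := Y
  rw [Y.H.card_eq hT, sum_five _ n, Y.l0, Y.l1, Y.l2, Y.l3, Y.l4, Y.h0, Y.h1, Y.h2, Y.h3, Y.h4]
  ring

/-- paths of the transposed origami -/
theorem Path6.tp {y z : X} {w : Z2} (p : Path6 O y w z) : Path6 O.tp y (w.2, w.1) z := by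
  induction p with
  | refl => exact Path6.refl y
  | @right z w _ ih =>
    have e : ((w + (1, 0)).2, (w + (1, 0)).1) = ((w.2, w.1) + (0, 1) : Z2) := by ext <;> simp
    rw [e]
    exact Path6.up (O := O.tp) ih
  | @left z w _ ih =>
    have e : ((w - (1, 0)).2, (w - (1, 0)).1) = ((w.2, w.1) - (0, 1) : Z2) := by ext <;> simp
    rw [e]
    exact Path6.down (O := O.tp) ih
  | @up z w _ ih =>
    have e : ((w + (0, 1)).2, (w + (0, 1)).1) = ((w.2, w.1) + (1, 0) : Z2) := by ext <;> simp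
    rw [e]
    exact Path6.right (O := O.tp) ih
  | @down z w _ ih =>
    have e : ((w - (0, 1)).2, (w - (0, 1)).1) = ((w.2, w.1) - (1, 0) : Z2) := by ext <;> simp
    rw [e]
    exact Path6.left (O := O.tp) ih

/-- the transposed origami is primitive -/
theorem PO.tp_prim (hO : O.Prim) : O.tp.Prim := fun y w => (hO y (w.2, w.1)).tp

/-- the transposed origami is transitive -/
theorem PO.tp_trans (hO : O.Trans) : O.tp.Trans := fun S hS h1 h2 => hO S hS h2 h1

end Pool.Agent.H4G.Six
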