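import Pool.Agent.H4G.Six.Ex.Cross

/-!
# (L4) crossing lemma: forms without sequences (helper79)

`cross1`, `cross2_pq`, `cross3_pq`: words with one, two, three letters; `p` is the index of the
saddle whose start is the left end of the transversal, `q` the index of the saddle whose end is the
right end. `crossing'` is the general form, only `s 0, ..., s (n - 1)` and `P 0, ..., P n` matter.
-/

set_option autoImplicit false

namespace Pool.Agent.H4G.Six

open Pool.Agent.H4G

variable {X : Type} {O : PO X} {x : ZMod 5 → X} {b : Equiv.Perm (ZMod 5)} {l h : ZMod 5 → ℕ}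

/-- CROSSING LEMMA, finite form. -/
theorem crossing' (H : HS O x b l h) (n : ℕ) (hn : 0 < n) (s : ℕ → ZMod 5) (P : ℕ → Z2) {U : Z2}
    (hP0 : P 0 = 0) (hPn : P n = U)
    (hup : ∀ k < n, ∃ t, Up O x h (s k) (s ((k + 1) % n)) t ∧
      P (k + 1) = P k + (t, (h (s k) : ℤ)))
    (p q : ℕ) (hp : p < n) (hq : q < n)
    (hl : ∀ k < n, k ≠ p → cr (P k) U < cr (P p) U)
    (hr : ∀ k < n, k ≠ q → cr (P q) U + U.2 * l (s q) < cr (P k) U + U.2 * l (s k))
    (hw : cr (P p) U < cr (P q) U + U.2 * l (s q)) (a : ℕ) (ha : b (s q) = s p + a) :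
    SC O U (P p - P q - ((l (s q) : ℤ), 0)) a := by
  have m : ∀ k < n, k % n = k := fun k hk => Nat.mod_eq_of_lt hk
  have e : ∀ k < n, k / n = 0 := fun k hk => Nat.div_eq_of_lt hk
  have key := crossing H n hn (fun k => s (k % n)) (fun k => P (k % n) + ((k / n : ℕ) : ℤ) • U)
    (U := U) (fun k => by simp only [Nat.add_mod_right]) (by simp [hP0]) (fun k => by
      simp only [Nat.add_mod_right, Nat.add_div_right k hn]
      push_cast
      rw [add_smul, one_smul, add_assoc]) (fun k => by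
      obtain ⟨t, h1, h2⟩ := hup (k % n) (Nat.mod_lt _ hn)
      have h3 : (k % n + 1) % n = (k + 1) % n := by
        rw [Nat.mod_add_mod]
      refine ⟨t, by rw [← h3]; exact h1, ?_⟩
      show P ((k + 1) % n) + (((k + 1) / n : ℕ) : ℤ) • U =
        P (k % n) + ((k / n : ℕ) : ℤ) • U + (t, (h (s (k % n)) : ℤ))
      rcases Nat.lt_or_ge (k % n + 1) n with h4 | h4
      · have h5 : (k + 1) % n = k % n + 1 := by rw [← h3]; exact Nat.mod_eq_of_lt h4
        have h6 : (k + 1) / n = k / n := by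
          have h7 := Nat.div_add_mod k n
          have h8 := Nat.div_add_mod (k + 1) n
          rw [h5] at h8
          have h9 : n * ((k + 1) / n) = n * (k / n) := by omega
          exact Nat.eq_of_mul_eq_mul_left hn h9
        rw [h5, h6, h2]
        abel
      · have h4' : k % n + 1 = n := by
          have := Nat.mod_lt k hn
          omega
        have h5 : (k + 1) % n = 0 := by rw [← h3, h4', Nat.mod_self]
        have h6 : (k + 1) / n = k / n + 1 := by
          have h7 := Nat.div_add_mod k n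
          have h8 := Nat.div_add_mod (k + 1) n
          rw [h5] at h8
          have h9 : n * ((k + 1) / n) = n * (k / n + 1) := by rw [mul_add, mul_one]; omega
          exact Nat.eq_of_mul_eq_mul_left hn h9
        rw [h5, h6, hP0]
        rw [h4', hPn] at h2
        push_cast
        rw [add_smul, one_smul, zero_add]
        rw [h2]
        abel) p q hp hq (fun k hk hkp => by
      simp only [m k hk, m p hp, e k hk, e p hp, Nat.cast_zero, zero_smul, add_zero]
      exact hl k hk hkp) (fun k hk hkq => by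
      simp only [m k hk, m q hq, e k hk, e q hq, Nat.cast_zero, zero_smul, add_zero]
      exact hr k hk hkq) (by
      simp only [m p hp, m q hq, e p hp, e q hq, Nat.cast_zero, zero_smul, add_zero]
      exact hw) a (by
      simp only [m p hp, m q hq]
      exact ha)
  simp only [m p hp, m q hq, e p hp, e q hq, Nat.cast_zero, zero_smul, add_zero] at key
  exact key

/-- one letter -/
theorem cross1 (H : HS O x b l h) {i : ZMod 5} {t : ℤ} (h1 : Up O x h i i t) {a : ℕ}
    (ha : b i = i + a) : SC O (t, (h i : ℤ)) (-(l i : ℤ), 0) a := by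
  have hpos := H.hpos i
  have hl := H.lpos i
  have key := crossing' H 1 one_pos (fun _ => i) (fun k => if k = 0 then 0 else (t, (h i : ℤ)))
    (U := (t, (h i : ℤ))) rfl rfl (fun k hk => by
      obtain rfl : k = 0 := by omega
      exact ⟨t, h1, by simp⟩) 0 0 one_pos one_pos (fun k hk hk0 => by omega)
    (fun k hk hk0 => by omega) (by
      simp only [cr, if_true, Prod.fst_zero, Prod.snd_zero]
      have : (0 : ℤ) < (h i : ℤ) * (l i : ℤ) := by positivity
      linarith) a ha
  have e : ((0 : Z2) - 0 - ((l i : ℤ), 0)) = (-(l i : ℤ), 0) := by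
    ext <;> simp
  simp only [if_true] at key
  rw [e] at key
  exact key

/-- finite sequences -/
def crsq2 {α : Type} (a0 a1 : α) (m : ℕ) : α := if m = 0 then a0 else a1

/-- finite sequences -/
def crsq3 {α : Type} (a0 a1 a2 : α) (m : ℕ) : α := if m = 0 then a0 else if m = 1 then a1 else a2

/-- finite sequences -/
def crsq4 {α : Type} (a0 a1 a2 a3 : α) (m : ℕ) : α :=
  if m = 0 then a0 else if m = 1 then a1 else if m = 2 then a2 else a3

theorem cross2_00 (H : HS O x b l h) {i j : ZMod 5} {t t' : ℤ} (u0 : Up O x h i j t)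
    (u1 : Up O x h j i t') {S D : ℤ} (hS : S = h i + h j) (hD : D = t * h j - h i * t')
    (l1 : D < 0) (r1 : S * l i < D + S * l j) {a : ℕ} (ha : b i = i + a) :
    SC O (t + t', S) (-(l i : ℤ), 0) a := by
  subst hS hD
  have h0 := H.hpos i
  have h1 := H.hpos j
  have key := crossing' H 2 (by norm_num) (crsq2 i j)
    (crsq3 0 (t, (h i : ℤ)) (t + t', (h i : ℤ) + (h j : ℤ)))
    (U := (t + t', (h i : ℤ) + (h j : ℤ))) rfl rfl
    (fun m hm => by
      interval_cases m
      · exact ⟨t, u0, by ext <;> simp [crsq2, crsq3]⟩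
      · exact ⟨t', u1, by ext <;> simp [crsq2, crsq3]⟩
      ) 0 0 (by norm_num) (by norm_num)
    (fun m hm hmp => by
      interval_cases m
      · exact absurd rfl hmp
      · simp only [crsq3, cr]; simp; linarith
      )
    (fun m hm hmq => by
      interval_cases m
      · exact absurd rfl hmq
      · simp only [crsq3, crsq2, cr]; simp; linarith
      )
    (by
      have hl := H.lpos i
      have e2 : (0 : ℤ) < ((h i : ℤ) + (h j : ℤ)) * (l i : ℤ) := by positivity
      simp only [crsq3, crsq2, cr]; simp; linarith) a ha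
  have e : crsq3 0 (t, (h i : ℤ)) (t + t', (h i : ℤ) + (h j : ℤ)) 0 -
      crsq3 0 (t, (h i : ℤ)) (t + t', (h i : ℤ) + (h j : ℤ)) 0 -
      ((l (crsq2 i j 0) : ℤ), 0) = ((-(l i : ℤ), 0) : Z2) := by
    ext <;> simp [crsq2, crsq3]
  rw [e] at key
  exact key

theorem cross2_01 (H : HS O x b l h) {i j : ZMod 5} {t t' : ℤ} (u0 : Up O x h i j t)
    (u1 : Up O x h j i t') {S D : ℤ} (hS : S = h i + h j) (hD : D = t * h j - h i * t')
    (l1 : D < 0) (r0 : D + S * l j < S * l i) (w : 0 < D + S * l j) {a : ℕ} (ha : b j = i + a) :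
    SC O (t + t', S) (-t - l j, -(h i : ℤ)) a := by
  subst hS hD
  have h0 := H.hpos i
  have h1 := H.hpos j
  have key := crossing' H 2 (by norm_num) (crsq2 i j)
    (crsq3 0 (t, (h i : ℤ)) (t + t', (h i : ℤ) + (h j : ℤ)))
    (U := (t + t', (h i : ℤ) + (h j : ℤ))) rfl rfl
    (fun m hm => by
      interval_cases m
      · exact ⟨t, u0, by ext <;> simp [crsq2, crsq3]⟩
      · exact ⟨t', u1, by ext <;> simp [crsq2, crsq3]⟩
      ) 0 1 (by norm_num) (by norm_num)
    (fun m hm hmp => by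
      interval_cases m
      · exact absurd rfl hmp
      · simp only [crsq3, cr]; simp; linarith
      )
    (fun m hm hmq => by
      interval_cases m
      · simp only [crsq3, crsq2, cr]; simp; linarith
      · exact absurd rfl hmq
      )
    (by simp only [crsq3, crsq2, cr]; simp; linarith) a ha
  have e : crsq3 0 (t, (h i : ℤ)) (t + t', (h i : ℤ) + (h j : ℤ)) 0 -
      crsq3 0 (t, (h i : ℤ)) (t + t', (h i : ℤ) + (h j : ℤ)) 1 -
      ((l (crsq2 i j 1) : ℤ), 0) = ((-t - l j, -(h i : ℤ)) : Z2) := by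
    ext <;> simp [crsq2, crsq3]
  rw [e] at key
  exact key

theorem cross2_10 (H : HS O x b l h) {i j : ZMod 5} {t t' : ℤ} (u0 : Up O x h i j t)
    (u1 : Up O x h j i t') {S D : ℤ} (hS : S = h i + h j) (hD : D = t * h j - h i * t')
    (l0 : 0 < D) (r1 : S * l i < D + S * l j) (w : D < S * l i) {a : ℕ} (ha : b i = j + a) :
    SC O (t + t', S) (t - l i, (h i : ℤ)) a := by
  subst hS hD
  have h0 := H.hpos i
  have h1 := H.hpos j
  have key := crossing' H 2 (by norm_num) (crsq2 i j)
    (crsq3 0 (t, (h i : ℤ)) (t + t', (h i : ℤ) + (h j : ℤ)))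
    (U := (t + t', (h i : ℤ) + (h j : ℤ))) rfl rfl
    (fun m hm => by
      interval_cases m
      · exact ⟨t, u0, by ext <;> simp [crsq2, crsq3]⟩
      · exact ⟨t', u1, by ext <;> simp [crsq2, crsq3]⟩
      ) 1 0 (by norm_num) (by norm_num)
    (fun m hm hmp => by
      interval_cases m
      · simp only [crsq3, cr]; simp; linarith
      · exact absurd rfl hmp
      )
    (fun m hm hmq => by
      interval_cases m
      · exact absurd rfl hmq
      · simp only [crsq3, crsq2, cr]; simp; linarith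
      )
    (by simp only [crsq3, crsq2, cr]; simp; linarith) a ha
  have e : crsq3 0 (t, (h i : ℤ)) (t + t', (h i : ℤ) + (h j : ℤ)) 1 -
      crsq3 0 (t, (h i : ℤ)) (t + t', (h i : ℤ) + (h j : ℤ)) 0 -
      ((l (crsq2 i j 0) : ℤ), 0) = ((t - l i, (h i : ℤ)) : Z2) := by
    ext <;> simp [crsq2, crsq3]
  rw [e] at key
  exact key

theorem cross2_11 (H : HS O x b l h) {i j : ZMod 5} {t t' : ℤ} (u0 : Up O x h i j t)
    (u1 : Up O x h j i t') {S D : ℤ} (hS : S = h i + h j) (hD : D = t * h j - h i * t')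
    (l0 : 0 < D) (r0 : D + S * l j < S * l i) {a : ℕ} (ha : b j = j + a) :
    SC O (t + t', S) (-(l j : ℤ), 0) a := by
  subst hS hD
  have h0 := H.hpos i
  have h1 := H.hpos j
  have key := crossing' H 2 (by norm_num) (crsq2 i j)
    (crsq3 0 (t, (h i : ℤ)) (t + t', (h i : ℤ) + (h j : ℤ)))
    (U := (t + t', (h i : ℤ) + (h j : ℤ))) rfl rfl
    (fun m hm => by
      interval_cases m
      · exact ⟨t, u0, by ext <;> simp [crsq2, crsq3]⟩
      · exact ⟨t', u1, by ext <;> simp [crsq2, crsq3]⟩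
      ) 1 1 (by norm_num) (by norm_num)
    (fun m hm hmp => by
      interval_cases m
      · simp only [crsq3, cr]; simp; linarith
      · exact absurd rfl hmp
      )
    (fun m hm hmq => by
      interval_cases m
      · simp only [crsq3, crsq2, cr]; simp; linarith
      · exact absurd rfl hmq
      )
    (by
      have hl := H.lpos j
      have e2 : (0 : ℤ) < ((h i : ℤ) + (h j : ℤ)) * (l j : ℤ) := by positivity
      simp only [crsq3, crsq2, cr]; simp; linarith) a ha
  have e : crsq3 0 (t, (h i : ℤ)) (t + t', (h i : ℤ) + (h j : ℤ)) 1 -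
      crsq3 0 (t, (h i : ℤ)) (t + t', (h i : ℤ) + (h j : ℤ)) 1 -
      ((l (crsq2 i j 1) : ℤ), 0) = ((-(l j : ℤ), 0) : Z2) := by
    ext <;> simp [crsq2, crsq3]
  rw [e] at key
  exact key

theorem cross3_00 (H : HS O x b l h) {i j k : ZMod 5} {t t' t'' : ℤ} (u0 : Up O x h i j t)
    (u1 : Up O x h j k t') (u2 : Up O x h k i t'') {S D E : ℤ} (hS : S = h i + h j + h k)
    (hD : D = t * (h j + h k) - h i * (t' + t'')) (hE : E = (t + t') * h k - (h i + h j) * t'')
    (l1 : D < 0) (l2 : E < 0) (r1 : S * l i < D + S * l j) (r2 : S * l i < E + S * l k)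
    {a : ℕ} (ha : b i = i + a) :
    SC O (t + t' + t'', S) (-(l i : ℤ), 0) a := by
  subst hS hD hE
  have h0 := H.hpos i
  have h1 := H.hpos j
  have h2 := H.hpos k
  have key := crossing' H 3 (by norm_num) (crsq3 i j k)
    (crsq4 0 (t, (h i : ℤ)) (t + t', (h i : ℤ) + (h j : ℤ)) (t + t' + t'', (h i : ℤ) + (h j : ℤ) + (h k : ℤ)))
    (U := (t + t' + t'', (h i : ℤ) + (h j : ℤ) + (h k : ℤ))) rfl rfl
    (fun m hm => by
      interval_cases m
      · exact ⟨t, u0, by ext <;> simp [crsq3, crsq4]⟩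
      · exact ⟨t', u1, by ext <;> simp [crsq3, crsq4]⟩
      · exact ⟨t'', u2, by ext <;> simp [crsq3, crsq4]⟩
      ) 0 0 (by norm_num) (by norm_num)
    (fun m hm hmp => by
      interval_cases m
      · exact absurd rfl hmp
      · simp only [crsq4, cr]; simp; linarith
      · simp only [crsq4, cr]; simp; linarith
      )
    (fun m hm hmq => by
      interval_cases m
      · exact absurd rfl hmq
      · simp only [crsq4, crsq3, cr]; simp; linarith
      · simp only [crsq4, crsq3, cr]; simp; linarith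
      )
    (by
      have hl := H.lpos i
      have e2 : (0 : ℤ) < ((h i : ℤ) + (h j : ℤ) + (h k : ℤ)) * (l i : ℤ) := by positivity
      simp only [crsq4, crsq3, cr]; simp; linarith) a ha
  have e : crsq4 0 (t, (h i : ℤ)) (t + t', (h i : ℤ) + (h j : ℤ)) (t + t' + t'', (h i : ℤ) + (h j : ℤ) + (h k : ℤ)) 0 -
      crsq4 0 (t, (h i : ℤ)) (t + t', (h i : ℤ) + (h j : ℤ)) (t + t' + t'', (h i : ℤ) + (h j : ℤ) + (h k : ℤ)) 0 -
      ((l (crsq3 i j k 0) : ℤ), 0) = ((-(l i : ℤ), 0) : Z2) := by
    ext <;> simp [crsq3, crsq4]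
  rw [e] at key
  exact key

theorem cross3_01 (H : HS O x b l h) {i j k : ZMod 5} {t t' t'' : ℤ} (u0 : Up O x h i j t)
    (u1 : Up O x h j k t') (u2 : Up O x h k i t'') {S D E : ℤ} (hS : S = h i + h j + h k)
    (hD : D = t * (h j + h k) - h i * (t' + t'')) (hE : E = (t + t') * h k - (h i + h j) * t'')
    (l1 : D < 0) (l2 : E < 0) (r0 : D + S * l j < S * l i) (r2 : D + S * l j < E + S * l k)
    (w : 0 < D + S * l j) {a : ℕ} (ha : b j = i + a) :
    SC O (t + t' + t'', S) (-t - l j, -(h i : ℤ)) a := by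
  subst hS hD hE
  have h0 := H.hpos i
  have h1 := H.hpos j
  have h2 := H.hpos k
  have key := crossing' H 3 (by norm_num) (crsq3 i j k)
    (crsq4 0 (t, (h i : ℤ)) (t + t', (h i : ℤ) + (h j : ℤ)) (t + t' + t'', (h i : ℤ) + (h j : ℤ) + (h k : ℤ)))
    (U := (t + t' + t'', (h i : ℤ) + (h j : ℤ) + (h k : ℤ))) rfl rfl
    (fun m hm => by
      interval_cases m
      · exact ⟨t, u0, by ext <;> simp [crsq3, crsq4]⟩
      · exact ⟨t', u1, by ext <;> simp [crsq3, crsq4]⟩
      · exact ⟨t'', u2, by ext <;> simp [crsq3, crsq4]⟩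
      ) 0 1 (by norm_num) (by norm_num)
    (fun m hm hmp => by
      interval_cases m
      · exact absurd rfl hmp
      · simp only [crsq4, cr]; simp; linarith
      · simp only [crsq4, cr]; simp; linarith
      )
    (fun m hm hmq => by
      interval_cases m
      · simp only [crsq4, crsq3, cr]; simp; linarith
      · exact absurd rfl hmq
      · simp only [crsq4, crsq3, cr]; simp; linarith
      )
    (by simp only [crsq4, crsq3, cr]; simp; linarith) a ha
  have e : crsq4 0 (t, (h i : ℤ)) (t + t', (h i : ℤ) + (h j : ℤ)) (t + t' + t'', (h i : ℤ) + (h j : ℤ) + (h k : ℤ)) 0 -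
      crsq4 0 (t, (h i : ℤ)) (t + t', (h i : ℤ) + (h j : ℤ)) (t + t' + t'', (h i : ℤ) + (h j : ℤ) + (h k : ℤ)) 1 -
      ((l (crsq3 i j k 1) : ℤ), 0) = ((-t - l j, -(h i : ℤ)) : Z2) := by
    ext <;> simp [crsq3, crsq4]
  rw [e] at key
  exact key

theorem cross3_02 (H : HS O x b l h) {i j k : ZMod 5} {t t' t'' : ℤ} (u0 : Up O x h i j t)
    (u1 : Up O x h j k t') (u2 : Up O x h k i t'') {S D E : ℤ} (hS : S = h i + h j + h k)
    (hD : D = t * (h j + h k) - h i * (t' + t'')) (hE : E = (t + t') * h k - (h i + h j) * t'')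
    (l1 : D < 0) (l2 : E < 0) (r0 : E + S * l k < S * l i) (r1 : E + S * l k < D + S * l j)
    (w : 0 < E + S * l k) {a : ℕ} (ha : b k = i + a) :
    SC O (t + t' + t'', S) (-(t + t') - l k, -((h i : ℤ) + (h j : ℤ))) a := by
  subst hS hD hE
  have h0 := H.hpos i
  have h1 := H.hpos j
  have h2 := H.hpos k
  have key := crossing' H 3 (by norm_num) (crsq3 i j k)
    (crsq4 0 (t, (h i : ℤ)) (t + t', (h i : ℤ) + (h j : ℤ)) (t + t' + t'', (h i : ℤ) + (h j : ℤ) + (h k : ℤ)))
    (U := (t + t' + t'', (h i : ℤ) + (h j : ℤ) + (h k : ℤ))) rfl rfl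
    (fun m hm => by
      interval_cases m
      · exact ⟨t, u0, by ext <;> simp [crsq3, crsq4]⟩
      · exact ⟨t', u1, by ext <;> simp [crsq3, crsq4]⟩
      · exact ⟨t'', u2, by ext <;> simp [crsq3, crsq4]⟩
      ) 0 2 (by norm_num) (by norm_num)
    (fun m hm hmp => by
      interval_cases m
      · exact absurd rfl hmp
      · simp only [crsq4, cr]; simp; linarith
      · simp only [crsq4, cr]; simp; linarith
      )
    (fun m hm hmq => by
      interval_cases m
      · simp only [crsq4, crsq3, cr]; simp; linarith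
      · simp only [crsq4, crsq3, cr]; simp; linarith
      · exact absurd rfl hmq
      )
    (by simp only [crsq4, crsq3, cr]; simp; linarith) a ha
  have e : crsq4 0 (t, (h i : ℤ)) (t + t', (h i : ℤ) + (h j : ℤ)) (t + t' + t'', (h i : ℤ) + (h j : ℤ) + (h k : ℤ)) 0 -
      crsq4 0 (t, (h i : ℤ)) (t + t', (h i : ℤ) + (h j : ℤ)) (t + t' + t'', (h i : ℤ) + (h j : ℤ) + (h k : ℤ)) 2 -
      ((l (crsq3 i j k 2) : ℤ), 0) = ((-(t + t') - l k, -((h i : ℤ) + (h j : ℤ))) : Z2) := by
    ext <;> simp [crsq3, crsq4]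
  rw [e] at key
  exact key

theorem cross3_10 (H : HS O x b l h) {i j k : ZMod 5} {t t' t'' : ℤ} (u0 : Up O x h i j t)
    (u1 : Up O x h j k t') (u2 : Up O x h k i t'') {S D E : ℤ} (hS : S = h i + h j + h k)
    (hD : D = t * (h j + h k) - h i * (t' + t'')) (hE : E = (t + t') * h k - (h i + h j) * t'')
    (l0 : 0 < D) (l2 : E < D) (r1 : S * l i < D + S * l j) (r2 : S * l i < E + S * l k)
    (w : D < S * l i) {a : ℕ} (ha : b i = j + a) :
    SC O (t + t' + t'', S) (t - l i, (h i : ℤ)) a := by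
  subst hS hD hE
  have h0 := H.hpos i
  have h1 := H.hpos j
  have h2 := H.hpos k
  have key := crossing' H 3 (by norm_num) (crsq3 i j k)
    (crsq4 0 (t, (h i : ℤ)) (t + t', (h i : ℤ) + (h j : ℤ)) (t + t' + t'', (h i : ℤ) + (h j : ℤ) + (h k : ℤ)))
    (U := (t + t' + t'', (h i : ℤ) + (h j : ℤ) + (h k : ℤ))) rfl rfl
    (fun m hm => by
      interval_cases m
      · exact ⟨t, u0, by ext <;> simp [crsq3, crsq4]⟩
      · exact ⟨t', u1, by ext <;> simp [crsq3, crsq4]⟩
      · exact ⟨t'', u2, by ext <;> simp [crsq3, crsq4]⟩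
      ) 1 0 (by norm_num) (by norm_num)
    (fun m hm hmp => by
      interval_cases m
      · simp only [crsq4, cr]; simp; linarith
      · exact absurd rfl hmp
      · simp only [crsq4, cr]; simp; linarith
      )
    (fun m hm hmq => by
      interval_cases m
      · exact absurd rfl hmq
      · simp only [crsq4, crsq3, cr]; simp; linarith
      · simp only [crsq4, crsq3, cr]; simp; linarith
      )
    (by simp only [crsq4, crsq3, cr]; simp; linarith) a ha
  have e : crsq4 0 (t, (h i : ℤ)) (t + t', (h i : ℤ) + (h j : ℤ)) (t + t' + t'', (h i : ℤ) + (h j : ℤ) + (h k : ℤ)) 1 -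
      crsq4 0 (t, (h i : ℤ)) (t + t', (h i : ℤ) + (h j : ℤ)) (t + t' + t'', (h i : ℤ) + (h j : ℤ) + (h k : ℤ)) 0 -
      ((l (crsq3 i j k 0) : ℤ), 0) = ((t - l i, (h i : ℤ)) : Z2) := by
    ext <;> simp [crsq3, crsq4]
  rw [e] at key
  exact key

theorem cross3_11 (H : HS O x b l h) {i j k : ZMod 5} {t t' t'' : ℤ} (u0 : Up O x h i j t)
    (u1 : Up O x h j k t') (u2 : Up O x h k i t'') {S D E : ℤ} (hS : S = h i + h j + h k)
    (hD : D = t * (h j + h k) - h i * (t' + t'')) (hE : E = (t + t') * h k - (h i + h j) * t'')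
    (l0 : 0 < D) (l2 : E < D) (r0 : D + S * l j < S * l i) (r2 : D + S * l j < E + S * l k)
    {a : ℕ} (ha : b j = j + a) :
    SC O (t + t' + t'', S) (-(l j : ℤ), 0) a := by
  subst hS hD hE
  have h0 := H.hpos i
  have h1 := H.hpos j
  have h2 := H.hpos k
  have key := crossing' H 3 (by norm_num) (crsq3 i j k)
    (crsq4 0 (t, (h i : ℤ)) (t + t', (h i : ℤ) + (h j : ℤ)) (t + t' + t'', (h i : ℤ) + (h j : ℤ) + (h k : ℤ)))
    (U := (t + t' + t'', (h i : ℤ) + (h j : ℤ) + (h k : ℤ))) rfl rfl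
    (fun m hm => by
      interval_cases m
      · exact ⟨t, u0, by ext <;> simp [crsq3, crsq4]⟩
      · exact ⟨t', u1, by ext <;> simp [crsq3, crsq4]⟩
      · exact ⟨t'', u2, by ext <;> simp [crsq3, crsq4]⟩
      ) 1 1 (by norm_num) (by norm_num)
    (fun m hm hmp => by
      interval_cases m
      · simp only [crsq4, cr]; simp; linarith
      · exact absurd rfl hmp
      · simp only [crsq4, cr]; simp; linarith
      )
    (fun m hm hmq => by
      interval_cases m
      · simp only [crsq4, crsq3, cr]; simp; linarith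
      · exact absurd rfl hmq
      · simp only [crsq4, crsq3, cr]; simp; linarith
      )
    (by
      have hl := H.lpos j
      have e2 : (0 : ℤ) < ((h i : ℤ) + (h j : ℤ) + (h k : ℤ)) * (l j : ℤ) := by positivity
      simp only [crsq4, crsq3, cr]; simp; linarith) a ha
  have e : crsq4 0 (t, (h i : ℤ)) (t + t', (h i : ℤ) + (h j : ℤ)) (t + t' + t'', (h i : ℤ) + (h j : ℤ) + (h k : ℤ)) 1 -
      crsq4 0 (t, (h i : ℤ)) (t + t', (h i : ℤ) + (h j : ℤ)) (t + t' + t'', (h i : ℤ) + (h j : ℤ) + (h k : ℤ)) 1 -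
      ((l (crsq3 i j k 1) : ℤ), 0) = ((-(l j : ℤ), 0) : Z2) := by
    ext <;> simp [crsq3, crsq4]
  rw [e] at key
  exact key

theorem cross3_12 (H : HS O x b l h) {i j k : ZMod 5} {t t' t'' : ℤ} (u0 : Up O x h i j t)
    (u1 : Up O x h j k t') (u2 : Up O x h k i t'') {S D E : ℤ} (hS : S = h i + h j + h k)
    (hD : D = t * (h j + h k) - h i * (t' + t'')) (hE : E = (t + t') * h k - (h i + h j) * t'')
    (l0 : 0 < D) (l2 : E < D) (r0 : E + S * l k < S * l i) (r1 : E + S * l k < D + S * l j)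
    (w : D < E + S * l k) {a : ℕ} (ha : b k = j + a) :
    SC O (t + t' + t'', S) (-t' - l k, -(h j : ℤ)) a := by
  subst hS hD hE
  have h0 := H.hpos i
  have h1 := H.hpos j
  have h2 := H.hpos k
  have key := crossing' H 3 (by norm_num) (crsq3 i j k)
    (crsq4 0 (t, (h i : ℤ)) (t + t', (h i : ℤ) + (h j : ℤ)) (t + t' + t'', (h i : ℤ) + (h j : ℤ) + (h k : ℤ)))
    (U := (t + t' + t'', (h i : ℤ) + (h j : ℤ) + (h k : ℤ))) rfl rfl
    (fun m hm => by
      interval_cases m
      · exact ⟨t, u0, by ext <;> simp [crsq3, crsq4]⟩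
      · exact ⟨t', u1, by ext <;> simp [crsq3, crsq4]⟩
      · exact ⟨t'', u2, by ext <;> simp [crsq3, crsq4]⟩
      ) 1 2 (by norm_num) (by norm_num)
    (fun m hm hmp => by
      interval_cases m
      · simp only [crsq4, cr]; simp; linarith
      · exact absurd rfl hmp
      · simp only [crsq4, cr]; simp; linarith
      )
    (fun m hm hmq => by
      interval_cases m
      · simp only [crsq4, crsq3, cr]; simp; linarith
      · simp only [crsq4, crsq3, cr]; simp; linarith
      · exact absurd rfl hmq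
      )
    (by simp only [crsq4, crsq3, cr]; simp; linarith) a ha
  have e : crsq4 0 (t, (h i : ℤ)) (t + t', (h i : ℤ) + (h j : ℤ)) (t + t' + t'', (h i : ℤ) + (h j : ℤ) + (h k : ℤ)) 1 -
      crsq4 0 (t, (h i : ℤ)) (t + t', (h i : ℤ) + (h j : ℤ)) (t + t' + t'', (h i : ℤ) + (h j : ℤ) + (h k : ℤ)) 2 -
      ((l (crsq3 i j k 2) : ℤ), 0) = ((-t' - l k, -(h j : ℤ)) : Z2) := by
    ext <;> simp [crsq3, crsq4]
  rw [e] at key
  exact key

theorem cross3_20 (H : HS O x b l h) {i j k : ZMod 5} {t t' t'' : ℤ} (u0 : Up O x h i j t)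
    (u1 : Up O x h j k t') (u2 : Up O x h k i t'') {S D E : ℤ} (hS : S = h i + h j + h k)
    (hD : D = t * (h j + h k) - h i * (t' + t'')) (hE : E = (t + t') * h k - (h i + h j) * t'')
    (l0 : 0 < E) (l1 : D < E) (r1 : S * l i < D + S * l j) (r2 : S * l i < E + S * l k)
    (w : E < S * l i) {a : ℕ} (ha : b i = k + a) :
    SC O (t + t' + t'', S) (t + t' - l i, (h i : ℤ) + (h j : ℤ)) a := by
  subst hS hD hE
  have h0 := H.hpos i
  have h1 := H.hpos j
  have h2 := H.hpos k
  have key := crossing' H 3 (by norm_num) (crsq3 i j k)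
    (crsq4 0 (t, (h i : ℤ)) (t + t', (h i : ℤ) + (h j : ℤ)) (t + t' + t'', (h i : ℤ) + (h j : ℤ) + (h k : ℤ)))
    (U := (t + t' + t'', (h i : ℤ) + (h j : ℤ) + (h k : ℤ))) rfl rfl
    (fun m hm => by
      interval_cases m
      · exact ⟨t, u0, by ext <;> simp [crsq3, crsq4]⟩
      · exact ⟨t', u1, by ext <;> simp [crsq3, crsq4]⟩
      · exact ⟨t'', u2, by ext <;> simp [crsq3, crsq4]⟩
      ) 2 0 (by norm_num) (by norm_num)
    (fun m hm hmp => by
      interval_cases m
      · simp only [crsq4, cr]; simp; linarith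
      · simp only [crsq4, cr]; simp; linarith
      · exact absurd rfl hmp
      )
    (fun m hm hmq => by
      interval_cases m
      · exact absurd rfl hmq
      · simp only [crsq4, crsq3, cr]; simp; linarith
      · simp only [crsq4, crsq3, cr]; simp; linarith
      )
    (by simp only [crsq4, crsq3, cr]; simp; linarith) a ha
  have e : crsq4 0 (t, (h i : ℤ)) (t + t', (h i : ℤ) + (h j : ℤ)) (t + t' + t'', (h i : ℤ) + (h j : ℤ) + (h k : ℤ)) 2 -
      crsq4 0 (t, (h i : ℤ)) (t + t', (h i : ℤ) + (h j : ℤ)) (t + t' + t'', (h i : ℤ) + (h j : ℤ) + (h k : ℤ)) 0 -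
      ((l (crsq3 i j k 0) : ℤ), 0) = ((t + t' - l i, (h i : ℤ) + (h j : ℤ)) : Z2) := by
    ext <;> simp [crsq3, crsq4]
  rw [e] at key
  exact key

theorem cross3_21 (H : HS O x b l h) {i j k : ZMod 5} {t t' t'' : ℤ} (u0 : Up O x h i j t)
    (u1 : Up O x h j k t') (u2 : Up O x h k i t'') {S D E : ℤ} (hS : S = h i + h j + h k)
    (hD : D = t * (h j + h k) - h i * (t' + t'')) (hE : E = (t + t') * h k - (h i + h j) * t'')
    (l0 : 0 < E) (l1 : D < E) (r0 : D + S * l j < S * l i) (r2 : D + S * l j < E + S * l k)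
    (w : E < D + S * l j) {a : ℕ} (ha : b j = k + a) :
    SC O (t + t' + t'', S) (t' - l j, (h j : ℤ)) a := by
  subst hS hD hE
  have h0 := H.hpos i
  have h1 := H.hpos j
  have h2 := H.hpos k
  have key := crossing' H 3 (by norm_num) (crsq3 i j k)
    (crsq4 0 (t, (h i : ℤ)) (t + t', (h i : ℤ) + (h j : ℤ)) (t + t' + t'', (h i : ℤ) + (h j : ℤ) + (h k : ℤ)))
    (U := (t + t' + t'', (h i : ℤ) + (h j : ℤ) + (h k : ℤ))) rfl rfl
    (fun m hm => by
      interval_cases m
      · exact ⟨t, u0, by ext <;> simp [crsq3, crsq4]⟩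
      · exact ⟨t', u1, by ext <;> simp [crsq3, crsq4]⟩
      · exact ⟨t'', u2, by ext <;> simp [crsq3, crsq4]⟩
      ) 2 1 (by norm_num) (by norm_num)
    (fun m hm hmp => by
      interval_cases m
      · simp only [crsq4, cr]; simp; linarith
      · simp only [crsq4, cr]; simp; linarith
      · exact absurd rfl hmp
      )
    (fun m hm hmq => by
      interval_cases m
      · simp only [crsq4, crsq3, cr]; simp; linarith
      · exact absurd rfl hmq
      · simp only [crsq4, crsq3, cr]; simp; linarith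
      )
    (by simp only [crsq4, crsq3, cr]; simp; linarith) a ha
  have e : crsq4 0 (t, (h i : ℤ)) (t + t', (h i : ℤ) + (h j : ℤ)) (t + t' + t'', (h i : ℤ) + (h j : ℤ) + (h k : ℤ)) 2 -
      crsq4 0 (t, (h i : ℤ)) (t + t', (h i : ℤ) + (h j : ℤ)) (t + t' + t'', (h i : ℤ) + (h j : ℤ) + (h k : ℤ)) 1 -
      ((l (crsq3 i j k 1) : ℤ), 0) = ((t' - l j, (h j : ℤ)) : Z2) := by
    ext <;> simp [crsq3, crsq4]
  rw [e] at key
  exact key

theorem cross3_22 (H : HS O x b l h) {i j k : ZMod 5} {t t' t'' : ℤ} (u0 : Up O x h i j t)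
    (u1 : Up O x h j k t') (u2 : Up O x h k i t'') {S D E : ℤ} (hS : S = h i + h j + h k)
    (hD : D = t * (h j + h k) - h i * (t' + t'')) (hE : E = (t + t') * h k - (h i + h j) * t'')
    (l0 : 0 < E) (l1 : D < E) (r0 : E + S * l k < S * l i) (r1 : E + S * l k < D + S * l j)
    {a : ℕ} (ha : b k = k + a) :
    SC O (t + t' + t'', S) (-(l k : ℤ), 0) a := by
  subst hS hD hE
  have h0 := H.hpos i
  have h1 := H.hpos j
  have h2 := H.hpos k
  have key := crossing' H 3 (by norm_num) (crsq3 i j k)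
    (crsq4 0 (t, (h i : ℤ)) (t + t', (h i : ℤ) + (h j : ℤ)) (t + t' + t'', (h i : ℤ) + (h j : ℤ) + (h k : ℤ)))
    (U := (t + t' + t'', (h i : ℤ) + (h j : ℤ) + (h k : ℤ))) rfl rfl
    (fun m hm => by
      interval_cases m
      · exact ⟨t, u0, by ext <;> simp [crsq3, crsq4]⟩
      · exact ⟨t', u1, by ext <;> simp [crsq3, crsq4]⟩
      · exact ⟨t'', u2, by ext <;> simp [crsq3, crsq4]⟩
      ) 2 2 (by norm_num) (by norm_num)
    (fun m hm hmp => by
      interval_cases m
      · simp only [crsq4, cr]; simp; linarith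
      · simp only [crsq4, cr]; simp; linarith
      · exact absurd rfl hmp
      )
    (fun m hm hmq => by
      interval_cases m
      · simp only [crsq4, crsq3, cr]; simp; linarith
      · simp only [crsq4, crsq3, cr]; simp; linarith
      · exact absurd rfl hmq
      )
    (by
      have hl := H.lpos k
      have e2 : (0 : ℤ) < ((h i : ℤ) + (h j : ℤ) + (h k : ℤ)) * (l k : ℤ) := by positivity
      simp only [crsq4, crsq3, cr]; simp; linarith) a ha
  have e : crsq4 0 (t, (h i : ℤ)) (t + t', (h i : ℤ) + (h j : ℤ)) (t + t' + t'', (h i : ℤ) + (h j : ℤ) + (h k : ℤ)) 2 -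
      crsq4 0 (t, (h i : ℤ)) (t + t', (h i : ℤ) + (h j : ℤ)) (t + t' + t'', (h i : ℤ) + (h j : ℤ) + (h k : ℤ)) 2 -
      ((l (crsq3 i j k 2) : ℤ), 0) = ((-(l k : ℤ), 0) : Z2) := by
    ext <;> simp [crsq3, crsq4]
  rw [e] at key
  exact key

end Pool.Agent.H4G.Six
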