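import Pool.Agent.H4G.Six.Ex.HSdg
import Pool.Agent.H4G.Six.Ex.Cross2

/-!
# (G7) the cyclic diagram has a simple crossing cylinder (helper46)

Cylinders `X` (bottom 0, top 2 4), `Y` (bottom 1 4, top 3), `Z` (bottom 2 3, top 0 1). One of the
two-letter words `(0, 2)`, `(3, 1)` gives a simple cylinder: the failure of both forces
`l 1 = l 2`, `2 (l 1)² = (l 4)²`.
-/

set_option autoImplicit false

namespace Pool.Agent.H4G.Six

open Pool.Agent.H4G
open Tab

variable {X : Type} {O : PO X} {x : ZMod 5 → X} {b : Equiv.Perm (ZMod 5)} {l h : ZMod 5 → ℕ}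

/-- a two-letter word with a unique left end and a unique right end -/
theorem two_any (H : HS O x b l h) {i j : ZMod 5} {t t' : ℤ} (u0 : Up O x h i j t)
    (u1 : Up O x h j i t') {S D : ℤ} (hS : S = h i + h j) (hD : D = t * h j - h i * t')
    (h1 : -(S * l j) < D) (h2 : D < S * l i) (h3 : D ≠ 0) (h4 : D + S * l j ≠ S * l i) :
    ∃ w a, SC O (t + t', S) w a := by
  have ha : ∀ p q : ZMod 5, b q = p + (((b q - p).val : ℕ) : ZMod 5) := by
    intro p q
    rw [ZMod.natCast_zmod_val]
    ring
  rcases lt_or_gt_of_ne h3 with c | c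
  · rcases lt_or_gt_of_ne h4 with d | d
    · exact ⟨_, _, cross2_01 H u0 u1 hS hD c d (by linarith) (ha i j)⟩
    · exact ⟨_, _, cross2_00 H u0 u1 hS hD c d (ha i i)⟩
  · rcases lt_or_gt_of_ne h4 with d | d
    · exact ⟨_, _, cross2_11 H u0 u1 hS hD c d (ha j j)⟩
    · exact ⟨_, _, cross2_10 H u0 u1 hS hD c d h2 (ha j i)⟩

/-- periods of the row give more offsets -/
theorem HS.up_per (H : HS O x b l h) {i j : ZMod 5} {t k : ℤ} (h1 : Up O x h i j t)
    (hk : (O.r ^ k) (x i) = x i) (m : ℤ) : Up O x h i j (t + m * k) := by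
  rw [H.up_iff h1]
  obtain ⟨c, hc⟩ := (H.retB.dvd i k).1 hk
  exact ⟨m * c, by rw [hc]; ring⟩

theorem HS.per_one (H : HS O x b l h) {i : ZMod 5} (hi : b i = i) :
    (O.r ^ (l i : ℤ)) (x i) = x i := by
  rw [zpow_natCast, H.next, hi]

theorem HS.per_two (H : HS O x b l h) {i j : ZMod 5} (hi : b i = j) (hj : b j = i) :
    (O.r ^ ((l i : ℤ) + l j)) (x i) = x i := by
  rw [add_comm, zr_add, zpow_natCast, zpow_natCast, H.next, hi, H.next, hj]

/-- the window: `s` short, `s + d` long, heights `p`, `q` -/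
theorem win {p q s d W D0 : ℤ} (hp : 0 < p) (hq : 0 < q) (hs : 0 < s) (hd : 0 < d) (hW : 0 < W)
    (hno : ∀ m n : ℤ, -((p + q) * s) < D0 + m * ((s + d) * q) + n * (W * p) →
      D0 + m * ((s + d) * q) + n * (W * p) < (p + q) * (s + d) →
      D0 + m * ((s + d) * q) + n * (W * p) = 0 ∨
        D0 + m * ((s + d) * q) + n * (W * p) = (p + q) * d) :
    s ≤ d ∧ ∃ k, 0 < k ∧ W * s = k * ((s + d) * d) := by
  set a := (s + d) * q with hadef
  have ha : 0 < a := by positivity
  have haS : a < (p + q) * (s + d) := by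
    have : 0 < p * (s + d) := by positivity
    nlinarith
  have hps : 0 < (p + q) * s := by positivity
  have hpd : 0 < (p + q) * d := by positivity
  have e0 := Int.mul_ediv_add_emod D0 a
  have r0 := Int.emod_nonneg D0 (ne_of_gt ha)
  have r1 := Int.emod_lt_of_pos D0 ha
  set D1 := D0 % a
  have hD1 : ∀ m n : ℤ, D0 + (m - D0 / a) * a + n * (W * p) = D1 + m * a + n * (W * p) := by
    intro m n
    linear_combination e0.symm
  have g : ∀ m n : ℤ, -((p + q) * s) < D1 + m * a + n * (W * p) →
      D1 + m * a + n * (W * p) < (p + q) * (s + d) → D1 + m * a + n * (W * p) = 0 ∨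
        D1 + m * a + n * (W * p) = (p + q) * d := by
    intro m n h1 h2
    rw [← hD1] at h1 h2 ⊢
    exact hno _ _ h1 h2
  have hz : D1 = 0 := by
    rcases g 0 0 (by linarith) (by linarith) with h1 | h1
    · linarith
    · exfalso
      have h2 : D1 = (p + q) * d := by linarith
      by_cases h3 : -((p + q) * s) < D1 + (-1) * a + 0 * (W * p)
      · rcases g (-1) 0 h3 (by linarith) with h4 | h4
        · linarith
        · linarith
      · have : (p + q) * (s + d) ≤ a := by nlinarith
        linarith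
  rw [hz] at g
  have hS : a = (p + q) * d := by
    rcases g 1 0 (by linarith) (by linarith) with h1 | h1
    · linarith
    · linarith
  have hsd : s ≤ d := by
    by_contra h1
    have h2 : (p + q) * d < (p + q) * s := by
      have : 0 < (p + q) * (s - d) := mul_pos (by linarith) (by linarith)
      nlinarith
    rcases g (-1) 0 (by linarith) (by linarith) with h4 | h4
    · linarith
    · linarith
  refine ⟨hsd, ?_⟩
  have hsq : p * d = s * q := by
    have : (s + d) * q = (p + q) * d := by rw [← hadef]; exact hS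
    linarith
  have e1 := Int.mul_ediv_add_emod (W * p) a
  have r2 := Int.emod_nonneg (W * p) (ne_of_gt ha)
  have r3 := Int.emod_lt_of_pos (W * p) ha
  have hm : W * p % a = 0 := by
    have h5 : 0 + (-(W * p / a)) * a + 1 * (W * p) = W * p % a := by linear_combination e1.symm
    rcases g (-(W * p / a)) 1 (by rw [h5]; linarith) (by rw [h5]; linarith) with h4 | h4
    · rw [h5] at h4; exact h4
    · rw [h5] at h4; linarith
  have hWp : W * p = a * (W * p / a) := by linarith
  set k := W * p / a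
  have hWpp : 0 < W * p := by positivity
  refine ⟨k, ?_, ?_⟩
  · by_contra h1
    have : a * k ≤ 0 := mul_nonpos_of_nonneg_of_nonpos ha.le (not_lt.1 h1)
    linarith
  · have h6 : q * (W * s) = q * (k * ((s + d) * d)) := by
      calc q * (W * s) = W * (s * q) := by ring
        _ = W * (p * d) := by rw [hsq]
        _ = (W * p) * d := by ring
        _ = (a * k) * d := by rw [← hWp]
        _ = q * (k * ((s + d) * d)) := by rw [hadef]; ring
    exact mul_left_cancel₀ (ne_of_gt hq) h6

theorem no_sqrt {a c : ℤ} (ha : 0 < a) (h : c ^ 2 = 2 * a ^ 2) : False := by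
  have h1 : Irrational (Real.sqrt 2) := irrational_sqrt_two
  apply h1
  refine ⟨(|c| : ℚ) / a, ?_⟩
  have ha' : (0 : ℝ) < a := by exact_mod_cast ha
  have h2 : ((c : ℝ)) ^ 2 = 2 * (a : ℝ) ^ 2 := by exact_mod_cast h
  push_cast
  rw [eq_comm, Real.sqrt_eq_iff_mul_self_eq (by norm_num) (by positivity), div_mul_div_comm,
    abs_mul_abs_self, eq_div_iff (by positivity)]
  nlinarith

/-- both windows cannot fail -/
theorem cyc_arith {s s' d k k' : ℤ} (hs : 0 < s) (hs' : 0 < s') (hd : 0 < d) (h1 : s ≤ d)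
    (h1' : s' ≤ d) (hk : 0 < k) (hk' : 0 < k') (h2 : (s' + s + d) * s = k * ((s + d) * d))
    (h2' : (s' + s + d) * s' = k' * ((s' + d) * d)) : False := by
  have hkk : k = 1 := by
    by_contra h3
    have h4 : 2 ≤ k := by omega
    have h5 : 2 * ((s + d) * d) ≤ k * ((s + d) * d) :=
      mul_le_mul_of_nonneg_right h4 (by positivity)
    nlinarith [mul_le_mul h1 h1 hs.le hd.le, mul_le_mul h1' h1 hs.le hd.le]
  have hkk' : k' = 1 := by
    by_contra h3
    have h4 : 2 ≤ k' := by omega
    have h5 : 2 * ((s' + d) * d) ≤ k' * ((s' + d) * d) :=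
      mul_le_mul_of_nonneg_right h4 (by positivity)
    nlinarith [mul_le_mul h1' h1' hs'.le hd.le, mul_le_mul h1 h1' hs'.le hd.le]
  subst hkk hkk'
  have h3 : s = s' := by
    have h4 : (s - s') * (s + s') = 0 := by nlinarith
    rcases mul_eq_zero.1 h4 with h5 | h5
    · linarith
    · linarith
  subst h3
  exact no_sqrt hs (by nlinarith : d ^ 2 = 2 * s ^ 2)

/-- The cyclic diagram has a simple crossing cylinder. -/
theorem HS.cyclic [Finite X] (H : HS O x b l h) {n : ZMod 5}
    (hr : Rot n b (fun i j => ∃ t, Up O x h i j t) bCyc cCyc) : ∃ U w a, SC O U w a ∧ 0 < U.2 := by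
  obtain ⟨b0, b1, b2, b3, b4, ⟨t02, u02⟩, -, ⟨t13, u13⟩, ⟨t20, u20⟩, ⟨t21, u21⟩, e0, e3, e23⟩ :=
    Rot.cyc H.dg hr
  obtain ⟨t31, u31⟩ : ∃ t, Up O x h (n + 3) (n + 1) t :=
    H.up_b u21 ⟨1, by rw [zpow_one]; exact b2⟩
  have hpos := H.hpos
  have lpos := H.lpos
  have p0 := H.per_one b0
  have p2 := H.per_two b2 b3
  have p3 := H.per_two b3 b2
  have p1 := H.per_two b1 b4
  have h32 : h (n + 3) = h (n + 2) := by rw [← b2, H.hb]
  by_contra hno
  push Not at hno
  have A := win (p := h n) (q := h (n + 2)) (s := l (n + 2)) (d := l (n + 4))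
    (W := l (n + 2) + l (n + 3)) (D0 := t02 * h (n + 2) - h n * t20)
    (by exact_mod_cast hpos n) (by exact_mod_cast hpos _) (by exact_mod_cast lpos _)
    (by exact_mod_cast lpos _) (by have := lpos (n + 2); have := lpos (n + 3); positivity)
    (by
      intro m k w1 w2
      have v0 := H.up_per u02 p0 m
      have v1 := H.up_per u20 p2 (-k)
      by_contra hc
      push Not at hc
      have e0' : (l n : ℤ) = l (n + 2) + l (n + 4) := by exact_mod_cast e0
      obtain ⟨w, a, hsc⟩ := two_any H v0 v1 (S := h n + h (n + 2)) rfl rfl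
        (by rw [e0']; nlinarith) (by rw [e0']; nlinarith)
        (fun h5 => hc.1 (by rw [← h5, e0']; ring))
        (fun h5 => hc.2 (by rw [e0'] at h5; linarith))
      have h8 : (h n : ℤ) + h (n + 2) ≤ 0 := hno _ _ _ hsc
      have h9 := hpos n
      omega)
  have B := win (p := h (n + 1)) (q := h (n + 3)) (s := l (n + 1)) (d := l (n + 4))
    (W := l (n + 2) + l (n + 3)) (D0 := t31 * h (n + 1) - h (n + 3) * t13)
    (by exact_mod_cast hpos _) (by exact_mod_cast hpos _) (by exact_mod_cast lpos _)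
    (by exact_mod_cast lpos _) (by have := lpos (n + 2); have := lpos (n + 3); positivity)
    (by
      intro m k w1 w2
      have v0 := H.up_per u31 p3 k
      have v1 := H.up_per u13 p1 (-m)
      by_contra hc
      push Not at hc
      have e3' : (l (n + 3) : ℤ) = l (n + 1) + l (n + 4) := by exact_mod_cast e3.symm
      obtain ⟨w, a, hsc⟩ := two_any H v0 v1 (S := h (n + 3) + h (n + 1)) rfl rfl
        (by rw [e3']; rw [e3'] at w1 w2; nlinarith) (by rw [e3']; rw [e3'] at w1 w2; nlinarith)
        (fun h5 => hc.1 (by rw [← h5]; ring))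
        (fun h5 => hc.2 (by
          have h6 : ((l (n + 3) : ℤ)) = l (n + 1) + l (n + 4) := e3'
          linear_combination h5 + ((h (n + 3) : ℤ) + h (n + 1)) * h6))
      have h8 : (h (n + 3) : ℤ) + h (n + 1) ≤ 0 := hno _ _ _ hsc
      have h9 := hpos (n + 1)
      omega)
  obtain ⟨A1, k, hk, A2⟩ := A
  obtain ⟨B1, k', hk', B2⟩ := B
  have e3' : (l (n + 3) : ℤ) = l (n + 1) + l (n + 4) := by exact_mod_cast e3.symm
  refine cyc_arith (s := l (n + 2)) (s' := l (n + 1)) (d := l (n + 4))
    (by exact_mod_cast lpos _) (by exact_mod_cast lpos _) (by exact_mod_cast lpos _) A1 B1 hk hk'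
    ?_ ?_
  · rw [← A2, e3']; ring
  · rw [← B2, e3']; ring

end Pool.Agent.H4G.Six
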