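import Pool.Agent.H4G.Six.Ex.YoungSC
import Pool.Agent.H4G.Six.Mirror
import Pool.Agent.H4G.Six.SL6

/-!
# (G7) transport of simple cylinders: half turn, mirror, shears, transposition (helper2)

`SCm O R g`: every simple cylinder of `O` with core `V` gives one of `R` with core `g V` and the
same angle; `g` keeps the absolute values of the products. `Carry O R`: some such `g` keeps also
the absolute values of the second coordinates.
-/

set_option autoImplicit false

namespace Pool.Agent.H4G.Six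

open Pool.Agent.H4G

variable {X : Type}

/-- simple cylinders are carried from `O` to `R` by the map `g` of their cores -/
def SCm (O R : PO X) (g : Z2 → Z2) : Prop :=
  (∀ A B, |cr (g A) (g B)| = |cr A B|) ∧ ∀ V w d, SC O V w d → ∃ w', SC R (g V) w' d

theorem SCm.refl (O : PO X) : SCm O O id := ⟨fun _ _ => rfl, fun _ w _ h => ⟨w, h⟩⟩

theorem SCm.trans {O R S : PO X} {g k : Z2 → Z2} (h : SCm O R g) (h' : SCm R S k) :
    SCm O S (fun A => k (g A)) := by
  refine ⟨fun A B => ?_, fun V w d hs => ?_⟩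
  · rw [h'.1, h.1]
  · obtain ⟨w', h1⟩ := h.2 V w d hs
    exact h'.2 _ _ _ h1

theorem SCm.congr {O R : PO X} {g k : Z2 → Z2} (h : SCm O R g) (hk : ∀ A, k A = g A) :
    SCm O R k := by
  rw [show k = g from funext hk]
  exact h

theorem SCm.M (O : PO X) : SCm O O.M bar := by
  refine ⟨fun A B => ?_, fun V w d hs => ⟨_, hs.M⟩⟩
  rw [cr_bar, abs_neg]

theorem SCm.M' (O : PO X) : SCm O.M O bar := by
  have h := SCm.M O.M
  rwa [PO.M_M] at h

/-- `SC.J` -/
def SCJ (X : Type) : Prop :=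
  ∀ (O : PO X) (V w : Z2) (a : ℕ), SC O V w a → SC O.J (shJ V) (shJ w) a

/-- `SC.T` -/
def SCT (X : Type) : Prop :=
  ∀ (O : PO X) (V w : Z2) (a : ℕ), SC O V w a → SC O.T (shT V) (shT w) a

theorem SCm.J (hJ : SCJ X) (O : PO X) : SCm O O.J shJ :=
  ⟨fun A B => by rw [cr_J], fun V w d hs => ⟨_, hJ O V w d hs⟩⟩

theorem SCm.N (hJ : SCJ X) (O : PO X) : SCm O O.J.J (fun A => -A) :=
  ((SCm.J hJ O).trans (SCm.J hJ O.J)).congr (fun A => by
    ext <;> simp [shJ])

theorem SCm.J' (hJ : SCJ X) (O : PO X) : SCm O.J O (fun A => (A.2, -A.1)) := by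
  have h := ((SCm.N hJ O.J).trans (SCm.J hJ O.J.J.J))
  rw [PO.J4] at h
  exact h.congr (fun A => by ext <;> simp [shJ])

theorem SCm.N' (hJ : SCJ X) (O : PO X) : SCm O.J.J O (fun A => -A) := by
  have h := SCm.N hJ O.J.J
  rwa [PO.J4] at h

theorem SCm.T (hT : SCT X) (O : PO X) : SCm O O.T shT :=
  ⟨fun A B => by rw [cr_T], fun V w d hs => ⟨_, hT O V w d hs⟩⟩

theorem PO.TMTM (O : PO X) : O.T.M.T.M = O := by
  cases O
  simp [PO.M, PO.T]

theorem SCm.T' (hT : SCT X) (O : PO X) : SCm O.T O (fun A => (A.1 - A.2, A.2)) := by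
  have h := ((SCm.M O.T).trans (SCm.T hT O.T.M)).trans (SCm.M O.T.M.T)
  rw [PO.TMTM] at h
  exact h.congr (fun A => by
    ext
    · simp [shT, bar]
      ring
    · simp [shT, bar])

theorem SCm.tp (hJ : SCJ X) (O : PO X) : SCm O O.tp Prod.swap := by
  have h := (SCm.J hJ O).trans (SCm.M O.J)
  have e : O.J.M = O.tp := by
    cases O
    simp [PO.M, PO.J, PO.tp]
  rw [e] at h
  exact h.congr (fun A => by ext <;> simp [shJ, bar])

theorem SCm.tp' (hJ : SCJ X) (O : PO X) : SCm O.tp O Prod.swap := SCm.tp hJ O.tp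

/-! ## Keeping the second coordinate -/

/-- simple cylinders are carried, and the second coordinates of the cores are kept up to sign -/
def Carry (O R : PO X) : Prop :=
  ∃ g : Z2 → Z2, (∀ A B, |cr (g A) (g B)| = |cr A B|) ∧ (∀ A, |(g A).2| = |A.2|) ∧
    ∀ V w d, SC O V w d → ∃ w', SC R (g V) w' d

theorem SCm.carry {O R : PO X} {g : Z2 → Z2} (h : SCm O R g) (h2 : ∀ A, |(g A).2| = |A.2|) :
    Carry O R := ⟨g, h.1, h2, h.2⟩

theorem Carry.refl (O : PO X) : Carry O O := (SCm.refl O).carry (fun _ => rfl)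

theorem Carry.trans {O R S : PO X} (h : Carry O R) (h' : Carry R S) : Carry O S := by
  obtain ⟨g, h1, h2, h3⟩ := h
  obtain ⟨k, h4, h5, h6⟩ := h'
  refine ⟨fun A => k (g A), fun A B => by rw [h4, h1], fun A => by rw [h5, h2],
    fun V w d hs => ?_⟩
  obtain ⟨w', h7⟩ := h3 V w d hs
  exact h6 _ _ _ h7

theorem Carry.M (O : PO X) : Carry O O.M := (SCm.M O).carry (fun _ => rfl)

theorem Carry.M' (O : PO X) : Carry O.M O := (SCm.M' O).carry (fun _ => rfl)

theorem Carry.N (hJ : SCJ X) (O : PO X) : Carry O O.J.J :=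
  (SCm.N hJ O).carry (fun A => by simp)

theorem Carry.N' (hJ : SCJ X) (O : PO X) : Carry O.J.J O :=
  (SCm.N' hJ O).carry (fun A => by simp)

theorem Carry.T (hT : SCT X) (O : PO X) : Carry O O.T := (SCm.T hT O).carry (fun _ => rfl)

theorem Carry.T' (hT : SCT X) (O : PO X) : Carry O.T O := (SCm.T' hT O).carry (fun _ => rfl)

/-- the four forms of an origami carry simple cylinders to each other -/
theorem carry_four' (hJ : SCJ X) {O R : PO X}
    (h : R = O ∨ R = O.J.J ∨ R = O.M ∨ R = O.M.J.J) : Carry O R ∧ Carry R O := by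
  rcases h with rfl | rfl | rfl | rfl
  · exact ⟨Carry.refl _, Carry.refl _⟩
  · exact ⟨Carry.N hJ _, Carry.N' hJ _⟩
  · exact ⟨Carry.M _, Carry.M' _⟩
  · exact ⟨(Carry.M _).trans (Carry.N hJ _), (Carry.N' hJ _).trans (Carry.M' _)⟩

/-- a family of shears: `s (k + 1)` is the shear of `s k` -/
theorem carry_pow (hT : SCT X) {s : ℤ → PO X} (hs : ∀ k, s (k + 1) = (s k).T) (k : ℤ) :
    Carry (s 0) (s k) ∧ Carry (s k) (s 0) := by
  induction k using Int.induction_on with
  | zero => exact ⟨Carry.refl _, Carry.refl _⟩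
  | succ n ih =>
    rw [hs]
    exact ⟨ih.1.trans (Carry.T hT _), (Carry.T' hT _).trans ih.2⟩
  | pred n ih =>
    have e := hs (-(n : ℤ) - 1)
    rw [show (-(n : ℤ) - 1) + 1 = -(n : ℤ) by ring] at e
    rw [e] at ih
    exact ⟨ih.1.trans (Carry.T' hT _), (Carry.T hT _).trans ih.2⟩

end Pool.Agent.H4G.Six
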