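import Pool.Agent.H4G.Six.Ex.Mir
import Pool.Agent.H4G.Six.Fin6

/-!
# (G7) a simple cylinder can be turned horizontal (helper38)

`horiz_all`: some element of `SL₂(ℤ)` maps a given non zero vector to a positive multiple of
`(1, 0)`; all the simple cylinders are carried along.
-/

set_option autoImplicit false

namespace Pool.Agent.H4G.Six

open Pool.Agent.H4G

variable {X : Type}

/-- an element `g` of `SL₂(ℤ)` which carries the simple cylinders of `O` to those of `O'` -/
structure SCar (O O' : PO X) (g : Z2 → Z2) : Prop where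
  orb : SLE6 O O'
  cr : ∀ A B, cr (g A) (g B) = cr A B
  zero : g 0 = 0
  sc : ∀ V w a, SC O V w a → SC O' (g V) (g w) a

theorem SCar.refl (O : PO X) : SCar O O id := ⟨SLE6.refl O, fun _ _ => rfl, rfl, fun _ _ _ h => h⟩

theorem SCar.comp {O O' O'' : PO X} {g g' : Z2 → Z2} (h : SCar O O' g) (h' : SCar O' O'' g') :
    SCar O O'' (g' ∘ g) :=
  ⟨h.orb.trans h'.orb, fun A B => by simp only [Function.comp]; rw [h'.cr, h.cr],
    by simp only [Function.comp]; rw [h.zero, h'.zero], fun _ _ _ hs => h'.sc _ _ _ (h.sc _ _ _ hs)⟩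

/-- the inverse of the shear -/
def PO.Ti (O : PO X) : PO X := ⟨O.r, O.u * O.r⟩

theorem PO.Ti_T (O : PO X) : O.Ti.T = O := by
  show (⟨O.r, O.u * O.r * O.r⁻¹⟩ : PO X) = O
  rw [mul_inv_cancel_right]

theorem PO.MTM (O : PO X) : O.M.T.M = O.Ti := by
  show (⟨O.r⁻¹⁻¹, O.u * O.r⁻¹⁻¹⟩ : PO X) = ⟨O.r, O.u * O.r⟩
  rw [inv_inv]

theorem sle_Ti (O : PO X) : SLE6 O O.Ti := by
  have h := sle_T O.Ti
  rw [O.Ti_T] at h
  exact h.symm

section

variable (hJ : ∀ (O : PO X) (V w : Z2) (a : ℕ), SC O V w a → SC O.J (shJ V) (shJ w) a)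
  (hT : ∀ (O : PO X) (V w : Z2) (a : ℕ), SC O V w a → SC O.T (shT V) (shT w) a)

include hJ in
theorem scarJ (O : PO X) : SCar O O.J shJ :=
  ⟨sle_J O, cr_J, shJ_zero, hJ O⟩

include hT in
theorem scarT (O : PO X) : SCar O O.T shT :=
  ⟨sle_T O, cr_T, shT_zero, hT O⟩

include hT in
theorem scarTi (O : PO X) : SCar O O.Ti (fun A => (A.1 - A.2, A.2)) := by
  refine ⟨sle_Ti O, ?_, rfl, ?_⟩
  · intro A B
    simp only [cr]
    ring
  · intro V w a hs
    have h := (hT _ _ _ _ hs.M).M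
    rw [O.MTM] at h
    have e1 : ((-(shT (-V.1, V.2)).1, (shT (-V.1, V.2)).2) : Z2) = (V.1 - V.2, V.2) := by
      ext
      · simp only [shT]; ring
      · rfl
    have e2 : (((shT (w.1, -w.2)).1, -(shT (w.1, -w.2)).2) : Z2) = (w.1 - w.2, w.2) := by
      ext
      · simp only [shT]; ring
      · simp only [shT]; ring
    rw [e1, e2] at h
    exact h

include hT in
theorem scarTn (n : ℤ) : ∀ O : PO X, ∃ O', SCar O O' (fun A => (A.1 + n * A.2, A.2)) := by
  induction n using Int.induction_on with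
  | zero =>
    intro O
    refine ⟨O, ?_⟩
    have : (fun A : Z2 => ((A.1 + 0 * A.2, A.2) : Z2)) = id := by
      funext A
      ext <;> simp
    rw [this]
    exact SCar.refl O
  | succ n ih =>
    intro O
    obtain ⟨O', h⟩ := ih O
    refine ⟨O'.T, ?_⟩
    have h2 := h.comp (scarT hT O')
    have : (fun A : Z2 => ((A.1 + ((n : ℤ) + 1) * A.2, A.2) : Z2)) =
        shT ∘ fun A => (A.1 + (n : ℤ) * A.2, A.2) := by
      funext A
      ext
      · simp only [Function.comp, shT]; ring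
      · rfl
    rw [this]
    exact h2
  | pred n ih =>
    intro O
    obtain ⟨O', h⟩ := ih O
    refine ⟨O'.Ti, ?_⟩
    have h2 := h.comp (scarTi hT O')
    have : (fun A : Z2 => ((A.1 + (-(n : ℤ) - 1) * A.2, A.2) : Z2)) =
        (fun A => (A.1 - A.2, A.2)) ∘ fun A => (A.1 + (-(n : ℤ)) * A.2, A.2) := by
      funext A
      ext
      · simp only [Function.comp]; ring
      · rfl
    rw [this]
    exact h2

include hJ hT in
theorem horiz_aux (n : ℕ) : ∀ (O : PO X) (V : Z2), V.2.natAbs ≤ n → V ≠ 0 →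
    ∃ (O' : PO X) (g : Z2 → Z2) (k : ℕ), SCar O O' g ∧ 0 < k ∧ g V = ((k : ℤ), 0) := by
  induction n with
  | zero =>
    intro O V hV hne
    have h2 : V.2 = 0 := by omega
    have h1 : V.1 ≠ 0 := fun h1 => hne (by ext <;> simp [h1, h2])
    rcases lt_or_gt_of_ne h1 with h3 | h3
    · refine ⟨O.J.J, shJ ∘ shJ, V.1.natAbs, (scarJ hJ O).comp (scarJ hJ O.J), by omega, ?_⟩
      ext
      · simp only [Function.comp, shJ]
        omega
      · simp only [Function.comp, shJ]
        omega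
    · refine ⟨O, id, V.1.natAbs, SCar.refl O, by omega, ?_⟩
      ext
      · simp only [id]
        omega
      · exact h2
  | succ n ih =>
    intro O V hV hne
    by_cases h2 : V.2 = 0
    · exact ih O V (by omega) hne
    obtain ⟨O1, h1⟩ := scarTn hT (-(V.1 / V.2)) O
    have e1 : V.1 + -(V.1 / V.2) * V.2 = V.1 % V.2 := by
      have := Int.emod_add_mul_ediv V.1 V.2
      linarith
    have e2 := Int.emod_nonneg V.1 h2
    have e3 := Int.emod_lt_abs V.1 h2
    obtain ⟨O', g, k, g1, g2, g3⟩ := ih O1.J (-V.2, V.1 % V.2) (by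
      rw [Int.abs_eq_natAbs] at e3
      show (V.1 % V.2).natAbs ≤ n
      omega) (by
      intro h
      apply h2
      have := congrArg Prod.fst h
      simpa using this)
    refine ⟨O', _, k, (h1.comp (scarJ hJ O1)).comp g1, g2, ?_⟩
    rw [← g3]
    show g (shJ (V.1 + -(V.1 / V.2) * V.2, V.2)) = _
    rw [e1]
    rfl

include hJ hT in
/-- **The core of a simple cylinder turned horizontal**, all the simple cylinders are carried. -/
theorem horiz_all {O : PO X} {V w : Z2} {a : ℕ} (hs : SC O V w a) :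
    ∃ (O' : PO X) (g : Z2 → Z2) (k : ℕ), SLE6 O O' ∧ 0 < k ∧ g V = ((k : ℤ), 0) ∧
      (∀ A B, cr (g A) (g B) = cr A B) ∧
      ∀ V2 w2 a2, SC O V2 w2 a2 → SC O' (g V2) (g w2) a2 := by
  have hV : V ≠ 0 := by
    rintro rfl
    have := hs.1
    simp [cr] at this
  obtain ⟨O', g, k, h1, h2, h3⟩ := horiz_aux hJ hT V.2.natAbs O V le_rfl hV
  exact ⟨O', g, k, h1.orb, h2, h3, h1.cr, h1.sc⟩

end

end Pool.Agent.H4G.Six
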