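import Pool.Agent.H4G.Six.Ex.Low
import Pool.Agent.H4G.Six.SL6
import Pool.Agent.H4G.Six.Column

/-!
# (G7, L1) reading off a horizontal simple cylinder (helper46)

`SC.read_all`: if `SC O (k, 0) w a` then the cylinder is one of the cylinders of the horizontal
decomposition: its lower side is one saddle `i` (`b i = i`), its upper side is one saddle `j`
(`b j + 1 = j`), `i = j + a`, both have length `k`, the height is `w.2`.
-/

set_option autoImplicit false

namespace Pool.Agent.H4G.Six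

open Pool.Agent.H4G

variable {X : Type} {O : PO X}

theorem Cvx.convex {K : Set V} (h : Cvx K) : Convex ℝ K := by
  intro y hy y' hy' α β hα hβ hαβ
  have h1 := h y hy y' hy' β hβ (by linarith)
  have e : α • y + β • y' = (((1 - β) * y.1 + β * y'.1, (1 - β) * y.2 + β * y'.2) : V) := by
    have : α = 1 - β := by linarith
    subst this
    rfl
  rw [e]
  exact h1

/-- squares of a row, exact form -/
theorem dev_rowz {K : Set V} (hK : Convex ℝ K) {f : Z2 → X} (hf : Dev O K f) {z z' : Z2}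
    {y y' : V} (hy : y ∈ K) (hy' : y' ∈ K) (h1 : Nr y z) (h2 : Nr y' z') (he : z'.2 = z.2) :
    f z' = (O.r ^ (z'.1 - z.1)) (f z) := by
  rcases le_total z.1 z'.1 with h3 | h3
  · obtain ⟨n, hn⟩ := Int.eq_ofNat_of_zero_le (sub_nonneg.2 h3)
    have e : z' = z + ((n : ℤ), 0) := by
      ext
      · simp only [Prod.fst_add]; linarith
      · simp only [Prod.snd_add]; linarith
    rw [hn]
    rw [e] at h2 ⊢
    exact dev_row hK hf n z y y' hy hy' h1 h2
  · obtain ⟨n, hn⟩ := Int.eq_ofNat_of_zero_le (sub_nonneg.2 h3)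
    have e : z = z' + ((n : ℤ), 0) := by
      ext
      · simp only [Prod.fst_add]; linarith
      · simp only [Prod.snd_add]; linarith
    rw [e] at h1
    have h4 := dev_row hK hf n z' y' y hy' hy h2 h1
    rw [← e] at h4
    have e2 : z'.1 - z.1 = -(n : ℤ) := by linarith
    rw [e2, h4, ← zr_add]
    simp

/-- four squares around a lattice point -/
theorem dev_four {f : Z2 → X} {c m : ℤ} (hq : DevAt O (em (c, m)) f) :
    O.rho (f (c, m)) = f (c, m) ∧ f (c, m) = O.u (f (c, m - 1)) := by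
  have n1 : ∀ c' m' : ℤ, c - 1 ≤ c' → c' ≤ c → m - 1 ≤ m' → m' ≤ m → Nr (em (c, m)) (c', m') := by
    intro c' m' a1 a2 a3 a4
    have b1 : ((c - 1 : ℤ) : ℝ) ≤ c' := by exact_mod_cast a1
    have b2 : (c' : ℝ) ≤ c := by exact_mod_cast a2
    have b3 : ((m - 1 : ℤ) : ℝ) ≤ m' := by exact_mod_cast a3
    have b4 : (m' : ℝ) ≤ m := by exact_mod_cast a4
    push_cast at b1 b3
    refine ⟨?_, ?_, ?_, ?_⟩ <;> simp only [em] <;> linarith
  have e1 : f (c, m - 1) = O.r (f (c - 1, m - 1)) := by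
    have := hq.1 (c - 1, m - 1) (n1 _ _ (by omega) (by omega) (by omega) (by omega))
      (by simpa using n1 c (m - 1) (by omega) (by omega) (by omega) (by omega))
    simpa using this
  have e2 : f (c, m) = O.r (f (c - 1, m)) := by
    have := hq.1 (c - 1, m) (n1 _ _ (by omega) (by omega) (by omega) (by omega))
      (by simpa using n1 c m (by omega) (by omega) (by omega) (by omega))
    simpa using this
  have e3 : f (c - 1, m) = O.u (f (c - 1, m - 1)) := by
    have := hq.2 (c - 1, m - 1) (n1 _ _ (by omega) (by omega) (by omega) (by omega))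
      (by simpa using n1 (c - 1) m (by omega) (by omega) (by omega) (by omega))
    simpa using this
  have e4 : f (c, m) = O.u (f (c, m - 1)) := by
    have := hq.2 (c, m - 1) (n1 _ _ (by omega) (by omega) (by omega) (by omega))
      (by simpa using n1 c m (by omega) (by omega) (by omega) (by omega))
    simpa using this
  refine ⟨?_, e4⟩
  show O.u (O.r (O.u.symm (O.r.symm (f (c, m))))) = f (c, m)
  have s1 : O.r.symm (f (c, m)) = f (c - 1, m) := by rw [e2, O.r.symm_apply_apply]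
  rw [s1, e3, O.u.symm_apply_apply, ← e1, ← e4]

theorem per_mul {y : X} {k : ℤ} (h : (O.r ^ k) y = y) (j : ℤ) : (O.r ^ (k * j)) y = y := by
  induction j using Int.induction_on with
  | zero => simp
  | succ n ih =>
    have e : k * ((n : ℤ) + 1) = k * n + k := by ring
    rw [e, zr_add, h, ih]
  | pred n ih =>
    have e : k * (-(n : ℤ)) = k * (-(n : ℤ) - 1) + k := by ring
    rw [e, zr_add, h] at ih
    exact ih

/-- `R` is the value of the row `m` -/
def RowV (O : PO X) (K : Set V) (f : Z2 → X) (k m : ℤ) (R : X) : Prop :=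
  (∀ (z : Z2) (y : V), y ∈ K → Nr y z → z.2 = m → f z = (O.r ^ z.1) R) ∧ (O.r ^ k) R = R

section

variable {k : ℤ} {w : Z2} {f : Z2 → X}

theorem row_ex (hk : 0 < k) (hn : 0 < w.2) (hf : Dev O (Pgm (k, 0) w) f)
    (hag : Agree (Seg 0 w) f (fun z => f (z + (k, 0)))) {m : ℤ} (m0 : 0 ≤ m) (m1 : m < w.2) :
    ∃ R, RowV O (Pgm (k, 0) w) f k m R := by
  have hcr : 0 < cr (k, 0) w := by simp only [cr]; nlinarith
  have hK := (cvx_pgm hcr).convex
  have hk' : (0 : ℝ) < k := by exact_mod_cast hk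
  have hn' : (0 : ℝ) < w.2 := by exact_mod_cast hn
  have m0' : (0 : ℝ) ≤ m := by exact_mod_cast m0
  have m1' : (m : ℝ) + 1 ≤ w.2 := by exact_mod_cast m1
  set t : ℝ := ((m : ℝ) + 1 / 2) / w.2 with ht
  have ht2 : t * w.2 = m + 1 / 2 := by rw [ht]; field_simp
  have t0 : 0 < t := by rw [ht]; positivity
  have t1 : t < 1 := by rw [ht, div_lt_one hn']; linarith
  set y : V := (t * w.1, t * w.2) with hy
  set z : Z2 := (⌊t * w.1⌋, m) with hz
  have yK : y ∈ Pgm (k, 0) w := mem_pgm hcr (s := 0) (t := t) (by ext <;> simp [hy]) le_rfl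
    zero_le_one t0.le t1.le (Or.inr ⟨t0, t1⟩)
  have yK' : ((t * w.1 + k, t * w.2) : V) ∈ Pgm (k, 0) w :=
    mem_pgm hcr (s := 1) (t := t) (by ext <;> simp [add_comm]) zero_le_one le_rfl t0.le t1.le
      (Or.inr ⟨t0, t1⟩)
  have ny : Nr y z := by
    refine ⟨Int.floor_le _, (Int.lt_floor_add_one _).le, ?_, ?_⟩
    · show (m : ℝ) ≤ t * w.2
      rw [ht2]; linarith
    · show t * w.2 ≤ (m : ℝ) + 1
      rw [ht2]; linarith
  have ny' : Nr ((t * w.1 + k, t * w.2) : V) (z + (k, 0)) := by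
    obtain ⟨a1, a2, a3, a4⟩ := ny
    simp only [hy, hz] at a1 a2 a3 a4
    refine ⟨?_, ?_, ?_, ?_⟩ <;>
      simp only [hz, Prod.mk_add_mk, add_zero] <;> push_cast <;> linarith
  have key : ∀ (z' : Z2) (y' : V), y' ∈ Pgm (k, 0) w → Nr y' z' → z'.2 = m →
      f z' = (O.r ^ z'.1) ((O.r ^ (-z.1)) (f z)) := by
    intro z' y' h1 h2 h3
    rw [dev_rowz hK hf yK h1 ny h2 h3, ← zr_add]
    congr 2
  refine ⟨(O.r ^ (-z.1)) (f z), key, ?_⟩
  have h1 : f z = f (z + (k, 0)) := hag y ⟨t, t0, t1, by ext <;> simp [hy]⟩ z ny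
  have h2 := key (z + (k, 0)) _ yK' ny' (by simp [hz])
  rw [← h1, Prod.fst_add, zr_add, ← zr_add k] at h2
  have h3 : (O.r ^ (-z.1)) (f z) = (O.r ^ (-z.1)) ((O.r ^ z.1) ((O.r ^ (k + -z.1)) (f z))) := by
    rw [← h2]
  rw [← zr_add, ← zr_add] at h3
  conv_rhs => rw [h3]
  rw [← zr_add]
  congr 2
  ring

/-- lattice points of the row `m` in the parallelogram, in every residue class -/
theorem lat_pt (hk : 0 < k) (hn : 0 < w.2) {m : ℤ} (m0 : 0 < m) (m1 : m < w.2) (a : ℤ) :
    ∃ c j : ℤ, a = c + k * j ∧ em (c, m) ∈ Pgm (k, 0) w := by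
  have hcr : 0 < cr (k, 0) w := by simp only [cr]; nlinarith
  have hk' : (0 : ℝ) < k := by exact_mod_cast hk
  have hn' : (0 : ℝ) < w.2 := by exact_mod_cast hn
  have m0' : (0 : ℝ) < m := by exact_mod_cast m0
  have m1' : (m : ℝ) < w.2 := by exact_mod_cast m1
  set t : ℝ := (m : ℝ) / w.2 with ht
  have ht2 : t * w.2 = m := by rw [ht]; field_simp
  have t0 : 0 < t := by rw [ht]; positivity
  have t1 : t < 1 := by rw [ht, div_lt_one hn']; linarith
  set s0 : ℤ := ⌈t * w.1⌉ with hs0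
  have f1 : t * w.1 ≤ s0 := Int.le_ceil _
  have f2 : (s0 : ℝ) < t * w.1 + 1 := Int.ceil_lt_add_one _
  have r0 := Int.emod_nonneg (a - s0) (ne_of_gt hk)
  have r1 := Int.emod_lt_of_pos (a - s0) hk
  have r2 := Int.mul_ediv_add_emod (a - s0) k
  refine ⟨s0 + (a - s0) % k, (a - s0) / k, by linarith, ?_⟩
  have r0' : (0 : ℝ) ≤ ((a - s0) % k : ℤ) := by exact_mod_cast r0
  have r1' : (((a - s0) % k : ℤ) : ℝ) + 1 ≤ k := by exact_mod_cast r1
  set e : ℤ := (a - s0) % k
  refine mem_pgm hcr (s := ((s0 : ℝ) + e - t * w.1) / k) (t := t) ?_ ?_ ?_ t0.le t1.le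
    (Or.inr ⟨t0, t1⟩)
  · ext
    · simp only [em]
      push_cast
      field_simp
      ring
    · simp only [em]
      push_cast
      rw [ht2]; ring
  · exact div_nonneg (by linarith) hk'.le
  · rw [div_le_one hk']; linarith

theorem row_link (hk : 0 < k) (hn : 0 < w.2) (hf : Dev O (Pgm (k, 0) w) f) {m : ℤ} (m0 : 0 ≤ m)
    (m1 : m + 1 < w.2) {R R' : X} (hR : RowV O (Pgm (k, 0) w) f k m R)
    (hR' : RowV O (Pgm (k, 0) w) f k (m + 1) R') (a : ℤ) :
    O.u ((O.r ^ a) R) = (O.r ^ a) R' ∧ O.rho ((O.r ^ a) R') = (O.r ^ a) R' := by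
  obtain ⟨c, j, rfl, hc⟩ := lat_pt (w := w) hk hn (m := m + 1) (by omega) m1 a
  have n0 : Nr (em (c, m + 1)) (c, m) := by
    refine ⟨?_, ?_, ?_, ?_⟩ <;> simp only [em] <;> push_cast <;> linarith
  have n1 : Nr (em (c, m + 1)) (c, m + 1) := by
    refine ⟨?_, ?_, ?_, ?_⟩ <;> simp only [em] <;> push_cast <;> linarith
  have h1 := hR.1 _ _ hc n0 rfl
  have h2 := hR'.1 _ _ hc n1 rfl
  obtain ⟨h3, h4⟩ := dev_four (hf _ hc)
  have e1 : (O.r ^ (c + k * j)) R = f (c, m) := by rw [zr_add, per_mul hR.2, h1]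
  have e2 : (O.r ^ (c + k * j)) R' = f (c, m + 1) := by rw [zr_add, per_mul hR'.2, h2]
  rw [e1, e2]
  refine ⟨?_, h3⟩
  rw [h4]
  congr 2
  ext
  · rfl
  · show m = m + 1 - 1
    ring

end

variable {x : ZMod 5 → X} {b : Equiv.Perm (ZMod 5)} {l h : ZMod 5 → ℕ}

theorem HS.nolat (H : HS O x b l h) {i : ZMod 5} {y : X} (h1 : x i = y) : O.rho y ≠ y :=
  (H.sing y).2 ⟨i, h1.symm⟩

/-- A horizontal simple cylinder is one of the horizontal cylinders. -/
theorem SC.read_all [Finite X] (H : HS O x b l h) {k : ℤ} {w : Z2} {a : ℕ} (hk : 0 < k)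
    (h0 : SC O (k, 0) w a) : ∃ i j t, b i = i ∧ b j + 1 = j ∧ i = j + a ∧ Up O x h i j t ∧
      (l i : ℤ) = k ∧ (l j : ℤ) = k ∧ (h i : ℤ) = w.2 ∧ t = w.1 := by
  obtain ⟨hcr, f, hf, hag, hlab, hsing⟩ := h0
  have hn : 0 < w.2 := by
    simp only [cr] at hcr
    by_contra h1
    have : k * w.2 ≤ 0 := mul_nonpos_of_nonneg_of_nonpos hk.le (not_lt.1 h1)
    linarith
  have hK := (cvx_pgm hcr).convex
  have hk' : (0 : ℝ) < k := by exact_mod_cast hk
  have hk1 : (1 : ℝ) ≤ k := by exact_mod_cast hk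
  have hn' : (0 : ℝ) < w.2 := by exact_mod_cast hn
  have lab0 : ∀ z, lab O (k, 0) f z = f z := by
    intro z
    simp [lab, hk]
  rw [lab0, lab0] at hlab
  rw [lab0] at hsing
  obtain ⟨j, hj⟩ := (H.sing _).1 hsing
  rw [hj, ← rho_pow H] at hlab
  set i : ZMod 5 := j + a with hi
  -- the rows
  have p0 : ((1 / 2, 0) : V) ∈ Pgm (k, 0) w :=
    mem_pgm hcr (s := 1 / (2 * k)) (t := 0) (by ext <;> simp; field_simp) (by positivity)
      (by rw [div_le_one (by positivity)]; linarith) le_rfl zero_le_one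
      (Or.inl ⟨by positivity, by rw [div_lt_one (by positivity)]; linarith⟩)
  have q0 : Nr ((1 / 2, 0) : V) 0 := by
    refine ⟨?_, ?_, ?_, ?_⟩ <;> simp <;> norm_num
  obtain ⟨n, hnn⟩ := Int.eq_ofNat_of_zero_le hn.le
  have hrow : ∀ m : ℕ, m < n → RowV O (Pgm (k, 0) w) f k m ((O.u ^ m) (x i)) := by
    intro m
    induction m with
    | zero =>
      intro _
      obtain ⟨R, hR⟩ := row_ex hk hn hf hag (m := 0) le_rfl hn
      have h1 := hR.1 0 _ p0 q0 rfl
      have h2 : R = x i := by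
        rw [← hlab, h1]
        simp
      rw [h2] at hR
      simpa using hR
    | succ m ih =>
      intro hm
      have hR := ih (by omega)
      obtain ⟨R', hR'⟩ := row_ex hk hn hf hag (m := (m : ℤ) + 1) (by positivity) (by omega)
      have h1 := (row_link hk hn hf (by positivity) (by omega) hR hR' 0).1
      simp only [zpow_zero, Equiv.Perm.coe_one, id_eq] at h1
      have h2 : (O.u ^ (m + 1)) (x i) = R' := by
        rw [pow_succ', Equiv.Perm.mul_apply, h1]
      rw [h2]
      exact_mod_cast hR'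
  have hregular : ∀ (m : ℕ), 0 < m → m < n → ∀ a : ℤ,
      O.rho ((O.r ^ a) ((O.u ^ m) (x i))) = (O.r ^ a) ((O.u ^ m) (x i)) := by
    intro m m0 m1 a
    obtain ⟨m, rfl⟩ : ∃ m', m = m' + 1 := ⟨m - 1, by omega⟩
    have h1 := hrow m (by omega)
    have h2 := hrow (m + 1) m1
    exact (row_link hk hn hf (by positivity) (by omega) h1 (by exact_mod_cast h2) a).2
  -- bottom side
  have hper : (O.r ^ k) (x i) = x i := by
    have := (hrow 0 (by omega)).2
    simpa using this
  have hbot : ∀ c : ℤ, 0 < c → c < k → O.rho ((O.r ^ c) (x i)) = (O.r ^ c) (x i) := by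
    intro c c0 c1
    have c0' : (0 : ℝ) < c := by exact_mod_cast c0
    have c1' : (c : ℝ) < k := by exact_mod_cast c1
    have hp : em (c, 0) ∈ Pgm (k, 0) w :=
      mem_pgm hcr (s := (c : ℝ) / k) (t := 0) (by ext <;> simp [em]; field_simp) (by positivity)
        (by rw [div_le_one hk']; linarith) le_rfl zero_le_one
        (Or.inl ⟨by positivity, by rw [div_lt_one hk']; linarith⟩)
    have h1 := (dev_four (hf _ hp)).1
    have h2 := (hrow 0 (by omega)).1 (c, 0) _ hp
      (by refine ⟨?_, ?_, ?_, ?_⟩ <;> simp [em]) rfl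
    rw [h2] at h1
    simpa using h1
  have hli : (l i : ℤ) = k := by
    have hlp := H.lpos i
    rcases lt_trichotomy (l i : ℤ) k with h1 | h1 | h1
    · exfalso
      have h2 := hbot (l i) (by exact_mod_cast hlp) h1
      rw [zpow_natCast, H.next] at h2
      exact H.nolat rfl h2
    · exact h1
    · exfalso
      obtain ⟨k', rfl⟩ := Int.eq_ofNat_of_zero_le hk.le
      have h2 := H.reg i k' (by omega) (by omega)
      rw [zpow_natCast] at hper
      rw [hper] at h2
      exact H.nolat rfl h2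
  have hbi : b i = i := by
    have h1 := H.next i
    rw [← zpow_natCast, hli, hper] at h1
    exact (H.inj h1).symm
  -- top side
  have htop : (O.r ^ w.1) ((O.u ^ (n - 1)) (x i)) = O.u.symm (x j) := by
    have hp : ((w.1 + 1 / 2, w.2) : V) ∈ Pgm (k, 0) w :=
      mem_pgm hcr (s := 1 / (2 * k)) (t := 1) (by ext <;> simp; field_simp; ring) (by positivity)
        (by rw [div_le_one (by positivity)]; linarith) zero_le_one le_rfl
        (Or.inl ⟨by positivity, by rw [div_lt_one (by positivity)]; linarith⟩)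
    have n0 : Nr ((w.1 + 1 / 2, w.2) : V) (w.1, w.2 - 1) := by
      refine ⟨?_, ?_, ?_, ?_⟩ <;> simp <;> norm_num
    have n1 : Nr ((w.1 + 1 / 2, w.2) : V) ((w.1, w.2 - 1) + (0, 1)) := by
      refine ⟨?_, ?_, ?_, ?_⟩ <;> simp <;> norm_num
    have h1 := (hf _ hp).2 _ n0 n1
    have e : ((w.1, w.2 - 1) : Z2) + (0, 1) = w := by ext <;> simp
    rw [e, hj] at h1
    have h2 := (hrow (n - 1) (by omega)).1 (w.1, w.2 - 1) _ hp n0 (by
      show w.2 - 1 = ((n - 1 : ℕ) : ℤ)
      omega)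
    rw [h1, h2, O.u.symm_apply_apply]
  have htopreg : ∀ c : ℤ, 0 < c → c < k → O.rho ((O.r ^ c) (x j)) = (O.r ^ c) (x j) := by
    intro c c0 c1
    have c0' : (0 : ℝ) < c := by exact_mod_cast c0
    have c1' : (c : ℝ) < k := by exact_mod_cast c1
    have hp : em (w.1 + c, w.2) ∈ Pgm (k, 0) w :=
      mem_pgm hcr (s := (c : ℝ) / k) (t := 1) (by ext <;> simp [em]; field_simp; ring)
        (by positivity) (by rw [div_le_one hk']; linarith) zero_le_one le_rfl
        (Or.inl ⟨by positivity, by rw [div_lt_one hk']; linarith⟩)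
    have hp2 : ((w.1 + 1 / 2, w.2) : V) ∈ Pgm (k, 0) w :=
      mem_pgm hcr (s := 1 / (2 * k)) (t := 1) (by ext <;> simp; field_simp; ring) (by positivity)
        (by rw [div_le_one (by positivity)]; linarith) zero_le_one le_rfl
        (Or.inl ⟨by positivity, by rw [div_lt_one (by positivity)]; linarith⟩)
    have h1 := (dev_four (hf _ hp)).1
    have h2 := dev_rowz hK hf (z := w) (z' := (w.1 + c, w.2)) hp2 hp
      (by refine ⟨?_, ?_, ?_, ?_⟩ <;> simp <;> norm_num)
      (by refine ⟨?_, ?_, ?_, ?_⟩ <;> simp [em]) rfl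
    rw [hj] at h2
    simp only [add_sub_cancel_left] at h2
    rw [h2] at h1
    exact h1
  have hlj : k ≤ l j := by
    by_contra h1
    push Not at h1
    have h2 := htopreg (l j) (by exact_mod_cast H.lpos j) h1
    rw [zpow_natCast, H.next] at h2
    exact H.nolat rfl h2
  -- the height
  have hh : h i = n := by
    have hp := H.hpos i
    rcases lt_trichotomy (h i) n with h1 | h1 | h1
    · exfalso
      obtain ⟨j', t, ht⟩ := H.top i
      have h2 : O.u ((O.r ^ t) ((O.u ^ (h i - 1)) (x i))) = x j' := by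
        rw [ht, O.u.apply_symm_apply]
      have h3 := (row_link hk hn hf (m := ((h i - 1 : ℕ) : ℤ)) (by positivity) (by omega)
        (hrow (h i - 1) (by omega)) (R' := (O.u ^ (h i)) (x i)) (by
          have := hrow (h i) h1
          have e : ((h i - 1 : ℕ) : ℤ) + 1 = (h i : ℤ) := by omega
          rw [e]; exact this) t).1
      rw [h2] at h3
      exact H.nolat h3 (hregular (h i) hp h1 t)
    · exact h1
    · exfalso
      have h2 : (O.r ^ w.1) ((O.u ^ n) (x i)) = x j := by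
        have e : O.u ^ n = O.u * O.u ^ (n - 1) := by
          rw [← pow_succ']; congr 1; omega
        rw [H.comm i h1, e, Equiv.Perm.mul_apply, ← H.comm i (by omega), htop,
          O.u.apply_symm_apply]
      exact H.nolat h2.symm (H.inner i w.1 n (by omega) h1)
  have hU : Up O x h i j w.1 := by
    unfold Up
    rw [hh]
    exact htop
  -- the upper saddle
  obtain ⟨k', hk''⟩ := Int.eq_ofNat_of_zero_le hk.le
  have htper : (O.r ^ k') (O.u.symm (x j)) = O.u.symm (x j) := by
    have h1 : (O.r ^ k) (O.u.symm (x j)) = O.u.symm (x j) := by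
      rw [← htop, ← zr_add, add_comm, zr_add, H.comm i (by omega) , ← H.comm i (by omega)]
      congr 1
      rw [H.comm i (by omega), hper]
    rw [hk'', zpow_natCast] at h1
    exact h1
  obtain ⟨m, hm1, hm2⟩ := H.retT.ret k' j j htper
  have hm0 : m ≠ 0 := by
    rintro rfl
    simp at hm1
    omega
  obtain ⟨m', rfl⟩ : ∃ m', m = m' + 1 := ⟨m - 1, by omega⟩
  rw [sum_shift] at hm1
  have hm3 : ∑ p ∈ Finset.range m', l ((tp b ^ p) (tp b j)) = 0 := by omega
  have hm4 : m' = 0 := by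
    by_contra h1
    have h2 := (Finset.sum_eq_zero_iff.1 hm3) 0 (Finset.mem_range.2 (by omega))
    have h3 := H.lpos ((tp b ^ 0) (tp b j))
    omega
  subst hm4
  refine ⟨i, j, w.1, hbi, ?_, hi, hU, hli, ?_, by rw [hh, hnn], rfl⟩
  · have h1 : tp b j = j := by simpa using hm2.symm
    exact h1
  · simp only [Finset.range_zero, Finset.sum_empty, add_zero] at hm1
    rw [← hm1, hk'']

/-- the form used by `Ex/Main7.lean` -/
theorem SC.read [Finite X] {k : ℕ} {w : Z2} {a : ℕ} (hs : SC O ((k : ℤ), 0) w a) (hk : 0 < k)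
    (H : HS O x b l h) : ∃ i j t, b i = i ∧ b j + 1 = j ∧ i = j + (a : ZMod 5) ∧
      Up O x h i j t ∧ l i = k := by
  obtain ⟨i, j, t, h1, h2, h3, h4, h5, -⟩ := SC.read_all H (by exact_mod_cast hk) hs
  exact ⟨i, j, t, h1, h2, h3, h4, by exact_mod_cast h5⟩

end Pool.Agent.H4G.Six
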