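import Pool.Agent.H4G.Six.Ex.Defs
import Pool.Agent.H4G.Six.SL6

/-!
# (G7, L1) simple cylinders and the quarter turn (helper83)
-/

set_option autoImplicit false

namespace Pool.Agent.H4G.Six

open Pool.Agent.H4G

variable {X : Type}

theorem jf_shJ (f : Z2 → X) (z : Z2) : jf f (shJ z) = f (z - (0, 1)) := by
  simp only [jf, shJ]
  congr 1
  ext <;> simp

/-- the rotation about a vertex, after the quarter turn -/
theorem rho_J (O : PO X) (y : X) : O.J.rho y = O.u.symm (O.rho (O.u y)) := by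
  change O.r (O.u.symm (O.r.symm (O.u y))) =
    O.u.symm (O.u (O.r (O.u.symm (O.r.symm (O.u y)))))
  rw [O.u.symm_apply_apply]

theorem rho_J_pow (O : PO X) (n : ℕ) (y : X) :
    (O.J.rho ^ n) (O.u.symm y) = O.u.symm ((O.rho ^ n) y) := by
  induction n with
  | zero => simp
  | succ n ih =>
    rw [pow_succ', pow_succ', Equiv.Perm.mul_apply, Equiv.Perm.mul_apply, ih, rho_J,
      O.u.apply_symm_apply]

/-! ## the four cases of a label -/

theorem lab_q1 (O : PO X) {V : Z2} (h : 0 < V.1 ∧ 0 ≤ V.2) (f : Z2 → X) (z : Z2) :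
    lab O V f z = f z := by
  unfold lab
  rw [if_pos h]

theorem lab_q2 (O : PO X) {V : Z2} (h : V.1 ≤ 0 ∧ 0 < V.2) (f : Z2 → X) (z : Z2) :
    lab O V f z = O.r (f (z - (1, 0))) := by
  unfold lab
  rw [if_neg (by omega), if_pos h]

theorem lab_q3 (O : PO X) {V : Z2} (h : V.1 < 0 ∧ V.2 ≤ 0) (f : Z2 → X) (z : Z2) :
    lab O V f z = O.r (O.u (f (z - (1, 1)))) := by
  unfold lab
  rw [if_neg (by omega), if_neg (by omega), if_pos h]

theorem lab_q4 (O : PO X) {V : Z2} (h : 0 ≤ V.1 ∧ V.2 < 0) (f : Z2 → X) (z : Z2) :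
    lab O V f z = O.r (O.u (O.r.symm (f (z - (0, 1))))) := by
  unfold lab
  rw [if_neg (by omega), if_neg (by omega), if_neg (by omega)]

/-- the label after the quarter turn: `e = 0` or `1` depends only on `V` -/
theorem lab_J (O : PO X) {V : Z2} (hV : V ≠ 0) (f : Z2 → X) : ∃ e : ℕ, ∀ z : Z2,
    lab O.J (shJ V) (jf f) (shJ z) = O.u.symm ((O.rho ^ e) (lab O V f z)) := by
  have hxy : V.1 ≠ 0 ∨ V.2 ≠ 0 := by
    by_contra h
    rw [not_or, not_not, not_not] at h
    exact hV (by ext <;> simp [h.1, h.2])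
  have s1 : ∀ z : Z2, shJ z - (1, 0) = shJ (z + (0, 1)) := by
    intro z; ext <;> simp only [shJ, Prod.fst_sub, Prod.snd_sub, Prod.fst_add, Prod.snd_add] <;> ring
  have s2 : ∀ z : Z2, shJ z - (1, 1) = shJ (z - (1, -1)) := by
    intro z; ext <;> simp only [shJ, Prod.fst_sub, Prod.snd_sub] <;> ring
  have s3 : ∀ z : Z2, shJ z - (0, 1) = shJ (z - (1, 0)) := by
    intro z; ext <;> simp only [shJ, Prod.fst_sub, Prod.snd_sub] <;> ring
  rcases lt_trichotomy V.1 0 with h1 | h1 | h1 <;> rcases lt_trichotomy V.2 0 with h2 | h2 | h2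
  · -- third quadrant
    refine ⟨0, fun z => ?_⟩
    rw [lab_q4 O.J (by simp only [shJ]; omega), lab_q3 O (by omega), s3, jf_shJ]
    have e2 : z - (1, 0) - (0, 1) = z - (1, 1) := by
      ext <;> simp only [Prod.fst_sub, Prod.snd_sub] <;> ring
    rw [e2]
    rfl
  · refine ⟨0, fun z => ?_⟩
    rw [lab_q4 O.J (by simp only [shJ]; omega), lab_q3 O (by omega), s3, jf_shJ]
    have e2 : z - (1, 0) - (0, 1) = z - (1, 1) := by
      ext <;> simp only [Prod.fst_sub, Prod.snd_sub] <;> ring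
    rw [e2]
    rfl
  · -- second quadrant
    refine ⟨0, fun z => ?_⟩
    rw [lab_q3 O.J (by simp only [shJ]; omega), lab_q2 O (by omega), s2, jf_shJ]
    have e2 : z - (1, -1) - (0, 1) = z - (1, 0) := by
      ext <;> simp only [Prod.fst_sub, Prod.snd_sub] <;> ring
    rw [e2]
    rfl
  · -- fourth quadrant
    refine ⟨1, fun z => ?_⟩
    rw [lab_q1 O.J (by simp only [shJ]; omega), lab_q4 O (by omega), jf_shJ, pow_one]
    change _ = O.u.symm (O.u (O.r (O.u.symm (O.r.symm (O.r (O.u (O.r.symm (f (z - (0, 1))))))))))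
    simp only [Equiv.symm_apply_apply, Equiv.apply_symm_apply]
  · exfalso; omega
  · refine ⟨0, fun z => ?_⟩
    rw [lab_q3 O.J (by simp only [shJ]; omega), lab_q2 O (by omega), s2, jf_shJ]
    have e2 : z - (1, -1) - (0, 1) = z - (1, 0) := by
      ext <;> simp only [Prod.fst_sub, Prod.snd_sub] <;> ring
    rw [e2]
    rfl
  · refine ⟨1, fun z => ?_⟩
    rw [lab_q1 O.J (by simp only [shJ]; omega), lab_q4 O (by omega), jf_shJ, pow_one]
    change _ = O.u.symm (O.u (O.r (O.u.symm (O.r.symm (O.r (O.u (O.r.symm (f (z - (0, 1))))))))))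
    simp only [Equiv.symm_apply_apply, Equiv.apply_symm_apply]
  · refine ⟨0, fun z => ?_⟩
    rw [lab_q2 O.J (by simp only [shJ]; omega), lab_q1 O (by omega), s1, jf_shJ,
      add_sub_cancel_right]
    rfl
  · refine ⟨0, fun z => ?_⟩
    rw [lab_q2 O.J (by simp only [shJ]; omega), lab_q1 O (by omega), s1, jf_shJ,
      add_sub_cancel_right]
    rfl

/-- simple cylinders and the quarter turn -/
theorem SC.J {O : PO X} {V w : Z2} {a : ℕ} (h : SC O V w a) : SC O.J (shJ V) (shJ w) a := by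
  obtain ⟨h0, f, h1, h2, h3, h4⟩ := h
  have hV : V ≠ 0 := by
    rintro rfl
    simp [cr] at h0
  obtain ⟨e, he⟩ := lab_J O hV f
  refine ⟨by rw [cr_J]; exact h0, jf f, devJ h1 (fun x hx => jp_pgm hx), ?_, ?_, ?_⟩
  · have h5 := agreeJ (L := Seg 0 (shJ w)) h2 (fun x hx => by
      rw [← shJ_zero] at hx
      exact jp_seg hx)
    intro x hx z hz
    rw [h5 x hx z hz]
    simp only [jf, shJ]
    congr 1
    ext <;> simp only [Prod.fst_add, Prod.snd_add] <;> ring
  · have e0 := he 0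
    rw [shJ_zero] at e0
    have e1 : (O.rho ^ e) ((O.rho ^ a) (lab O V f w)) =
        (O.rho ^ a) ((O.rho ^ e) (lab O V f w)) := by
      rw [← Equiv.Perm.mul_apply, ← Equiv.Perm.mul_apply, ← pow_add, ← pow_add, Nat.add_comm]
    rw [e0, he w, h3, rho_J_pow, e1]
  · rw [he w]
    intro hc
    apply h4
    have h5 := rho_J_pow O 1 ((O.rho ^ e) (lab O V f w))
    rw [pow_one, pow_one] at h5
    rw [h5] at hc
    have h6 := O.u.symm.injective hc
    have h7 : (O.rho ^ e) (O.rho (lab O V f w)) = O.rho ((O.rho ^ e) (lab O V f w)) := by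
      rw [← Equiv.Perm.mul_apply, ← Equiv.Perm.mul_apply, ← pow_succ, ← pow_succ']
    exact (O.rho ^ e).injective (h7.trans h6)

end Pool.Agent.H4G.Six
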