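import Pool.Agent.H4G.Six.Ex.Defs
import Pool.Agent.H4G.Six.SL6
import Pool.Agent.H4G.Six.Column

/-!
# The shear of a simple cylinder (row L1, helper79)

The shear keeps the rotation `O.rho` and the labels `lab`, hence the angle of a simple cylinder.
-/

set_option autoImplicit false

namespace Pool.Agent.H4G.Six

open Pool.Agent.H4G

variable {X : Type}

theorem PO.T_rho (O : PO X) : O.T.rho = O.rho := by
  show O.u * O.r⁻¹ * O.r * (O.u * O.r⁻¹)⁻¹ * O.r⁻¹ = O.u * O.r * O.u⁻¹ * O.r⁻¹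
  group

/-- points close to the start of a segment -/
private theorem start_pt {P : Z2} (_hV : P ≠ 0) (z : Z2) : ∃ ε : ℝ, 0 < ε ∧ ε < 1 ∧
    |ε * P.1| ≤ 1 ∧ |ε * P.2| ≤ 1 ∧ |ε * P.1 + ε * P.2| ≤ 1 ∧
    (((z.1 : ℝ) + ε * P.1, (z.2 : ℝ) + ε * P.2) : V) ∈ Seg z (z + P) := by
  have h1 : (0 : ℝ) ≤ |(P.1 : ℝ)| := abs_nonneg _
  have h2 : (0 : ℝ) ≤ |(P.2 : ℝ)| := abs_nonneg _
  have hd : (0 : ℝ) < |(P.1 : ℝ)| + |(P.2 : ℝ)| + 2 := by linarith
  refine ⟨1 / (|(P.1 : ℝ)| + |(P.2 : ℝ)| + 2), by positivity, ?_, ?_, ?_, ?_, ?_⟩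
  · rw [div_lt_one hd]; linarith
  · rw [abs_mul, abs_of_pos (by positivity : (0 : ℝ) < 1 / (|(P.1 : ℝ)| + |(P.2 : ℝ)| + 2)),
      div_mul_eq_mul_div, div_le_one hd]
    linarith
  · rw [abs_mul, abs_of_pos (by positivity : (0 : ℝ) < 1 / (|(P.1 : ℝ)| + |(P.2 : ℝ)| + 2)),
      div_mul_eq_mul_div, div_le_one hd]
    linarith
  · rw [← mul_add, abs_mul,
      abs_of_pos (by positivity : (0 : ℝ) < 1 / (|(P.1 : ℝ)| + |(P.2 : ℝ)| + 2)),
      div_mul_eq_mul_div, div_le_one hd]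
    have := abs_add_le (P.1 : ℝ) (P.2 : ℝ)
    linarith
  · refine ⟨1 / (|(P.1 : ℝ)| + |(P.2 : ℝ)| + 2), by positivity, by rw [div_lt_one hd]; linarith,
      ?_⟩
    ext <;> simp only [Prod.fst_add, Prod.snd_add] <;> push_cast <;> ring

/-- THE SHEAR KEEPS THE LABELS -/
theorem lab_T {O : PO X} {K : Set V} {f f' : Z2 → X} (hr : TRel O K f f') {P z : Z2}
    (hV : P ≠ 0) (hK : Seg z (z + P) ⊆ K) : lab O.T (shT P) f' (shT z) = lab O P f z := by
  obtain ⟨ε, e0, e1, b1, b2, b3, hs⟩ := start_pt hV z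
  obtain ⟨z1, z2⟩ := z
  obtain ⟨v1, v2⟩ := P
  rw [abs_le] at b1 b2 b3
  simp only at b1 b2 b3 hs
  -- the point
  have key : ∀ a b : ℤ, Nr (((z1 : ℝ) + ε * v1 + ((z2 : ℝ) + ε * v2), (z2 : ℝ) + ε * v2) : V)
      (a, b) → (Nr (((z1 : ℝ) + ε * v1, (z2 : ℝ) + ε * v2) : V) (a - b, b) →
        f' (a, b) = f (a - b, b)) ∧
      (Nr (((z1 : ℝ) + ε * v1, (z2 : ℝ) + ε * v2) : V) (a - b - 1, b) →
        f' (a, b) = O.r (f (a - b - 1, b))) := by
    intro a b hab
    have e : tpt (((z1 : ℝ) + ε * v1 + ((z2 : ℝ) + ε * v2), (z2 : ℝ) + ε * v2) : V) =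
        (((z1 : ℝ) + ε * v1, (z2 : ℝ) + ε * v2) : V) := by
      ext <;> simp only [tpt] <;> ring
    have := hr (((z1 : ℝ) + ε * v1 + ((z2 : ℝ) + ε * v2), (z2 : ℝ) + ε * v2) : V)
      (by rw [e]; exact hK hs) a b hab
    rw [e] at this
    exact this
  have hsh : shT ((v1, v2) : Z2) = (v1 + v2, v2) := rfl
  have hsz : shT ((z1, z2) : Z2) = (z1 + z2, z2) := rfl
  rw [hsh, hsz]
  simp only [lab]
  have uT : ∀ y : X, O.T.u y = O.u (O.r.symm y) := fun _ => rfl
  have rT : ∀ y : X, O.T.r y = O.r y := fun _ => rfl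
  have rTs : ∀ y : X, O.T.r.symm y = O.r.symm y := fun _ => rfl
  have s10 : ∀ a b : ℤ, ((a, b) : Z2) - (1, 0) = (a - 1, b) := fun a b => by
    ext <;> simp only [Prod.fst_sub, Prod.snd_sub] <;> ring
  have s11 : ∀ a b : ℤ, ((a, b) : Z2) - (1, 1) = (a - 1, b - 1) := fun a b => by
    ext <;> simp only [Prod.fst_sub, Prod.snd_sub]
  have s01 : ∀ a b : ℤ, ((a, b) : Z2) - (0, 1) = (a, b - 1) := fun a b => by
    ext <;> simp only [Prod.fst_sub, Prod.snd_sub] <;> ring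
  rw [s10, s11, s01, s10, s11, s01, uT, uT, rT, rT, rT, rTs]
  -- signs
  have pz : ∀ {n : ℤ}, 0 < n → (0 : ℝ) ≤ ε * n := fun {n} h => by
    have : (0 : ℝ) < n := by exact_mod_cast h
    positivity
  have pn : ∀ {n : ℤ}, 0 ≤ n → (0 : ℝ) ≤ ε * n := fun {n} h => by
    have : (0 : ℝ) ≤ n := by exact_mod_cast h
    positivity
  have np : ∀ {n : ℤ}, n ≤ 0 → ε * (n : ℝ) ≤ 0 := fun {n} h => by
    have : (n : ℝ) ≤ 0 := by exact_mod_cast h
    exact mul_nonpos_of_nonneg_of_nonpos e0.le this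
  by_cases q1 : 0 < v1 ∧ 0 ≤ v2
  · have q1' : 0 < v1 + v2 ∧ 0 ≤ v2 := ⟨by linarith [q1.1, q1.2], q1.2⟩
    rw [if_pos q1', if_pos q1]
    have t1 := pz q1.1
    have t2 := pn q1.2
    have h := (key (z1 + z2) z2 ?_).1
    · have e : z1 + z2 - z2 = z1 := by ring
      rw [e] at h
      apply h
      exact ⟨by simp only; linarith, by simp only; linarith, by simp only; linarith,
        by simp only; linarith⟩
    · refine ⟨?_, ?_, ?_, ?_⟩ <;> simp only <;> push_cast <;> linarith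
  · by_cases q2 : v1 ≤ 0 ∧ 0 < v2
    · have t1 := np q2.1
      have t2 := pz q2.2
      by_cases q3 : 0 < v1 + v2
      · have q1' : 0 < v1 + v2 ∧ 0 ≤ v2 := ⟨q3, q2.2.le⟩
        rw [if_pos q1', if_neg q1, if_pos q2]
        have t3 := pz q3
        push_cast at t3
        have h := (key (z1 + z2) z2 ?_).2
        · have e : z1 + z2 - z2 - 1 = z1 - 1 := by ring
          rw [e] at h
          apply h
          refine ⟨?_, ?_, ?_, ?_⟩ <;> simp only <;> push_cast <;> linarith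
        · refine ⟨?_, ?_, ?_, ?_⟩ <;> simp only <;> push_cast <;> linarith
      · have q1' : ¬ (0 < v1 + v2 ∧ 0 ≤ v2) := fun h => q3 h.1
        have q2' : v1 + v2 ≤ 0 ∧ 0 < v2 := ⟨not_lt.1 q3, q2.2⟩
        rw [if_neg q1', if_pos q2', if_neg q1, if_pos q2]
        have t3 := np q2'.1
        push_cast at t3
        have h := (key (z1 + z2 - 1) z2 ?_).1
        · have e : z1 + z2 - 1 - z2 = z1 - 1 := by ring
          rw [e] at h
          rw [h]
          refine ⟨?_, ?_, ?_, ?_⟩ <;> simp only <;> push_cast <;> linarith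
        · refine ⟨?_, ?_, ?_, ?_⟩ <;> simp only <;> push_cast <;> linarith
    · by_cases q3 : v1 < 0 ∧ v2 ≤ 0
      · have q1' : ¬ (0 < v1 + v2 ∧ 0 ≤ v2) := fun h => by omega
        have q2' : ¬ (v1 + v2 ≤ 0 ∧ 0 < v2) := fun h => by omega
        have q3' : v1 + v2 < 0 ∧ v2 ≤ 0 := ⟨by linarith [q3.1, q3.2], q3.2⟩
        rw [if_neg q1', if_neg q2', if_pos q3', if_neg q1, if_neg q2, if_pos q3]
        have t1 := np q3.1.le
        have t2 := np q3.2
        have t3 := np q3'.1.le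
        push_cast at t3
        have h := (key (z1 + z2 - 1) (z2 - 1) ?_).2
        · have e : z1 + z2 - 1 - (z2 - 1) - 1 = z1 - 1 := by ring
          rw [e] at h
          rw [h, O.r.symm_apply_apply]
          refine ⟨?_, ?_, ?_, ?_⟩ <;> simp only <;> push_cast <;> linarith
        · refine ⟨?_, ?_, ?_, ?_⟩ <;> simp only <;> push_cast <;> linarith
      · have hv : 0 ≤ v1 ∧ v2 < 0 := by
          have hne : ¬ (v1 = 0 ∧ v2 = 0) := fun h => hV (by rw [h.1, h.2]; rfl)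
          omega
        have t1 := pn hv.1
        have t2 := np hv.2.le
        have q1' : ¬ (0 < v1 + v2 ∧ 0 ≤ v2) := fun h => by omega
        have q2' : ¬ (v1 + v2 ≤ 0 ∧ 0 < v2) := fun h => by omega
        by_cases q4 : v1 + v2 < 0
        · have q3' : v1 + v2 < 0 ∧ v2 ≤ 0 := ⟨q4, hv.2.le⟩
          rw [if_neg q1', if_neg q2', if_pos q3', if_neg q1, if_neg q2, if_neg q3]
          have t3 := np q4.le
          push_cast at t3
          have h := (key (z1 + z2 - 1) (z2 - 1) ?_).1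
          · have e : z1 + z2 - 1 - (z2 - 1) = z1 := by ring
            rw [e] at h
            rw [h]
            refine ⟨?_, ?_, ?_, ?_⟩ <;> simp only <;> push_cast <;> linarith
          · refine ⟨?_, ?_, ?_, ?_⟩ <;> simp only <;> push_cast <;> linarith
        · have q3' : ¬ (v1 + v2 < 0 ∧ v2 ≤ 0) := fun h => q4 h.1
          rw [if_neg q1', if_neg q2', if_neg q3', if_neg q1, if_neg q2, if_neg q3]
          have t3 := pn (not_lt.1 q4)
          push_cast at t3
          have h := (key (z1 + z2) (z2 - 1) ?_).2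
          · have e : z1 + z2 - (z2 - 1) - 1 = z1 := by ring
            rw [e] at h
            rw [h, O.r.symm_apply_apply]
            refine ⟨?_, ?_, ?_, ?_⟩ <;> simp only <;> push_cast <;> linarith
          · refine ⟨?_, ?_, ?_, ?_⟩ <;> simp only <;> push_cast <;> linarith

private theorem lowS {a b : Z2} (h : 0 < cr a b) : Seg 0 (0 + a) ⊆ Pgm a b := by
  rintro x ⟨t, h0, h1, rfl⟩
  refine mem_pgm (s := t) (t := 0) h ?_ h0.le h1.le le_rfl zero_le_one (Or.inl ⟨h0, h1⟩)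
  ext <;> simp only [Prod.fst_zero, Prod.snd_zero, Prod.fst_add, Prod.snd_add] <;> push_cast <;>
    ring

private theorem upS {a b : Z2} (h : 0 < cr a b) : Seg b (b + a) ⊆ Pgm a b := by
  rintro x ⟨t, h0, h1, rfl⟩
  refine mem_pgm (s := t) (t := 1) h ?_ h0.le h1.le zero_le_one le_rfl (Or.inl ⟨h0, h1⟩)
  ext <;> simp only [Prod.fst_add, Prod.snd_add] <;> push_cast <;> ring

private theorem leftS {a b : Z2} (h : 0 < cr a b) : Seg 0 b ⊆ Pgm a b := by
  rintro x ⟨t, h0, h1, rfl⟩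
  refine mem_pgm (s := 0) (t := t) h ?_ le_rfl zero_le_one h0.le h1.le (Or.inr ⟨h0, h1⟩)
  ext <;> simp only [Prod.fst_zero, Prod.snd_zero] <;> push_cast <;> ring

private theorem rightS {a b : Z2} (h : 0 < cr a b) {x : V} (hx : x ∈ Seg 0 b) :
    x + em a ∈ Pgm a b := by
  obtain ⟨t, h0, h1, rfl⟩ := hx
  refine mem_pgm (s := 1) (t := t) h ?_ zero_le_one le_rfl h0.le h1.le (Or.inr ⟨h0, h1⟩)
  ext <;> simp only [em, Prod.fst_zero, Prod.snd_zero, Prod.fst_add, Prod.snd_add] <;>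
    push_cast <;> ring

/-- THE SHEAR OF A SIMPLE CYLINDER -/
theorem SC.T {O : PO X} {V w : Z2} {a : ℕ} (hs : SC O V w a) : SC O.T (shT V) (shT w) a := by
  obtain ⟨h0, f, h1, h2, h3, h4⟩ := hs
  obtain ⟨f', hf⟩ := exists_trel (cvx_pgm h0) h1
  have hV : V ≠ 0 := by
    rintro rfl
    simp [cr] at h0
  have l0 : lab O.T (shT V) f' 0 = lab O V f 0 := by
    have := lab_T hf (z := 0) hV (lowS h0)
    rwa [shT_zero] at this
  have lw : lab O.T (shT V) f' (shT w) = lab O V f w := lab_T hf hV (upS h0)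
  refine ⟨by rw [cr_T]; exact h0, f', devT h1 hf (fun x hx => tp_pgm hx), ?_, ?_, ?_⟩
  · have e1 : (fun z => f (z + V)) = sh (-V) f := by
      funext z
      simp only [sh, sub_neg_eq_add]
    have e2 : (fun z => f' (z + shT V)) = sh (shT (-V)) f' := by
      funext z
      simp only [sh]
      congr 1
      ext <;> simp only [shT, Prod.fst_add, Prod.snd_add, Prod.fst_sub, Prod.snd_sub,
        Prod.fst_neg, Prod.snd_neg] <;> ring
    rw [e1] at h2
    rw [e2]
    refine agreeT h2 (hf.mono (leftS h0)) (hf.sh (fun x hx => ?_)) (fun x hx => ?_)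
    · have e3 : x - em (-V) = x + em V := by
        ext <;> simp only [em, Prod.fst_sub, Prod.snd_sub, Prod.fst_add, Prod.snd_add,
          Prod.fst_neg, Prod.snd_neg] <;> push_cast <;> ring
      rw [e3]
      exact rightS h0 hx
    · rw [← shT_zero] at hx
      exact tp_seg hx
  · rw [l0, lw, O.T_rho]; exact h3
  · rw [lw, O.T_rho]; exact h4

end Pool.Agent.H4G.Six
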