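import Pool.Agent.H4G.Six.Ex.Cross

/-!
# The mirror image `(x, y) ↦ (-x, y)` of an origami: simple cylinders and saddles (helper79)

The mirror keeps the angle of a simple cylinder.
-/

set_option autoImplicit false

namespace Pool.Agent.H4G.Six

open Pool.Agent.H4G

variable {X : Type}

/-- the mirror image -/
def PO.M (O : PO X) : PO X := ⟨O.r⁻¹, O.u⟩

theorem PO.M_M (O : PO X) : O.M.M = O := by
  cases O
  simp [PO.M]

theorem PO.M_rho (O : PO X) (y : X) : O.M.rho (O.r.symm y) = O.r.symm (O.rho.symm y) := by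
  have e1 : O.M.rho (O.r.symm y) = O.u (O.r.symm (O.u.symm (O.r (O.r.symm y)))) := rfl
  have e2 : O.rho.symm y = O.r (O.u (O.r.symm (O.u.symm y))) := rfl
  rw [e1, e2, O.r.apply_symm_apply, O.r.symm_apply_apply]

theorem PO.M_rho_fix (O : PO X) (y : X) : O.M.rho y = y ↔ O.rho (O.r y) = O.r y := by
  have h := O.M_rho (O.r y)
  rw [O.r.symm_apply_apply] at h
  rw [h, Equiv.symm_apply_eq, Equiv.symm_apply_eq]
  exact eq_comm

theorem PO.M_rz (O : PO X) (a : ℤ) (y : X) : (O.M.r ^ a) y = (O.r ^ (-a)) y := by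
  show ((O.r⁻¹) ^ a) y = _
  rw [inv_zpow']

theorem PO.M_rn (O : PO X) (a : ℕ) (y : X) : (O.M.r ^ a) y = (O.r ^ (-(a : ℤ))) y := by
  rw [← O.M_rz, zpow_natCast]

/-! ## Saddles -/

section HSM

variable {O : PO X} {x : ZMod 5 → X} {b : Equiv.Perm (ZMod 5)} {l h : ZMod 5 → ℕ}

theorem HS.strip (H : HS O x b l h) (i : ZMod 5) (a : ℤ) (k : ℕ) (hk : k < h i) :
    (O.u ^ k) ((O.r ^ a) (x i)) = (O.r ^ a) ((O.u ^ k) (x i)) := by
  induction k with
  | zero => rfl
  | succ k ih =>
    have e : ∀ y : X, (O.u ^ (k + 1)) y = O.u ((O.u ^ k) y) := by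
      intro y
      rw [pow_succ']; rfl
    rw [e, ih (by omega), H.strip1 i a k hk]

/-- the labels of the mirror image -/
def mx (O : PO X) (x : ZMod 5 → X) : ZMod 5 → X := fun i => O.r.symm (x (-i))

/-- the saddles of the mirror image: the saddle `e` becomes the saddle `-(b e)` -/
def mb (b : Equiv.Perm (ZMod 5)) : Equiv.Perm (ZMod 5) :=
  (Equiv.neg (ZMod 5)).trans (b.symm.trans (Equiv.neg (ZMod 5)))

theorem mb_apply (b : Equiv.Perm (ZMod 5)) (i : ZMod 5) : mb b i = -(b.symm (-i)) := rfl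

theorem Up.M (H : HS O x b l h) {i j : ZMod 5} {t : ℤ} (hu : Up O x h i j t) :
    Up O.M (mx O x) (fun i => h (-i)) (-i) (-(b j)) (-t - l j) := by
  unfold Up mx
  simp only [neg_neg]
  have hp := H.lpos j
  have h1 : O.r.symm (x (b j)) = (O.r ^ (l j - 1)) (x j) := by
    rw [← H.next j, Equiv.symm_apply_eq]
    have : l j = (l j - 1) + 1 := by omega
    rw [show (O.r ^ l j) (x j) = (O.r ^ ((l j - 1) + 1)) (x j) by rw [← this], pow_succ']
    rfl
  rw [h1]
  show (O.M.r ^ (-t - (l j : ℤ))) ((O.u ^ (h i - 1)) (O.r.symm (x i))) =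
    O.u.symm ((O.r ^ (l j - 1)) (x j))
  rw [H.low j (l j - 1) (by omega), ← show (O.r ^ t) ((O.u ^ (h i - 1)) (x i)) =
    O.u.symm (x j) from hu, O.M_rz]
  have h2 : O.r.symm (x i) = (O.r ^ (-1 : ℤ)) (x i) := by
    rw [zpow_neg, zpow_one]; rfl
  have h3 : (O.u ^ (h i - 1)) ((O.r ^ (-1 : ℤ)) (x i)) =
      (O.r ^ (-1 : ℤ)) ((O.u ^ (h i - 1)) (x i)) := H.strip i (-1) (h i - 1) (by
    have := H.hpos i
    omega)
  rw [h2, h3, pz_nat O.r, pz_add, pz_add]
  congr 2
  omega

theorem HS.M (H : HS O x b l h) : HS O.M (mx O x) (mb b) (fun i => l (b.symm (-i)))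
    (fun i => h (-i)) where
  rot i := by
    unfold mx
    rw [O.M_rho]
    congr 1
    rw [Equiv.eq_symm_apply, ← H.rot]
    congr 1
    ring
  inj := by
    intro i j hij
    have h1 := H.inj (O.r.symm.injective hij)
    exact neg_injective h1
  sing y := by
    rw [Ne, O.M_rho_fix, ← Ne, H.sing]
    constructor
    · rintro ⟨i, hi⟩
      refine ⟨-i, ?_⟩
      unfold mx
      rw [neg_neg, ← hi, O.r.symm_apply_apply]
    · rintro ⟨i, hi⟩
      refine ⟨-i, ?_⟩
      rw [hi]
      exact O.r.apply_symm_apply _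
  lpos i := H.lpos _
  next i := by
    unfold mx
    rw [mb_apply, neg_neg, O.M_rn]
    have h1 := H.next (b.symm (-i))
    rw [b.apply_symm_apply] at h1
    rw [← h1, Equiv.eq_symm_apply, pz_nat, ps_pz, pz_add, p_pz]
    rw [show -(l (b.symm (-i)) : ℤ) + ((l (b.symm (-i)) : ℤ) - 1) + 1 = 0 by ring, zpow_zero]
    rfl
  reg i k hk1 hk2 := by
    rw [O.M_rho_fix]
    have h1 := H.next (b.symm (-i))
    rw [b.apply_symm_apply] at h1
    have h2 : O.r ((O.M.r ^ k) (mx O x i)) =
        (O.r ^ (l (b.symm (-i)) - k)) (x (b.symm (-i))) := by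
      unfold mx
      rw [← h1, O.M_rn, pz_nat, ps_pz, pz_add, p_pz, pz_nat]
      congr 2
      have : k < l (b.symm (-i)) := hk2
      omega
    rw [h2]
    exact H.reg _ _ (by
      have : k < l (b.symm (-i)) := hk2
      omega) (by omega)
  hpos i := H.hpos _
  hb i := by
    simp only [mb_apply, neg_neg]
    have h1 := H.hb (b.symm (-i))
    rw [b.apply_symm_apply] at h1
    exact h1.symm
  inner i a k hk1 hk2 := by
    have hk2' : k < h (-i) := hk2
    rw [O.M_rho_fix]
    have h2 : O.r ((O.M.r ^ a) ((O.M.u ^ k) (mx O x i))) =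
        (O.r ^ (-a)) ((O.u ^ k) (x (-i))) := by
      show O.r ((O.M.r ^ a) ((O.u ^ k) (O.r.symm (x (-i))))) = _
      have h3 : O.r.symm (x (-i)) = (O.r ^ (-1 : ℤ)) (x (-i)) := by
        rw [zpow_neg, zpow_one]; rfl
      rw [h3, H.strip _ _ _ hk2', O.M_rz, pz_add, p_pz]
      congr 2
      ring
    rw [h2]
    exact H.inner _ _ _ hk1 hk2'
  top i := by
    obtain ⟨j, t, hu⟩ := H.top (-i)
    have h1 := Up.M H (i := -i) (j := j) (t := t) hu
    rw [neg_neg] at h1
    exact ⟨_, _, h1⟩

end HSM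

/-! ## Simple cylinders -/

/-- the mirror, on points -/
def mpt (w : Z2) (p : V) : V := ((w.1 : ℝ) - p.1, (w.2 : ℝ) + p.2)

/-- the mirror, on squares -/
def msq (w z : Z2) : Z2 := (w.1 - 1 - z.1, w.2 + z.2)

theorem nr_m (w z : Z2) (p : V) (h : Nr p z) : Nr (mpt w p) (msq w z) := by
  obtain ⟨h1, h2, h3, h4⟩ := h
  refine ⟨?_, ?_, ?_, ?_⟩ <;> simp only [mpt, msq] <;> push_cast <;> linarith

theorem DevAt.m {O : PO X} {w : Z2} {p : V} {f : Z2 → X} (h : DevAt O (mpt w p) f) :
    DevAt O.M p (fun z => f (msq w z)) := by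
  constructor
  · intro z h1 h2
    have h3 := nr_m w _ _ h1
    have h4 := nr_m w _ _ h2
    have e : msq w z = msq w (z + (1, 0)) + (1, 0) := by
      ext
      · show w.1 - 1 - z.1 = w.1 - 1 - (z.1 + 1) + 1
        ring
      · show w.2 + z.2 = w.2 + (z.2 + 0) + 0
        ring
    rw [e] at h3
    have h5 := h.1 _ h4 h3
    rw [← e] at h5
    show f (msq w (z + (1, 0))) = O.r.symm (f (msq w z))
    rw [h5, O.r.symm_apply_apply]
  · intro z h1 h2
    have h3 := nr_m w _ _ h1
    have h4 := nr_m w _ _ h2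
    have e : msq w (z + (0, 1)) = msq w z + (0, 1) := by
      ext
      · show w.1 - 1 - (z.1 + 0) = w.1 - 1 - z.1 + 0
        ring
      · show w.2 + (z.2 + 1) = w.2 + z.2 + 1
        ring
    rw [e] at h4
    have h5 := h.2 _ h3 h4
    rw [← e] at h5
    exact h5

theorem mpt_pgm {V w : Z2} {p : ℝ × ℝ} (hp : p ∈ Pgm (-V.1, V.2) (w.1, -w.2)) :
    mpt w p ∈ Pgm V w := by
  obtain ⟨g1, g2, g3, g4, g5, g6, g7, g8⟩ := hp
  have c0 : (cr (-V.1, V.2) (w.1, -w.2) : ℝ) = cr V w := by
    simp only [cr]; push_cast; ring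
  have c1 : crx V (mpt w p) = cr V w - crx (-V.1, V.2) p := by
    simp only [crx, cr, mpt]; push_cast; ring
  have c2 : crx w (mpt w p) = crx (w.1, -w.2) p := by
    simp only [crx, mpt]; push_cast; ring
  rw [c0] at g2 g4
  have key : ∀ c : Z2, mpt w p = em c → p = em (w.1 - c.1, c.2 - w.2) := by
    intro c hc
    have h1 := congrArg Prod.fst hc
    have h2 := congrArg Prod.snd hc
    simp only [mpt, em] at h1 h2
    ext
    · simp only [em]; push_cast; linarith
    · simp only [em]; push_cast; linarith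
  refine ⟨by rw [c1]; linarith, by rw [c1]; linarith, by rw [c2]; exact g3, by rw [c2]; exact g4,
    fun hc => g7 ?_, fun hc => g8 ?_, fun hc => g5 ?_, fun hc => g6 ?_⟩
  · rw [key _ hc]
    congr 1
    ext <;> simp
  · rw [key _ hc]
    congr 1
    ext
    · show w.1 - V.1 = -V.1 + w.1
      ring
    · show V.2 - w.2 = V.2 + -w.2
      ring
  · rw [key _ hc]
    congr 1
    ext <;> simp
  · rw [key _ hc]
    congr 1
    ext
    · show w.1 - (V.1 + w.1) = -V.1
      ring
    · show V.2 + w.2 - w.2 = V.2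
      ring

/-- the two sides parallel to the core -/
theorem side_pgm {V w : Z2} (hc : 0 < cr V w) {z : Z2} (hz : z = 0 ∨ z = w) {t : ℝ} (h0 : 0 < t)
    (h1 : t < 1) : (((z.1 : ℝ) + t * V.1, (z.2 : ℝ) + t * V.2) : ℝ × ℝ) ∈ Pgm V w := by
  have hc' : (0 : ℝ) < cr V w := by exact_mod_cast hc
  have c1 : crx V (((z.1 : ℝ) + t * V.1, (z.2 : ℝ) + t * V.2) : ℝ × ℝ) = cr V z := by
    simp only [crx, cr]; push_cast; ring
  have c2 : crx w (((z.1 : ℝ) + t * V.1, (z.2 : ℝ) + t * V.2) : ℝ × ℝ) = cr w z - t * cr V w := by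
    simp only [crx, cr]; push_cast; ring
  have n2 : ∀ c : Z2, cr w c = 0 ∨ cr w c = -cr V w → cr w z = 0 →
      (((z.1 : ℝ) + t * V.1, (z.2 : ℝ) + t * V.2) : ℝ × ℝ) ≠ em c := by
    intro c hcc hz0 he
    rw [he, crx_em, hz0] at c2
    push_cast at c2
    rcases hcc with h | h
    · rw [h] at c2
      push_cast at c2
      have : 0 < t * (cr V w : ℝ) := mul_pos h0 hc'
      linarith
    · rw [h] at c2
      push_cast at c2
      nlinarith
  have e1 : cr w z = 0 := by
    rcases hz with h | h <;> rw [h] <;> simp only [cr, Prod.fst_zero, Prod.snd_zero] <;> ring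
  have e2 : cr V z = 0 ∨ cr V z = cr V w := by
    rcases hz with h | h
    · left; rw [h]; simp only [cr, Prod.fst_zero, Prod.snd_zero]; ring
    · right; rw [h]
  refine ⟨?_, ?_, ?_, ?_, n2 0 (Or.inl ?_) e1, n2 V (Or.inr ?_) e1, n2 w (Or.inl ?_) e1,
    n2 (V + w) (Or.inr ?_) e1⟩
  · rw [c1]
    rcases e2 with h | h <;> rw [h]
    · simp
    · exact hc'.le
  · rw [c1]
    rcases e2 with h | h <;> rw [h]
    push_cast
    exact hc'.le
  · rw [c2, e1]
    push_cast
    have : 0 < t * (cr V w : ℝ) := mul_pos h0 hc'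
    linarith
  · rw [c2, e1]
    push_cast
    nlinarith
  · simp only [cr, Prod.fst_zero, Prod.snd_zero]; ring
  · simp only [cr]; ring
  · simp only [cr]; ring
  · simp only [cr, Prod.fst_add, Prod.snd_add]; ring

theorem lab_m {O : PO X} {V w : Z2} (hc : 0 < cr V w) {f : Z2 → X} (hf : Dev O (Pgm V w) f)
    {z : Z2} (hz : z = 0 ∨ z = w) :
    lab O.M (-V.1, V.2) (fun y => f (msq w y)) (w.1 - z.1, z.2 - w.2) =
      O.r.symm ((if V.2 < 0 then O.rho else 1) (lab O V f z)) := by
  have q : ∀ c : Z2, msq w ((w.1 - z.1, z.2 - w.2) - c) = (z.1 - 1 + c.1, z.2 - c.2) := by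
    intro c
    ext
    · show w.1 - 1 - (w.1 - z.1 - c.1) = z.1 - 1 + c.1
      ring
    · show w.2 + (z.2 - w.2 - c.2) = z.2 - c.2
      ring
  have q0 : msq w (w.1 - z.1, z.2 - w.2) = z - (1, 0) := by
    ext
    · show w.1 - 1 - (w.1 - z.1) = z.1 - 1
      ring
    · show w.2 + (z.2 - w.2) = z.2 - 0
      ring
  have q10 : msq w ((w.1 - z.1, z.2 - w.2) - (1, 0)) = z := by
    rw [q]; ext <;> simp
  have q11 : msq w ((w.1 - z.1, z.2 - w.2) - (1, 1)) = z - (0, 1) := by
    rw [q]; ext <;> simp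
  have q01 : msq w ((w.1 - z.1, z.2 - w.2) - (0, 1)) = z - (1, 1) := by
    rw [q]; ext <;> simp
  have hr : ∀ y : X, O.rho (O.r (O.u y)) = O.u (O.r y) := by
    intro y
    show O.u (O.r (O.u.symm (O.r.symm (O.r (O.u y))))) = _
    rw [O.r.symm_apply_apply, O.u.symm_apply_apply]
  have Vne : ¬ (V.1 = 0 ∧ V.2 = 0) := by
    rintro ⟨h1, h2⟩
    simp only [cr, h1, h2] at hc
    simp at hc
  -- the point on the side, for axis parallel cores
  have side : ∀ n : ℤ, 0 < n → (((z.1 : ℝ) + 1 / (2 * n) * V.1,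
      (z.2 : ℝ) + 1 / (2 * n) * V.2) : ℝ × ℝ) ∈ Pgm V w := by
    intro n hn
    have hn' : (1 : ℝ) ≤ n := by exact_mod_cast hn
    refine side_pgm hc hz (by positivity) ?_
    rw [div_lt_one (by linarith)]
    linarith
  unfold lab
  simp only [q0, q10, q11, q01]
  rcases lt_trichotomy V.1 0 with a1 | a1 | a1
  · rcases lt_trichotomy V.2 0 with b1 | b1 | b1
    · -- third quadrant
      rw [if_neg (by omega), if_neg (by omega), if_neg (by omega), if_pos b1, if_neg (by omega),
        if_neg (by omega), if_pos (by omega), hr]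
      rfl
    · -- negative axis
      rw [if_pos (by omega), if_neg (by omega), if_neg (by omega), if_neg (by omega),
        if_pos (by omega)]
      have h1 := hf _ (side (-V.1) (by omega))
      have h2 := h1.2 (z - (1, 1)) ?_ ?_
      · have e : z - (1, 1) + (0, 1) = z - (1, 0) := by ext <;> simp
        rw [e] at h2
        rw [h2]
        exact (O.r.symm_apply_apply _).symm
      all_goals
        have e1 : (1 : ℝ) / (2 * ((-V.1 : ℤ) : ℝ)) * V.1 = -(1 / 2) := by
          have : (V.1 : ℝ) ≠ 0 := by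
            have : (V.1 : ℝ) < 0 := by exact_mod_cast a1
            linarith
          push_cast
          field_simp
        refine ⟨?_, ?_, ?_, ?_⟩ <;> simp only [e1, b1, Prod.fst_sub, Prod.snd_sub, Prod.fst_add,
          Prod.snd_add, Int.cast_zero, mul_zero, add_zero] <;> push_cast <;> linarith
    · -- second quadrant
      rw [if_pos (by omega), if_neg (by omega), if_neg (by omega), if_pos (by omega)]
      exact (O.r.symm_apply_apply _).symm
  · rcases lt_trichotomy V.2 0 with b1 | b1 | b1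
    · -- negative vertical axis
      rw [if_neg (by omega), if_neg (by omega), if_neg (by omega), if_pos b1, if_neg (by omega),
        if_neg (by omega), if_neg (by omega), hr]
      have h1 := hf _ (side (-V.2) (by omega))
      have h2 := h1.1 (z - (1, 1)) ?_ ?_
      · have e : z - (1, 1) + (1, 0) = z - (0, 1) := by ext <;> simp
        rw [e] at h2
        rw [h2]
        show O.r.symm (O.u (O.r (f (z - (1, 1))))) = O.r.symm (O.u (O.r (O.r.symm (O.r (f (z - (1, 1)))))))
        rw [O.r.symm_apply_apply]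
      all_goals
        have e1 : (1 : ℝ) / (2 * ((-V.2 : ℤ) : ℝ)) * V.2 = -(1 / 2) := by
          have : (V.2 : ℝ) ≠ 0 := by
            have : (V.2 : ℝ) < 0 := by exact_mod_cast b1
            linarith
          push_cast
          field_simp
        refine ⟨?_, ?_, ?_, ?_⟩ <;> simp only [e1, a1, Prod.fst_sub, Prod.snd_sub, Prod.fst_add,
          Prod.snd_add, Int.cast_zero, mul_zero, add_zero] <;> push_cast <;> linarith
    · exact absurd ⟨a1, b1⟩ Vne
    · -- positive vertical axis
      rw [if_neg (by omega), if_pos (by omega), if_neg (by omega), if_neg (by omega),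
        if_pos (by omega)]
      have h1 := hf _ (side V.2 (by omega))
      have h2 := h1.1 (z - (1, 0)) ?_ ?_
      · have e : z - (1, 0) + (1, 0) = z := by ext <;> simp
        rw [e] at h2
        rw [h2]
        rfl
      all_goals
        have e1 : (1 : ℝ) / (2 * ((V.2 : ℤ) : ℝ)) * V.2 = 1 / 2 := by
          have : (V.2 : ℝ) ≠ 0 := by
            have : (0 : ℝ) < V.2 := by exact_mod_cast b1
            linarith
          field_simp
        refine ⟨?_, ?_, ?_, ?_⟩ <;> simp only [e1, a1, Prod.fst_sub, Prod.snd_sub, Prod.fst_add,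
          Prod.snd_add, Int.cast_zero, mul_zero, add_zero] <;> push_cast <;> linarith
  · rcases lt_trichotomy V.2 0 with b1 | b1 | b1
    · -- fourth quadrant
      rw [if_neg (by omega), if_neg (by omega), if_pos (by omega), if_pos b1, if_neg (by omega),
        if_neg (by omega), if_neg (by omega), hr]
      show O.r.symm (O.u (f (z - (0, 1)))) = O.r.symm (O.u (O.r (O.r.symm (f (z - (0, 1))))))
      rw [O.r.apply_symm_apply]
    · -- positive axis
      rw [if_neg (by omega), if_neg (by omega), if_pos (by omega), if_neg (by omega),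
        if_pos (by omega)]
      have h1 := hf _ (side V.1 (by omega))
      have h2 := h1.2 (z - (0, 1)) ?_ ?_
      · have e : z - (0, 1) + (0, 1) = z := by ext <;> simp
        rw [e] at h2
        rw [h2]
        rfl
      all_goals
        have e1 : (1 : ℝ) / (2 * ((V.1 : ℤ) : ℝ)) * V.1 = 1 / 2 := by
          have : (V.1 : ℝ) ≠ 0 := by
            have : (0 : ℝ) < V.1 := by exact_mod_cast a1
            linarith
          field_simp
        refine ⟨?_, ?_, ?_, ?_⟩ <;> simp only [e1, b1, Prod.fst_sub, Prod.snd_sub, Prod.fst_add,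
          Prod.snd_add, Int.cast_zero, mul_zero, add_zero] <;> push_cast <;> linarith
    · -- first quadrant
      rw [if_neg (by omega), if_pos (by omega), if_neg (by omega), if_pos (by omega)]
      rfl

/-- the mirror image of a simple cylinder: the angle is kept -/
theorem SC.M {O : PO X} {V w : Z2} {a : ℕ} (hs : SC O V w a) :
    SC O.M (-V.1, V.2) (w.1, -w.2) a := by
  obtain ⟨hc, f, hf, hag, hl, hn⟩ := hs
  have c0 : cr (-V.1, V.2) (w.1, -w.2) = cr V w := by
    simp only [cr]; ring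
  have e0 : ((0 : Z2)) = (w.1 - w.1, w.2 - w.2) := by
    ext <;> simp
  have ew : ((w.1, -w.2) : Z2) = (w.1 - (0 : Z2).1, (0 : Z2).2 - w.2) := by
    ext <;> simp
  have l0 : lab O.M (-V.1, V.2) (fun y => f (msq w y)) 0 =
      O.r.symm ((if V.2 < 0 then O.rho else 1) (lab O V f w)) := by
    rw [e0]; exact lab_m hc hf (Or.inr rfl)
  have lw : lab O.M (-V.1, V.2) (fun y => f (msq w y)) (w.1, -w.2) =
      O.r.symm ((if V.2 < 0 then O.rho else 1) (lab O V f 0)) := by
    rw [ew]; exact lab_m hc hf (Or.inl rfl)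
  have hrs : ∀ (k : ℕ) (y : X), (O.M.rho ^ k) (O.r.symm ((O.rho ^ k) y)) = O.r.symm y := by
    intro k
    induction k with
    | zero => intro y; rfl
    | succ k ih =>
      intro y
      have e1 : (O.rho ^ (k + 1)) y = O.rho ((O.rho ^ k) y) := by rw [pow_succ']; rfl
      have e2 : ∀ v : X, (O.M.rho ^ (k + 1)) v = (O.M.rho ^ k) (O.M.rho v) := by
        intro v
        rw [pow_succ]; rfl
      rw [e1, e2, O.M_rho, O.rho.symm_apply_apply, ih]
  have hcm : ∀ y : X, (if V.2 < 0 then O.rho else 1) ((O.rho ^ a) y) =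
      (O.rho ^ a) ((if V.2 < 0 then O.rho else 1) y) := by
    intro y
    split_ifs
    · rw [← Equiv.Perm.mul_apply, ← Equiv.Perm.mul_apply, (Commute.self_pow O.rho a).eq]
    · rfl
  refine ⟨by rw [c0]; exact hc, fun y => f (msq w y), ?_, ?_, ?_, ?_⟩
  · intro p hp
    exact (hf _ (mpt_pgm hp)).m
  · rintro p ⟨t, t0, t1, rfl⟩ z hz
    have h1 := hag (mpt w ((1 - t) * ((0 : Z2).1 : ℝ) + t * ((w.1, -w.2) : Z2).1,
      (1 - t) * ((0 : Z2).2 : ℝ) + t * ((w.1, -w.2) : Z2).2)) ⟨1 - t, by linarith, by linarith, by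
        ext
        · simp only [mpt]
          simp
          ring
        · simp only [mpt]
          push_cast
          simp
          ring⟩ (msq w z) (nr_m w z _ hz)
    have e1 : msq w (z + (-V.1, V.2)) = msq w z + V := by
      ext
      · show w.1 - 1 - (z.1 + -V.1) = w.1 - 1 - z.1 + V.1
        ring
      · show w.2 + (z.2 + V.2) = w.2 + z.2 + V.2
        ring
    show f (msq w z) = f (msq w (z + (-V.1, V.2)))
    rw [e1]
    exact h1
  · rw [l0, lw, hl, hcm, hrs]
  · rw [lw]
    intro h1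
    apply hn
    rw [O.M_rho] at h1
    have h2 := O.r.symm.injective h1
    rw [Equiv.symm_apply_eq] at h2
    have h3 : O.rho (lab O V f 0) = lab O V f 0 := by
      split_ifs at h2
      · exact (O.rho.injective h2).symm
      · exact h2.symm
    rw [hl] at h3
    have h4 : (O.rho ^ a) (O.rho (lab O V f w)) = (O.rho ^ a) (lab O V f w) := by
      rw [← Equiv.Perm.mul_apply, ← (Commute.self_pow O.rho a).eq]
      exact h3
    exact (O.rho ^ a).injective h4

end Pool.Agent.H4G.Six
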