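import Mathlib.Tactic

/-!
# (G7) Young surfaces: the parameters and the window predicates (helper31)

Pure arithmetic of integers. `YP a b c d e f J I J' I'`: the relations of the parameters of the
Young surface of a minimal pair (`X = a + b + c`, `Y = d + e + f`). `WN, WW, WL, WU`: the
hypotheses of `YT.n5`, `YT.w1`, `YT.lb`, `YT.um`.
-/

set_option autoImplicit false

namespace Pool.Agent.H4G.Six

/-- the relations of the parameters -/
structure YP (a b c d e f J I J' I' : ℤ) : Prop where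
  a0 : 0 < a
  b0 : 0 < b
  c0 : 0 < c
  d0 : 0 < d
  e0 : 0 < e
  f0 : 0 < f
  J0 : 0 < J
  I0 : 0 < I
  J0' : 0 < J'
  I0' : 0 < I'
  r1 : (a + b + c) * e = J * ((a + b) * d)
  r2 : (a + b + c) * f = I * (a * d)
  r3 : (d + e + f) * b = J' * ((d + e) * a)
  r4 : (d + e + f) * c = I' * (d * a)

/-- the transposed parameters -/
theorem YP.tp {a b c d e f J I J' I' : ℤ} (P : YP a b c d e f J I J' I') :
    YP d e f a b c J' I' J I :=
  ⟨P.d0, P.e0, P.f0, P.a0, P.b0, P.c0, P.J0', P.I0', P.J0, P.I0, P.r3, P.r4, P.r1, P.r2⟩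

/-- window `2 1' 2 j j'` (`YT.n5`) -/
def WN (a b _c d e f : ℤ) : Prop :=
  ∃ k E T : ℤ, E = a + b + k * a ∧ T = d + e + f + (d + e) ∧ 0 < E ∧ E * (d + e) < b * T ∧
    b * T < E * (d + 2 * e) ∧ 2 * (E * (d + e)) < (a + b) * T

/-- window `1' 2 j j' 2` (`YT.w1`) -/
def WW (a b _c d e f : ℤ) : Prop :=
  ∃ k E T : ℤ, E = a + b + k * a ∧ T = d + e + f + (d + e) ∧ 0 < E ∧ E * d < b * T ∧
    b * T < E * (d + e) ∧ E * (d + e) < a * T

/-- window `2 j j'` (`YT.lb`) -/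
def WL (a b _c d e f : ℤ) : Prop :=
  ∃ k E T : ℤ, E = a + b + k * a ∧ T = d + e + f ∧ 0 < E ∧ b * T < E * e ∧
    E * (d + e) < (a + b) * T

/-- window `2 j j' 3 ... 3` (`YT.um`) -/
def WU (a b c d e f : ℤ) : Prop :=
  ∃ (k : ℤ) (m : ℕ) (S T : ℤ), 2 ≤ m ∧ S = a + b + c + k * a ∧ T = e + f + m * d ∧ 0 < S ∧
    f * S < k * a * T ∧ k * a * T < (e + f) * S ∧ e * S < a * T ∧ a * T < (d + e) * S ∧
    (k * a + (a + b)) * T < (d + e + f) * S

/-- one of the windows -/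
def Wn (a b c d e f : ℤ) : Prop :=
  WN a b c d e f ∨ WW a b c d e f ∨ WL a b c d e f ∨ WU a b c d e f

end Pool.Agent.H4G.Six
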