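import Pool.Agent.H4G.Six.Ex.Defs
import Pool.Agent.H4G.Six.Recon6

/-!
# (G7, L5) bands of horizontal cylinders, area of the cylinders (helper75)

`Gf O x₀ h` is the development of the horizontal band of height `h` above the row of `x₀`, `Gm O x₀`
the germ of the saddle which starts at the lower left corner of `x₀`. `HS.parBand`: the band above a
saddle is a parallelogram of germs. `HS.area_le`: the squares over the five saddles are different.
-/

set_option autoImplicit false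

namespace Pool.Agent.H4G.Six

open Pool.Agent.H4G

variable {X : Type} {O : PO X}

/-- the band of height `h` above the row of `x₀` -/
def Gf (O : PO X) (x₀ : X) (h : ℕ) (z : Z2) : X :=
  if z.2 < 0 then O.u.symm ((O.r ^ z.1) x₀)
  else if z.2 < h then (O.r ^ z.1) ((O.u ^ z.2) x₀)
  else O.u ((O.r ^ z.1) ((O.u ^ ((h : ℤ) - 1)) x₀))

/-- the germ of the saddle above which `x₀` is the first square -/
def Gm (O : PO X) (x₀ : X) (z : Z2) : X :=
  if z.2 < 0 then O.u.symm ((O.r ^ z.1) x₀) else (O.r ^ z.1) x₀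

theorem zr_succ (n : ℤ) (y : X) : (O.r ^ (n + 1)) y = O.r ((O.r ^ n) y) := by
  rw [add_comm, zpow_add, zpow_one]; rfl

theorem zr_add (m n : ℤ) (y : X) : (O.r ^ (m + n)) y = (O.r ^ m) ((O.r ^ n) y) := by
  rw [zpow_add]; rfl

theorem zu_succ (n : ℤ) (y : X) : (O.u ^ (n + 1)) y = O.u ((O.u ^ n) y) := by
  rw [add_comm, zpow_add, zpow_one]; rfl

/-- a regular lower left corner -/
theorem reg_low {y : X} (h : O.rho (O.r y) = O.r y) : O.r (O.u.symm y) = O.u.symm (O.r y) := by
  have h1 : O.u (O.r (O.u.symm (O.r.symm (O.r y)))) = O.r y := h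
  rw [O.r.symm_apply_apply] at h1
  rw [← h1, O.u.symm_apply_apply]

/-- a regular upper right corner -/
theorem reg_up {y : X} (h : O.rho (O.u (O.r y)) = O.u (O.r y)) : O.u (O.r y) = O.r (O.u y) := by
  have h1 : O.u (O.r (O.u.symm (O.r.symm (O.u (O.r y))))) = O.u (O.r y) := h
  have h2 := O.u.injective h1
  have h3 := O.r.injective h2
  have h4 : O.r.symm (O.u (O.r y)) = O.u y := by
    have h5 := congrArg O.u h3
    rwa [O.u.apply_symm_apply] at h5
  rw [← h4, O.r.apply_symm_apply]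

/-- the rows inside of a band -/
theorem inner_row {x₀ : X} {k : ℕ}
    (hin : ∀ a : ℤ, O.rho ((O.r ^ a) ((O.u ^ (k + 1)) x₀)) = (O.r ^ a) ((O.u ^ (k + 1)) x₀))
    (a : ℤ) : (O.r ^ a) ((O.u ^ (k + 1)) x₀) = O.u ((O.r ^ a) ((O.u ^ k) x₀)) := by
  have h0 : (O.u ^ (k + 1)) x₀ = O.u ((O.u ^ k) x₀) := by
    rw [pow_succ']; rfl
  induction a using Int.induction_on with
  | zero => simpa using h0
  | succ n ih =>
    rw [zr_succ, zr_succ]
    have h1 := reg_low (O := O) (y := (O.r ^ (n : ℤ)) ((O.u ^ (k + 1)) x₀)) (by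
      rw [← zr_succ]; exact hin _)
    rw [ih, O.u.symm_apply_apply] at h1
    rw [ih, h1, O.u.apply_symm_apply]
  | pred n ih =>
    have e : (-(n : ℤ)) = (-(n : ℤ) - 1) + 1 := by ring
    have h1 := reg_low (O := O) (y := (O.r ^ (-(n : ℤ) - 1)) ((O.u ^ (k + 1)) x₀)) (by
      rw [← zr_succ, ← e]; exact hin _)
    rw [← zr_succ, ← e, ih, O.u.symm_apply_apply] at h1
    have h2 : (O.r ^ (-(n : ℤ))) ((O.u ^ k) x₀) = O.r ((O.r ^ (-(n : ℤ) - 1)) ((O.u ^ k) x₀)) := by
      rw [← zr_succ, ← e]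
    rw [h2] at h1
    have h3 := O.r.injective h1
    rw [← h3, O.u.apply_symm_apply]

/-- The band function is a development. -/
theorem band_dev {x₀ : X} {h : ℕ} (hh : 0 < h)
    (inner : ∀ (a : ℤ) (k : ℕ), 0 < k → k < h →
      O.rho ((O.r ^ a) ((O.u ^ k) x₀)) = (O.r ^ a) ((O.u ^ k) x₀)) {p : V} (hp0 : 0 ≤ p.2)
    (hp1 : p.2 ≤ h) (hbot : ∀ n : ℤ, p = em (n, 0) → O.rho ((O.r ^ n) x₀) = (O.r ^ n) x₀)
    (htop : ∀ n : ℤ, p = em (n, h) → O.rho (O.u ((O.r ^ n) ((O.u ^ ((h : ℤ) - 1)) x₀))) =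
      O.u ((O.r ^ n) ((O.u ^ ((h : ℤ) - 1)) x₀))) : DevAt O p (Gf O x₀ h) := by
  constructor
  · rintro z ⟨n1, n2, n3, n4⟩ ⟨m1, m2, m3, m4⟩
    have e1 : p.1 = ((z.1 + 1 : ℤ) : ℝ) := by
      simp only [Prod.fst_add] at m1
      push_cast at m1 ⊢
      linarith
    simp only [Gf, Prod.fst_add, Prod.snd_add, add_zero]
    by_cases c1 : z.2 < 0
    · simp only [c1, if_true]
      have c2 : (z.2 : ℝ) ≤ -1 := by exact_mod_cast (by omega : z.2 ≤ -1)
      have e2 : p.2 = 0 := by linarith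
      have e3 : p = em (z.1 + 1, 0) := Prod.ext e1 (by simpa [em] using e2)
      have h1 := hbot _ e3
      rw [zr_succ] at h1 ⊢
      exact (reg_low h1).symm
    · simp only [c1, if_false]
      by_cases c2 : z.2 < h
      · simp only [c2, if_true]
        exact zr_succ _ _
      · simp only [c2, if_false]
        have c3 : ((h : ℤ) : ℝ) ≤ (z.2 : ℝ) := by exact_mod_cast (by omega : (h : ℤ) ≤ z.2)
        have e2 : p.2 = h := by push_cast at c3; linarith
        have e3 : p = em (z.1 + 1, h) := Prod.ext e1 (by simpa [em] using e2)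
        have h1 := htop _ e3
        rw [zr_succ] at h1 ⊢
        exact reg_up h1
  · rintro z ⟨n1, n2, n3, n4⟩ ⟨m1, m2, m3, m4⟩
    have e1 : p.2 = ((z.2 + 1 : ℤ) : ℝ) := by
      simp only [Prod.snd_add] at m3
      push_cast at m3 ⊢
      linarith
    have k1 : (-1 : ℤ) ≤ z.2 := by
      have : (0 : ℝ) ≤ ((z.2 + 1 : ℤ) : ℝ) := by rw [← e1]; exact hp0
      have : (0 : ℤ) ≤ z.2 + 1 := by exact_mod_cast this
      omega
    have k2 : z.2 + 1 ≤ (h : ℤ) := by
      have : ((z.2 + 1 : ℤ) : ℝ) ≤ ((h : ℤ) : ℝ) := by rw [← e1]; push_cast; exact hp1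
      exact_mod_cast this
    simp only [Gf, Prod.fst_add, Prod.snd_add, add_zero]
    by_cases c1 : z.2 < 0
    · have c2 : z.2 = -1 := by omega
      have c3 : ¬ (z.2 + 1 < 0) := by omega
      have c4 : z.2 + 1 < (h : ℤ) := by omega
      simp only [c1, c3, c4, if_true, if_false]
      rw [c2, O.u.apply_symm_apply]
      simp
    · have c3 : ¬ (z.2 + 1 < 0) := by omega
      have c4 : z.2 < (h : ℤ) := by omega
      by_cases c5 : z.2 + 1 < (h : ℤ)
      · simp only [c1, c3, c4, c5, if_true, if_false]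
        obtain ⟨k, hk⟩ := Int.eq_ofNat_of_zero_le (not_lt.1 c1)
        rw [hk]
        have h1 := inner_row (O := O) (x₀ := x₀) (k := k)
          (fun a => inner a (k + 1) (by omega) (by omega)) z.1
        rw [zpow_natCast, ← h1]
        congr 1
      · have c6 : z.2 = (h : ℤ) - 1 := by omega
        simp only [c1, c3, c4, c5, if_true, if_false]
        rw [c6]

/-! ## Horizontal cylinders -/

section HS

variable {x : ZMod 5 → X} {b : Equiv.Perm (ZMod 5)} {l h : ZMod 5 → ℕ}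

theorem HS.ne_reg (H : HS O x b l h) {i : ZMod 5} {y : X} (hy : O.rho y = y) : x i ≠ y := by
  intro h1
  exact (H.sing (x i)).2 ⟨i, rfl⟩ (by rw [h1]; exact hy)

/-- the lower side of a saddle -/
theorem HS.below (H : HS O x b l h) (j : ZMod 5) {m : ℕ} (hm : m < l j) :
    (O.r ^ (m : ℤ)) (O.u.symm (x j)) = O.u.symm ((O.r ^ (m : ℤ)) (x j)) := by
  induction m with
  | zero => simp
  | succ n ih =>
    have h1 := ih (by omega)
    have e : ((n + 1 : ℕ) : ℤ) = (n : ℤ) + 1 := by push_cast; ring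
    rw [e, zr_succ, zr_succ, h1]
    refine reg_low ?_
    have h2 := H.reg j (n + 1) (by omega) hm
    rw [← zr_succ, ← e, zpow_natCast]
    exact h2

/-- the next saddle of the upper side -/
theorem HS.upRight (H : HS O x b l h) {i j : ZMod 5} {t : ℤ} (hU : Up O x h i j t) :
    Up O x h i (b j + 1) (t + l j) := by
  unfold Up at hU ⊢
  have hl := H.lpos j
  obtain ⟨m, hm⟩ : ∃ m, l j = m + 1 := ⟨l j - 1, by omega⟩
  have e : (t + (l j : ℤ)) = ((m : ℤ) + 1) + t := by rw [hm]; push_cast; ring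
  rw [e, zr_add, hU, zr_succ, H.below j (by omega)]
  have h1 := H.next j
  have h2 := H.rot (b j)
  have e2 : x (b j) = O.r ((O.r ^ (m : ℤ)) (x j)) := by
    rw [← h1, hm, ← zr_succ]
    exact (zpow_natCast O.r (m + 1) ▸ rfl)
  have h3 : x (b j + 1) = O.u (O.r (O.u.symm (O.r.symm (x (b j))))) := h2
  rw [h3, e2, O.r.symm_apply_apply, O.u.symm_apply_apply]

theorem HS.comm (H : HS O x b l h) (i : ZMod 5) {k : ℕ} (hk : k < h i) (a : ℤ) :
    (O.r ^ a) ((O.u ^ k) (x i)) = (O.u ^ k) ((O.r ^ a) (x i)) := by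
  induction k with
  | zero => simp
  | succ n ih =>
    rw [inner_row (fun a => H.inner i a (n + 1) (by omega) hk) a, ih (by omega), pow_succ']
    rfl

/-- horizontal parallelograms -/
theorem pgm_hor {w n : ℕ} (hw : 0 < w) (hn : 0 < n) {t : ℤ} {p : V}
    (hp : p ∈ Pgm ((w : ℤ), 0) (t, (n : ℤ))) : 0 ≤ p.2 ∧ p.2 ≤ n ∧
      (∀ a : ℤ, p = em (a, 0) → 0 < a ∧ a < w) ∧
      (∀ a : ℤ, p = em (a, n) → t < a ∧ a < t + w) := by
  obtain ⟨h1, h2, h3, h4, h5, h6, h7, h8⟩ := hp
  have hw' : (0 : ℝ) < w := by exact_mod_cast hw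
  have hn' : (0 : ℝ) < n := by exact_mod_cast hn
  simp only [crx, cr] at h1 h2 h3 h4
  push_cast at h1 h2 h3 h4
  have k1 : 0 ≤ p.2 := by
    by_contra hneg
    push Not at hneg
    nlinarith
  have k2 : p.2 ≤ n := by
    by_contra hneg
    push Not at hneg
    nlinarith
  refine ⟨k1, k2, ?_, ?_⟩
  · intro a ha
    rw [ha] at h3 h4 h5 h6
    simp only [em] at h3 h4
    push_cast at h3 h4
    have g1 : (0 : ℝ) ≤ a := by
      by_contra hneg
      push Not at hneg
      nlinarith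
    have g2 : (a : ℝ) ≤ w := by
      by_contra hneg
      push Not at hneg
      nlinarith
    have g1' : 0 ≤ a := by exact_mod_cast g1
    have g2' : a ≤ w := by exact_mod_cast g2
    have g3 : a ≠ 0 := fun h => h5 (by rw [h]; rfl)
    have g4 : a ≠ w := fun h => h6 (by rw [h])
    omega
  · intro a ha
    rw [ha] at h3 h4 h7 h8
    simp only [em] at h3 h4
    push_cast at h3 h4
    have g1 : (t : ℝ) ≤ a := by
      by_contra hneg
      push Not at hneg
      nlinarith
    have g2 : (a : ℝ) ≤ t + w := by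
      by_contra hneg
      push Not at hneg
      nlinarith
    have g1' : t ≤ a := by exact_mod_cast g1
    have g2' : a ≤ t + w := by exact_mod_cast g2
    have g3 : a ≠ t := fun h => h7 (by rw [h])
    have g4 : a ≠ t + w := fun h => h8 (by
      rw [h]
      congr 1
      ext <;> simp
      ring)
    omega

theorem natpow_r (n : ℕ) (y : X) : (O.r ^ (n : ℤ)) y = (O.r ^ n) y := by rw [zpow_natCast]

theorem natpow_u (n : ℕ) (y : X) : (O.u ^ (n : ℤ)) y = (O.u ^ n) y := by rw [zpow_natCast]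

theorem toNat_pow {n : ℕ} (hn : 0 < n) (y : X) :
    (O.u ^ ((n : ℤ) - 1)) y = (O.u ^ (n - 1)) y := by
  have e : (n : ℤ) - 1 = ((n - 1 : ℕ) : ℤ) := by omega
  rw [e, natpow_u]

/-- the upper side of a band -/
theorem HS.above (H : HS O x b l h) {i j : ZMod 5} {t : ℤ} (hU : Up O x h i j t) {m : ℕ}
    (hm : m < l j) : (O.r ^ (t + m)) ((O.u ^ ((h i : ℤ) - 1)) (x i)) =
      O.u.symm ((O.r ^ (m : ℤ)) (x j)) := by
  rw [toNat_pow (H.hpos i), add_comm, zr_add]
  unfold Up at hU
  rw [hU, H.below j hm]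

/-- the band function on a shorter cylinder, from another saddle of the same row -/
theorem HS.shift (H : HS O x b l h) (i : ZMod 5) {z : Z2} (h0 : 0 ≤ z.2) (h1 : z.2 < h i) :
    Gf O (x i) (h i) (z + ((l i : ℤ), 0)) = Gf O (x (b i)) (h i) z := by
  have c1 : ¬ (z.2 < 0) := by omega
  simp only [Gf, Prod.fst_add, Prod.snd_add, add_zero, c1, h1, if_true, if_false]
  obtain ⟨k, hk⟩ := Int.eq_ofNat_of_zero_le h0
  have hk' : k < h i := by omega
  have hk'' : k < h (b i) := by rw [H.hb]; exact hk'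
  have e : (O.u ^ z.2) = (O.u ^ k) := by rw [hk]; exact zpow_natCast _ _
  rw [e, H.comm i hk', H.comm (b i) hk'', zr_add, natpow_r, H.next i]

/-- The band above a saddle is a parallelogram of germs. -/
theorem HS.parBand (H : HS O x b l h) {i j : ZMod 5} {t : ℤ} (hU : Up O x h i j t)
    (hl : l i = l j) : Par O ((l i : ℤ), 0) (t, (h i : ℤ)) (Gm O (x i)) (Gf O (x (b i)) (h i))
      (Gm O (x j)) (Gf O (x i) (h i)) := by
  have hli := H.lpos i
  have hhi := H.hpos i
  have hli' : (0 : ℝ) < l i := by exact_mod_cast hli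
  have hhi' : (0 : ℝ) < h i := by exact_mod_cast hhi
  refine ⟨?_, Gf O (x i) (h i), ?_, ?_, ?_, ?_, ag_refl _ _⟩
  · simp only [cr]
    have : (0 : ℤ) < (l i : ℤ) * (h i : ℤ) := by positivity
    simpa using this
  · intro p hp
    obtain ⟨k1, k2, k3, k4⟩ := pgm_hor hli hhi hp
    refine band_dev hhi (H.inner i) k1 k2 ?_ ?_
    · intro n hn
      obtain ⟨g1, g2⟩ := k3 n hn
      obtain ⟨m, hm⟩ := Int.eq_ofNat_of_zero_le g1.le
      subst hm
      have := H.reg i m (by omega) (by omega)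
      rw [natpow_r]
      exact this
    · intro n hn
      obtain ⟨g1, g2⟩ := k4 n hn
      obtain ⟨m, hm⟩ := Int.eq_ofNat_of_zero_le (sub_nonneg.2 g1.le)
      have e : n = t + m := by omega
      rw [e, H.above hU (by omega), O.u.apply_symm_apply, natpow_r]
      exact H.reg j m (by omega) (by omega)
  · rintro p ⟨c, c0, c1, rfl⟩ z ⟨n1, n2, n3, n4⟩
    simp only [Prod.fst_zero, Prod.snd_zero, Int.cast_zero, mul_zero, add_zero, zero_add]
      at n1 n2 n3 n4
    simp only [Gf, Gm]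
    by_cases c1 : z.2 < 0
    · simp only [c1, if_true]
    · have c2 : z.2 ≤ 0 := by exact_mod_cast n3
      have c3 : z.2 < (h i : ℤ) := by omega
      have c4 : z.2 = 0 := by omega
      simp only [c1, c3, if_true, if_false]
      rw [c4]
      simp
  · rintro p ⟨c, c0, c1, rfl⟩ z ⟨n1, n2, n3, n4⟩
    simp only [Prod.fst_add, Prod.snd_add, Int.cast_zero, zero_add, mul_zero] at n1 n2 n3 n4
    push_cast at n1 n2 n3 n4
    have g1 : (z.2 : ℝ) < h i := by nlinarith
    have g2 : (-1 : ℝ) < z.2 := by nlinarith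
    have g1' : z.2 < (h i : ℤ) := by exact_mod_cast g1
    have g2' : 0 ≤ z.2 := by
      have : (-1 : ℤ) < z.2 := by exact_mod_cast g2
      omega
    have h1 := H.shift i (z := z - ((l i : ℤ), 0)) (by simpa using g2') (by simpa using g1')
    rw [sub_add_cancel] at h1
    exact h1
  · rintro p ⟨c, c0, c1, rfl⟩ z ⟨n1, n2, n3, n4⟩
    simp only [Prod.fst_add, Prod.snd_add] at n1 n2 n3 n4
    push_cast at n1 n2 n3 n4
    have e2 : (1 - c) * (h i : ℝ) + c * ((h i : ℝ) + 0) = h i := by ring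
    rw [e2] at n3 n4
    have g3 : (z.2 : ℝ) ≤ ((h i : ℤ) : ℝ) := by push_cast; exact n3
    have g4 : ((h i : ℤ) : ℝ) ≤ ((z.2 + 1 : ℤ) : ℝ) := by push_cast; exact n4
    have g3' : z.2 ≤ (h i : ℤ) := by exact_mod_cast g3
    have g4' : (h i : ℤ) ≤ z.2 + 1 := by exact_mod_cast g4
    have e1 : (1 - c) * (t : ℝ) + c * ((t : ℝ) + l i) = t + c * l i := by ring
    rw [e1] at n1 n2
    have g1 : (t : ℝ) < ((z.1 + 1 : ℤ) : ℝ) := by push_cast; nlinarith
    have g2 : (z.1 : ℝ) < ((t + l i : ℤ) : ℝ) := by push_cast; nlinarith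
    have g1' : t < z.1 + 1 := by exact_mod_cast g1
    have g2' : z.1 < t + l i := by exact_mod_cast g2
    obtain ⟨m, hm⟩ := Int.eq_ofNat_of_zero_le (show 0 ≤ z.1 - t by omega)
    have ez : z.1 = t + m := by omega
    have hml : m < l j := by omega
    have h1 := H.above hU hml
    simp only [Gf, sh, Gm, Prod.fst_sub, Prod.snd_sub]
    have c1 : ¬ (z.2 < 0) := by omega
    rcases eq_or_lt_of_le g3' with c2 | c2
    · have c3 : ¬ (z.2 < (h i : ℤ)) := by omega
      have c4 : ¬ (z.2 - (h i : ℤ) < 0) := by omega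
      simp only [c1, c3, c4, if_false]
      rw [hm, ez, h1, O.u.apply_symm_apply]
    · have c4 : z.2 - (h i : ℤ) < 0 := by omega
      simp only [c1, c2, c4, if_true, if_false]
      have e3 : z.2 = (h i : ℤ) - 1 := by omega
      rw [hm, ez, e3, h1]

/-! ## Area -/

/-- The squares over the five saddles are different. -/
theorem HS.square_inj (H : HS O x b l h) {i i' : ZMod 5} {m k m' k' : ℕ} (hm : m < l i)
    (hk : k < h i) (hm' : m' < l i') (hk' : k' < h i')
    (he : (O.u ^ k) ((O.r ^ m) (x i)) = (O.u ^ k') ((O.r ^ m') (x i'))) :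
    i = i' ∧ m = m' ∧ k = k' := by
  have key : ∀ {i i' : ZMod 5} {m k m' k' : ℕ}, m < l i → k < h i → m' < l i' → k' < h i' →
      k ≤ k' → (O.u ^ k) ((O.r ^ m) (x i)) = (O.u ^ k') ((O.r ^ m') (x i')) → k = k' := by
    intro i i' m k m' k' _ _ _ hk' hkk he
    by_contra hne
    have hlt : k < k' := lt_of_le_of_ne hkk hne
    obtain ⟨d, rfl⟩ : ∃ d, k' = k + (d + 1) := ⟨k' - k - 1, by omega⟩
    rw [pow_add] at he
    have h1 : (O.r ^ m) (x i) = (O.u ^ (d + 1)) ((O.r ^ m') (x i')) := (O.u ^ k).injective he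
    rw [← natpow_r m', ← H.comm i' (k := d + 1) (by omega)] at h1
    have h2 : x i = (O.r ^ (-(m : ℤ) + m')) ((O.u ^ (d + 1)) (x i')) := by
      rw [zr_add, ← h1, ← natpow_r m, ← zr_add]
      simp
    exact H.ne_reg (H.inner i' (-(m : ℤ) + m') (d + 1) (by omega) (by omega)) h2
  have key2 : ∀ {i i' : ZMod 5} {m m' : ℕ}, m < l i → m' < l i' → m ≤ m' →
      (O.r ^ m) (x i) = (O.r ^ m') (x i') → i = i' ∧ m = m' := by
    intro i i' m m' _ hm' hmm he
    obtain ⟨d, rfl⟩ : ∃ d, m' = m + d := ⟨m' - m, by omega⟩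
    rw [pow_add] at he
    have h1 : x i = (O.r ^ d) (x i') := (O.r ^ m).injective he
    rcases Nat.eq_zero_or_pos d with hd | hd
    · subst hd
      exact ⟨H.inj (by simpa using h1), rfl⟩
    · exact absurd h1 (H.ne_reg (H.reg i' d hd (by omega)))
  have hkk : k = k' := by
    rcases le_total k k' with h1 | h1
    · exact key hm hk hm' hk' h1 he
    · exact (key hm' hk' hm hk h1 he.symm).symm
  subst hkk
  have h2 : (O.r ^ m) (x i) = (O.r ^ m') (x i') := (O.u ^ k).injective he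
  rcases le_total m m' with h1 | h1
  · obtain ⟨h3, h4⟩ := key2 hm hm' h1 h2
    exact ⟨h3, h4, rfl⟩
  · obtain ⟨h3, h4⟩ := key2 hm' hm h1 h2.symm
    exact ⟨h3.symm, h4.symm, rfl⟩

theorem HS.area_le [Finite X] (H : HS O x b l h) : ∑ i, l i * h i ≤ Nat.card X := by
  let F : ((i : ZMod 5) × (Fin (l i) × Fin (h i))) → X :=
    fun s => (O.u ^ (s.2.2 : ℕ)) ((O.r ^ (s.2.1 : ℕ)) (x s.1))
  have hF : Function.Injective F := by
    rintro ⟨i, m, k⟩ ⟨i', m', k'⟩ he
    obtain ⟨h1, h2, h3⟩ := H.square_inj m.2 k.2 m'.2 k'.2 he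
    subst h1
    have h2' : m = m' := Fin.ext h2
    have h3' : k = k' := Fin.ext h3
    rw [h2', h3']
  have h1 := Nat.card_le_card_of_injective F hF
  rw [Nat.card_eq_fintype_card, Fintype.card_sigma] at h1
  simpa only [Fintype.card_prod, Fintype.card_fin] using h1

end HS

end Pool.Agent.H4G.Six
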