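import Pool.Agent.H4G.Six.Ex.YTDefs
import Pool.Agent.H4G.Six.Ex.Band

/-!
# (G7) the transposed Young surface (helper2)

`YT.tp`: if `O` is the Young surface with columns `a, b, c` and rows `d, e, f`, then the transposed
origami `O.tp = (u, r)` is the Young surface with columns `d, e, f` and rows `a, b, c`. The five
squares with singular lower left corner are the same, in reversed order.
-/

set_option autoImplicit false

namespace Pool.Agent.H4G.Six

open Pool.Agent.H4G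

variable {X : Type} {O : PO X} {x : ZMod 5 → X} {B : Equiv.Perm (ZMod 5)} {l h : ZMod 5 → ℕ}

theorem tp_rho (O : PO X) : O.tp.rho = O.rho⁻¹ := by
  simp only [PO.rho, PO.tp]
  group

theorem tp_fix (O : PO X) (y : X) : O.tp.rho y = y ↔ O.rho y = y := by
  rw [tp_rho]
  constructor
  · intro h1
    exact (Equiv.Perm.inv_eq_iff_eq.1 h1).symm
  · intro h1
    exact Equiv.Perm.inv_eq_iff_eq.2 h1.symm

/-- going left along the lower side -/
theorem HS.upLeft' (H : HS O x B l h) {i j : ZMod 5} {t : ℤ} (hU : Up O x h i j t) :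
    Up O x h (B i) j (t - l i) := by
  unfold Up at hU ⊢
  have hk : h i - 1 < h i := by have := H.hpos i; omega
  have hk' : h (B i) - 1 < h (B i) := by have := H.hpos (B i); omega
  rw [H.comm (B i) hk', H.hb, ← H.next i, ← natpow_r, ← zr_add, sub_add_cancel, ← H.comm i hk, hU]

/-- one step up inside of a band -/
theorem HS.step (H : HS O x B l h) {i : ZMod 5} {y : ℕ} (hy : y + 1 < h i) (m : ℤ) :
    O.u ((O.r ^ m) ((O.u ^ y) (x i))) = (O.r ^ m) ((O.u ^ (y + 1)) (x i)) := by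
  rw [H.comm i (by omega), H.comm i hy, pow_succ']
  rfl

/-- one step up from the last row of a band -/
theorem HS.stepTop (H : HS O x B l h) {i j : ZMod 5} {t : ℤ} (hU : Up O x h i j t) {m : ℕ}
    (hm : m < l j) {s : ℤ} (hs : s = t + m) :
    O.u ((O.r ^ s) ((O.u ^ (h i - 1)) (x i))) = (O.r ^ (m : ℤ)) (x j) := by
  have h1 := H.above hU hm
  rw [toNat_pow (H.hpos i)] at h1
  rw [hs, h1, O.u.apply_symm_apply]

/-- a set of squares closed under `u` and its inverse -/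
theorem closed_u {P : X → Prop} (h1 : ∀ y, P y → P (O.u y)) (h2 : ∀ y, P y → P (O.u.symm y))
    {y : X} (hy : P y) (m : ℤ) : P ((O.u ^ m) y) := by
  induction m using Int.induction_on with
  | zero => simpa using hy
  | succ n ih =>
    have e : (O.u ^ ((n : ℤ) + 1)) y = O.u ((O.u ^ (n : ℤ)) y) := zu_succ _ _
    rw [e]
    exact h1 _ ih
  | pred n ih =>
    have e : (O.u ^ (-(n : ℤ) - 1)) y = O.u.symm ((O.u ^ (-(n : ℤ))) y) := by
      rw [Equiv.eq_symm_apply, ← zu_succ, sub_add_cancel]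
    rw [e]
    exact h2 _ ih

section

variable {n : ZMod 5} {a b c d e f : ℕ} (T : YTx O x B l h n a b c d e f)

include T

theorem YTx.pos : 0 < a ∧ 0 < b ∧ 0 < c ∧ 0 < d ∧ 0 < e ∧ 0 < f := by
  refine ⟨?_, ?_, ?_, ?_, ?_, ?_⟩
  · rw [← T.l0]; exact T.H.lpos _
  · rw [← T.l1]; exact T.H.lpos _
  · rw [← T.l4]; exact T.H.lpos _
  · rw [← T.h1]; exact T.H.hpos _
  · rw [← T.h3]; exact T.H.hpos _
  · rw [← T.h0]; exact T.H.hpos _

theorem YTx.na : (O.r ^ a) (x (n + 2)) = x (n + 1) := by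
  rw [← T.B2, ← T.H.next, T.l2]

theorem YTx.nb : (O.r ^ b) (x (n + 1)) = x (n + 4) := by
  rw [← T.B1, ← T.H.next, T.l1]

theorem YTx.nc : (O.r ^ c) (x (n + 4)) = x (n + 2) := by
  rw [← T.B4, ← T.H.next, T.l4]

/-- the saddle `3` above `j'` -/
theorem YTx.up23 : Up O x h (n + 2) (n + 4) (a + b : ℕ) := by
  have h1 := T.H.upRight T.up2
  rw [T.B3, T.l3, zero_add, add_assoc] at h1
  exact h1

theorem YTx.up12 : Up O x h (n + 1) (n + 3) (-(a : ℤ)) := by
  have h1 := T.H.upLeft' T.up2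
  rw [T.B2, T.l2, zero_sub] at h1
  exact h1

theorem YTx.up44 : Up O x h (n + 4) (n + 4) 0 := by
  have h1 := T.H.upLeft' (T.H.upLeft' T.up23)
  rw [T.B2, T.l2, T.B1, T.l1] at h1
  have e1 : ((a + b : ℕ) : ℤ) - a - b = 0 := by push_cast; ring
  rwa [e1] at h1

/-- the saddle `1'` above `2` -/
theorem YTx.up31 : Up O x h (n + 3) (n + 1) a := by
  have h1 := T.H.upRight T.up3
  rw [T.B0, T.l0, zero_add] at h1
  exact h1

/-- the columns `0 < k < a` -/
theorem YTx.colA {k : ℕ} (hk : 0 < k) (hka : k < a) {i : ZMod 5}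
    (hi : i = n + 2 ∨ i = n + 3 ∨ i = n) (m : ℤ) :
    O.rho ((O.u ^ m) ((O.r ^ k) (x i))) = (O.u ^ m) ((O.r ^ k) (x i)) := by
  have H := T.H
  obtain ⟨pa, pb, pc, pd, pe, pf⟩ := T.pos
  set P : X → Prop := fun z => ∃ i : ZMod 5, (i = n + 2 ∨ i = n + 3 ∨ i = n) ∧ ∃ y : ℕ, y < h i ∧
    z = (O.r ^ (k : ℤ)) ((O.u ^ y) (x i)) with hP
  have hll : ∀ i : ZMod 5, (i = n + 2 ∨ i = n + 3 ∨ i = n) → k < l i := by
    rintro i (rfl | rfl | rfl)
    · rw [T.l2]; exact hka
    · rw [T.l3]; omega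
    · rw [T.l0]; exact hka
  have hreg : ∀ z, P z → O.rho z = z := by
    rintro z ⟨i, hi, y, hy, rfl⟩
    rcases Nat.eq_zero_or_pos y with h0 | h0
    · subst h0
      rw [natpow_r]
      exact H.reg i k hk (hll i hi)
    · exact H.inner i k y h0 hy
  have nxt : ∀ i : ZMod 5, (i = n + 2 ∨ i = n + 3 ∨ i = n) →
      ∃ j : ZMod 5, (j = n + 2 ∨ j = n + 3 ∨ j = n) ∧ Up O x h i j 0 := by
    rintro i (rfl | rfl | rfl)
    · exact ⟨n + 3, Or.inr (Or.inl rfl), T.up2⟩
    · exact ⟨n, Or.inr (Or.inr rfl), T.up3⟩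
    · exact ⟨i + 2, Or.inl rfl, T.up0⟩
  have prv : ∀ j : ZMod 5, (j = n + 2 ∨ j = n + 3 ∨ j = n) →
      ∃ i : ZMod 5, (i = n + 2 ∨ i = n + 3 ∨ i = n) ∧ Up O x h i j 0 := by
    rintro j (rfl | rfl | rfl)
    · exact ⟨n, Or.inr (Or.inr rfl), T.up0⟩
    · exact ⟨n + 2, Or.inl rfl, T.up2⟩
    · exact ⟨j + 3, Or.inr (Or.inl rfl), T.up3⟩
  refine hreg _ (closed_u (P := P) ?_ ?_ ⟨i, hi, 0, H.hpos i, by rw [natpow_r]; rfl⟩ m)
  · rintro z ⟨i, hi, y, hy, rfl⟩
    by_cases hc : y + 1 < h i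
    · exact ⟨i, hi, y + 1, hc, H.step hc _⟩
    · obtain ⟨j, hj, hU⟩ := nxt i hi
      refine ⟨j, hj, 0, H.hpos j, ?_⟩
      rw [show y = h i - 1 by omega, H.stepTop hU (hll j hj) (by rw [zero_add])]
      rfl
  · rintro z ⟨i, hi, y, hy, rfl⟩
    rcases Nat.eq_zero_or_pos y with h0 | h0
    · subst h0
      obtain ⟨j, hj, hU⟩ := prv i hi
      refine ⟨j, hj, h j - 1, by have := H.hpos j; omega, ?_⟩
      rw [Equiv.symm_apply_eq, H.stepTop hU (hll i hi) (by rw [zero_add])]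
      rfl
    · obtain ⟨y', rfl⟩ : ∃ y', y = y' + 1 := ⟨y - 1, by omega⟩
      refine ⟨i, hi, y', by omega, ?_⟩
      rw [Equiv.symm_apply_eq, H.step hy]

/-- the columns `a + k`, `0 < k < b` -/
theorem YTx.colB {k : ℕ} (hk : 0 < k) (hkb : k < b) (m : ℤ) :
    O.rho ((O.u ^ m) ((O.r ^ k) (x (n + 1)))) = (O.u ^ m) ((O.r ^ k) (x (n + 1))) := by
  have H := T.H
  obtain ⟨pa, pb, pc, pd, pe, pf⟩ := T.pos
  have q1 : k < l (n + 1) := by rw [T.l1]; exact hkb
  have q3 : a + k < l (n + 3) := by rw [T.l3]; omega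
  set P : X → Prop := fun z =>
    (∃ y : ℕ, y < h (n + 1) ∧ z = (O.r ^ (k : ℤ)) ((O.u ^ y) (x (n + 1)))) ∨
    (∃ y : ℕ, y < h (n + 3) ∧ z = (O.r ^ ((a + k : ℕ) : ℤ)) ((O.u ^ y) (x (n + 3)))) with hP
  have hreg : ∀ z, P z → O.rho z = z := by
    rintro z (⟨y, hy, rfl⟩ | ⟨y, hy, rfl⟩)
    · rcases Nat.eq_zero_or_pos y with h0 | h0
      · subst h0
        rw [natpow_r]
        exact H.reg _ k hk q1
      · exact H.inner _ k y h0 hy
    · rcases Nat.eq_zero_or_pos y with h0 | h0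
      · subst h0
        rw [natpow_r]
        exact H.reg _ (a + k) (by omega) q3
      · exact H.inner _ _ y h0 hy
  refine hreg _ (closed_u (P := P) ?_ ?_ (Or.inl ⟨0, H.hpos _, by rw [natpow_r]; rfl⟩) m)
  · rintro z (⟨y, hy, rfl⟩ | ⟨y, hy, rfl⟩)
    · by_cases hc : y + 1 < h (n + 1)
      · exact Or.inl ⟨y + 1, hc, H.step hc _⟩
      · refine Or.inr ⟨0, H.hpos _, ?_⟩
        rw [show y = h (n + 1) - 1 by omega, H.stepTop T.up12 q3 (by push_cast; ring)]
        rfl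
    · by_cases hc : y + 1 < h (n + 3)
      · exact Or.inr ⟨y + 1, hc, H.step hc _⟩
      · refine Or.inl ⟨0, H.hpos _, ?_⟩
        rw [show y = h (n + 3) - 1 by omega, H.stepTop T.up31 q1 (by push_cast; ring)]
        rfl
  · rintro z (⟨y, hy, rfl⟩ | ⟨y, hy, rfl⟩)
    · rcases Nat.eq_zero_or_pos y with h0 | h0
      · subst h0
        refine Or.inr ⟨h (n + 3) - 1, by have := H.hpos (n + 3); omega, ?_⟩
        rw [Equiv.symm_apply_eq, H.stepTop T.up31 q1 (by push_cast; ring)]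
        rfl
      · obtain ⟨y', rfl⟩ : ∃ y', y = y' + 1 := ⟨y - 1, by omega⟩
        refine Or.inl ⟨y', by omega, ?_⟩
        rw [Equiv.symm_apply_eq, H.step hy]
    · rcases Nat.eq_zero_or_pos y with h0 | h0
      · subst h0
        refine Or.inl ⟨h (n + 1) - 1, by have := H.hpos (n + 1); omega, ?_⟩
        rw [Equiv.symm_apply_eq, H.stepTop T.up12 q3 (by push_cast; ring)]
        rfl
      · obtain ⟨y', rfl⟩ : ∃ y', y = y' + 1 := ⟨y - 1, by omega⟩
        refine Or.inr ⟨y', by omega, ?_⟩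
        rw [Equiv.symm_apply_eq, H.step hy]

/-- the columns `a + b + k`, `0 < k < c` -/
theorem YTx.colC {k : ℕ} (hk : 0 < k) (hkc : k < c) (m : ℤ) :
    O.rho ((O.u ^ m) ((O.r ^ k) (x (n + 4)))) = (O.u ^ m) ((O.r ^ k) (x (n + 4))) := by
  have H := T.H
  obtain ⟨pa, pb, pc, pd, pe, pf⟩ := T.pos
  have q4 : k < l (n + 4) := by rw [T.l4]; exact hkc
  set P : X → Prop := fun z =>
    ∃ y : ℕ, y < h (n + 4) ∧ z = (O.r ^ (k : ℤ)) ((O.u ^ y) (x (n + 4))) with hP
  have hreg : ∀ z, P z → O.rho z = z := by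
    rintro z ⟨y, hy, rfl⟩
    rcases Nat.eq_zero_or_pos y with h0 | h0
    · subst h0
      rw [natpow_r]
      exact H.reg _ k hk q4
    · exact H.inner _ k y h0 hy
  refine hreg _ (closed_u (P := P) ?_ ?_ ⟨0, H.hpos _, by rw [natpow_r]; rfl⟩ m)
  · rintro z ⟨y, hy, rfl⟩
    by_cases hc : y + 1 < h (n + 4)
    · exact ⟨y + 1, hc, H.step hc _⟩
    · refine ⟨0, H.hpos _, ?_⟩
      rw [show y = h (n + 4) - 1 by omega, H.stepTop T.up44 q4 (by rw [zero_add])]
      rfl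
  · rintro z ⟨y, hy, rfl⟩
    rcases Nat.eq_zero_or_pos y with h0 | h0
    · subst h0
      refine ⟨h (n + 4) - 1, by have := H.hpos (n + 4); omega, ?_⟩
      rw [Equiv.symm_apply_eq, H.stepTop T.up44 q4 (by rw [zero_add])]
      rfl
    · obtain ⟨y', rfl⟩ : ∃ y', y = y' + 1 := ⟨y - 1, by omega⟩
      refine ⟨y', by omega, ?_⟩
      rw [Equiv.symm_apply_eq, H.step hy]

/-! ### Vertical saddles -/

omit T in
/-- going up through a band -/
theorem HS.riser (H : HS O x B l h) {i j : ZMod 5} {t : ℤ} (hU : Up O x h i j t) {m : ℕ}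
    (hm : m < l j) {s : ℤ} (hs : s = t + m) :
    (O.u ^ h i) ((O.r ^ s) (x i)) = (O.r ^ (m : ℤ)) (x j) := by
  have hk : h i - 1 < h i := by have := H.hpos i; omega
  have e : h i = (h i - 1) + 1 := by omega
  rw [← H.stepTop hU hm hs, H.comm i hk]
  conv_lhs => rw [e, pow_succ']
  rfl

theorem YTx.v2 : (O.u ^ d) (x (n + 2)) = x (n + 3) := by
  have h1 := T.H.riser T.up2 (m := 0) (T.H.lpos _) (s := 0) rfl
  rw [T.h2] at h1
  simpa using h1

theorem YTx.v3 : (O.u ^ e) (x (n + 3)) = x n := by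
  have h1 := T.H.riser T.up3 (m := 0) (T.H.lpos _) (s := 0) rfl
  rw [T.h3] at h1
  simpa using h1

theorem YTx.v0 : (O.u ^ f) (x n) = x (n + 2) := by
  have h1 := T.H.riser T.up0 (m := 0) (T.H.lpos _) (s := 0) rfl
  rw [T.h0] at h1
  simpa using h1

theorem YTx.v4 : (O.u ^ d) (x (n + 4)) = x (n + 4) := by
  have h1 := T.H.riser T.up44 (m := 0) (T.H.lpos _) (s := 0) rfl
  rw [T.h4] at h1
  simpa using h1

theorem YTx.v1a : (O.u ^ d) (x (n + 1)) = (O.r ^ (a : ℤ)) (x (n + 3)) := by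
  obtain ⟨pa, pb, pc, pd, pe, pf⟩ := T.pos
  have h1 := T.H.riser T.up12 (m := a) (by rw [T.l3]; omega) (s := 0) (by ring)
  rw [T.h1] at h1
  simpa using h1

theorem YTx.v1 : (O.u ^ (d + e)) (x (n + 1)) = x (n + 1) := by
  have h1 := T.H.riser T.up31 (m := 0) (T.H.lpos _) (s := a) (by simp)
  rw [T.h3] at h1
  rw [add_comm, pow_add]
  show (O.u ^ e) ((O.u ^ d) (x (n + 1))) = _
  rw [T.v1a, h1]
  simp

end

/-! ### The transposed structure -/

theorem five (n i : ZMod 5) : i = n ∨ i = n + 1 ∨ i = n + 2 ∨ i = n + 3 ∨ i = n + 4 := by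
  revert n i
  decide

/-- a function on the saddles given by its values at `n, n + 1, ..., n + 4` -/
def pk (n : ZMod 5) (v0 v1 v2 v3 v4 : ℕ) (i : ZMod 5) : ℕ :=
  if i = n then v0 else if i = n + 1 then v1 else if i = n + 2 then v2
  else if i = n + 3 then v3 else v4

section

variable (n : ZMod 5) (v0 v1 v2 v3 v4 : ℕ)

theorem pk0 : pk n v0 v1 v2 v3 v4 n = v0 := by simp [pk]

theorem pk1 : pk n v0 v1 v2 v3 v4 (n + 1) = v1 := by
  have e1 : n + 1 ≠ n := by revert n; decide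
  simp only [pk, e1, if_false, if_true]

theorem pk2 : pk n v0 v1 v2 v3 v4 (n + 2) = v2 := by
  have e1 : n + 2 ≠ n := by revert n; decide
  have e2 : n + 2 ≠ n + 1 := by revert n; decide
  simp only [pk, e1, e2, if_false, if_true]

theorem pk3 : pk n v0 v1 v2 v3 v4 (n + 3) = v3 := by
  have e1 : n + 3 ≠ n := by revert n; decide
  have e2 : n + 3 ≠ n + 1 := by revert n; decide
  have e3 : n + 3 ≠ n + 2 := by revert n; decide
  simp only [pk, e1, e2, e3, if_false, if_true]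

theorem pk4 : pk n v0 v1 v2 v3 v4 (n + 4) = v4 := by
  have e1 : n + 4 ≠ n := by revert n; decide
  have e2 : n + 4 ≠ n + 1 := by revert n; decide
  have e3 : n + 4 ≠ n + 2 := by revert n; decide
  have e4 : n + 4 ≠ n + 3 := by revert n; decide
  simp only [pk, e1, e2, e3, e4, if_false]

end

/-- the permutation of the transposed surface -/
def tB (n n' : ZMod 5) (B : Equiv.Perm (ZMod 5)) : Equiv.Perm (ZMod 5) :=
  (Equiv.subRight (n' - n)).trans (B.trans (Equiv.addRight (n' - n)))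

theorem tB_add (n n' : ZMod 5) (B : Equiv.Perm (ZMod 5)) (k : ZMod 5) :
    tB n n' B (n' + k) = B (n + k) + (n' - n) := by
  show B (n' + k - (n' - n)) + (n' - n) = _
  congr 2
  ring

theorem ng0 (n : ZMod 5) : -(1 - n) = n + 4 := by revert n; decide
theorem ng1 (n : ZMod 5) : -(1 - n + 1) = n + 3 := by revert n; decide
theorem ng2 (n : ZMod 5) : -(1 - n + 2) = n + 2 := by revert n; decide
theorem ng3 (n : ZMod 5) : -(1 - n + 3) = n + 1 := by revert n; decide
theorem ng4 (n : ZMod 5) : -(1 - n + 4) = n := by revert n; decide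

theorem tB0 {n : ZMod 5} (h : B n = n) : tB n (1 - n) B (1 - n) = 1 - n := by
  have := tB_add n (1 - n) B 0
  rw [add_zero, add_zero, h] at this
  rw [this]
  ring

theorem tB1 {n : ZMod 5} (h : B (n + 1) = n + 4) : tB n (1 - n) B (1 - n + 1) = 1 - n + 4 := by
  rw [tB_add, h]
  ring

theorem tB2 {n : ZMod 5} (h : B (n + 2) = n + 1) : tB n (1 - n) B (1 - n + 2) = 1 - n + 1 := by
  rw [tB_add, h]
  ring

theorem tB3 {n : ZMod 5} (h : B (n + 3) = n + 3) : tB n (1 - n) B (1 - n + 3) = 1 - n + 3 := by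
  rw [tB_add, h]
  ring

theorem tB4 {n : ZMod 5} (h : B (n + 4) = n + 2) : tB n (1 - n) B (1 - n + 4) = 1 - n + 2 := by
  rw [tB_add, h]
  ring

theorem YTx.tp {n : ZMod 5} {a b c d e f : ℕ} (T : YTx O x B l h n a b c d e f) :
    YTx O.tp (fun i => x (-i)) (tB n (1 - n) B) (pk (1 - n) d e d (d + e) f)
      (pk (1 - n) c a a b a) (1 - n) d e f a b c := by
  have H := T.H
  obtain ⟨pa, pb, pc, pd, pe, pf⟩ := T.pos
  have b0 := tB0 T.B0
  have b1 := tB1 T.B1
  have b2 := tB2 T.B2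
  have b3 := tB3 T.B3
  have b4 := tB4 T.B4
  have u2 : Up O.tp (fun i => x (-i)) (pk (1 - n) c a a b a) (1 - n + 2) (1 - n + 3) 0 := by
    show (O.u ^ (0 : ℤ)) ((O.r ^ (pk (1 - n) c a a b a (1 - n + 2) - 1)) (x (-(1 - n + 2)))) =
      O.r.symm (x (-(1 - n + 3)))
    rw [pk2, ng2, ng3, zpow_zero, Equiv.eq_symm_apply, ← T.na]
    obtain ⟨a', rfl⟩ : ∃ a', a = a' + 1 := ⟨a - 1, by omega⟩
    rw [Nat.add_sub_cancel, pow_succ']
    rfl
  have u3 : Up O.tp (fun i => x (-i)) (pk (1 - n) c a a b a) (1 - n + 3) (1 - n) 0 := by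
    show (O.u ^ (0 : ℤ)) ((O.r ^ (pk (1 - n) c a a b a (1 - n + 3) - 1)) (x (-(1 - n + 3)))) =
      O.r.symm (x (-(1 - n)))
    rw [pk3, ng3, ng0, zpow_zero, Equiv.eq_symm_apply, ← T.nb]
    obtain ⟨b', rfl⟩ : ∃ b', b = b' + 1 := ⟨b - 1, by omega⟩
    rw [Nat.add_sub_cancel, pow_succ']
    rfl
  have u0 : Up O.tp (fun i => x (-i)) (pk (1 - n) c a a b a) (1 - n) (1 - n + 2) 0 := by
    show (O.u ^ (0 : ℤ)) ((O.r ^ (pk (1 - n) c a a b a (1 - n) - 1)) (x (-(1 - n)))) =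
      O.r.symm (x (-(1 - n + 2)))
    rw [pk0, ng0, ng2, zpow_zero, Equiv.eq_symm_apply, ← T.nc]
    obtain ⟨c', rfl⟩ : ∃ c', c = c' + 1 := ⟨c - 1, by omega⟩
    rw [Nat.add_sub_cancel, pow_succ']
    rfl
  -- the squares `r ^ (a - 1) x2` and `r ^ (a - 1) xj` in the column `a - 1`
  have ra : (O.r ^ (a - 1)) (x (n + 2)) = O.r.symm (x (n + 1)) := by
    rw [Equiv.eq_symm_apply, ← T.na]
    obtain ⟨a', rfl⟩ : ∃ a', a = a' + 1 := ⟨a - 1, by omega⟩
    rw [Nat.add_sub_cancel, pow_succ']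
    rfl
  have c2 : (O.u ^ d) ((O.r ^ (a - 1)) (x (n + 2))) = (O.r ^ (a - 1)) (x (n + 3)) := by
    have h1 := H.riser T.up2 (m := a - 1) (by rw [T.l3]; omega) (s := ((a - 1 : ℕ) : ℤ))
      (by rw [zero_add])
    rw [T.h2, natpow_r, natpow_r] at h1
    exact h1
  have c3 : (O.u ^ e) ((O.r ^ (a - 1)) (x (n + 3))) = (O.r ^ (a - 1)) (x n) := by
    have h1 := H.riser T.up3 (m := a - 1) (by rw [T.l0]; omega) (s := ((a - 1 : ℕ) : ℤ))
      (by rw [zero_add])
    rw [T.h3, natpow_r, natpow_r] at h1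
    exact h1
  refine
    { H := ?_
      B0 := b0
      B1 := b1
      B2 := b2
      B3 := b3
      B4 := b4
      l0 := pk0 _ _ _ _ _ _
      l1 := pk1 _ _ _ _ _ _
      l2 := pk2 _ _ _ _ _ _
      l3 := pk3 _ _ _ _ _ _
      l4 := pk4 _ _ _ _ _ _
      h0 := pk0 _ _ _ _ _ _
      h1 := pk1 _ _ _ _ _ _
      h2 := pk2 _ _ _ _ _ _
      h3 := pk3 _ _ _ _ _ _
      h4 := pk4 _ _ _ _ _ _
      up2 := u2
      up3 := u3
      up0 := u0 }
  refine
    { rot := ?_
      inj := ?_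
      sing := ?_
      lpos := ?_
      next := ?_
      reg := ?_
      hpos := ?_
      hb := ?_
      inner := ?_
      top := ?_ }
  · intro i
    show x (-(i + 1)) = O.tp.rho (x (-i))
    have h1 := H.rot (-(i + 1))
    rw [show -(i + 1) + 1 = -i by ring] at h1
    rw [h1, tp_rho]
    exact (O.rho.symm_apply_apply _).symm
  · intro i j hij
    exact neg_injective (H.inj hij)
  · intro y
    rw [Ne, tp_fix, ← Ne, H.sing]
    constructor
    · rintro ⟨i, hi⟩
      exact ⟨-i, by simpa using hi⟩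
    · rintro ⟨i, hi⟩
      exact ⟨-i, hi⟩
  · intro i
    rcases five (1 - n) i with h | h | h | h | h <;> subst h
    · rw [pk0]; exact pd
    · rw [pk1]; exact pe
    · rw [pk2]; exact pd
    · rw [pk3]; omega
    · rw [pk4]; exact pf
  · intro i
    show (O.u ^ _) (x (-i)) = x (-(tB n (1 - n) B i))
    rcases five (1 - n) i with h | h | h | h | h <;> subst h
    · rw [pk0, b0, ng0]; exact T.v4
    · rw [pk1, b1, ng1, ng4]; exact T.v3
    · rw [pk2, b2, ng2, ng1]; exact T.v2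
    · rw [pk3, b3, ng3]; exact T.v1
    · rw [pk4, b4, ng4, ng2]; exact T.v0
  · intro i k hk hkl
    rw [tp_fix]
    show O.rho ((O.u ^ k) (x (-i))) = (O.u ^ k) (x (-i))
    have inn : ∀ j : ZMod 5, k < h j → O.rho ((O.u ^ k) (x j)) = (O.u ^ k) (x j) := by
      intro j hj
      have := H.inner j 0 k hk hj
      simpa using this
    rcases five (1 - n) i with h' | h' | h' | h' | h' <;> subst h'
    · rw [pk0] at hkl
      rw [ng0]
      exact inn _ (by rw [T.h4]; exact hkl)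
    · rw [pk1] at hkl
      rw [ng1]
      exact inn _ (by rw [T.h3]; exact hkl)
    · rw [pk2] at hkl
      rw [ng2]
      exact inn _ (by rw [T.h2]; exact hkl)
    · rw [pk3] at hkl
      rw [ng3]
      rcases lt_or_ge k d with hkd | hkd
      · exact inn _ (by rw [T.h1]; exact hkd)
      · obtain ⟨y, rfl⟩ : ∃ y, k = y + d := ⟨k - d, by omega⟩
        rw [pow_add]
        show O.rho ((O.u ^ y) ((O.u ^ d) (x (n + 1)))) = (O.u ^ y) ((O.u ^ d) (x (n + 1)))
        have hy : y < h (n + 3) := by rw [T.h3]; omega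
        rw [T.v1a, ← H.comm _ hy]
        rcases Nat.eq_zero_or_pos y with h0 | h0
        · subst h0
          rw [natpow_r]
          exact H.reg _ a pa (by rw [T.l3]; omega)
        · exact H.inner _ _ y h0 hy
    · rw [pk4] at hkl
      rw [ng4]
      exact inn _ (by rw [T.h0]; exact hkl)
  · intro i
    rcases five (1 - n) i with h | h | h | h | h <;> subst h
    · rw [pk0]; exact pc
    · rw [pk1]; exact pa
    · rw [pk2]; exact pa
    · rw [pk3]; exact pb
    · rw [pk4]; exact pa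
  · intro i
    rcases five (1 - n) i with h | h | h | h | h <;> subst h
    · rw [b0]
    · rw [b1, pk4, pk1]
    · rw [b2, pk1, pk2]
    · rw [b3]
    · rw [b4, pk2, pk4]
  · intro i m k hk hkl
    rw [tp_fix]
    show O.rho ((O.u ^ m) ((O.r ^ k) (x (-i)))) = (O.u ^ m) ((O.r ^ k) (x (-i)))
    rcases five (1 - n) i with h' | h' | h' | h' | h' <;> subst h'
    · rw [pk0] at hkl
      rw [ng0]
      exact T.colC hk hkl m
    · rw [pk1] at hkl
      rw [ng1]
      exact T.colA hk hkl (Or.inr (Or.inl rfl)) m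
    · rw [pk2] at hkl
      rw [ng2]
      exact T.colA hk hkl (Or.inl rfl) m
    · rw [pk3] at hkl
      rw [ng3]
      exact T.colB hk hkl m
    · rw [pk4] at hkl
      rw [ng4]
      exact T.colA hk hkl (Or.inr (Or.inr rfl)) m
  · intro i
    rcases five (1 - n) i with h' | h' | h' | h' | h' <;> subst h'
    · exact ⟨_, _, u0⟩
    · refine ⟨1 - n + 3, -(d : ℤ), ?_⟩
      show (O.u ^ (-(d : ℤ))) ((O.r ^ (pk (1 - n) c a a b a (1 - n + 1) - 1)) (x (-(1 - n + 1)))) =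
        O.r.symm (x (-(1 - n + 3)))
      rw [pk1, ng1, ng3, ← ra, ← c2, zpow_neg, zpow_natCast]
      exact (O.u ^ d).symm_apply_apply _
    · exact ⟨_, _, u2⟩
    · exact ⟨_, _, u3⟩
    · refine ⟨1 - n + 3, -((d + e : ℕ) : ℤ), ?_⟩
      show (O.u ^ (-((d + e : ℕ) : ℤ))) ((O.r ^ (pk (1 - n) c a a b a (1 - n + 4) - 1))
        (x (-(1 - n + 4)))) = O.r.symm (x (-(1 - n + 3)))
      rw [pk4, ng4, ng3, ← ra, ← c3, ← c2, zpow_neg, zpow_natCast]
      have e1 : (O.u ^ e) ((O.u ^ d) ((O.r ^ (a - 1)) (x (n + 2)))) =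
          (O.u ^ (d + e)) ((O.r ^ (a - 1)) (x (n + 2))) := by
        rw [add_comm d e, pow_add]
        rfl
      rw [e1]
      exact (O.u ^ (d + e)).symm_apply_apply _

/-- **The transposed Young surface.** -/
theorem YT.tp {a b c d e f : ℕ} (h : YT O a b c d e f) : YT O.tp d e f a b c := by
  obtain ⟨x, B, l, h', n, T⟩ := h
  exact ⟨_, _, _, _, _, T.tp⟩

end Pool.Agent.H4G.Six
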