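import Pool.Agent.H4G.Six.Ex.Low
import Pool.Agent.H4G.Six.Ex.YoungT
import Pool.Agent.H4G.Six.Ex.YoungP
import Pool.Agent.H4G.Six.Ex.Mir
import Pool.Agent.H4G.Six.Fin6

/-!
# (G7, L5b) from the tower to the Young surface (helper75)

* `PO.sh O k`: the shear `(x, y) ↦ (x + k y, y)`; `HS.sh`, `Up.sh`;
* `NoTwo`, `MinD`: no simple cylinder of angle `2`, minimal area `D` of a pair of simple cylinders,
  in the whole orbit; `NoTwo.M`, `MinD.M`: the same for the mirror image;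
* `TQ.fin`: a tower with a minimal pair is, after a shear, a Young surface, with all relations.
-/

set_option autoImplicit false

namespace Pool.Agent.H4G.Six

open Pool.Agent.H4G

variable {X : Type} {O : PO X} {x : ZMod 5 → X} {b : Equiv.Perm (ZMod 5)} {l h : ZMod 5 → ℕ}

/-! ## Shears -/

/-- the sheared origami -/
def PO.sh (O : PO X) (k : ℤ) : PO X := ⟨O.r, O.u * O.r ^ (-k)⟩

theorem PO.sh_zero (O : PO X) : O.sh 0 = O := by
  cases O
  simp [PO.sh]

theorem PO.sh_T (O : PO X) (k : ℤ) : (O.sh k).T = O.sh (k + 1) := by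
  have e : O.r ^ (-(k + 1)) = O.r ^ (-k) * O.r⁻¹ := by
    rw [← zpow_neg_one, ← zpow_add]
    congr 1
    ring
  simp only [PO.sh, PO.T, e, mul_assoc]

theorem sle6_sh (O : PO X) (k : ℤ) : SLE6 O (O.sh k) := by
  have st : ∀ k : ℤ, SLE6 (O.sh k) (O.sh (k + 1)) := by
    intro k
    rw [← PO.sh_T]
    exact Relation.EqvGen.rel _ _ (Step6.T _)
  induction k using Int.induction_on with
  | zero => rw [PO.sh_zero]; exact SLE6.refl O
  | succ n ih => exact ih.trans (st _)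
  | pred n ih =>
    have h1 := st (-(n : ℤ) - 1)
    rw [sub_add_cancel] at h1
    exact ih.trans h1.symm

theorem sh_rho (O : PO X) (k : ℤ) : (O.sh k).rho = O.rho := by
  simp only [PO.rho, PO.sh]
  rw [zpow_neg]
  group

theorem sh_us (O : PO X) (k : ℤ) (y : X) : (O.sh k).u.symm y = (O.r ^ k) (O.u.symm y) := by
  rw [Equiv.symm_apply_eq]
  show y = O.u ((O.r ^ (-k)) ((O.r ^ k) (O.u.symm y)))
  rw [← zr_add, neg_add_cancel]
  simp

theorem HS.sh_pow (H : HS O x b l h) (k : ℤ) (i : ZMod 5) {m : ℕ} (hm : m < h i) :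
    ((O.sh k).u ^ m) (x i) = (O.r ^ (-k * m)) ((O.u ^ m) (x i)) := by
  induction m with
  | zero => simp
  | succ m ih =>
    have e1 : ((O.sh k).u ^ (m + 1)) (x i) = O.u ((O.r ^ (-k)) (((O.sh k).u ^ m) (x i))) := by
      rw [pow_succ']; rfl
    rw [e1, ih (by omega), ← zr_add, H.strip1 i _ m hm]
    congr 2
    push_cast
    ring

/-- the horizontal data of the shear -/
theorem HS.sh (H : HS O x b l h) (k : ℤ) : HS (O.sh k) x b l h where
  rot i := by rw [sh_rho]; exact H.rot i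
  inj := H.inj
  sing y := by rw [sh_rho]; exact H.sing y
  lpos := H.lpos
  next := H.next
  reg i m h0 h1 := by rw [sh_rho]; exact H.reg i m h0 h1
  hpos := H.hpos
  hb := H.hb
  inner i a m h0 h1 := by
    rw [sh_rho, H.sh_pow k i h1]
    have h2 := H.inner i (a + -k * m) m h0 h1
    rw [zr_add] at h2
    exact h2
  top i := by
    obtain ⟨j, t, ht⟩ := H.top i
    refine ⟨j, t + k * h i, ?_⟩
    have hp := H.hpos i
    rw [H.sh_pow k i (by omega), sh_us, ← ht]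
    show (O.r ^ (t + k * (h i : ℤ))) ((O.r ^ (-k * ((h i - 1 : ℕ) : ℤ))) _) = _
    rw [← zr_add, ← zr_add]
    congr 2
    push_cast [Nat.cast_sub (show 1 ≤ h i by omega)]
    ring

theorem Up.sh (H : HS O x b l h) {i j : ZMod 5} {t : ℤ} (hu : Up O x h i j t) (k : ℤ) :
    Up (O.sh k) x h i j (t + k * h i) := by
  have hp := H.hpos i
  unfold Up at hu ⊢
  rw [H.sh_pow k i (by omega), sh_us, ← hu]
  show (O.r ^ (t + k * (h i : ℤ))) ((O.r ^ (-k * ((h i - 1 : ℕ) : ℤ))) _) = _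
  rw [← zr_add, ← zr_add]
  congr 2
  push_cast [Nat.cast_sub (show 1 ≤ h i by omega)]
  ring

/-! ## The transposed origami -/

theorem trans_tp (hO : O.Trans) : O.tp.Trans := fun S h1 h2 h3 => hO S h1 h3 h2

theorem path_tp {y z : X} {w : Z2} (hw : Path6 O y w z) : Path6 O.tp y (w.2, w.1) z := by
  induction hw with
  | refl => exact Path6.refl _
  | right _ ih => exact Path6.cast ih.up (by ext <;> simp)
  | left _ ih => exact Path6.cast ih.down (by ext <;> simp)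
  | up _ ih => exact Path6.cast ih.right (by ext <;> simp)
  | down _ ih => exact Path6.cast ih.left (by ext <;> simp)

theorem prim_tp (hp : O.Prim) : O.tp.Prim := fun y w => path_tp (hp y (w.2, w.1))

/-! ## The mirror image and the orbit -/

theorem SLE6.M {O O' : PO X} (hs : SLE6 O O') : SLE6 O.M O'.M := by
  induction hs with
  | rel O O' hs =>
    cases hs with
    | T =>
      have e : (O.T.M).T = O.M := by
        simp only [PO.T, PO.M, inv_inv]
        rw [inv_mul_cancel_right]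
      have h1 : SLE6 O.T.M O.T.M.T := Relation.EqvGen.rel _ _ (Step6.T _)
      rw [e] at h1
      exact h1.symm
    | J =>
      have e : (O.J.M).J = O.M := by
        simp only [PO.J, PO.M, inv_inv]
      have h1 : SLE6 O.J.M O.J.M.J := Relation.EqvGen.rel _ _ (Step6.J _)
      rw [e] at h1
      exact h1.symm
    | iso _ e he =>
      refine SLE6.iso (e := e) ⟨?_, he.u⟩
      intro y
      show e (O.r⁻¹ y) = O'.r⁻¹ (e y)
      have h1 := he.r (O.r⁻¹ y)
      rw [show O.r (O.r⁻¹ y) = y from O.r.apply_symm_apply y] at h1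
      rw [h1]
      exact (O'.r.symm_apply_apply _).symm
  | refl _ => exact SLE6.refl _
  | symm _ _ _ ih => exact ih.symm
  | trans _ _ _ _ _ ih1 ih2 => exact ih1.trans ih2

/-- no simple cylinder of angle `2` in the orbit -/
def NoTwo (O : PO X) : Prop := ∀ O', SLE6 O O' → ∀ V w, ¬ SC O' V w 2

/-- the areas of the pairs of simple cylinders in the orbit are at least `D` -/
def MinD (O : PO X) (D : ℤ) : Prop := ∀ O', SLE6 O O' → ∀ V w V' w' d d', SC O' V w d →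
  SC O' V' w' d' → cr V V' ≠ 0 → D ≤ |cr V V'|

theorem NoTwo.of {O O' : PO X} (hn : NoTwo O) (hs : SLE6 O O') : NoTwo O' :=
  fun O'' h1 => hn O'' (hs.trans h1)

theorem MinD.of {O O' : PO X} {D : ℤ} (hn : MinD O D) (hs : SLE6 O O') : MinD O' D :=
  fun O'' h1 => hn O'' (hs.trans h1)

theorem NoTwo.M {O : PO X} (hn : NoTwo O) : NoTwo O.M := by
  intro O' h1 V w hs
  have h2 := h1.M
  rw [PO.M_M] at h2
  exact hn _ h2 _ _ hs.M

theorem MinD.M {O : PO X} {D : ℤ} (hn : MinD O D) : MinD O.M D := by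
  intro O' h1 V w V' w' d d' s s' hne
  have h2 := h1.M
  rw [PO.M_M] at h2
  have e : cr (-V.1, V.2) (-V'.1, V'.2) = -cr V V' := by
    simp only [cr]; ring
  have h3 := hn _ h2 _ _ _ _ _ _ s.M s'.M (by rw [e]; exact neg_ne_zero.2 hne)
  rw [e, abs_neg] at h3
  exact h3

theorem tp_eq (O : PO X) : O.tp = O.J.M := by
  simp only [PO.tp, PO.J, PO.M, inv_inv]

theorem NoTwo.tp {O : PO X} (hn : NoTwo O) : NoTwo O.tp := by
  rw [tp_eq]
  exact (hn.of (Relation.EqvGen.rel _ _ (Step6.J O))).M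

theorem MinD.tp {O : PO X} {D : ℤ} (hn : MinD O D) : MinD O.tp D := by
  rw [tp_eq]
  exact (hn.of (Relation.EqvGen.rel _ _ (Step6.J O))).M

/-! ## The Young surface -/

/-- the tower of a Young surface -/
theorem YTx.twr {n : ZMod 5} {a' b' c' d' e' f' : ℕ} (Y : YTx O x b l h n a' b' c' d' e' f') :
    TQ O x b l h (n + 3) := by
  have e1 : n + 3 + 1 = n + 4 := Twr.e34 n
  have e2 : n + 3 + 2 = n := by
    have : (3 : ZMod 5) + 2 = 0 := by decide
    rw [add_assoc, this, add_zero]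
  have e3 : n + 3 + 3 = n + 1 := by
    have : (3 : ZMod 5) + 3 = 1 := by decide
    rw [add_assoc, this]
  have e4 : n + 3 + 4 = n + 2 := by
    have : (3 : ZMod 5) + 4 = 2 := by decide
    rw [add_assoc, this]
  exact ⟨Y.H, Y.B3, by rw [e1, e4, Y.B4], by rw [e2, Y.B0], by rw [e3, e1, Y.B1],
    by rw [e4, e3, Y.B2], ⟨_, by rw [e4]; exact Y.up2⟩, ⟨_, by rw [e2]; exact Y.up3⟩,
    ⟨_, by rw [e2, e4]; exact Y.up0⟩, by rw [e3, e4, Y.l3, Y.l1, Y.l2, add_comm],
    by rw [e2, e4, Y.l0, Y.l2]⟩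

/-- Bezout for three numbers -/
theorem dvd_of_gcd3 {d e f : ℕ} (hg : Nat.gcd (Nat.gcd d e) f = 1) {p : ℤ}
    (h1 : (d : ℤ) ∣ p * e) (h2 : (d : ℤ) ∣ p * f) : (d : ℤ) ∣ p := by
  have b1 := Int.gcd_eq_gcd_ab (d : ℤ) (e : ℤ)
  have b2 := Int.gcd_eq_gcd_ab ((Nat.gcd d e : ℕ) : ℤ) (f : ℤ)
  rw [Int.gcd_natCast_natCast, hg] at b2
  rw [Int.gcd_natCast_natCast] at b1
  have h0 : (d : ℤ) ∣ p * (Nat.gcd d e : ℕ) := by
    rw [b1, mul_add, ← mul_assoc, ← mul_assoc, mul_comm p (d : ℤ), mul_assoc]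
    exact dvd_add (dvd_mul_right _ _) (dvd_mul_of_dvd_left h1 _)
  have h3 : p = p * ((1 : ℕ) : ℤ) := by simp
  rw [h3, b2, mul_add, ← mul_assoc, ← mul_assoc]
  exact dvd_add (dvd_mul_of_dvd_left h0 _) (dvd_mul_of_dvd_left h2 _)

variable {a : ZMod 5}

/-- the gcd in the form used for the bounded case -/
theorem gcd3_form {d e f : ℕ} (hg : Nat.gcd (Nat.gcd d e) f = 1) (g : ℤ) (h1 : g ∣ (d : ℤ))
    (h2 : g ∣ (e : ℤ)) (h3 : g ∣ (f : ℤ)) : g ∣ 1 := by
  have k1 : g.natAbs ∣ d := Int.natAbs_dvd_natAbs.2 h1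
  have k2 : g.natAbs ∣ e := Int.natAbs_dvd_natAbs.2 h2
  have k3 : g.natAbs ∣ f := Int.natAbs_dvd_natAbs.2 h3
  have k4 := Nat.dvd_gcd (Nat.dvd_gcd k1 k2) k3
  rw [hg] at k4
  exact Int.natAbs_dvd_natAbs.1 k4

theorem TQ.gcd1 (hO : O.Trans) (hp : O.Prim) (T : TQ O x b l h a) :
    Nat.gcd (Nat.gcd (h (a + 4)) (h a)) (h (a + 2)) = 1 := by
  refine T.hs.gcd_h hO hp (fun i => ?_)
  rw [T.h_eq i]
  have h3 : TQ.cB (i - a) = 0 ∨ TQ.cB (i - a) = 1 ∨ TQ.cB (i - a) = 2 := by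
    generalize TQ.cB (i - a) = c
    revert c; decide
  rcases h3 with h3 | h3 | h3 <;> rw [h3]
  · exact (Nat.gcd_dvd_left _ _).trans (Nat.gcd_dvd_left _ _)
  · exact (Nat.gcd_dvd_left _ _).trans (Nat.gcd_dvd_right _ _)
  · exact Nat.gcd_dvd_right _ _

/-- the tower with parallel offsets is a sheared Young surface -/
theorem TQ.shear (hO : O.Trans) (hp : O.Prim) (T : TQ O x b l h a) {p n c : ℤ}
    (hu : Up O x h (a + 4) a p) (hn : Up O x h a (a + 2) n) (hc : Up O x h (a + 2) (a + 4) c)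
    (e1 : p * h a = h (a + 4) * n) (e2 : c * h (a + 4) = h (a + 2) * p) :
    ∃ k : ℤ, YT (O.sh k) (l (a + 4)) (l (a + 3)) (l (a + 1)) (h (a + 4)) (h a) (h (a + 2)) := by
  have hh4 : (h (a + 4) : ℤ) ≠ 0 := by
    have := T.hs.hpos (a + 4)
    omega
  obtain ⟨k, hk⟩ : (h (a + 4) : ℤ) ∣ p :=
    dvd_of_gcd3 (T.gcd1 hO hp) ⟨n, e1⟩ ⟨c, by rw [mul_comm, ← e2, mul_comm]⟩
  have hnk : n = k * h a := by
    apply mul_left_cancel₀ hh4
    rw [← e1, hk]; ring
  have hck : c = k * h (a + 2) := by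
    apply mul_right_cancel₀ hh4
    rw [e2, hk]; ring
  have w5 : a + 2 + 1 = a + 3 := Twr.e23 a
  have w6 : a + 2 + 2 = a + 4 := by
    have : (2 : ZMod 5) + 2 = 4 := by decide
    rw [add_assoc, this]
  have w7 : a + 2 + 3 = a := by
    have : (2 : ZMod 5) + 3 = 0 := by decide
    rw [add_assoc, this, add_zero]
  have w8 : a + 2 + 4 = a + 1 := by
    have : (2 : ZMod 5) + 4 = 1 := by decide
    rw [add_assoc, this]
  have u1 := hu.sh T.hs (-k)
  have u2 := hn.sh T.hs (-k)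
  have u3 := hc.sh T.hs (-k)
  rw [show p + -k * (h (a + 4) : ℤ) = 0 by rw [hk]; ring] at u1
  rw [show n + -k * (h a : ℤ) = 0 by rw [hnk]; ring] at u2
  rw [show c + -k * (h (a + 2) : ℤ) = 0 by rw [hck]; ring] at u3
  refine ⟨-k, x, b, l, h, a + 2, ⟨T.hs.sh _, T.b2, by rw [w5, w8, T.b3], by rw [w6, w5, T.b4],
    by rw [w7, T.b0], by rw [w8, w6, T.b1], T.l2, by rw [w5], by rw [w6],
    by rw [w7, T.l0, add_comm], by rw [w8], rfl, by rw [w5, T.h3], by rw [w6], by rw [w7],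
    by rw [w8, T.h1], by rw [w6, w7]; exact u1, by rw [w7]; exact u2, by rw [w6]; exact u3⟩⟩

/-- **(1.5)** A tower with a minimal pair and without cylinder of angle `2` is a Young surface
after a shear, and all relations hold. -/
theorem TQ.fin [Finite X] (hO : O.Trans) (hp : O.Prim) (T : TQ O x b l h a) (h2 : NoTwo O)
    (hm : MinD O ((l (a + 4) : ℤ) * h (a + 4))) :
    ∃ (O1 : PO X) (J I J' I' : ℤ), SLE6 O O1 ∧
      YT O1 (l (a + 4)) (l (a + 3)) (l (a + 1)) (h (a + 4)) (h a) (h (a + 2)) ∧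
      YT O1.tp (h (a + 4)) (h a) (h (a + 2)) (l (a + 4)) (l (a + 3)) (l (a + 1)) ∧
      YP (l (a + 4)) (l (a + 3)) (l (a + 1)) (h (a + 4)) (h a) (h (a + 2)) J I J' I' ∧
      l (a + 3) * h a ≤ l (a + 4) * h (a + 4) ∧
      Nat.gcd (Nat.gcd (l (a + 4)) (l (a + 3))) (l (a + 1)) = 1 ∧
      Nat.gcd (Nat.gcd (h (a + 4)) (h a)) (h (a + 2)) = 1 := by
  obtain ⟨c1, ⟨J, J0, hJ⟩, ⟨I, I0, hI⟩, hle⟩ := T.young (h2 O (SLE6.refl O)) (hm O (SLE6.refl O))
  obtain ⟨p, hu⟩ := T.uW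
  obtain ⟨n, c, hn, hc, e1, e2⟩ := c1 p hu
  obtain ⟨k, hY⟩ := T.shear hO hp hu hn hc e1 e2
  have hs := sle6_sh O k
  have hO1 : (O.sh k).Trans := hs.trans_iff.1 hO
  have hp1 : (O.sh k).Prim := hs.prim.1 hp
  have hYt := hY.tp
  obtain ⟨x', b', l', h', n', Y⟩ := hYt
  have T' := Y.twr
  have w1 : n' + 3 + 1 = n' + 4 := Twr.e34 n'
  have w2 : n' + 3 + 2 = n' := by
    have : (3 : ZMod 5) + 2 = 0 := by decide
    rw [add_assoc, this, add_zero]
  have w3 : n' + 3 + 3 = n' + 1 := by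
    have : (3 : ZMod 5) + 3 = 1 := by decide
    rw [add_assoc, this]
  have w4 : n' + 3 + 4 = n' + 2 := by
    have : (3 : ZMod 5) + 4 = 2 := by decide
    rw [add_assoc, this]
  have hm' : MinD (O.sh k).tp ((l' (n' + 3 + 4) : ℤ) * h' (n' + 3 + 4)) := by
    rw [w4, Y.l2, Y.h2, mul_comm]
    exact (hm.of hs).tp
  have h2' : NoTwo (O.sh k).tp := (h2.of hs).tp
  obtain ⟨-, ⟨J', J0', hJ'⟩, ⟨I', I0', hI'⟩, -⟩ :=
    T'.young (h2' _ (SLE6.refl _)) (hm' _ (SLE6.refl _))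
  have g' := T'.gcd1 (trans_tp hO1) (prim_tp hp1)
  rw [w1, Y.l3, Y.l4, Y.h3, w4, Y.h2] at hJ'
  rw [w1, w2, w4, Y.l3, Y.l4, Y.h0, Y.l2, Y.h2] at hI'
  rw [w4, w2, Y.h2, Y.h3, Y.h0] at g'
  rw [T.l0] at hJ hI
  refine ⟨O.sh k, J, I, J', I', hs, hY, ⟨x', b', l', h', n', Y⟩, ?_, hle, g', T.gcd1 hO hp⟩
  have q1 := T.hs.lpos (a + 4)
  have q2 := T.hs.lpos (a + 3)
  have q3 := T.hs.lpos (a + 1)
  have q4 := T.hs.hpos (a + 4)
  have q5 := T.hs.hpos a
  have q6 := T.hs.hpos (a + 2)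
  refine ⟨by omega, by omega, by omega, by omega, by omega, by omega, by omega, by omega,
    by omega, by omega, ?_, ?_, ?_, ?_⟩
  · have := congrArg (Nat.cast : ℕ → ℤ) hJ
    push_cast at this
    linarith
  · have := congrArg (Nat.cast : ℕ → ℤ) hI
    push_cast at this
    linarith
  · have := congrArg (Nat.cast : ℕ → ℤ) hJ'
    push_cast at this
    linarith
  · have := congrArg (Nat.cast : ℕ → ℤ) hI'
    push_cast at this
    linarith

end Pool.Agent.H4G.Six
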