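import Pool.Agent.H4G.Six.Ex.YoungP

/-!
# (G7) Young surfaces: the bounded case (helper2)

If `X ≤ 64 a` and `Y ≤ 64 d`, then the area is at most `2 ^ 120`.
-/

set_option autoImplicit false

namespace Pool.Agent.H4G.Six

theorem bez3 {a b c : ℤ} (h : ∀ g : ℤ, g ∣ a → g ∣ b → g ∣ c → g ∣ 1) :
    ∃ x y z : ℤ, x * a + y * b + z * c = 1 := by
  have h1 := Int.gcd_eq_gcd_ab b c
  have h2 := Int.gcd_eq_gcd_ab a (Int.gcd b c : ℤ)
  set g : ℤ := (Int.gcd a (Int.gcd b c : ℤ) : ℤ) with hg
  have ga : g ∣ a := Int.gcd_dvd_left ..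
  have gbc : g ∣ (Int.gcd b c : ℤ) := Int.gcd_dvd_right ..
  have gb : g ∣ b := gbc.trans (Int.gcd_dvd_left ..)
  have gc : g ∣ c := gbc.trans (Int.gcd_dvd_right ..)
  obtain ⟨k, hk⟩ := h g ga gb gc
  set p := Int.gcdA a (Int.gcd b c : ℤ)
  set q := Int.gcdB a (Int.gcd b c : ℤ)
  set r := Int.gcdA b c
  set s := Int.gcdB b c
  refine ⟨k * p, k * q * r, k * q * s, ?_⟩
  rw [hk, h2, h1]
  ring

/-- half of the facts -/
theorem YP.facts {a b c d e f J I J' I' : ℤ} (P : YP a b c d e f J I J' I')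
    (g2 : ∀ g : ℤ, g ∣ d → g ∣ e → g ∣ f → g ∣ 1) : ∃ p : ℤ, 0 < p ∧ a + b + c = p * d ∧
      p * e = J * (a + b) ∧ p * f = I * a := by
  obtain ⟨x, y, z, hb⟩ := bez3 g2
  have hd := P.d0
  have e1 : a + b + c = (x * (a + b + c) + y * (J * (a + b)) + z * (I * a)) * d := by
    calc a + b + c = (x * d + y * e + z * f) * (a + b + c) := by rw [hb, one_mul]
      _ = x * (a + b + c) * d + y * ((a + b + c) * e) + z * ((a + b + c) * f) := by ring
      _ = _ := by rw [P.r1, P.r2]; ring
  set p := x * (a + b + c) + y * (J * (a + b)) + z * (I * a) with hp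
  have hX : 0 < a + b + c := by have := P.a0; have := P.b0; have := P.c0; omega
  refine ⟨p, ?_, e1, ?_, ?_⟩
  · rw [e1] at hX
    exact (mul_pos_iff_of_pos_right hd).1 hX
  · have h1 := P.r1
    rw [e1] at h1
    have : d * (p * e) = d * (J * (a + b)) := by linarith
    exact mul_left_cancel₀ hd.ne' this
  · have h1 := P.r2
    rw [e1] at h1
    have : d * (p * f) = d * (I * a) := by linarith
    exact mul_left_cancel₀ hd.ne' this

theorem bdd {a b c d e f J I J' I' : ℤ} (P : YP a b c d e f J I J' I')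
    (g1 : ∀ g : ℤ, g ∣ a → g ∣ b → g ∣ c → g ∣ 1) (g2 : ∀ g : ℤ, g ∣ d → g ∣ e → g ∣ f → g ∣ 1)
    (h1 : a + b + c ≤ 64 * a) (h2 : d + e + f ≤ 64 * d) :
    (a + b + c) * d + (a + b) * e + a * f ≤ 2 ^ 120 := by
  obtain ⟨p, p0, eX, pe, pf⟩ := P.facts g2
  obtain ⟨q, q0, eY, qb, qc⟩ := P.tp.facts g1
  have a0 := P.a0
  have b0 := P.b0
  have c0 := P.c0
  have d0 := P.d0
  have e0 := P.e0
  have f0 := P.f0
  have J0 := P.J0
  have I0 := P.I0
  have J0' := P.J0'
  have I0' := P.I0'
  set D : ℤ := p * q with hD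
  have D0 : 0 < D := mul_pos p0 q0
  have ad0 : 0 < a * d := mul_pos a0 d0
  have hXY : (a + b + c) * (d + e + f) = D * (a * d) := by
    rw [eX, eY, hD]; ring
  have D4 : D ≤ 4096 := by
    have h3 : (a + b + c) * (d + e + f) ≤ (64 * a) * (64 * d) :=
      mul_le_mul h1 h2 (by omega) (by omega)
    rw [hXY] at h3
    exact le_of_mul_le_mul_right (h3.trans (le_of_eq (by ring))) ad0
  -- the two linear relations
  have k1 : (D - I - J) * a = p * d + J * b := by
    have : p * (d + e + f) = D * a := by rw [eY, hD]; ring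
    have h3 : p * (d + e + f) = p * d + J * (a + b) + I * a := by
      rw [← pe, ← pf]; ring
    linarith
  have k2 : (D - I' - J') * d = q * a + J' * e := by
    have : q * (a + b + c) = D * d := by rw [eX, hD]; ring
    have h3 : q * (a + b + c) = q * a + J' * (d + e) + I' * d := by
      rw [← qb, ← qc]; ring
    linarith
  have i1 : I + J < D := by
    have h3 : 0 < (D - I - J) * a := by rw [k1]; positivity
    have := (mul_pos_iff_of_pos_right a0).1 h3
    omega
  have i2 : I' + J' < D := by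
    have h3 : 0 < (D - I' - J') * d := by rw [k2]; positivity
    have := (mul_pos_iff_of_pos_right d0).1 h3
    omega
  have k3 : p * (D - I') * d = (D + J' * (D - I)) * a := by
    have h3 : p * (J' * e) = J' * (J * (a + b)) := by rw [← pe]; ring
    have h4 : J * b = (D - I - J) * a - p * d := by linarith
    have h5 : p * ((D - I' - J') * d) = D * a + p * (J' * e) := by
      rw [k2, hD]; ring
    rw [h3] at h5
    have h6 : J' * (J * (a + b)) = J' * (J * a) + J' * (J * b) := by ring
    rw [h6, h4] at h5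
    linarith
  have k4 : (D - J * J') * b = J' * (p * d + J * a) := by
    have h3 : D * b = p * (J' * (d + e)) := by rw [← qb, hD]; ring
    have h4 : p * (J' * (d + e)) = J' * (p * d) + J' * (p * e) := by ring
    rw [h4, pe] at h3
    linarith
  have i3 : J * J' < D := by
    have h3 : 0 < (D - J * J') * b := by rw [k4]; positivity
    have := (mul_pos_iff_of_pos_right b0).1 h3
    omega
  -- the gcd of `a` and `d`
  set g : ℤ := (Int.gcd a d : ℤ) with hg
  have g0 : 0 < g := by
    rw [hg]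
    exact_mod_cast Int.gcd_pos_of_ne_zero_left d a0.ne'
  obtain ⟨a1, ha1⟩ : g ∣ a := Int.gcd_dvd_left ..
  obtain ⟨d1, hd1⟩ : g ∣ d := Int.gcd_dvd_right ..
  have hcop : IsCoprime a1 d1 := by
    have h3 := Int.gcd_eq_gcd_ab a d
    refine ⟨Int.gcdA a d, Int.gcdB a d, ?_⟩
    have h4 : g * (Int.gcdA a d * a1 + Int.gcdB a d * d1) = g * 1 := by
      rw [mul_one]
      calc g * (Int.gcdA a d * a1 + Int.gcdB a d * d1)
          = (g * a1) * Int.gcdA a d + (g * d1) * Int.gcdB a d := by ring
        _ = g := by rw [← ha1, ← hd1, hg]; exact h3.symm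
    exact mul_left_cancel₀ g0.ne' h4
  have a10 : 0 < a1 := by
    rw [ha1] at a0
    exact (mul_pos_iff_of_pos_left g0).1 a0
  have d10 : 0 < d1 := by
    rw [hd1] at d0
    exact (mul_pos_iff_of_pos_left g0).1 d0
  have k5 : p * (D - I') * d1 = (D + J' * (D - I)) * a1 := by
    have h3 : g * (p * (D - I') * d1) = g * ((D + J' * (D - I)) * a1) := by
      calc g * (p * (D - I') * d1) = p * (D - I') * (g * d1) := by ring
        _ = p * (D - I') * d := by rw [← hd1]
        _ = (D + J' * (D - I)) * a := k3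
        _ = (D + J' * (D - I)) * (g * a1) := by rw [← ha1]
        _ = _ := by ring
    exact mul_left_cancel₀ g0.ne' h3
  have pD : p ≤ D := le_mul_of_one_le_right p0.le (by omega)
  have qD : q ≤ D := le_mul_of_one_le_left q0.le (by omega)
  have a1le : a1 ≤ 2 ^ 24 := by
    have h3 : a1 ∣ p * (D - I') := by
      refine hcop.dvd_of_dvd_mul_right ?_
      rw [k5]
      exact dvd_mul_left _ _
    have h4 : 0 < p * (D - I') := mul_pos p0 (by omega)
    have h5 := Int.le_of_dvd h4 h3
    have h6 : p * (D - I') ≤ 4096 * 4096 := by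
      refine mul_le_mul (by omega) (by omega) (by omega) (by norm_num)
    norm_num at h6 ⊢
    omega
  have d1le : d1 ≤ 2 ^ 25 := by
    have h3 : d1 ∣ D + J' * (D - I) := by
      refine hcop.symm.dvd_of_dvd_mul_right ?_
      rw [← k5]
      exact dvd_mul_left _ _
    have h4 : 0 < D + J' * (D - I) := by
      have : 0 < J' * (D - I) := mul_pos J0' (by omega)
      omega
    have h5 := Int.le_of_dvd h4 h3
    have h6 : J' * (D - I) ≤ 4096 * 4096 := by
      refine mul_le_mul (by omega) (by omega) (by omega) (by norm_num)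
    norm_num at h6 ⊢
    omega
  have gle : g ≤ 2 ^ 24 := by
    obtain ⟨x, y, z, hb⟩ := bez3 g1
    have h3 : g ∣ (D - J * J') * q := by
      have e1 : (D - J * J') * q = (x * (D - J * J') * q) * a + (y * q) * ((D - J * J') * b) +
          (z * (D - J * J')) * (q * c) := by
        calc (D - J * J') * q = (x * a + y * b + z * c) * ((D - J * J') * q) := by
              rw [hb, one_mul]
          _ = _ := by ring
      rw [e1, k4, qc]
      refine dvd_add (dvd_add ?_ ?_) ?_
      · exact Dvd.dvd.mul_left ⟨a1, ha1⟩ _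
      · refine Dvd.dvd.mul_left (Dvd.dvd.mul_left (dvd_add ?_ ?_) _) _
        · exact Dvd.dvd.mul_left ⟨d1, hd1⟩ _
        · exact Dvd.dvd.mul_left ⟨a1, ha1⟩ _
      · exact Dvd.dvd.mul_left (Dvd.dvd.mul_left ⟨d1, hd1⟩ _) _
    have h4 : 0 < (D - J * J') * q := mul_pos (by omega) q0
    have h5 := Int.le_of_dvd h4 h3
    have hJJ : 0 < J * J' := mul_pos J0 J0'
    have h6 : (D - J * J') * q ≤ 4096 * 4096 := by
      refine mul_le_mul (by omega) (by omega) q0.le (by norm_num)
    norm_num at h6 ⊢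
    omega
  have ale : a ≤ 2 ^ 48 := by
    rw [ha1]
    calc g * a1 ≤ 2 ^ 24 * 2 ^ 24 := mul_le_mul gle a1le a10.le (by norm_num)
      _ = 2 ^ 48 := by norm_num
  have dle : d ≤ 2 ^ 49 := by
    rw [hd1]
    calc g * d1 ≤ 2 ^ 24 * 2 ^ 25 := mul_le_mul gle d1le d10.le (by norm_num)
      _ = 2 ^ 49 := by norm_num
  have fin : (a + b + c) * (d + e + f) ≤ 2 ^ 120 := by
    rw [hXY]
    have h3 : a * d ≤ 2 ^ 48 * 2 ^ 49 := mul_le_mul ale dle d0.le (by norm_num)
    calc D * (a * d) ≤ 4096 * (2 ^ 48 * 2 ^ 49) := mul_le_mul D4 h3 ad0.le (by norm_num)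
      _ ≤ 2 ^ 120 := by norm_num
  have e1 : (a + b + c) * (d + e + f) = (a + b + c) * d + (a + b) * e + a * f + (c * e + (b + c) * f) := by
    ring
  have e2 : 0 < c * e + (b + c) * f := by positivity
  linarith

end Pool.Agent.H4G.Six
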