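import Pool.Agent.H4G.Six.Ex.YoungP

/-!
# (G7) Young surfaces, region I: the window `WU` (helper79, page of helper31)
-/

set_option autoImplicit false

namespace Pool.Agent.H4G.Six

theorem reg1' {a b c d e f J I J' I' : ℤ} (h : YP a b c d e f J I J' I') (he : 2 * e ≤ d)
    (hb : b < a) (hB : 4 * d < d + e + f) : WU a b c d e f := by
  have a0 := h.a0
  have b0 := h.b0
  have c0 := h.c0
  have d0 := h.d0
  have e0 := h.e0
  have f0 := h.f0
  have J0 := h.J0
  have re := h.r1
  have had : 0 < a * d := mul_pos a0 d0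
  -- the number `m`
  obtain ⟨m, hm⟩ : ∃ m : ℤ, m = J * (a + b) / a + 1 := ⟨_, rfl⟩
  have m1 : J * (a + b) < m * a := by
    have h1 := Int.lt_ediv_add_one_mul_self (J * (a + b)) a0
    rw [hm]; exact h1
  have m2 : m * a ≤ J * (a + b) + a := by
    have h1 := Int.ediv_mul_le (J * (a + b)) (ne_of_gt a0)
    rw [hm, add_mul, one_mul]; linarith
  have m3 : 2 ≤ m := by
    by_contra hc
    have : m ≤ 1 := by omega
    have h2 : m * a ≤ 1 * a := mul_le_mul_of_nonneg_right this a0.le
    have h3 : 1 * (a + b) ≤ J * (a + b) :=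
      mul_le_mul_of_nonneg_right (by linarith [h.J0]) (by linarith)
    linarith
  have m4 : m ≤ 2 * J := by
    have h1 : J * (a + b) < J * (2 * a) := mul_lt_mul_of_pos_left (by linarith) (by linarith)
    have h2 : (m - 1) * a < (2 * J) * a := by nlinarith
    have h3 := lt_of_mul_lt_mul_right h2 a0.le
    omega
  have m5 : m * e ≤ J * d := by nlinarith
  have m0 : 0 < m := by linarith
  -- the number `k`
  have hmad : 0 < m * (a * d) := mul_pos m0 had
  obtain ⟨k, hk⟩ : ∃ k : ℤ, k = ((a + b + c) * (e + f) - 1) / (m * (a * d)) := ⟨_, rfl⟩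
  have k1 : k * (m * (a * d)) < (a + b + c) * (e + f) := by
    have h1 := Int.ediv_mul_le ((a + b + c) * (e + f) - 1) (ne_of_gt hmad)
    rw [hk]; linarith
  have k2 : (a + b + c) * (e + f) ≤ k * (m * (a * d)) + m * (a * d) := by
    have h1 := Int.lt_ediv_add_one_mul_self ((a + b + c) * (e + f) - 1) hmad
    rw [hk]
    linarith
  obtain ⟨X, hX⟩ : ∃ X : ℤ, X = a + b + c := ⟨_, rfl⟩
  obtain ⟨w, hw⟩ : ∃ w : ℤ, w = a + b := ⟨_, rfl⟩
  obtain ⟨g, hg⟩ : ∃ g : ℤ, g = e + f := ⟨_, rfl⟩
  obtain ⟨T, hT⟩ : ∃ T : ℤ, T = e + f + m * d := ⟨_, rfl⟩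
  obtain ⟨S, hS⟩ : ∃ S : ℤ, S = a + b + c + k * a := ⟨_, rfl⟩
  rw [← hX] at k1 k2 re
  rw [← hw] at m1 m2 re
  rw [← hg] at k1 k2
  have X0 : 0 < X := by rw [hX]; linarith
  have w0 : 0 < w := by rw [hw]; linarith
  have aw : a < w := by rw [hw]; linarith
  have g0 : 3 * d < g := by rw [hg]; linarith
  have hT' : T = g + m * d := by rw [hT, hg]
  have hS' : S = X + k * a := by rw [hS, hX]
  have hmd : 0 < m * d := mul_pos m0 d0
  have T0 : 0 < T := by rw [hT']; linarith
  have Jw : 0 < J * w := mul_pos (by linarith) w0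
  have aJw : a ≤ J * w := by nlinarith
  have Xw : w * m ≤ X := by
    have h1 : w * m * e ≤ X * e := by
      rw [re]
      have := mul_le_mul_of_nonneg_left m5 w0.le
      linarith [mul_comm w (J * d)]
    exact le_of_mul_le_mul_right h1 e0
  -- the inequality (1)
  have i1 : f * X < k * a * (m * d + e) := by
    have hmde : 0 < m * d + e := by linarith
    have s1 : m * a * (d + e) < J * w * g := by
      have t1 : m * a * (2 * (d + e)) ≤ m * a * (3 * d) :=
        mul_le_mul_of_nonneg_left (by linarith) (mul_pos m0 a0).le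
      have t2 : m * a * (3 * d) ≤ (2 * (J * w)) * (3 * d) :=
        mul_le_mul_of_nonneg_right (by linarith) (by linarith)
      have t3 : J * w * (3 * d) < J * w * g := mul_lt_mul_of_pos_left g0 Jw
      linarith
    have s2 : m * a * (m * d + e) < J * w * T := by
      rw [hT']
      have t1 : m * d * (m * a) ≤ m * d * (J * w + a) := mul_le_mul_of_nonneg_left m2 hmd.le
      linarith
    have s3 : m * a * d * (m * d + e) < X * e * T := by
      rw [re]
      have := mul_lt_mul_of_pos_left s2 d0
      linarith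
    have s4 : (X * g - m * (a * d)) * (m * d + e) ≤ k * (m * (a * d)) * (m * d + e) :=
      mul_le_mul_of_nonneg_right (by linarith) hmde.le
    have s5 : (m * d) * (f * X) < (m * d) * (k * a * (m * d + e)) := by
      have e1 : (m * d) * (k * a * (m * d + e)) = k * (m * (a * d)) * (m * d + e) := by ring
      have e2 : (X * g - m * (a * d)) * (m * d + e) - (m * d) * (f * X) =
          X * e * T - m * a * d * (m * d + e) := by
        rw [hT', hg]; ring
      linarith
    exact lt_of_mul_lt_mul_left s5 hmd.le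
  have i2 : X * T < S * (m * d + e) := by
    rw [hT', hS', hg]
    linarith
  have S0 : 0 < S := by
    have h1 : 0 < S * (m * d + e) := lt_trans (mul_pos X0 T0) i2
    exact (mul_pos_iff_of_pos_right (by linarith)).1 h1
  have i3 : m * d * S < X * T := by
    rw [hT', hS']
    linarith
  have hmn : ((m.toNat : ℕ) : ℤ) = m := Int.toNat_of_nonneg m0.le
  refine ⟨k, m.toNat, S, T, by omega, hS, by rw [hmn]; exact hT, S0, ?_, ?_, ?_, ?_, ?_⟩
  · rw [hT', hS', hg]
    linarith
  · rw [← hg, hT', hS']
    linarith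
  · have h1 : e * (m * d * S) < e * (X * T) := mul_lt_mul_of_pos_left i3 e0
    have h2 : d * (m * (e * S)) < d * (J * w * T) := by
      have : e * (X * T) = J * (w * d) * T := by rw [← re]; ring
      linarith
    have h3 := lt_of_mul_lt_mul_left h2 d0.le
    have h4 : J * w * T < m * a * T := mul_lt_mul_of_pos_right m1 T0
    have h5 : m * (e * S) < m * (a * T) := by linarith
    exact lt_of_mul_lt_mul_left h5 m0.le
  · have h1 : a * (m * d + e) ≤ (d + e) * X := by
      have t1 : (d + e) * (w * m) ≤ (d + e) * X := mul_le_mul_of_nonneg_left Xw (by linarith)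
      have t2 : (d + e) * (a * m) ≤ (d + e) * (w * m) :=
        mul_le_mul_of_nonneg_left (mul_le_mul_of_nonneg_right aw.le m0.le) (by linarith)
      have t3 : a * e ≤ m * (a * e) := le_mul_of_one_le_left (mul_pos a0 e0).le (by linarith)
      linarith
    have h2 : X * (a * T) < X * ((d + e) * S) := by
      have t1 := mul_lt_mul_of_pos_left i2 a0
      have t2 := mul_le_mul_of_nonneg_right h1 S0.le
      linarith
    exact lt_of_mul_lt_mul_left h2 X0.le
  · rw [← hw]
    have h1 : (m - 1) * (k * (m * (a * d))) < (m - 1) * (X * g) :=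
      mul_lt_mul_of_pos_left k1 (by linarith)
    have h2 : w * m * T ≤ X * T := mul_le_mul_of_nonneg_right Xw T0.le
    have h3 : m * ((k * a + w) * T) < m * ((d + e + f) * S) := by
      have e1 : m * ((d + e + f) * S) - m * ((k * a + w) * T) =
          (m - 1) * (X * g) - (m - 1) * (k * (m * (a * d))) + (X * T - w * m * T) := by
        rw [hS', hT', hg]; ring
      linarith
    exact lt_of_mul_lt_mul_left h3 m0.le

theorem reg1 {a b c d e f J I J' I' : ℤ} (P : YP a b c d e f J I J' I') (h1 : 2 * e ≤ d)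
    (h2 : 2 * b ≤ a) (h3 : 4 * d < d + e + f) : WU a b c d e f :=
  reg1' P h1 (by linarith [P.b0]) h3

end Pool.Agent.H4G.Six
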