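import Pool.Agent.H4G.Six.Ex.YoungP

/-!
# (G7) Young surfaces: the regions II and III of the parameters (helper5, page of helper31)

If `b d ≤ a e`, `b e ≤ a d` and `d < 2 e`, one of the windows exists (for the surface or for its
transpose), or both gaps are bounded: `X ≤ 64 a` and `Y ≤ 64 d`.
-/

set_option autoImplicit false

namespace Pool.Agent.H4G.Six

variable {a b c d e f J I J' I' : ℤ}

/-- `X f = I a d` and the others in product form: `b (Y + H) = H (J' a + b)` -/
theorem YP.bT (P : YP a b c d e f J I J' I') :
    b * (d + e + f + (d + e)) = (d + e) * (J' * a + b) := by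
  have := P.r3
  linarith [mul_comm b (d + e + f), mul_comm b (d + e)]

/-- (iii), first half: the window `WN` with `k = J' - 2` -/
theorem YP.wn (P : YP a b c d e f J I J' I') (hb : 2 * b * (J' * a + b - a) < (a + b) * (J' * a + b))
    (h : a * d < e * (J' * a + b - 2 * a)) : WN a b c d e f := by
  have a0 := P.a0
  have b0 := P.b0
  have d0 := P.d0
  have e0 := P.e0
  have hT := P.bT
  have hE : 0 < J' * a + b - 2 * a := by
    have : 0 < a * d := mul_pos a0 d0
    by_contra hc
    nlinarith
  refine ⟨J' - 2, J' * a + b - a, d + e + f + (d + e), by ring, rfl, by linarith, ?_, ?_, ?_⟩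
  · rw [hT]
    nlinarith [mul_pos a0 (add_pos d0 e0)]
  · rw [hT]
    nlinarith
  · have k1 : b * (2 * ((J' * a + b - a) * (d + e))) <
        b * ((a + b) * (d + e + f + (d + e))) := by
      have : b * ((a + b) * (d + e + f + (d + e))) = (d + e) * ((a + b) * (J' * a + b)) := by
        rw [mul_left_comm, hT]
        ring
      rw [this]
      have k2 : b * (2 * ((J' * a + b - a) * (d + e))) =
          (d + e) * (2 * b * (J' * a + b - a)) := by ring
      rw [k2]
      exact mul_lt_mul_of_pos_left hb (add_pos d0 e0)
    exact lt_of_mul_lt_mul_left k1 b0.le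

/-- (ii): the window `WW` with `k = J'` -/
theorem YP.ww (P : YP a b c d e f J I J' I') (h : a * d < e * (J' * a + b))
    (h' : b * (J' * a + b) < J' * a * a) : WW a b c d e f := by
  have a0 := P.a0
  have b0 := P.b0
  have d0 := P.d0
  have e0 := P.e0
  have j0 := P.J0'
  have hT := P.bT
  have hJ : 0 < J' * a := mul_pos j0 a0
  refine ⟨J', a + b + J' * a, d + e + f + (d + e), rfl, rfl, by linarith, ?_, ?_, ?_⟩
  · rw [hT]
    nlinarith
  · rw [hT]
    nlinarith [mul_pos a0 (add_pos d0 e0)]
  · have k1 : b * ((a + b + J' * a) * (d + e)) < b * (a * (d + e + f + (d + e))) := by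
      have : b * (a * (d + e + f + (d + e))) = (d + e) * (a * (J' * a + b)) := by
        rw [mul_left_comm, hT]
        ring
      rw [this]
      have k2 : b * ((a + b + J' * a) * (d + e)) = (d + e) * (b * (a + b + J' * a)) := by ring
      rw [k2]
      refine mul_lt_mul_of_pos_left ?_ (add_pos d0 e0)
      nlinarith
    exact lt_of_mul_lt_mul_left k1 b0.le

/-- (i): the window `WL` with `k = 2` (`J' = 1`) -/
theorem YP.wl (P : YP a b c d e f J I 1 I') (h3 : d < 2 * e)
    (h : 2 * a * b + b * b < a * a) : WL a b c d e f := by
  have a0 := P.a0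
  have b0 := P.b0
  have d0 := P.d0
  have e0 := P.e0
  have r3 := P.r3
  refine ⟨2, a + b + 2 * a, d + e + f, rfl, rfl, by linarith, ?_, ?_⟩
  · nlinarith [mul_pos b0 e0]
  · have k1 : b * ((a + b + 2 * a) * (d + e)) < b * ((a + b) * (d + e + f)) := by
      have : b * ((a + b) * (d + e + f)) = (d + e) * ((a + b) * a) := by
        have : b * ((a + b) * (d + e + f)) = (a + b) * ((d + e + f) * b) := by ring
        rw [this, r3]
        ring
      rw [this]
      have k2 : b * ((a + b + 2 * a) * (d + e)) = (d + e) * (b * (a + b + 2 * a)) := by ring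
      rw [k2]
      refine mul_lt_mul_of_pos_left ?_ (add_pos d0 e0)
      nlinarith
    exact lt_of_mul_lt_mul_left k1 b0.le

/-- (iii), second half: the window `WN` when the gap number `J'` is large -/
theorem YP.wn2 (P : YP a b c d e f J I J' I') (q1 : d * d ≤ d * e + e * e) (h2 : b * e ≤ a * d)
    (hJ : 16 ≤ J') : WN a b c d e f := by
  have a0 := P.a0
  have b0 := P.b0
  have d0 := P.d0
  have e0 := P.e0
  have j0 := P.J0'
  have hT := P.bT
  have hH : 0 < d + e := add_pos d0 e0
  have g1 : 3 * d ≤ 5 * e := by
    by_contra hc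
    push Not at hc
    nlinarith
  have g2 : 3 * b ≤ 5 * a := by
    by_contra hc
    push Not at hc
    nlinarith
  have hJa : 16 * a ≤ J' * a := mul_le_mul_of_nonneg_right hJ a0.le
  obtain ⟨Q, hQ⟩ : ∃ Q : ℤ, Q = J' * a + b := ⟨_, rfl⟩
  obtain ⟨N, hN⟩ : ∃ N : ℤ, N = d + 2 * e := ⟨_, rfl⟩
  obtain ⟨M, hM⟩ : ∃ M : ℤ, M = (d + e) * Q := ⟨_, rfl⟩
  have N0 : 0 < N := by rw [hN]; linarith
  have aN : 0 < a * N := mul_pos a0 N0
  have Q0 : 0 < Q := by rw [hQ]; linarith
  have M0 : 0 < M := by rw [hM]; exact mul_pos hH Q0
  obtain ⟨t, E, hE, t1, t2⟩ : ∃ t E : ℤ, E = a + b + t * a ∧ M < E * N ∧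
      E * N ≤ M + a * N := by
    refine ⟨(M - b * N) / (a * N), a + b + (M - b * N) / (a * N) * a, rfl, ?_, ?_⟩
    · have := Int.lt_ediv_add_one_mul_self (M - b * N) aN
      linarith [show (a + b + (M - b * N) / (a * N) * a) * N - b * N =
        ((M - b * N) / (a * N) + 1) * (a * N) by ring]
    · have := Int.ediv_mul_le (M - b * N) aN.ne'
      linarith [show (a + b + (M - b * N) / (a * N) * a) * N =
        b * N + a * N + (M - b * N) / (a * N) * (a * N) by ring]
  have E0 : 0 < E := by
    by_contra hc
    push Not at hc
    nlinarith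
  have hT' : b * (d + e + f + (d + e)) = M := by rw [hT, hM, hQ]
  refine ⟨t, E, d + e + f + (d + e), hE, rfl, E0, ?_, ?_, ?_⟩
  · rw [hT']
    have k1 : E * N < Q * N := by
      have : M + a * N < Q * N := by
        rw [hM, hN]
        have k3 : a * (d + 2 * e) < e * Q := by
          rw [hQ]
          nlinarith [mul_pos a0 e0, mul_pos b0 e0, mul_le_mul_of_nonneg_left g1 a0.le,
            mul_le_mul_of_nonneg_left hJa e0.le]
        linarith [show Q * (d + 2 * e) = (d + e) * Q + e * Q by ring]
      linarith
    have k2 : E < Q := lt_of_mul_lt_mul_right k1 N0.le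
    rw [hM, mul_comm E]
    exact mul_lt_mul_of_pos_left k2 hH
  · rw [hT', ← hN]
    exact t1
  · have k0 : 2 * b * E < (a + b) * Q := by
      have k1 : (2 * b * E) * N < ((a + b) * Q) * N := by
        have k2 : 2 * b * (E * N) ≤ 2 * b * (M + a * N) :=
          mul_le_mul_of_nonneg_left t2 (by linarith)
        have k3 : 2 * b * (a * N) < Q * (a * d + 2 * a * e - b * d) := by
          have k4 : a * e ≤ a * d + 2 * a * e - b * d := by
            have k5 : e * (a * e) ≤ e * (a * d + 2 * a * e - b * d) := by
              have k6 : (b * e) * d ≤ (a * d) * d := mul_le_mul_of_nonneg_right h2 d0.le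
              have k7 : a * (d * d) ≤ a * (d * e + e * e) := mul_le_mul_of_nonneg_left q1 a0.le
              linarith [show e * (a * e) = a * (e * e) by ring,
                show e * (a * d + 2 * a * e - b * d) =
                  a * (d * e + e * e) + a * (e * e) - (b * e) * d by ring,
                show (a * d) * d = a * (d * d) by ring]
            exact le_of_mul_le_mul_left k5 e0
          have k8 : Q * (a * e) ≤ Q * (a * d + 2 * a * e - b * d) :=
            mul_le_mul_of_nonneg_left k4 Q0.le
          have k9 : 2 * b * (a * N) < Q * (a * e) := by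
            have k10 : 2 * b * N < Q * e := by
              have l1 : 3 * N ≤ 11 * e := by rw [hN]; linarith
              have l2 : 3 * Q ≥ 3 * b + 48 * a := by rw [hQ]; linarith
              have l3 : (2 * b) * (3 * N) ≤ (2 * b) * (11 * e) :=
                mul_le_mul_of_nonneg_left l1 (by linarith)
              have l4 : (3 * b + 48 * a) * e ≤ (3 * Q) * e :=
                mul_le_mul_of_nonneg_right l2 e0.le
              have l5 : (3 * b) * e ≤ (5 * a) * e := mul_le_mul_of_nonneg_right g2 e0.le
              have l6 : 0 < a * e := mul_pos a0 e0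
              nlinarith
            have := mul_lt_mul_of_pos_left k10 a0
            linarith [show a * (2 * b * N) = 2 * b * (a * N) by ring,
              show a * (Q * e) = Q * (a * e) by ring]
          linarith
        have k11 : ((a + b) * Q) * N = 2 * b * M + Q * (a * d + 2 * a * e - b * d) := by
          rw [hM, hN]
          ring
        rw [k11]
        linarith [show (2 * b * E) * N = 2 * b * (E * N) by ring]
      exact lt_of_mul_lt_mul_right k1 N0.le
    have k12 : b * (2 * (E * (d + e))) < b * ((a + b) * (d + e + f + (d + e))) := by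
      have : b * ((a + b) * (d + e + f + (d + e))) = (d + e) * ((a + b) * Q) := by
        rw [mul_left_comm, hT', hM]
        ring
      rw [this]
      have : b * (2 * (E * (d + e))) = (d + e) * (2 * b * E) := by ring
      rw [this]
      exact mul_lt_mul_of_pos_left k0 hH
    exact lt_of_mul_lt_mul_left k12 b0.le

/-- regions II and III -/
theorem reg2 (P : YP a b c d e f J I J' I') (h1 : b * d ≤ a * e) (h2 : b * e ≤ a * d)
    (h3 : d < 2 * e) :
    Wn a b c d e f ∨ Wn d e f a b c ∨ (a + b + c ≤ 64 * a ∧ d + e + f ≤ 64 * d) := by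
  have a0 := P.a0
  have b0 := P.b0
  have c0 := P.c0
  have d0 := P.d0
  have e0 := P.e0
  have f0 := P.f0
  have j0 := P.J0
  have j0' := P.J0'
  have r1 := P.r1
  have r3 := P.r3
  have hJ'a : 0 < J' * a := mul_pos j0' a0
  have hJd : 0 < J * d := mul_pos j0 d0
  have hba : b ≤ a := by
    by_contra hc
    push Not at hc
    nlinarith [mul_pos a0 d0, mul_pos a0 e0, mul_pos b0 d0, mul_pos b0 e0]
  rcases le_or_gt (e * (J' * a + b)) (a * d) with hA | hA
  · -- (i)
    have j1 : J' = 1 := by
      by_contra hc
      have : 2 ≤ J' := by omega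
      have l1 : 2 * a ≤ J' * a := mul_le_mul_of_nonneg_right this a0.le
      nlinarith [mul_pos a0 e0, mul_pos b0 e0]
    subst j1
    have hed : e < d := by
      by_contra hc
      push Not at hc
      nlinarith [mul_pos a0 e0, mul_pos b0 e0]
    rcases lt_or_ge (2 * a * b + b * b) (a * a) with hB | hB
    · exact Or.inl (Or.inr (Or.inr (Or.inl (P.wl h3 hB))))
    · rcases lt_or_ge (d * a) (b * (J * d + e - 2 * d)) with hC | hC
      · refine Or.inr (Or.inl (Or.inl (P.tp.wn ?_ hC)))
        have : J ≥ 1 := j0
        have l1 : 1 * d ≤ J * d := mul_le_mul_of_nonneg_right this d0.le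
        nlinarith
      · refine Or.inr (Or.inr ?_)
        have g : 2 * a ≤ 5 * b := by
          by_contra hc
          push Not at hc
          nlinarith
        have j4 : J ≤ 4 := by
          by_contra hc
          have : 5 ≤ J := by omega
          have l1 : 5 * d ≤ J * d := mul_le_mul_of_nonneg_right this d0.le
          nlinarith [mul_pos b0 e0, mul_pos b0 d0]
        constructor
        · have l1 : J * ((a + b) * d) ≤ 4 * ((a + b) * d) :=
            mul_le_mul_of_nonneg_right j4 (mul_nonneg (by linarith) d0.le)
          have l2 : (a + b + c) * e ≤ (16 * a) * e := by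
            rw [r1]
            nlinarith [mul_pos a0 e0]
          have := le_of_mul_le_mul_right l2 e0
          linarith
        · have l2 : (d + e + f) * b ≤ (5 * d) * b := by
            rw [r3]
            nlinarith [mul_pos a0 e0, mul_pos b0 d0]
          have := le_of_mul_le_mul_right l2 b0
          linarith
  · rcases lt_or_ge (b * (J' * a + b)) (J' * a * a) with hB | hB
    · exact Or.inl (Or.inr (Or.inl (P.ww hA hB)))
    · -- (iii)
      have hr : a * a ≤ a * b + b * b := by
        by_contra hc
        push Not at hc
        have l1 : J' * (a * b + b * b) < J' * (a * a) := mul_lt_mul_of_pos_left hc j0'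
        have l2 : 1 * (b * b) ≤ J' * (b * b) := mul_le_mul_of_nonneg_right j0' (by positivity)
        nlinarith
      have g1 : 3 * a ≤ 5 * b := by
        by_contra hc
        push Not at hc
        nlinarith
      have g2 : 3 * e ≤ 5 * d := by
        by_contra hc
        push Not at hc
        nlinarith [mul_pos b0 e0, mul_pos b0 d0]
      rcases lt_or_ge (a * d) (e * (J' * a + b - 2 * a)) with hC | hC
      · refine Or.inl (Or.inl (P.wn ?_ hC))
        nlinarith
      · have j3 : J' ≤ 3 := by
          by_contra hc
          have : 4 ≤ J' := by omega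
          have l1 : 4 * a ≤ J' * a := mul_le_mul_of_nonneg_right this a0.le
          nlinarith [mul_pos a0 e0, mul_pos b0 e0]
        rcases le_or_gt J 15 with hJ | hJ
        · refine Or.inr (Or.inr ⟨?_, ?_⟩)
          · have l1 : J * ((a + b) * d) ≤ 15 * ((a + b) * d) :=
              mul_le_mul_of_nonneg_right hJ (mul_nonneg (by linarith) d0.le)
            have l2 : (a + b + c) * e ≤ (64 * a) * e := by
              rw [r1]
              nlinarith [mul_pos a0 e0]
            exact le_of_mul_le_mul_right l2 e0
          · have l2 : (d + e + f) * b ≤ (64 * d) * b := by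
              rw [r3]
              have l3 : J' * ((d + e) * a) ≤ 3 * ((d + e) * a) :=
                mul_le_mul_of_nonneg_right j3 (mul_nonneg (by linarith) a0.le)
              nlinarith [mul_pos a0 e0, mul_pos b0 d0]
            exact le_of_mul_le_mul_right l2 b0
        · refine Or.inr (Or.inl (Or.inl (P.tp.wn2 hr ?_ (by omega))))
          linarith [mul_comm e b, mul_comm d a]

end Pool.Agent.H4G.Six
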