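import Pool.Agent.H4G.Six.Ex.YoungW
import Pool.Agent.H4G.Six.Ex.YoungT
import Pool.Agent.H4G.Six.Ex.YoungR1
import Pool.Agent.H4G.Six.Ex.YoungR2
import Pool.Agent.H4G.Six.Ex.YoungB

/-!
# (G7) Young surfaces: a simple cylinder of angles `(1, 1)` (helper31)

`young_end`: the Young surface of a minimal pair (with the four relations of the parameters) or its
transposed surface has a simple cylinder of angle `2` (that is, of angles `(1, 1)`) if the area is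
large.
-/

set_option autoImplicit false

namespace Pool.Agent.H4G.Six

open Pool.Agent.H4G

/-- a window gives a simple cylinder -/
theorem YT.win {X : Type} {O : PO X} {a b c d e f : ℕ} (Y : YT O a b c d e f)
    (hW : Wn a b c d e f) : ∃ V w, SC O V w 2 := by
  rcases hW with ⟨k, E, T, h1, h2, h3, h4, h5, h6⟩ | ⟨k, E, T, h1, h2, h3, h4, h5, h6⟩ |
    ⟨k, E, T, h1, h2, h3, h4, h5⟩ | ⟨k, m, S, T, h1, h2, h3, h4, h5, h6, h7, h8, h9⟩
  · exact Y.n5 k h1 h2 h3 h4 h5 h6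
  · exact Y.w1 k h1 h2 h3 h4 h5 h6
  · exact Y.lb k h1 h2 h3 h4 h5
  · exact Y.um k m h1 h2 h3 h4 h5 h6 h7 h8 h9

/-- one half of the arithmetic -/
theorem young_half {a b c d e f J I J' I' : ℤ} (P : YP a b c d e f J I J' I')
    (g1 : ∀ g : ℤ, g ∣ a → g ∣ b → g ∣ c → g ∣ 1) (g2 : ∀ g : ℤ, g ∣ d → g ∣ e → g ∣ f → g ∣ 1)
    (hN : 2 ^ 120 < (a + b + c) * d + (a + b) * e + a * f) (h1 : b * d ≤ a * e)
    (h2 : b * e ≤ a * d) : Wn a b c d e f ∨ Wn d e f a b c := by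
  have ha := P.a0
  have hd := P.d0
  have hB : ¬ (a + b + c ≤ 64 * a ∧ d + e + f ≤ 64 * d) := by
    rintro ⟨k1, k2⟩
    exact absurd (bdd P g1 g2 k1 k2) (not_le.2 hN)
  rcases le_or_gt (2 * e) d with h3 | h3
  · have h4 : 2 * b ≤ a := by
      have : 2 * b * d ≤ a * d := by nlinarith
      exact le_of_mul_le_mul_right this hd
    rcases lt_or_ge (4 * d) (d + e + f) with h5 | h5
    · exact Or.inl (Or.inr (Or.inr (Or.inr (reg1 P h3 h4 h5))))
    · rcases lt_or_ge (4 * a) (a + b + c) with h6 | h6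
      · exact Or.inr (Or.inr (Or.inr (Or.inr (reg1 P.tp h4 h3 h6))))
      · exact absurd ⟨by linarith, by linarith⟩ hB
  · rcases reg2 P h1 h2 h3 with h4 | h4 | h4
    · exact Or.inl h4
    · exact Or.inr h4
    · exact absurd h4 hB

/-- the arithmetic of the Young surfaces -/
theorem young_arith {a b c d e f J I J' I' : ℤ} (P : YP a b c d e f J I J' I')
    (g1 : ∀ g : ℤ, g ∣ a → g ∣ b → g ∣ c → g ∣ 1) (g2 : ∀ g : ℤ, g ∣ d → g ∣ e → g ∣ f → g ∣ 1)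
    (hN : 2 ^ 120 < (a + b + c) * d + (a + b) * e + a * f) (h2 : b * e ≤ a * d) :
    Wn a b c d e f ∨ Wn d e f a b c := by
  rcases le_total (b * d) (a * e) with h1 | h1
  · exact young_half P g1 g2 hN h1 h2
  · exact (young_half P.tp g2 g1 (by linarith [mul_comm a d]) (by linarith [mul_comm e a, mul_comm d b])
      (by linarith [mul_comm e b, mul_comm d a])).symm

/-- **The end of the minimal pair argument.** -/
theorem young_end {X X1 : Type} {O : PO X} {O1 : PO X1} {a b c d e f : ℕ}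
    (Y : YT O a b c d e f) (Y1 : YT O1 d e f a b c) {J I J' I' : ℕ}
    (r1 : (a + b + c) * e = J * ((a + b) * d)) (r2 : (a + b + c) * f = I * (a * d))
    (r3 : (d + e + f) * b = J' * ((d + e) * a)) (r4 : (d + e + f) * c = I' * (d * a))
    (hbe : b * e ≤ a * d) (g1 : ∀ g : ℕ, g ∣ a → g ∣ b → g ∣ c → g = 1)
    (g2 : ∀ g : ℕ, g ∣ d → g ∣ e → g ∣ f → g = 1)
    (hN : 2 ^ 120 < (a + b + c) * d + (a + b) * e + a * f) :
    (∃ V w, SC O V w 2) ∨ (∃ V w, SC O1 V w 2) := by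
  obtain ⟨a0, b0, c0, d0, e0, f0⟩ := Y.pos
  have posr : ∀ {m n k : ℕ}, 0 < m → m = n * k → 0 < n := by
    intro m n k hm h
    rcases Nat.eq_zero_or_pos n with h0 | h0
    · rw [h0, zero_mul] at h
      omega
    · exact h0
  have J0 : 0 < J := posr (by positivity) r1
  have I0 : 0 < I := posr (by positivity) r2
  have J0' : 0 < J' := posr (by positivity) r3
  have I0' : 0 < I' := posr (by positivity) r4
  have P : YP a b c d e f J I J' I' :=
    ⟨by exact_mod_cast a0, by exact_mod_cast b0, by exact_mod_cast c0, by exact_mod_cast d0,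
      by exact_mod_cast e0, by exact_mod_cast f0, by exact_mod_cast J0, by exact_mod_cast I0,
      by exact_mod_cast J0', by exact_mod_cast I0', by exact_mod_cast r1, by exact_mod_cast r2,
      by exact_mod_cast r3, by exact_mod_cast r4⟩
  have conv : ∀ p q r : ℕ, (∀ g : ℕ, g ∣ p → g ∣ q → g ∣ r → g = 1) →
      ∀ g : ℤ, g ∣ (p : ℤ) → g ∣ (q : ℤ) → g ∣ (r : ℤ) → g ∣ 1 := by
    intro p q r hg g hp hq hr
    have h1 := hg g.natAbs (Int.natCast_dvd_natCast.1 (Int.natAbs_dvd.2 hp))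
      (Int.natCast_dvd_natCast.1 (Int.natAbs_dvd.2 hq))
      (Int.natCast_dvd_natCast.1 (Int.natAbs_dvd.2 hr))
    exact Int.natAbs_dvd.1 (by rw [h1]; exact dvd_refl _)
  have hN' : (2 : ℤ) ^ 120 < ((a : ℤ) + b + c) * d + (a + b) * e + a * f := by exact_mod_cast hN
  rcases young_arith P (conv _ _ _ g1) (conv _ _ _ g2) hN' (by exact_mod_cast hbe) with h | h
  · exact Or.inl (Y.win h)
  · exact Or.inr (Y1.win h)

/-- the Young surface is a tower `Q` -/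
theorem YTx.toTQ {X : Type} {O : PO X} {x : ZMod 5 → X} {B : Equiv.Perm (ZMod 5)}
    {l h : ZMod 5 → ℕ} {n : ZMod 5} {a b c d e f : ℕ} (Y : YTx O x B l h n a b c d e f) :
    TQ O x B l h (n + 3) :=
  TQ.of_q2 Y.H Y.B0 Y.B1 Y.B2 Y.B3 Y.B4 ⟨_, Y.up0⟩ ⟨_, Y.up3⟩ ⟨_, Y.u13⟩ (by rw [Y.l0, Y.l2])
    (by rw [Y.l3, Y.l0, Y.l1])

/-- The relations of the parameters of the Young surface of a minimal pair. -/
theorem YT.rel {X : Type} {O : PO X} {a b c d e f : ℕ} (Y : YT O a b c d e f)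
    (h2 : ∀ V w, ¬ SC O V w 2)
    (hm : ∀ V w V' w' d1 d2, SC O V w d1 → SC O V' w' d2 → cr V V' ≠ 0 →
      (a : ℤ) * d ≤ |cr V V'|) :
    (∃ J : ℕ, (a + b + c) * e = J * ((a + b) * d)) ∧ (∃ I : ℕ, (a + b + c) * f = I * (a * d)) ∧
      b * e ≤ a * d := by
  obtain ⟨x, B, l, h, n, Y⟩ := Y
  have e1 : n + 3 + 1 = n + 4 := Twr.e34 n
  have e2 : n + 3 + 2 = n := by
    have : (3 : ZMod 5) + 2 = 0 := by decide
    rw [add_assoc, this, add_zero]
  have e3 : n + 3 + 3 = n + 1 := by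
    have : (3 : ZMod 5) + 3 = 1 := by decide
    rw [add_assoc, this]
  have e4 : n + 3 + 4 = n + 2 := by
    have : (3 : ZMod 5) + 4 = 2 := by decide
    rw [add_assoc, this]
  have key := Y.toTQ.young h2 (by
    rw [e4, Y.l2, Y.h2]
    exact hm)
  obtain ⟨-, ⟨j, -, hj⟩, ⟨i, -, hi⟩, hbe⟩ := key
  rw [e1, e4, Y.l3, Y.l4, Y.h3, Y.h2] at hj
  rw [e1, e2, e4, Y.l3, Y.l4, Y.h0, Y.l2, Y.h2] at hi
  rw [e3, e4, Y.l1, Y.h3, Y.l2, Y.h2] at hbe
  exact ⟨⟨j, hj⟩, ⟨i, hi⟩, hbe⟩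

/-- **The Young surface of a minimal pair without cylinders of angle `2` has bounded area.** -/
theorem young_main {X : Type} {O : PO X} {a b c d e f : ℕ} (Y : YT O a b c d e f)
    (h2 : ∀ V w, ¬ SC O V w 2) (h2' : ∀ V w, ¬ SC O.tp V w 2)
    (hm : ∀ V w V' w' d1 d2, SC O V w d1 → SC O V' w' d2 → cr V V' ≠ 0 →
      (a : ℤ) * d ≤ |cr V V'|)
    (hm' : ∀ V w V' w' d1 d2, SC O.tp V w d1 → SC O.tp V' w' d2 → cr V V' ≠ 0 →
      (a : ℤ) * d ≤ |cr V V'|)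
    (g1 : ∀ g : ℕ, g ∣ a → g ∣ b → g ∣ c → g = 1)
    (g2 : ∀ g : ℕ, g ∣ d → g ∣ e → g ∣ f → g = 1) :
    (a + b + c) * d + (a + b) * e + a * f ≤ 2 ^ 120 := by
  by_contra hN
  obtain ⟨⟨J, r1⟩, ⟨I, r2⟩, hbe⟩ := Y.rel h2 hm
  obtain ⟨⟨J', r3⟩, ⟨I', r4⟩, -⟩ := Y.tp.rel h2' (by
    rw [mul_comm]
    exact hm')
  rcases young_end Y Y.tp r1 r2 r3 r4 hbe g1 g2 (not_le.1 hN) with ⟨V, w, h⟩ | ⟨V, w, h⟩
  · exact h2 V w h
  · exact h2' V w h

end Pool.Agent.H4G.Six
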