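import Pool.Agent.H4G.Six.Ex.Cases
import Pool.Agent.H4G.Six.Ex.Cyclic
import Pool.Agent.H4G.Six.Ex.Horiz
import Pool.Agent.H4G.Six.Ex.Glue
import Pool.Agent.H4G.Six.Ex.SCT
import Pool.Agent.H4G.Six.Ex.SCJ
import Pool.Agent.H4G.Six.Ex.Read
import Pool.Agent.H4G.Six.Ex.Shear
import Pool.Agent.H4G.Six.Ex.YoungE
import Pool.Agent.H4G.Six.Ex.CardLe
import Pool.Agent.H4G.Six.Main6

/-!
# (G7) every primitive origami of odd type has a tree in its orbit (helper38)

The minimal pair argument (helper31): among the pairs of simple cylinders (of all origamis in the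
orbit) with non parallel cores `V`, `V'` take one with `|V × V'|` minimal and turn `V` horizontal.
-/

set_option autoImplicit false

namespace Pool.Agent.H4G.Six

open Pool.Agent.H4G

variable {X : Type}

/-- there is a tree in the orbit -/
def HasTree (O : PO X) : Prop := ∃ (O' : PO X) (c : C6), SLE6 O O' ∧ Pos6 c ∧
  vol6 c = Nat.card X ∧ Has6 O' c

theorem HasTree.of {O O' : PO X} (h : SLE6 O O') (h' : HasTree O') : HasTree O := by
  obtain ⟨O2, c, h1, h2⟩ := h'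
  exact ⟨O2, c, h.trans h1, h2⟩

/-- there is a simple cylinder -/
theorem horizAll {O : PO X} {V w : Z2} {a : ℕ} (hs : SC O V w a) :
    ∃ (O' : PO X) (g : Z2 → Z2) (k : ℕ), SLE6 O O' ∧ 0 < k ∧ g V = ((k : ℤ), 0) ∧
      (∀ A B, cr (g A) (g B) = cr A B) ∧
      ∀ V2 w2 a2, SC O V2 w2 a2 → SC O' (g V2) (g w2) a2 :=
  horiz_all (fun _ _ _ _ h => h.J) (fun _ _ _ _ h => h.T) hs

theorem exists_SC [Finite X] {O : PO X} (hO : Odd6 O) : ∃ V w a, SC O V w a := by
  obtain ⟨x, b, l, h, H⟩ := exists_HS hO.cyc hO.five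
  rcases H.dg.self_or_cyc with ⟨i, t, ht⟩ | ⟨n, hn⟩
  · exact ⟨_, _, _, cross1 H ht (a := (b i - i).val) (by rw [ZMod.natCast_zmod_val]; abel)⟩
  · obtain ⟨U, w, a, h1, -⟩ := H.cyclic hn
    exact ⟨U, w, a, h1⟩

/-- a simple cylinder of angles `(1, 1)` gives a tree -/
theorem tree_of_two [Finite X] {O : PO X} (hO : Odd6 O) {V w : Z2} (hs : SC O V w 2) :
    HasTree O := by
  obtain ⟨O', g, k, h1, h2, h3, -, h5⟩ := horizAll hs
  have hO' : Odd6 O' := h1.odd.1 hO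
  obtain ⟨x, b, l, h, H⟩ := exists_HS hO'.cyc hO'.five
  have hs' := h5 V w 2 hs
  rw [h3] at hs'
  obtain ⟨i, j, t, g1, g2, g3, g4, -⟩ := hs'.read h2 H
  rcases hs_cases hO' H g1 g2 ⟨t, g4⟩ with ⟨c, c1, c2, c3⟩ | ⟨e, -⟩
  · exact ⟨O', c, h1, c1, c2, c3⟩
  · exfalso
    rw [g3] at e
    simp only [add_right_inj] at e
    revert e
    decide

/-- one simple cylinder turned horizontal: a tree, or a tower -/
theorem tower_or [Finite X] {O : PO X} (hO : Odd6 O) {k : ℕ} (hk : 0 < k) {w : Z2} {a : ℕ}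
    (hs : SC O ((k : ℤ), 0) w a) : HasTree O ∨ ∃ R : PO X,
      (R = O ∨ R = O.J.J ∨ R = O.M ∨ R = O.M.J.J) ∧ ∃ x' b' l' h' a', TQ R x' b' l' h' a' := by
  obtain ⟨x, b, l, h, H⟩ := exists_HS hO.cyc hO.five
  obtain ⟨i, j, t, g1, g2, -, g4, -⟩ := hs.read hk H
  rcases hs_cases hO H g1 g2 ⟨t, g4⟩ with ⟨c, c1, c2, c3⟩ | ⟨-, ⟨V, w, h2⟩ | h2⟩
  · exact Or.inl ⟨O, c, SLE6.refl O, c1, c2, c3⟩
  · exact Or.inl (tree_of_two hO h2)
  · exact Or.inr h2

/-- `n` is the area of a pair of non parallel simple cylinders in the orbit -/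
def PairN (O : PO X) (n : ℕ) : Prop := ∃ (O' : PO X) (V w V' w' : Z2) (d d' : ℕ), SLE6 O O' ∧
  SC O' V w d ∧ SC O' V' w' d' ∧ 0 < n ∧ |cr V V'| = n

theorem exists_pair [Finite X] {O : PO X} (hO : Odd6 O) (hn : ¬ HasTree O) :
    ∃ n, PairN O n := by
  obtain ⟨V, w, a, hs⟩ := exists_SC hO
  obtain ⟨O', g, k, h1, h2, h3, -, h5⟩ := horizAll hs
  have hO' : Odd6 O' := h1.odd.1 hO
  have hs' := h5 V w a hs
  rw [h3] at hs'
  rcases tower_or hO' h2 hs' with h | ⟨R, hR, x, b, l, h, a', T⟩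
  · exact absurd (HasTree.of h1 h) hn
  obtain ⟨-, g', -, e2, e3⟩ := carry_four' (fun _ _ _ _ h => h.J) hR
  obtain ⟨p, hp⟩ := T.uW
  obtain ⟨w', hE⟩ := e3 _ _ _ (T.cylE hp)
  have e4 : |(g' (p, (h (a' + 4) : ℤ))).2| = (h (a' + 4) : ℤ) := by
    rw [e2]
    exact abs_of_nonneg (by positivity)
  have hpos := T.hs.hpos (a' + 4)
  refine ⟨k * h (a' + 4), O', _, _, _, _, _, _, h1, hs', hE, Nat.mul_pos h2 hpos, ?_⟩
  have : cr ((k : ℤ), 0) (g' (p, (h (a' + 4) : ℤ))) = k * (g' (p, (h (a' + 4) : ℤ))).2 := by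
    simp only [cr]; ring
  rw [this, abs_mul, e4, abs_of_nonneg (by positivity : (0 : ℤ) ≤ (k : ℤ))]
  push_cast
  ring

/-! ### Primitivity of the mirror image -/

theorem Path6.M {O : PO X} {x y : X} {w : Z2} (h : Path6 O x w y) :
    Path6 O.M x (-w.1, w.2) y := by
  induction h with
  | refl =>
    have h1 := Path6.refl (O := O.M) x
    have e : ((-(0 : Z2).1, (0 : Z2).2) : Z2) = 0 := by ext <;> simp
    rw [e]
    exact h1
  | @right y w _ ih =>
    have h1 := ih.left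
    have e : ((-w.1, w.2) : Z2) - (1, 0) = (-(w + (1, 0)).1, (w + (1, 0)).2) := by
      ext
      · simp only [Prod.fst_sub, Prod.fst_add]; ring
      · simp
    rw [e] at h1
    exact h1
  | @left y w _ ih =>
    have h1 := ih.right
    have e : ((-w.1, w.2) : Z2) + (1, 0) = (-(w - (1, 0)).1, (w - (1, 0)).2) := by
      ext
      · simp only [Prod.fst_sub, Prod.fst_add]; ring
      · simp
    rw [e] at h1
    exact h1
  | @up y w _ ih =>
    have h1 := ih.up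
    have e : ((-w.1, w.2) : Z2) + (0, 1) = (-(w + (0, 1)).1, (w + (0, 1)).2) := by
      ext <;> simp
    rw [e] at h1
    exact h1
  | @down y w _ ih =>
    have h1 := ih.down
    have e : ((-w.1, w.2) : Z2) - (0, 1) = (-(w - (0, 1)).1, (w - (0, 1)).2) := by
      ext <;> simp
    rw [e] at h1
    exact h1

theorem PO.Prim.M {O : PO X} (h : O.Prim) : O.M.Prim := by
  intro x w
  have h1 := (h x (-w.1, w.2)).M
  rwa [show ((-(-w.1, w.2).1, (-w.1, w.2).2) : Z2) = w by ext <;> simp] at h1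

theorem four_prim {O R : PO X} (h : R = O ∨ R = O.J.J ∨ R = O.M ∨ R = O.M.J.J) (hp : O.Prim) :
    R.Prim := by
  rcases h with rfl | rfl | rfl | rfl
  · exact hp
  · exact prim6_J.2 (prim6_J.2 hp)
  · exact hp.M
  · exact prim6_J.2 (prim6_J.2 hp.M)

theorem four_trans [Finite X] {O R : PO X} (h : R = O ∨ R = O.J.J ∨ R = O.M ∨ R = O.M.J.J)
    (hp : O.Trans) : R.Trans := by
  rcases h with rfl | rfl | rfl | rfl
  · exact hp
  · exact trans6_J.2 (trans6_J.2 hp)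
  · exact PO.M_trans hp
  · exact trans6_J.2 (trans6_J.2 (PO.M_trans hp))

theorem four_two {O R : PO X} (h : R = O ∨ R = O.J.J ∨ R = O.M ∨ R = O.M.J.J)
    (hn : NoTwo O) : NoTwo R := by
  rcases h with rfl | rfl | rfl | rfl
  · exact hn
  · exact (hn.of (sle_J _)).of (sle_J _)
  · exact hn.M
  · exact (hn.M.of (sle_J _)).of (sle_J _)

theorem four_min {O R : PO X} {D : ℤ} (h : R = O ∨ R = O.J.J ∨ R = O.M ∨ R = O.M.J.J)
    (hn : MinD O D) : MinD R D := by
  rcases h with rfl | rfl | rfl | rfl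
  · exact hn
  · exact (hn.of (sle_J _)).of (sle_J _)
  · exact hn.M
  · exact (hn.M.of (sle_J _)).of (sle_J _)

/-- **(G7)** every primitive origami of odd type with enough squares has a tree in its orbit. -/
theorem exists_tree [Finite X] {O : PO X} (hO : Odd6 O) (hp : O.Prim)
    (hN : 2 ^ 120 < Nat.card X) :
    ∃ (O' : PO X) (c : C6), SLE6 O O' ∧ Pos6 c ∧ vol6 c = Nat.card X ∧ Has6 O' c := by
  by_contra hn
  have hn : ¬ HasTree O := hn
  classical
  -- the minimal pair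
  have hex := exists_pair hO hn
  obtain ⟨O1, V, w, V', w', d, d', h1, s1, s2, m0, m1⟩ := Nat.find_spec hex
  have hmin := fun n (h : PairN O n) => Nat.find_min' hex h
  set m := Nat.find hex with hm
  have hNo : NoTwo O := fun O' h V w hs => hn (HasTree.of h (tree_of_two (h.odd.1 hO) hs))
  have hMin : MinD O m := by
    intro O' h U z U' z' c c' hs hs' hne
    have g3 := hmin _ ⟨O', _, _, _, _, _, _, h, hs, hs', Int.natAbs_pos.2 hne,
      Int.abs_eq_natAbs _⟩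
    rw [Int.abs_eq_natAbs]
    exact_mod_cast g3
  -- its first core is turned horizontal
  obtain ⟨O2, g, k, h2, hk, gV, gcr, gSC⟩ := horizAll s1
  have h12 : SLE6 O O2 := h1.trans h2
  have hO2 : Odd6 O2 := h12.odd.1 hO
  have s1' := gSC _ _ _ s1
  have s2' := gSC _ _ _ s2
  rw [gV] at s1'
  have hcr := gcr V V'
  rw [gV] at hcr
  rcases tower_or hO2 hk s1' with h | ⟨R, hR, x, b, l, h, a, T⟩
  · exact hn (HasTree.of h12 h)
  obtain ⟨⟨f, f1, f2, f3⟩, -⟩ := carry_four' (fun _ _ _ _ h => h.J) hR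
  have hNoR : NoTwo R := four_two hR (hNo.of h12)
  have hMinR : MinD R m := four_min hR (hMin.of h12)
  have hRt := four_trans hR hO2.trans
  have hRp := four_prim hR (h12.prim.1 hp)
  obtain ⟨z1, r1⟩ := f3 _ _ _ s1'
  obtain ⟨z2, r2⟩ := f3 _ _ _ s2'
  have e0 : (f ((k : ℤ), 0)).2 = 0 := by
    have := f2 ((k : ℤ), 0)
    simpa using this
  have e1 : |cr (f ((k : ℤ), 0)) (f (g V'))| = m := by rw [f1, hcr, m1]
  have e2 : cr (f ((k : ℤ), 0)) (f (g V')) ≠ 0 := by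
    intro h0
    rw [h0, abs_zero] at e1
    have : m = 0 := by exact_mod_cast e1.symm
    omega
  obtain ⟨-, -, -, -, q5⟩ := T.young' hRt (hNoR R (SLE6.refl R)) r1 r2 e0 e2
    (fun U z U' z' c c' g1 g2 g3 => by
      rw [e1]
      exact hMinR R (SLE6.refl R) _ _ _ _ _ _ g1 g2 g3)
  rw [e1] at q5
  rw [← q5] at hMinR
  -- the Young surface
  obtain ⟨O3, -, -, -, -, h3, Y, -, -, -, c1, c2⟩ := T.fin hRt hRp hNoR hMinR
  have hNo3 := hNoR.of h3
  have hMin3 := hMinR.of h3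
  have gcd3 : ∀ {a b c : ℕ}, Nat.gcd (Nat.gcd a b) c = 1 → ∀ g : ℕ, g ∣ a → g ∣ b → g ∣ c →
      g = 1 := by
    intro a b c h g h1 h2 h3
    exact Nat.dvd_one.1 (h ▸ Nat.dvd_gcd (Nat.dvd_gcd h1 h2) h3)
  have hfin := young_main Y (hNo3 O3 (SLE6.refl _)) (hNo3.tp _ (SLE6.refl _))
    (hMin3 O3 (SLE6.refl _)) (hMin3.tp _ (SLE6.refl _)) (gcd3 c1) (gcd3 c2)
  rw [← Y.card (h3.trans_iff.1 hRt)] at hfin
  omega

/-- the form which the last file needs -/
theorem treeEx {N : ℕ} (hN : 2 ^ 120 < N) : TreeEx N := by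
  intro O hO hp
  obtain ⟨O', c, h1, -, h2, h3⟩ := exists_tree hO hp (by
    rw [Nat.card_eq_fintype_card, Fintype.card_fin]
    exact hN)
  refine ⟨O', c, h1, ?_, h3⟩
  rw [h2, Nat.card_eq_fintype_card, Fintype.card_fin]

end Pool.Agent.H4G.Six
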