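import Pool.Agent.H4G.Six.Ex.ToQ2

/-!
# (G7) a horizontal simple cylinder: the three outcomes (helper98)
-/

set_option autoImplicit false

namespace Pool.Agent.H4G.Six

open Pool.Agent.H4G

variable {X : Type} {O : PO X} {x : ZMod 5 → X} {b : Equiv.Perm (ZMod 5)} {l h : ZMod 5 → ℕ}

/-- **A horizontal simple cylinder** with bottom `i` and top `j`. -/
theorem hs_cases [Finite X] (hO : Odd6 O) (H : HS O x b l h) {i j : ZMod 5} (hi : b i = i)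
    (hj : b j + 1 = j) (hS : ∃ t, Up O x h i j t) :
    (∃ c : C6, Pos6 c ∧ vol6 c = Nat.card X ∧ Has6 O c) ∨
    ((i = j + 1 ∨ i = j + 3) ∧ ((∃ V w, SC O V w 2) ∨
      ∃ O' : PO X, (O' = O ∨ O' = O.J.J ∨ O' = O.M ∨ O' = O.M.J.J) ∧
      ∃ x' b' l' h' a, TQ O' x' b' l' h' a)) := by
  rcases H.dg.simple_final hi hj hS with ⟨-, ⟨a, b0, b1, b2, b3, b4, l1, l2, ⟨t, hC⟩, ⟨tL, hL⟩,
    ⟨tM, hM⟩⟩ | ⟨h1, h2, h3⟩⟩ | ⟨h0, ⟨s, ⟨t, hs⟩, hb⟩ | hq⟩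
  · exact Or.inl (dstar hO.trans H a b0 b1 b2 b3 b4 l1 l2 hC hL hM)
  · obtain ⟨i, hi⟩ := anti_of_hs hO.trans H h1 h2 h3
    exact absurd hi (hO.none i)
  · exact Or.inr ⟨h0, Or.inl ⟨_, _, cross1 H hs (a := 2) (by rw [hb]; norm_num)⟩⟩
  · exact Or.inr ⟨h0, Or.inr (H.toQ hO.trans hq)⟩

end Pool.Agent.H4G.Six
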