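import Pool.Agent.H4G.Six.Ex.Defs
import Pool.Agent.H4G.Sad

/-!
# (L4) crossing lemma: a closed strip crossing `n` horizontal cylinders (helper79)
-/

set_option autoImplicit false

namespace Pool.Agent.H4G.Six

open Pool.Agent.H4G

variable {X : Type} {O : PO X} {x : ZMod 5 → X} {b : Equiv.Perm (ZMod 5)} {l h : ZMod 5 → ℕ}

/-! ## Rows -/

theorem cr_rho_fix {y : X} (hy : O.rho y = y) : O.u.symm (O.r.symm y) = O.r.symm (O.u.symm y) := by
  have h1 : O.u (O.r (O.u.symm (O.r.symm y))) = y := hy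
  have h2 : O.r (O.u.symm (O.r.symm y)) = O.u.symm y := by
    rw [Equiv.eq_symm_apply]; exact h1
  rw [Equiv.eq_symm_apply]; exact h2

theorem HS.strip1 (H : HS O x b l h) (i : ZMod 5) (a : ℤ) (k : ℕ) (hk : k + 1 < h i) :
    O.u ((O.r ^ a) ((O.u ^ k) (x i))) = (O.r ^ a) ((O.u ^ (k + 1)) (x i)) := by
  have key : ∀ a : ℤ, O.u.symm ((O.r ^ (a - 1)) ((O.u ^ (k + 1)) (x i))) =
      O.r.symm (O.u.symm ((O.r ^ a) ((O.u ^ (k + 1)) (x i)))) := by
    intro a
    have h1 := cr_rho_fix (H.inner i a (k + 1) (Nat.succ_pos k) hk)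
    rw [ps_pz] at h1
    exact h1
  have h2 : ∀ a : ℤ, O.u.symm ((O.r ^ a) ((O.u ^ (k + 1)) (x i))) =
      (O.r ^ a) (O.u.symm ((O.u ^ (k + 1)) (x i))) := by
    intro a
    induction a using Int.induction_on with
    | zero => rfl
    | succ m ih =>
      have h3 := key ((m : ℤ) + 1)
      rw [add_sub_cancel_right, ih, Equiv.eq_symm_apply, p_pz] at h3
      exact h3.symm
    | pred m ih =>
      rw [key (-(m : ℤ)), ih, ps_pz]
  have h4 : O.u.symm ((O.u ^ (k + 1)) (x i)) = (O.u ^ k) (x i) := by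
    rw [Equiv.symm_apply_eq, pow_succ']; rfl
  rw [← h4, ← h2, O.u.apply_symm_apply]

theorem HS.low (H : HS O x b l h) (j : ZMod 5) (c : ℕ) (hc : c < l j) :
    O.u.symm ((O.r ^ c) (x j)) = (O.r ^ c) (O.u.symm (x j)) := by
  induction c with
  | zero => rfl
  | succ c ih =>
    have h1 := cr_rho_fix (H.reg j (c + 1) (Nat.succ_pos c) hc)
    have h2 : O.r.symm ((O.r ^ (c + 1)) (x j)) = (O.r ^ c) (x j) := by
      rw [Equiv.symm_apply_eq, pow_succ']; rfl
    rw [h2, ih (by omega), Equiv.eq_symm_apply] at h1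
    rw [← h1, pow_succ']; rfl

theorem HS.cross1 (H : HS O x b l h) {i j : ZMod 5} {t : ℤ} (hu : Up O x h i j t) (c : ℤ)
    (h0 : 0 ≤ c) (h1 : c < l j) :
    O.u ((O.r ^ (c + t)) ((O.u ^ (h i - 1)) (x i))) = (O.r ^ c) (x j) := by
  obtain ⟨m, rfl⟩ := Int.eq_ofNat_of_zero_le h0
  have h2 := H.low j m (by exact_mod_cast h1)
  rw [← pz_add, show (O.r ^ t) ((O.u ^ (h i - 1)) (x i)) = O.u.symm (x j) from hu]
  rw [zpow_natCast, ← h2, O.u.apply_symm_apply]

/-! ## The periodic development -/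

section Strip

variable (O x)

open Classical in
/-- the band containing the row `y` -/
noncomputable def cridx (P : ℕ → Z2) (y : ℤ) : ℕ :=
  if hy : ∃ i, y < (P (i + 1)).2 then Nat.find hy else 0

/-- the periodic development -/
noncomputable def crFF (s : ℕ → ZMod 5) (P : ℕ → Z2) (U : Z2) (z : Z2) : X :=
  (O.r ^ (z.1 - (z.2 / U.2) * U.1 - (P (cridx P (z.2 % U.2))).1))
    ((O.u ^ (z.2 % U.2 - (P (cridx P (z.2 % U.2))).2).toNat) (x (s (cridx P (z.2 % U.2)))))

end Strip

theorem cridx_eq {P : ℕ → Z2} (hm : StrictMono fun k => (P k).2) {i : ℕ} {y : ℤ}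
    (h0 : (P i).2 ≤ y) (h1 : y < (P (i + 1)).2) : cridx P y = i := by
  have hy : ∃ i, y < (P (i + 1)).2 := ⟨i, h1⟩
  unfold cridx
  rw [dif_pos hy, Nat.find_eq_iff]
  refine ⟨h1, fun m hmi hlt => ?_⟩
  have : (P (m + 1)).2 ≤ (P i).2 := hm.monotone (by omega)
  omega


/-- the data of the closed strip -/
structure CrStr (O : PO X) (x : ZMod 5 → X) (h : ZMod 5 → ℕ) (n : ℕ) (s : ℕ → ZMod 5) (P : ℕ → Z2)
    (U : Z2) : Prop where
  npos : 0 < n
  sn : ∀ k, s (k + n) = s k
  P0 : P 0 = 0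
  Pn : ∀ k, P (k + n) = P k + U
  up : ∀ k, ∃ t, Up O x h (s k) (s (k + 1)) t ∧ P (k + 1) = P k + (t, (h (s k) : ℤ))
  hpos : ∀ i, 0 < h i

section

variable {n : ℕ} {s : ℕ → ZMod 5} {P : ℕ → Z2} {U : Z2}

theorem CrStr.step (S : CrStr O x h n s P U) (k : ℕ) : (P (k + 1)).2 = (P k).2 + h (s k) := by
  obtain ⟨t, _, h2⟩ := S.up k
  rw [h2]; rfl

theorem CrStr.mono (S : CrStr O x h n s P U) : StrictMono fun k => (P k).2 := by
  refine strictMono_nat_of_lt_succ fun k => ?_
  have h1 := S.step k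
  have h2 := S.hpos (s k)
  show (P k).2 < (P (k + 1)).2
  omega

theorem CrStr.U_eq (S : CrStr O x h n s P U) : P n = U := by
  have h1 := S.Pn 0
  rw [Nat.zero_add, S.P0, zero_add] at h1
  exact h1

theorem CrStr.Upos (S : CrStr O x h n s P U) : 0 < U.2 := by
  have h1 := S.mono S.npos
  simp only at h1
  rw [S.P0, S.U_eq] at h1
  exact h1

theorem CrStr.ff (S : CrStr O x h n s P U) (z : Z2) (m : ℤ) (i k : ℕ) (hi : i < n)
    (hk : k < h (s i)) (hz : z.2 = m * U.2 + (P i).2 + k) :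
    crFF O x s P U z = (O.r ^ (z.1 - m * U.1 - (P i).1)) ((O.u ^ k) (x (s i))) := by
  have hm := S.mono
  have hU := S.Upos
  have h1 := S.step i
  have h2 : (P (i + 1)).2 ≤ U.2 := by
    have : (P (i + 1)).2 ≤ (P n).2 := hm.monotone (show i + 1 ≤ n by omega)
    rw [S.U_eq] at this
    exact this
  have h3 : 0 ≤ (P i).2 := by
    have : (P 0).2 ≤ (P i).2 := hm.monotone (Nat.zero_le i)
    rw [S.P0] at this
    exact this
  have hdiv : z.2 / U.2 = m := by
    rw [hz, add_assoc, add_comm, Int.add_mul_ediv_right _ _ (ne_of_gt hU),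
      Int.ediv_eq_zero_of_lt (by omega) (by omega), zero_add]
  have hmod : z.2 % U.2 = (P i).2 + k := by
    have := Int.emod_add_mul_ediv z.2 U.2
    rw [hdiv] at this
    have e : m * U.2 = U.2 * m := mul_comm _ _
    omega
  have hidx : cridx P ((P i).2 + k) = i := cridx_eq hm (by omega) (by omega)
  unfold crFF
  rw [hdiv, hmod, hidx]
  congr 2
  have : ((P i).2 + (k : ℤ) - (P i).2).toNat = k := by omega
  rw [this]

theorem CrStr.row (S : CrStr O x h n s P U) (y : ℤ) : ∃ (m : ℤ) (i k : ℕ), i < n ∧ k < h (s i) ∧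
    y = m * U.2 + (P i).2 + k := by
  have hU := S.Upos
  have key : ∀ N : ℕ, ∀ y : ℤ, 0 ≤ y → y < (P N).2 → ∃ i < N, (P i).2 ≤ y ∧ y < (P (i + 1)).2 := by
    intro N
    induction N with
    | zero =>
      intro y h1 h2
      rw [S.P0] at h2
      exact absurd h2 (not_lt.2 h1)
    | succ N ih =>
      intro y h1 h2
      rcases lt_or_ge y (P N).2 with h3 | h3
      · obtain ⟨i, hi, h4⟩ := ih y h1 h3
        exact ⟨i, by omega, h4⟩
      · exact ⟨N, by omega, h3, h2⟩
  have h1 := Int.emod_nonneg y (ne_of_gt hU)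
  have h2 := Int.emod_lt_of_pos y hU
  obtain ⟨i, hi, h3, h4⟩ := key n (y % U.2) h1 (by rw [S.U_eq]; exact h2)
  have h5 := S.step i
  refine ⟨y / U.2, i, (y % U.2 - (P i).2).toNat, hi, by omega, ?_⟩
  have h6 := Int.emod_add_mul_ediv y U.2
  have e : y / U.2 * U.2 = U.2 * (y / U.2) := mul_comm _ _
  omega

theorem CrStr.ff_right (_S : CrStr O x h n s P U) (z : Z2) :
    crFF O x s P U (z + (1, 0)) = O.r (crFF O x s P U z) := by
  unfold crFF
  have e1 : (z + (1, 0)).1 = z.1 + 1 := rfl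
  have e2 : (z + (1, 0)).2 = z.2 := by
    show z.2 + 0 = z.2
    ring
  rw [e1, e2, p_pz]
  congr 2
  ring

theorem CrStr.ff_per (S : CrStr O x h n s P U) (z : Z2) :
    crFF O x s P U (z + U) = crFF O x s P U z := by
  have hU := S.Upos
  unfold crFF
  have e1 : (z + U).1 = z.1 + U.1 := rfl
  have e2 : (z + U).2 = z.2 + U.2 := rfl
  have e3 : (z + U).2 / U.2 = z.2 / U.2 + 1 := by
    rw [e2, Int.add_ediv_of_dvd_right (dvd_refl _), Int.ediv_self (ne_of_gt hU)]
  have e4 : (z + U).2 % U.2 = z.2 % U.2 := by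
    rw [e2, Int.add_emod_right]
  rw [e3, e4, e1]
  congr 2
  ring

/-- going up -/
theorem CrStr.ff_up (S : CrStr O x h n s P U) (H : HS O x b l h) (z : Z2)
    (hz : ∀ (m : ℤ) (j : ℕ), j < n → z.2 + 1 = m * U.2 + (P j).2 →
      m * U.1 + (P j).1 ≤ z.1 ∧ z.1 < m * U.1 + (P j).1 + l (s j)) :
    crFF O x s P U (z + (0, 1)) = O.u (crFF O x s P U z) := by
  obtain ⟨m, i, k, hi, hk, hy⟩ := S.row z.2
  have e1 : (z + (0, 1)).1 = z.1 := by
    show z.1 + 0 = z.1
    ring
  have e2 : (z + (0, 1)).2 = z.2 + 1 := rfl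
  rw [S.ff z m i k hi hk hy]
  rcases Nat.lt_or_ge (k + 1) (h (s i)) with h1 | h1
  · rw [S.ff (z + (0, 1)) m i (k + 1) hi h1 (by rw [e2, hy]; push_cast; ring), e1,
      H.strip1 _ _ _ h1]
  · have hk1 : k = h (s i) - 1 := by omega
    obtain ⟨t, hu, hPs⟩ := S.up i
    have h2 := S.step i
    have h3 : (P (i + 1)).1 = (P i).1 + t := by rw [hPs]; rfl
    have h4 : (h (s i) : ℤ) = k + 1 := by omega
    rcases Nat.lt_or_ge (i + 1) n with h5 | h5
    · have h6 := hz m (i + 1) h5 (by rw [hy, h2, h4]; ring)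
      have h7 := H.cross1 hu (z.1 - m * U.1 - (P (i + 1)).1) (by omega) (by omega)
      rw [S.ff (z + (0, 1)) m (i + 1) 0 h5 (S.hpos _) (by rw [e2, hy, h2, h4]; push_cast; ring),
        e1, hk1, pow_zero]
      rw [show z.1 - m * U.1 - (P i).1 = z.1 - m * U.1 - (P (i + 1)).1 + t by rw [h3]; ring]
      exact h7.symm
    · have h5' : i + 1 = n := by omega
      have hPn : P (i + 1) = U := by rw [h5']; exact S.U_eq
      have hsn : s (i + 1) = s 0 := by
        have := S.sn 0
        rw [Nat.zero_add] at this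
        rw [h5']; exact this
      have hP02 : (P 0).2 = 0 := by rw [S.P0]; rfl
      have hP01 : (P 0).1 = 0 := by rw [S.P0]; rfl
      have hUs : U.2 = (P i).2 + h (s i) := by rw [← hPn]; exact h2
      have h6 := hz (m + 1) 0 S.npos (by rw [hy, hP02, add_mul, one_mul]; linarith)
      rw [hP01] at h6
      have e5 : (m + 1) * U.1 = m * U.1 + U.1 := by ring
      rw [hPn] at h3
      have h7 := H.cross1 hu (z.1 - m * U.1 - U.1) (by omega) (by rw [hsn]; omega)
      rw [S.ff (z + (0, 1)) (m + 1) 0 0 S.npos (S.hpos _) (by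
        rw [e2, hy, hP02, add_mul, one_mul]; push_cast; linarith), e1, hk1, pow_zero, hP01]
      rw [show z.1 - m * U.1 - (P i).1 = z.1 - m * U.1 - U.1 + t by rw [h3]; ring, h7, hsn]
      congr 1
      rw [e5]; ring_nf

/-! ## The simple cylinder -/

theorem rho_pow (H : HS O x b l h) (i : ZMod 5) (a : ℕ) : x (i + a) = (O.rho ^ a) (x i) := by
  induction a with
  | zero => rw [Nat.cast_zero, add_zero]; rfl
  | succ a ih =>
    rw [pow_succ', Equiv.Perm.mul_apply, ← ih, ← H.rot]
    congr 1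
    push_cast
    ring

/-- the geometric part: in the closed strip, the points on the levels are on the open saddles -/
theorem CrStr.strip_pt (S : CrStr O x h n s P U) {p q : ℕ} (hp : p < n) (hq : q < n)
    (hl : ∀ k < n, k ≠ p → cr (P k) U < cr (P p) U)
    (hr : ∀ k < n, k ≠ q → cr (P q) U + U.2 * l (s q) < cr (P k) U + U.2 * l (s k))
    (hw : cr (P p) U < cr (P q) U + U.2 * l (s q)) {w e : Z2}
    (he : e = P q + ((l (s q) : ℤ), 0)) (hwe : w = P p - P q - ((l (s q) : ℤ), 0))
    {y : V} (hy : y ∈ Pgm U w) (m : ℤ) {j : ℕ} (hj : j < n)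
    (h2 : y.2 + e.2 = ((m * U.2 + (P j).2 : ℤ) : ℝ)) :
    ((m * U.1 + (P j).1 : ℤ) : ℝ) < y.1 + e.1 ∧
      y.1 + e.1 < ((m * U.1 + (P j).1 + l (s j) : ℤ) : ℝ) := by
  have hU := S.Upos
  have hUR : (0 : ℝ) < U.2 := by exact_mod_cast hU
  obtain ⟨g1, g2, g3, g4, g5, g6, g7, g8⟩ := hy
  have ew : w + e = P p := by rw [he, hwe]; abel
  -- the coordinate along the level
  set ξ : ℝ := y.1 + e.1 - ((m * U.1 + (P j).1 : ℤ) : ℝ) with hξ
  have c1 : crx U y = (cr U (P j) : ℝ) - (cr U e : ℝ) - U.2 * ξ := by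
    simp only [crx, cr, hξ]
    push_cast at h2 ⊢
    have : y.2 = m * U.2 + (P j).2 - e.2 := by linarith
    rw [this]; ring
  have c2 : (cr U w : ℝ) = (cr U (P p) : ℝ) - (cr U e : ℝ) := by
    have : w = P p - e := by rw [← ew]; abel
    rw [this]
    simp only [cr, Prod.fst_sub, Prod.snd_sub]
    push_cast; ring
  have c3 : (cr U e : ℝ) = (cr U (P q) : ℝ) - U.2 * l (s q) := by
    rw [he]
    simp only [cr, Prod.fst_add, Prod.snd_add]
    push_cast; ring
  have anti : ∀ a c : Z2, cr a c = -cr c a := by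
    intro a c
    simp only [cr]; ring
  have hw0 : (0 : ℝ) < cr U w := by
    rw [c2, c3]
    have : (cr U (P p) : ℝ) = -(cr (P p) U : ℝ) := by rw [anti]; push_cast; ring
    rw [this]
    have : (cr U (P q) : ℝ) = -(cr (P q) U : ℝ) := by rw [anti]; push_cast; ring
    rw [this]
    have hw' : (cr (P p) U : ℝ) < cr (P q) U + U.2 * l (s q) := by exact_mod_cast hw
    linarith
  -- points on the sides
  have side : ∀ c : Z2, (y.1 = ((c + (m * U.1, m * U.2)).1 : ℤ) ∧
      y.2 = ((c + (m * U.1, m * U.2)).2 : ℤ)) → (c = 0 ∨ c = w) → False := by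
    intro c hc hc0
    have hyc : y = em (c + (m * U.1, m * U.2)) := by
      ext
      · exact hc.1
      · exact hc.2
    have hcr : crx w y = -(m : ℝ) * cr U w := by
      rw [hyc]
      rcases hc0 with h0 | h0 <;> rw [h0] <;>
      · simp only [crx, em, cr, Prod.fst_add, Prod.snd_add, Prod.fst_zero, Prod.snd_zero]
        push_cast; ring
    rw [hcr] at g3 g4
    have m0 : (0 : ℝ) ≤ m := by nlinarith
    have m1 : (m : ℝ) ≤ 1 := by nlinarith
    have m0' : (0 : ℤ) ≤ m := by exact_mod_cast m0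
    have m1' : (m : ℤ) ≤ 1 := by exact_mod_cast m1
    have hm : m = 0 ∨ m = 1 := by omega
    rcases hm with rfl | rfl
    · have e0 : c + ((0 : ℤ) * U.1, (0 : ℤ) * U.2) = c := by
        ext <;> simp
      rw [e0] at hyc
      rcases hc0 with h0 | h0
      · rw [h0] at hyc; exact g5 hyc
      · rw [h0] at hyc; exact g7 hyc
    · have e0 : c + ((1 : ℤ) * U.1, (1 : ℤ) * U.2) = U + c := by
        ext <;> simp [add_comm]
      rw [e0] at hyc
      rcases hc0 with h0 | h0
      · rw [h0, add_zero] at hyc; exact g6 hyc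
      · rw [h0] at hyc; exact g8 hyc
  constructor
  · -- left
    have k1 : (cr U (P j) : ℝ) - cr U (P p) ≤ U.2 * ξ := by
      have := g2
      rw [c1, c2] at this
      linarith
    suffices h : 0 < ξ by linarith
    by_cases hjp : j = p
    · subst hjp
      have : 0 ≤ U.2 * ξ := by linarith
      have h0 : 0 ≤ ξ := nonneg_of_mul_nonneg_right this hUR
      rcases h0.lt_or_eq with h | h
      · exact h
      · exfalso
        refine side w ⟨?_, ?_⟩ (Or.inr rfl)
        · have e1 : w.1 = (P j).1 - e.1 := by rw [← ew]; simp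
          simp only [Prod.fst_add, e1]
          push_cast
          rw [hξ] at h
          push_cast at h
          linarith
        · have e1 : w.2 = (P j).2 - e.2 := by rw [← ew]; simp
          simp only [Prod.snd_add, e1]
          push_cast at h2 ⊢
          linarith
    · have k2 : (cr (P j) U : ℝ) < cr (P p) U := by exact_mod_cast hl j hj hjp
      have e1 : (cr U (P p) : ℝ) = -(cr (P p) U : ℝ) := by rw [anti]; push_cast; ring
      have e2 : (cr U (P j) : ℝ) = -(cr (P j) U : ℝ) := by rw [anti]; push_cast; ring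
      rw [e1, e2] at k1
      have : 0 < U.2 * ξ := by linarith
      exact (mul_pos_iff_of_pos_left hUR).1 this
  · -- right
    have k1 : U.2 * ξ ≤ (cr U (P j) : ℝ) - cr U (P q) + U.2 * l (s q) := by
      have := g1
      rw [c1, c3] at this
      linarith
    suffices h : ξ < l (s j) by
      push_cast at hξ ⊢
      linarith
    by_cases hjq : j = q
    · subst hjq
      have : U.2 * ξ ≤ U.2 * l (s j) := by linarith
      have h0 : ξ ≤ l (s j) := le_of_mul_le_mul_left this hUR
      rcases h0.lt_or_eq with h | h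
      · exact h
      · exfalso
        refine side 0 ⟨?_, ?_⟩ (Or.inl rfl)
        · have e1 : e.1 = (P j).1 + l (s j) := by rw [he]; rfl
          simp only [zero_add]
          rw [hξ, e1] at h
          push_cast at h ⊢
          linarith
        · have e1 : e.2 = (P j).2 := by rw [he]; simp
          simp only [zero_add]
          rw [e1] at h2
          push_cast at h2 ⊢
          linarith
    · have k2 : (cr (P q) U : ℝ) + U.2 * l (s q) < cr (P j) U + U.2 * l (s j) := by
        exact_mod_cast hr j hj hjq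
      have e1 : (cr U (P q) : ℝ) = -(cr (P q) U : ℝ) := by rw [anti]; push_cast; ring
      have e2 : (cr U (P j) : ℝ) = -(cr (P j) U : ℝ) := by rw [anti]; push_cast; ring
      rw [e1, e2] at k1
      have : U.2 * ξ < U.2 * l (s j) := by linarith
      exact lt_of_mul_lt_mul_left this hUR.le

end

/-- CROSSING LEMMA. A closed strip crosses the cylinders above the saddles `s k` (`k` modulo `n`);
`P k` is the start of the saddle `s k` in the development, `U` the period. The left end of the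
transversal is the start of `s p` only, the right end is the end of `s q` only. -/
theorem crossing (H : HS O x b l h) (n : ℕ) (hn : 0 < n) (s : ℕ → ZMod 5) (P : ℕ → Z2) {U : Z2}
    (hs : ∀ k, s (k + n) = s k) (hP0 : P 0 = 0) (hP : ∀ k, P (k + n) = P k + U)
    (hup : ∀ k, ∃ t, Up O x h (s k) (s (k + 1)) t ∧ P (k + 1) = P k + (t, (h (s k) : ℤ)))
    (p q : ℕ) (hp : p < n) (hq : q < n)
    (hl : ∀ k < n, k ≠ p → cr (P k) U < cr (P p) U)
    (hr : ∀ k < n, k ≠ q → cr (P q) U + U.2 * l (s q) < cr (P k) U + U.2 * l (s k))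
    (hw : cr (P p) U < cr (P q) U + U.2 * l (s q)) (a : ℕ) (ha : b (s q) = s p + a) :
    SC O U (P p - P q - ((l (s q) : ℤ), 0)) a := by
  have S : CrStr O x h n s P U := ⟨hn, hs, hP0, hP, hup, H.hpos⟩
  have hU := S.Upos
  have hm := S.mono
  obtain ⟨e, he⟩ : ∃ e : Z2, e = P q + ((l (s q) : ℤ), 0) := ⟨_, rfl⟩
  obtain ⟨w, hwe⟩ : ∃ w : Z2, w = P p - P q - ((l (s q) : ℤ), 0) := ⟨_, rfl⟩
  rw [← hwe]
  have hc : cr U w = cr (P q) U + U.2 * l (s q) - cr (P p) U := by
    rw [hwe]
    simp only [cr, Prod.fst_sub, Prod.snd_sub]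
    ring
  have ew : w + e = P p := by rw [he, hwe]; abel
  -- values of the development at the vertices
  have v1 : ∀ j < n, crFF O x s P U (P j) = x (s j) := by
    intro j hj
    rw [S.ff (P j) 0 j 0 hj (S.hpos _) (by push_cast; ring), pow_zero]
    rw [show (P j).1 - 0 * U.1 - (P j).1 = 0 by ring, zpow_zero]
    rfl
  have v2 : crFF O x s P U e = x (b (s q)) := by
    have e1 : e.1 = (P q).1 + l (s q) := by rw [he]; rfl
    have e2 : e.2 = (P q).2 := by
      rw [he]
      show (P q).2 + 0 = (P q).2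
      ring
    rw [S.ff e 0 q 0 hq (S.hpos _) (by rw [e2]; push_cast; ring), pow_zero, e1]
    rw [show (P q).1 + (l (s q) : ℤ) - 0 * U.1 - (P q).1 = (l (s q) : ℤ) by ring, zpow_natCast]
    exact H.next (s q)
  have lab1 : ∀ z : Z2, lab O U (fun z => crFF O x s P U (z + e)) z = crFF O x s P U (z + e) := by
    intro z
    unfold lab
    by_cases h1 : 0 < U.1 ∧ 0 ≤ U.2
    · rw [if_pos h1]
    · have h2 : U.1 ≤ 0 ∧ 0 < U.2 := ⟨by
        by_contra h3
        exact h1 ⟨not_le.1 h3, hU.le⟩, hU⟩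
      rw [if_neg h1, if_pos h2]
      show O.r (crFF O x s P U (z - (1, 0) + e)) = _
      rw [← S.ff_right]
      congr 1
      abel
  have w0 : (0 : Z2) + e = e := zero_add e
  refine ⟨by rw [hc]; linarith, fun z => crFF O x s P U (z + e), ?_, ?_, ?_, ?_⟩
  · -- development
    intro y hy
    constructor
    · intro z _ _
      show crFF O x s P U (z + (1, 0) + e) = O.r (crFF O x s P U (z + e))
      rw [← S.ff_right]
      congr 1
      abel
    · intro z hz1 hz2
      show crFF O x s P U (z + (0, 1) + e) = O.u (crFF O x s P U (z + e))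
      have e0 : z + (0, 1) + e = z + e + (0, 1) := by abel
      rw [e0]
      apply S.ff_up H
      intro m j hj hzj
      obtain ⟨a1, a2, a3, a4⟩ := hz1
      obtain ⟨b1, b2, b3, b4⟩ := hz2
      have b3' : ((z.2 : ℤ) : ℝ) + 1 ≤ y.2 := by
        have : (((z + (0, 1)).2 : ℤ) : ℝ) = (z.2 : ℝ) + 1 := by
          show (((z.2 + 1 : ℤ)) : ℝ) = _
          push_cast; ring
        rw [← this]; exact b3
      have hy2 : y.2 = (z.2 : ℝ) + 1 := le_antisymm a4 b3'
      have hzj' : ((z.2 : ℤ) : ℝ) + e.2 + 1 = m * U.2 + (P j).2 := by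
        have : (z + e).2 + 1 = m * U.2 + (P j).2 := hzj
        have h3 : (((z + e).2 + 1 : ℤ) : ℝ) = ((m * U.2 + (P j).2 : ℤ) : ℝ) := by rw [this]
        simp only [Prod.snd_add] at h3
        push_cast at h3
        linarith
      have key := S.strip_pt hp hq hl hr hw he hwe hy m hj (by
        push_cast; rw [hy2]; linarith)
      obtain ⟨k1, k2⟩ := key
      have z1 : (z + e).1 = z.1 + e.1 := rfl
      rw [z1]
      constructor
      · have : ((m * U.1 + (P j).1 : ℤ) : ℝ) < ((z.1 + e.1 + 1 : ℤ) : ℝ) := by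
          refine lt_of_lt_of_le k1 ?_
          push_cast; linarith
        have := Int.cast_lt.1 this
        omega
      · have : ((z.1 + e.1 : ℤ) : ℝ) < ((m * U.1 + (P j).1 + l (s j) : ℤ) : ℝ) := by
          refine lt_of_le_of_lt ?_ k2
          push_cast; linarith
        exact Int.cast_lt.1 this
  · intro y _ z _
    show crFF O x s P U (z + e) = crFF O x s P U (z + U + e)
    rw [← S.ff_per]
    congr 1
    abel
  · rw [lab1, lab1, ew, w0, v1 p hp, v2, ha]
    exact rho_pow H (s p) a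
  · rw [lab1, ew, v1 p hp]
    exact (H.sing _).2 ⟨_, rfl⟩

end Pool.Agent.H4G.Six
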