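import Pool.Agent.H4G.Six.Ex.Cross2

/-!
# (L4) crossing lemma: words with five letters (helper79)

The letters are `i0, ..., i4`; `p` is the index of the left start, `q` the index of the right end.
-/

set_option autoImplicit false

namespace Pool.Agent.H4G.Six

open Pool.Agent.H4G

variable {X : Type} {O : PO X} {x : ZMod 5 → X} {b : Equiv.Perm (ZMod 5)} {l h : ZMod 5 → ℕ}

/-- finite sequences -/
def crsq5 {α : Type} (a0 a1 a2 a3 a4 : α) (m : ℕ) : α :=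
  if m = 0 then a0 else if m = 1 then a1 else if m = 2 then a2 else if m = 3 then a3 else a4

/-- finite sequences -/
def crsq6 {α : Type} (a0 a1 a2 a3 a4 a5 : α) (m : ℕ) : α :=
  if m = 0 then a0 else if m = 1 then a1 else if m = 2 then a2 else if m = 3 then a3 else
  if m = 4 then a4 else a5

theorem cross5_03 (H : HS O x b l h) {i0 i1 i2 i3 i4 : ZMod 5} {t0 t1 t2 t3 t4 : ℤ}
    (u0 : Up O x h i0 i1 t0) (u1 : Up O x h i1 i2 t1) (u2 : Up O x h i2 i3 t2)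
    (u3 : Up O x h i3 i4 t3) (u4 : Up O x h i4 i0 t4) {S D1 D2 D3 D4 : ℤ}
    (hS : S = h i0 + h i1 + h i2 + h i3 + h i4)
    (hD1 : D1 = t0 * (h i1 + h i2 + h i3 + h i4) - h i0 * (t1 + t2 + t3 + t4))
    (hD2 : D2 = (t0 + t1) * (h i2 + h i3 + h i4) - (h i0 + h i1) * (t2 + t3 + t4))
    (hD3 : D3 = (t0 + t1 + t2) * (h i3 + h i4) - (h i0 + h i1 + h i2) * (t3 + t4))
    (hD4 : D4 = (t0 + t1 + t2 + t3) * h i4 - (h i0 + h i1 + h i2 + h i3) * t4) (l1 : D1 < 0)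
    (l2 : D2 < 0) (l3 : D3 < 0) (l4 : D4 < 0) (r0 : D3 + S * l i3 < S * l i0)
    (r1 : D3 + S * l i3 < D1 + S * l i1) (r2 : D3 + S * l i3 < D2 + S * l i2)
    (r4 : D3 + S * l i3 < D4 + S * l i4) (w : 0 < D3 + S * l i3) {a : ℕ} (ha : b i3 = i0 + a) :
    SC O (t0 + t1 + t2 + t3 + t4, S)
      (-(t0 + t1 + t2) - l i3, -((h i0 : ℤ) + (h i1 : ℤ) + (h i2 : ℤ))) a := by
  subst hS hD1 hD2 hD3 hD4
  have e0 := H.hpos i0
  have e1 := H.hpos i1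
  have e2 := H.hpos i2
  have e3 := H.hpos i3
  have e4 := H.hpos i4
  have key := crossing' H 5 (by norm_num) (crsq5 i0 i1 i2 i3 i4)
    (crsq6 0
      (t0, (h i0 : ℤ))
      (t0 + t1, (h i0 : ℤ) + (h i1 : ℤ))
      (t0 + t1 + t2, (h i0 : ℤ) + (h i1 : ℤ) + (h i2 : ℤ))
      (t0 + t1 + t2 + t3, (h i0 : ℤ) + (h i1 : ℤ) + (h i2 : ℤ) + (h i3 : ℤ))
      (t0 + t1 + t2 + t3 + t4, (h i0 : ℤ) + (h i1 : ℤ) + (h i2 : ℤ) + (h i3 : ℤ) + (h i4 : ℤ)))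
    (U := (t0 + t1 + t2 + t3 + t4, (h i0 : ℤ) + (h i1 : ℤ) + (h i2 : ℤ) + (h i3 : ℤ) + (h i4 : ℤ))) rfl rfl
    (fun m hm => by
      interval_cases m
      · exact ⟨t0, u0, by ext <;> simp [crsq5, crsq6]⟩
      · exact ⟨t1, u1, by ext <;> simp [crsq5, crsq6]⟩
      · exact ⟨t2, u2, by ext <;> simp [crsq5, crsq6]⟩
      · exact ⟨t3, u3, by ext <;> simp [crsq5, crsq6]⟩
      · exact ⟨t4, u4, by ext <;> simp [crsq5, crsq6]⟩
      ) 0 3 (by norm_num) (by norm_num)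
    (fun m hm hmp => by
      interval_cases m
      · exact absurd rfl hmp
      · simp only [crsq6, cr]; simp; linarith
      · simp only [crsq6, cr]; simp; linarith
      · simp only [crsq6, cr]; simp; linarith
      · simp only [crsq6, cr]; simp; linarith
      )
    (fun m hm hmq => by
      interval_cases m
      · simp only [crsq6, crsq5, cr]; simp; linarith
      · simp only [crsq6, crsq5, cr]; simp; linarith
      · simp only [crsq6, crsq5, cr]; simp; linarith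
      · exact absurd rfl hmq
      · simp only [crsq6, crsq5, cr]; simp; linarith
      )
    (by simp only [crsq6, crsq5, cr]; simp; linarith) a ha
  have e : crsq6 0
      (t0, (h i0 : ℤ))
      (t0 + t1, (h i0 : ℤ) + (h i1 : ℤ))
      (t0 + t1 + t2, (h i0 : ℤ) + (h i1 : ℤ) + (h i2 : ℤ))
      (t0 + t1 + t2 + t3, (h i0 : ℤ) + (h i1 : ℤ) + (h i2 : ℤ) + (h i3 : ℤ))
      (t0 + t1 + t2 + t3 + t4, (h i0 : ℤ) + (h i1 : ℤ) + (h i2 : ℤ) + (h i3 : ℤ) + (h i4 : ℤ)) 0 -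
      crsq6 0
      (t0, (h i0 : ℤ))
      (t0 + t1, (h i0 : ℤ) + (h i1 : ℤ))
      (t0 + t1 + t2, (h i0 : ℤ) + (h i1 : ℤ) + (h i2 : ℤ))
      (t0 + t1 + t2 + t3, (h i0 : ℤ) + (h i1 : ℤ) + (h i2 : ℤ) + (h i3 : ℤ))
      (t0 + t1 + t2 + t3 + t4, (h i0 : ℤ) + (h i1 : ℤ) + (h i2 : ℤ) + (h i3 : ℤ) + (h i4 : ℤ)) 3 -
      ((l (crsq5 i0 i1 i2 i3 i4 3) : ℤ), 0) =
      ((-(t0 + t1 + t2) - l i3, -((h i0 : ℤ) + (h i1 : ℤ) + (h i2 : ℤ))) : Z2) := by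
    ext <;> simp [crsq5, crsq6]
  rw [e] at key
  exact key

theorem cross5_01 (H : HS O x b l h) {i0 i1 i2 i3 i4 : ZMod 5} {t0 t1 t2 t3 t4 : ℤ}
    (u0 : Up O x h i0 i1 t0) (u1 : Up O x h i1 i2 t1) (u2 : Up O x h i2 i3 t2)
    (u3 : Up O x h i3 i4 t3) (u4 : Up O x h i4 i0 t4) {S D1 D2 D3 D4 : ℤ}
    (hS : S = h i0 + h i1 + h i2 + h i3 + h i4)
    (hD1 : D1 = t0 * (h i1 + h i2 + h i3 + h i4) - h i0 * (t1 + t2 + t3 + t4))
    (hD2 : D2 = (t0 + t1) * (h i2 + h i3 + h i4) - (h i0 + h i1) * (t2 + t3 + t4))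
    (hD3 : D3 = (t0 + t1 + t2) * (h i3 + h i4) - (h i0 + h i1 + h i2) * (t3 + t4))
    (hD4 : D4 = (t0 + t1 + t2 + t3) * h i4 - (h i0 + h i1 + h i2 + h i3) * t4) (l1 : D1 < 0)
    (l2 : D2 < 0) (l3 : D3 < 0) (l4 : D4 < 0) (r0 : D1 + S * l i1 < S * l i0)
    (r2 : D1 + S * l i1 < D2 + S * l i2) (r3 : D1 + S * l i1 < D3 + S * l i3)
    (r4 : D1 + S * l i1 < D4 + S * l i4) (w : 0 < D1 + S * l i1) {a : ℕ} (ha : b i1 = i0 + a) :
    SC O (t0 + t1 + t2 + t3 + t4, S)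
      (-t0 - l i1, -(h i0 : ℤ)) a := by
  subst hS hD1 hD2 hD3 hD4
  have e0 := H.hpos i0
  have e1 := H.hpos i1
  have e2 := H.hpos i2
  have e3 := H.hpos i3
  have e4 := H.hpos i4
  have key := crossing' H 5 (by norm_num) (crsq5 i0 i1 i2 i3 i4)
    (crsq6 0
      (t0, (h i0 : ℤ))
      (t0 + t1, (h i0 : ℤ) + (h i1 : ℤ))
      (t0 + t1 + t2, (h i0 : ℤ) + (h i1 : ℤ) + (h i2 : ℤ))
      (t0 + t1 + t2 + t3, (h i0 : ℤ) + (h i1 : ℤ) + (h i2 : ℤ) + (h i3 : ℤ))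
      (t0 + t1 + t2 + t3 + t4, (h i0 : ℤ) + (h i1 : ℤ) + (h i2 : ℤ) + (h i3 : ℤ) + (h i4 : ℤ)))
    (U := (t0 + t1 + t2 + t3 + t4, (h i0 : ℤ) + (h i1 : ℤ) + (h i2 : ℤ) + (h i3 : ℤ) + (h i4 : ℤ))) rfl rfl
    (fun m hm => by
      interval_cases m
      · exact ⟨t0, u0, by ext <;> simp [crsq5, crsq6]⟩
      · exact ⟨t1, u1, by ext <;> simp [crsq5, crsq6]⟩
      · exact ⟨t2, u2, by ext <;> simp [crsq5, crsq6]⟩
      · exact ⟨t3, u3, by ext <;> simp [crsq5, crsq6]⟩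
      · exact ⟨t4, u4, by ext <;> simp [crsq5, crsq6]⟩
      ) 0 1 (by norm_num) (by norm_num)
    (fun m hm hmp => by
      interval_cases m
      · exact absurd rfl hmp
      · simp only [crsq6, cr]; simp; linarith
      · simp only [crsq6, cr]; simp; linarith
      · simp only [crsq6, cr]; simp; linarith
      · simp only [crsq6, cr]; simp; linarith
      )
    (fun m hm hmq => by
      interval_cases m
      · simp only [crsq6, crsq5, cr]; simp; linarith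
      · exact absurd rfl hmq
      · simp only [crsq6, crsq5, cr]; simp; linarith
      · simp only [crsq6, crsq5, cr]; simp; linarith
      · simp only [crsq6, crsq5, cr]; simp; linarith
      )
    (by simp only [crsq6, crsq5, cr]; simp; linarith) a ha
  have e : crsq6 0
      (t0, (h i0 : ℤ))
      (t0 + t1, (h i0 : ℤ) + (h i1 : ℤ))
      (t0 + t1 + t2, (h i0 : ℤ) + (h i1 : ℤ) + (h i2 : ℤ))
      (t0 + t1 + t2 + t3, (h i0 : ℤ) + (h i1 : ℤ) + (h i2 : ℤ) + (h i3 : ℤ))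
      (t0 + t1 + t2 + t3 + t4, (h i0 : ℤ) + (h i1 : ℤ) + (h i2 : ℤ) + (h i3 : ℤ) + (h i4 : ℤ)) 0 -
      crsq6 0
      (t0, (h i0 : ℤ))
      (t0 + t1, (h i0 : ℤ) + (h i1 : ℤ))
      (t0 + t1 + t2, (h i0 : ℤ) + (h i1 : ℤ) + (h i2 : ℤ))
      (t0 + t1 + t2 + t3, (h i0 : ℤ) + (h i1 : ℤ) + (h i2 : ℤ) + (h i3 : ℤ))
      (t0 + t1 + t2 + t3 + t4, (h i0 : ℤ) + (h i1 : ℤ) + (h i2 : ℤ) + (h i3 : ℤ) + (h i4 : ℤ)) 1 -
      ((l (crsq5 i0 i1 i2 i3 i4 1) : ℤ), 0) =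
      ((-t0 - l i1, -(h i0 : ℤ)) : Z2) := by
    ext <;> simp [crsq5, crsq6]
  rw [e] at key
  exact key

end Pool.Agent.H4G.Six
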