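import Pool.Agent.H4G.Six.Par

/-!
# (G7) existence of an E6 tree: definitions (helper38)

`O.rho` is the rotation by `2 π` of a square about its lower left corner; the lower left corner of
`y` is regular iff `O.rho y = y`. `lab O V f z` is the square obtained from the square at the start
`z` of a vector with direction `V` by turning clockwise into the first quadrant. `SC O V w a`: a
simple cylinder with core `V`; its right boundary is the side `0 → V`, its left boundary the side
`w → w + V`; the two boundary saddle connections start at the labels `ρ ^ a y` (right) and `y`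
(left). `HS` is the horizontal cylinder decomposition.
-/

set_option autoImplicit false

namespace Pool.Agent.H4G.Six

open Pool.Agent.H4G

variable {X : Type}

/-- rotation by `2 π` about the lower left corner -/
def PO.rho (O : PO X) : Equiv.Perm X := O.u * O.r * O.u⁻¹ * O.r⁻¹

/-- the label of the direction `V` at the lattice point `z` -/
def lab (O : PO X) (V : Z2) (f : Z2 → X) (z : Z2) : X :=
  if 0 < V.1 ∧ 0 ≤ V.2 then f z
  else if V.1 ≤ 0 ∧ 0 < V.2 then O.r (f (z - (1, 0)))
  else if V.1 < 0 ∧ V.2 ≤ 0 then O.r (O.u (f (z - (1, 1))))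
  else O.r (O.u (O.r.symm (f (z - (0, 1)))))

/-- a simple cylinder with core `V`, cross vector `w` (to the left of `V`) and angle `2 π a` -/
def SC (O : PO X) (V w : Z2) (a : ℕ) : Prop :=
  0 < cr V w ∧ ∃ f : Z2 → X, Dev O (Pgm V w) f ∧ Agree (Seg 0 w) f (fun z => f (z + V)) ∧
    lab O V f 0 = (O.rho ^ a) (lab O V f w) ∧ O.rho (lab O V f w) ≠ lab O V f w

/-- The horizontal saddles and cylinders of an origami in `H(4)`. The five squares whose lower left
corner is singular are `x i` (`i` modulo 5), `x (i + 1) = ρ (x i)`. The saddle `i` consists of the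
lower edges of `x i, r (x i), ..., r ^ (l i - 1) (x i)`; the next saddle in the row is `b i`; seen
from below the next one is `b i + 1`. The cylinder above the saddle `i` has height `h i`. -/
structure HS (O : PO X) (x : ZMod 5 → X) (b : Equiv.Perm (ZMod 5)) (l h : ZMod 5 → ℕ) : Prop where
  rot : ∀ i, x (i + 1) = O.rho (x i)
  inj : Function.Injective x
  sing : ∀ y : X, O.rho y ≠ y ↔ ∃ i, y = x i
  lpos : ∀ i, 0 < l i
  next : ∀ i, (O.r ^ l i) (x i) = x (b i)
  reg : ∀ i (k : ℕ), 0 < k → k < l i → O.rho ((O.r ^ k) (x i)) = (O.r ^ k) (x i)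
  hpos : ∀ i, 0 < h i
  hb : ∀ i, h (b i) = h i
  /-- inner vertices of the cylinder above the saddle `i` are regular -/
  inner : ∀ i (a : ℤ) (k : ℕ), 0 < k → k < h i →
    O.rho ((O.r ^ a) ((O.u ^ k) (x i))) = (O.r ^ a) ((O.u ^ k) (x i))
  /-- there is a singular vertex at height `h i` -/
  top : ∀ i, ∃ (j : ZMod 5) (t : ℤ), (O.r ^ t) ((O.u ^ (h i - 1)) (x i)) = O.u.symm (x j)

/-- `Up O x h i j t`: the saddle `j` is on the upper side of the cylinder above the saddle `i`;
the vector from the start of `i` to the start of `j` is `(t, h i)`. -/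
def Up (O : PO X) (x : ZMod 5 → X) (h : ZMod 5 → ℕ) (i j : ZMod 5) (t : ℤ) : Prop :=
  (O.r ^ t) ((O.u ^ (h i - 1)) (x i)) = O.u.symm (x j)

end Pool.Agent.H4G.Six
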