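import Pool.Agent.H4G.Six.Ex.Band

/-!
# (G7, L5) the diagram D* is an E6 tree (helper75)

Three horizontal cylinders: `C` with the lower side `a + 3` and the upper side `a + 1`, the torus `L`
with the lower side `a + 1, a` and the upper side `a + 2, a`, the torus `M` with the lower side
`a + 2, a + 4` and the upper side `a + 3, a + 4`.
-/

set_option autoImplicit false

namespace Pool.Agent.H4G.Six

open Pool.Agent.H4G

variable {X : Type} {O : PO X} {x : ZMod 5 → X} {b : Equiv.Perm (ZMod 5)} {l h : ZMod 5 → ℕ}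

/-- the next saddle of the lower side -/
theorem HS.upLeft (H : HS O x b l h) {i j : ZMod 5} {t : ℤ} (hU : Up O x h i j t) :
    Up O x h (b i) j (t - l i) := by
  unfold Up at hU ⊢
  have h1 := H.comm i (k := h i - 1) (by have := H.hpos i; omega) (l i)
  rw [natpow_r, natpow_r, H.next i] at h1
  rw [H.hb, ← h1, ← natpow_r, ← zr_add, sub_add_cancel]
  exact hU

theorem sum_five (f : ZMod 5 → ℕ) (a : ZMod 5) :
    ∑ i, f i = f a + f (a + 1) + f (a + 2) + f (a + 3) + f (a + 4) := by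
  have h1 : ∀ g : ZMod 5 → ℕ, ∑ i, g i = g 0 + g 1 + g 2 + g 3 + g 4 :=
    fun g => Fin.sum_univ_five g
  rw [← Equiv.sum_comp (Equiv.addLeft a) f, h1]
  simp only [Equiv.coe_addLeft, add_zero]

/-- **The diagram D\*.** -/
theorem dstar [Finite X] (hO : O.Trans) (H : HS O x b l h) (a : ZMod 5) (b0 : b a = a + 1)
    (b1 : b (a + 1) = a) (b2 : b (a + 2) = a + 4) (b3 : b (a + 3) = a + 3)
    (b4 : b (a + 4) = a + 2) (hl1 : l (a + 3) = l (a + 1)) (hl2 : l (a + 1) = l (a + 2))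
    {t tL tM : ℤ} (hC : Up O x h (a + 3) (a + 1) t) (hL : Up O x h (a + 1) (a + 2) tL)
    (hM : Up O x h (a + 2) (a + 3) tM) :
    ∃ c : C6, Pos6 c ∧ vol6 c = Nat.card X ∧ Has6 O c := by
  have hL1 : h (a + 1) = h a := by rw [← b0, H.hb]
  have hM1 : h (a + 2) = h (a + 4) := by rw [← b4, H.hb]
  have e5 : a + 4 + 1 = a := by
    have : (4 : ZMod 5) + 1 = 0 := by decide
    rw [add_assoc, this, add_zero]
  have e4 : a + 3 + 1 = a + 4 := by
    have : (3 : ZMod 5) + 1 = 4 := by decide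
    rw [add_assoc, this]
  have uL : Up O x h a a tL := by
    have h1 := H.upLeft (H.upRight hL)
    rw [b2, e5, b1, ← hl2, add_sub_cancel_right] at h1
    exact h1
  have uM : Up O x h (a + 4) (a + 4) tM := by
    have h1 := H.upLeft (H.upRight hM)
    rw [b3, e4, b2, hl1, hl2, add_sub_cancel_right] at h1
    exact h1
  have P1 := H.parBand hC hl1
  have P2 := H.parBand hL hl2
  have P3 := H.parBand hM (hl2.symm.trans hl1.symm)
  have P4 := H.parBand uL rfl
  have P5 := H.parBand uM rfl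
  rw [b3] at P1
  rw [b1] at P2
  rw [b2] at P3
  rw [b0] at P4
  rw [b4] at P5
  rw [hl1] at P1
  rw [← hl2] at P3
  rw [← hL1] at P4
  rw [← hM1] at P5
  set c : C6 := (((l (a + 1) : ℤ), 0), (t, (h (a + 3) : ℤ)), (tL, (h (a + 1) : ℤ)),
    ((l a : ℤ), 0), (tM, (h (a + 2) : ℤ)), ((l (a + 4) : ℤ), 0)) with hc
  have hhas : Has6 O c := ⟨_, _, _, _, _, _, _, _, _, _, P1, P2, P3, P4, P5⟩
  have hvol : vol6 c = ((∑ i, l i * h i : ℕ) : ℤ) := by
    rw [sum_five (fun i => l i * h i) a, hc]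
    simp only [vol6, cr]
    push_cast
    rw [hl1, ← hl2, ← hL1, ← hM1]
    ring
  refine ⟨c, ⟨P1.1, P2.1, P3.1, P4.1, P5.1⟩, ?_, hhas⟩
  apply le_antisymm
  · rw [hvol]
    exact_mod_cast H.area_le
  · obtain ⟨R, hne, hr, hu, hle⟩ := core6 hhas
    rw [hO R hne hr hu, Set.ncard_univ] at hle
    exact hle

end Pool.Agent.H4G.Six
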