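import Pool.Agent.H4G.Six.Ex.Band

/-!
# (G7, L2) existence of the horizontal decomposition (helper46)

`exists_HS`: an origami with commutator a 5-cycle has a structure `HS`.
-/

set_option autoImplicit false

namespace Pool.Agent.H4G.Six

open Pool.Agent.H4G

variable {X : Type} {O : PO X}

theorem comm_eq_rho_inv (O : PO X) : O.r * O.u * O.r⁻¹ * O.u⁻¹ = O.rho⁻¹ := by
  simp [PO.rho, mul_assoc]

/-- the labels of the five singular squares -/
theorem exists_lab [Finite X] (f : Equiv.Perm X) (hc : f.IsCycle)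
    (h5 : {y | f y ≠ y}.ncard = 5) : ∃ x : ZMod 5 → X, (∀ i, x (i + 1) = f (x i)) ∧
      Function.Injective x ∧ ∀ y, f y ≠ y ↔ ∃ i, y = x i := by
  classical
  have := Fintype.ofFinite X
  obtain ⟨x0, hx0, -⟩ := id hc
  have ho : orderOf f = 5 := by
    rw [hc.orderOf, ← h5, ← Set.ncard_coe_finset]
    congr 1
    ext y
    simp
  have hmod : ∀ n : ℕ, (f ^ (n % 5)) x0 = (f ^ n) x0 := by
    intro n
    have h1 := pow_mod_orderOf f n
    rw [ho] at h1
    rw [h1]
  refine ⟨fun i => (f ^ i.val) x0, ?_, ?_, ?_⟩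
  · intro i
    show (f ^ (i + 1).val) x0 = f ((f ^ i.val) x0)
    rw [ZMod.val_add, hmod, show (1 : ZMod 5).val = 1 from rfl, pow_succ']
    rfl
  · have key : ∀ a c : ℕ, a < 5 → c < 5 → a ≤ c → (f ^ a) x0 = (f ^ c) x0 → a = c := by
      intro a c ha hcc hac h1
      have h2 : (f ^ (c - a)) x0 = x0 := by
        have e : f ^ c = f ^ a * f ^ (c - a) := by rw [← pow_add]; congr 1; omega
        rw [e] at h1
        exact ((f ^ a).injective h1).symm
      have h3 := (hc.pow_eq_one_iff' hx0).2 h2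
      have h4 := orderOf_dvd_of_pow_eq_one h3
      rw [ho] at h4
      obtain ⟨q, hq⟩ := h4
      omega
    intro i j hij
    have hi := ZMod.val_lt i
    have hj := ZMod.val_lt j
    have h1 : i.val = j.val := by
      rcases le_total i.val j.val with h | h
      · exact key _ _ hi hj h hij
      · exact (key _ _ hj hi h hij.symm).symm
    exact ZMod.val_injective 5 h1
  · intro y
    constructor
    · intro hy
      obtain ⟨n, hn⟩ := hc.exists_pow_eq hx0 hy
      refine ⟨(n : ZMod 5), ?_⟩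
      show y = (f ^ ((n : ZMod 5)).val) x0
      rw [ZMod.val_natCast, hmod, hn]
    · rintro ⟨i, rfl⟩ h1
      have h2 : (f ^ i.val) (f x0) = (f ^ i.val) x0 := by
        have e : (f ^ i.val) (f x0) = f ((f ^ i.val) x0) := by
          have := congrArg (fun g : Equiv.Perm X => g x0) (Commute.self_pow f i.val).eq
          exact this.symm
        rw [e]; exact h1
      exact hx0 ((f ^ i.val).injective h2)

/-- first return of a permutation to five marked points -/
theorem exists_ret [Finite X] (r : Equiv.Perm X) (x : ZMod 5 → X) (hx : Function.Injective x) :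
    ∃ (b : Equiv.Perm (ZMod 5)) (l : ZMod 5 → ℕ), (∀ i, 0 < l i) ∧ (∀ i, (r ^ l i) (x i) = x (b i)) ∧
      ∀ i (k : ℕ), 0 < k → k < l i → ∀ j, (r ^ k) (x i) ≠ x j := by
  classical
  have hex : ∀ i, ∃ k, 0 < k ∧ ∃ j, (r ^ k) (x i) = x j := by
    intro i
    exact ⟨orderOf r, orderOf_pos r, i, by rw [pow_orderOf_eq_one]; rfl⟩
  have hsp := fun i => Nat.find_spec (hex i)
  have hmin : ∀ i k, 0 < k → k < Nat.find (hex i) → ∀ j, (r ^ k) (x i) ≠ x j := by
    intro i k hk hk2 j hj
    exact Nat.find_min (hex i) hk2 ⟨hk, j, hj⟩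
  choose b0 hb0 using fun i => (hsp i).2
  have key : ∀ i i', Nat.find (hex i) ≤ Nat.find (hex i') → b0 i = b0 i' → i = i' := by
    intro i i' hle hbb
    have h1 := hb0 i
    rw [hbb, ← hb0 i'] at h1
    have e : r ^ Nat.find (hex i') = r ^ Nat.find (hex i) *
        r ^ (Nat.find (hex i') - Nat.find (hex i)) := by
      rw [← pow_add]; congr 1; omega
    rw [e] at h1
    have h2 := (r ^ Nat.find (hex i)).injective h1
    by_cases h0 : Nat.find (hex i') - Nat.find (hex i) = 0
    · rw [h0] at h2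
      exact hx h2
    · exact absurd h2.symm (hmin i' _ (by omega) (by have := (hsp i).1; omega) i)
  have hinj : Function.Injective b0 := by
    intro i i' hbb
    rcases le_total (Nat.find (hex i)) (Nat.find (hex i')) with h | h
    · exact key _ _ h hbb
    · exact (key _ _ h hbb.symm).symm
  exact ⟨Equiv.ofBijective b0 (Finite.injective_iff_bijective.1 hinj), fun i => Nat.find (hex i),
    fun i => (hsp i).1, hb0, hmin⟩

theorem comm_rows {x₀ : X} {n : ℕ}
    (hin : ∀ k : ℕ, 0 < k → k < n → ∀ a : ℤ,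
      O.rho ((O.r ^ a) ((O.u ^ k) x₀)) = (O.r ^ a) ((O.u ^ k) x₀))
    {k : ℕ} (hk : k < n) (a : ℤ) : (O.r ^ a) ((O.u ^ k) x₀) = (O.u ^ k) ((O.r ^ a) x₀) := by
  induction k with
  | zero => simp
  | succ m ih =>
    rw [inner_row (fun a => hin (m + 1) (by omega) hk a) a, ih (by omega), pow_succ']
    rfl

/-- the squares above a row whose upper vertices are regular -/
theorem row_above {z : X} (hz : ∀ a : ℤ, O.rho (O.u ((O.r ^ a) z)) = O.u ((O.r ^ a) z)) (a : ℤ) :
    O.u ((O.r ^ a) z) = (O.r ^ a) (O.u z) := by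
  induction a using Int.induction_on with
  | zero => simp
  | succ n ih =>
    rw [zr_succ, zr_succ, ← ih]
    have h1 := hz ((n : ℤ) + 1)
    rw [zr_succ] at h1
    exact reg_up h1
  | pred n ih =>
    have e : (-(n : ℤ)) = (-(n : ℤ) - 1) + 1 := by ring
    have h1 := hz (-(n : ℤ))
    have h2 : (O.r ^ (-(n : ℤ))) z = O.r ((O.r ^ (-(n : ℤ) - 1)) z) := by
      rw [← zr_succ, ← e]
    have h3 : (O.r ^ (-(n : ℤ))) (O.u z) = O.r ((O.r ^ (-(n : ℤ) - 1)) (O.u z)) := by
      rw [← zr_succ, ← e]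
    rw [h2] at h1 ih
    rw [reg_up h1, h3] at ih
    exact O.r.injective ih

theorem exists_HS_of_rho [Finite X] (hc : O.rho.IsCycle) (h5 : {y | O.rho y ≠ y}.ncard = 5) :
    ∃ x b l h, HS O x b l h := by
  classical
  obtain ⟨x, hx1, hx2, hx3⟩ := exists_lab O.rho hc h5
  obtain ⟨b, l, hl, hb, hl2⟩ := exists_ret O.r x hx2
  have hreg : ∀ y, (∀ j, y ≠ x j) → O.rho y = y := by
    intro y hy
    by_contra h1
    obtain ⟨i, hi⟩ := (hx3 y).1 h1
    exact hy i hi
  have hex : ∀ i, ∃ k, 0 < k ∧ ∃ (a : ℤ) (j : ZMod 5), (O.r ^ a) ((O.u ^ k) (x i)) = x j := by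
    intro i
    exact ⟨orderOf O.u, orderOf_pos O.u, 0, i, by rw [pow_orderOf_eq_one]; simp⟩
  have hsp := fun i => Nat.find_spec (hex i)
  have hinn : ∀ i (k : ℕ), 0 < k → k < Nat.find (hex i) → ∀ a : ℤ,
      O.rho ((O.r ^ a) ((O.u ^ k) (x i))) = (O.r ^ a) ((O.u ^ k) (x i)) := by
    intro i k hk hk2 a
    refine hreg _ fun j hj => ?_
    exact Nat.find_min (hex i) hk2 ⟨hk, a, j, hj⟩
  have hle : ∀ i, Nat.find (hex i) ≤ Nat.find (hex (b i)) := by
    intro i
    rw [Nat.le_find_iff]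
    rintro m hm ⟨hm0, a, j, hj⟩
    have h1 : (O.u ^ m) (x (b i)) = (O.r ^ (l i : ℤ)) ((O.u ^ m) (x i)) := by
      rw [comm_rows (hinn i) hm, zpow_natCast, hb]
    rw [h1, ← zr_add] at hj
    exact Nat.find_min (hex i) hm ⟨hm0, _, j, hj⟩
  have hpow : ∀ i (m : ℕ), Nat.find (hex i) ≤ Nat.find (hex ((b ^ m) i)) := by
    intro i m
    induction m with
    | zero => exact le_refl _
    | succ m ih =>
      have e : (b ^ (m + 1)) i = b ((b ^ m) i) := by rw [pow_succ']; rfl
      rw [e]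
      exact ih.trans (hle _)
  have hbh : ∀ i, Nat.find (hex (b i)) = Nat.find (hex i) := by
    intro i
    refine le_antisymm ?_ (hle i)
    have h1 := hpow (b i) (orderOf b - 1)
    have e : (b ^ (orderOf b - 1)) (b i) = i := by
      have h2 : b ^ (orderOf b - 1) * b = 1 := by
        rw [← pow_succ, Nat.sub_add_cancel (orderOf_pos b), pow_orderOf_eq_one]
      exact congrArg (fun g : Equiv.Perm (ZMod 5) => g i) h2
    rwa [e] at h1
  refine ⟨x, b, l, fun i => Nat.find (hex i), ⟨hx1, hx2, hx3, hl, hb, ?_, fun i => (hsp i).1, hbh,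
    fun i a k hk hk2 => hinn i k hk hk2 a, ?_⟩⟩
  · intro i k hk hk2
    exact hreg _ (hl2 i k hk hk2)
  · intro i
    obtain ⟨hpos, a, j, hj⟩ := hsp i
    by_contra hno
    push Not at hno
    obtain ⟨m, hm⟩ : ∃ m, Nat.find (hex i) = m + 1 := ⟨Nat.find (hex i) - 1, by omega⟩
    rw [hm] at hj
    have hno' : ∀ (j : ZMod 5) (t : ℤ), (O.r ^ t) ((O.u ^ m) (x i)) ≠ O.u.symm (x j) := by
      intro j t
      have := hno j t
      rwa [show Nat.find (hex i) - 1 = m from by omega] at this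
    have hz : ∀ a : ℤ, O.rho (O.u ((O.r ^ a) ((O.u ^ m) (x i)))) =
        O.u ((O.r ^ a) ((O.u ^ m) (x i))) := by
      intro a
      refine hreg _ fun j hj => hno' j a ?_
      rw [← hj, O.u.symm_apply_apply]
    have e : (O.u ^ (m + 1)) (x i) = O.u ((O.u ^ m) (x i)) := by rw [pow_succ']; rfl
    rw [e, ← row_above hz] at hj
    exact hno' j a (by rw [← hj, O.u.symm_apply_apply])

/-- (L2) the horizontal decomposition exists -/
theorem exists_HS [Finite X] (hc : (O.r * O.u * O.r⁻¹ * O.u⁻¹).IsCycle)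
    (h5 : {y | (O.r * O.u * O.r⁻¹ * O.u⁻¹) y ≠ y}.ncard = 5) : ∃ x b l h, HS O x b l h := by
  rw [comm_eq_rho_inv] at hc h5
  refine exists_HS_of_rho (by simpa using hc.inv) ?_
  rw [← h5]
  congr 1
  ext y
  simp only [Set.mem_ofPred_eq, ne_eq, not_iff_not]
  rw [Equiv.Perm.inv_eq_iff_eq]
  exact eq_comm

end Pool.Agent.H4G.Six
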