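import Pool.Agent.H4G.Six.Ex.Table3

/-!
# The table, final form (helper98)

(T2) `DG.self_or_cyc`; (T3) `DG.simple_final`.
-/

set_option autoImplicit false

namespace Pool.Agent.H4G.Six

open Finset
open Tab

variable {b : Equiv.Perm (ZMod 5)} {S : ZMod 5 → ZMod 5 → Prop} {l : ZMod 5 → ℕ}

/-- the hypotheses of `anti_of_hs` (helper2) -/
def Hyp (b : Equiv.Perm (ZMod 5)) (S : ZMod 5 → ZMod 5 → Prop) (l : ZMod 5 → ℕ) : Prop :=
  (∀ i, b (b i + 3) = i + 2) ∧ (∀ i, l (b i + 3) = l i) ∧ ∀ i, S i (b i + 3)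

theorem Rot.cov {n : ZMod 5} (i : ZMod 5) : ∃ k : Fin 5, i = zz k + n :=
  ⟨(i - n : ZMod 5), by change i = i - n + n; ring⟩

theorem Rot.hyp {n : ZMod 5} {b' c' : Fin 5 → Fin 5} (h : Rot n b S b' c')
    (h1 : ∀ k, b' (b' k + 3) = k + 2) (h2 : ∀ k, Tab.rho b' k = c' (b' k + 3))
    (h3 : ∀ k : Fin 5, l (pl n (b' k + 3)) = l (pl n k)) : Hyp b S l := by
  have e3 : ∀ k : Fin 5, zz (b' k) + n + 3 = zz (b' k + 3) + n := by
    intro k
    rw [zz_add]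
    have : zz 3 = (3 : ZMod 5) := rfl
    rw [this]; ring
  refine ⟨fun i => ?_, fun i => ?_, fun i => ?_⟩
  · obtain ⟨k, rfl⟩ := Rot.cov (n := n) i
    rw [h.1 k, e3, h.1, h1, zz_add]
    have : zz 2 = (2 : ZMod 5) := rfl
    rw [this]; ring
  · obtain ⟨k, rfl⟩ := Rot.cov (n := n) i
    rw [h.1 k, e3, zz_pl, zz_pl]
    exact h3 k
  · obtain ⟨k, rfl⟩ := Rot.cov (n := n) i
    rw [h.1 k, e3]
    exact (h.2 k (b' k + 3)).2 (h2 k)

theorem Rot.hyp1 (D : DG b S l) {n : ZMod 5} (h : Rot n b S bH1 cH1) : Hyp b S l := by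
  refine h.hyp (by decide) (by decide) ?_
  obtain ⟨-, -, -, -, -, -, -, -, -, -, e, -⟩ := Rot.h1 D h
  intro k
  fin_cases k
  · exact e.symm
  · rfl
  · rfl
  · exact e
  · rfl

theorem Rot.hyp2 (D : DG b S l) {n : ZMod 5} (h : Rot n b S bH2 cH2) : Hyp b S l := by
  refine h.hyp (by decide) (by decide) ?_
  obtain ⟨-, -, -, -, -, -, -, -, -, -, e, e', -⟩ := Rot.h2 D h
  intro k
  fin_cases k
  · exact e.symm
  · exact e'.symm
  · rfl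
  · exact e
  · exact e'

theorem Rot.hyp3 (D : DG b S l) {n : ZMod 5} (h : Rot n b S bH3 cH3) : Hyp b S l := by
  refine h.hyp (by decide) (by decide) ?_
  obtain ⟨-, -, -, -, -, -, -, -, -, -, e, e', -⟩ := Rot.h3 D h
  have e2 : l (n + 1) = l (n + 2) := by omega
  intro k
  fin_cases k
  · exact e.symm
  · exact e2.symm
  · exact e2
  · exact e
  · rfl

/-- the hypotheses of `dstar` (helper75) -/
def IsDst (b : Equiv.Perm (ZMod 5)) (S : ZMod 5 → ZMod 5 → Prop) (l : ZMod 5 → ℕ) (a : ZMod 5) :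
    Prop :=
  b a = a + 1 ∧ b (a + 1) = a ∧ b (a + 2) = a + 4 ∧ b (a + 3) = a + 3 ∧ b (a + 4) = a + 2 ∧
    l (a + 3) = l (a + 1) ∧ l (a + 1) = l (a + 2) ∧ S (a + 3) (a + 1) ∧ S (a + 1) (a + 2) ∧
    S (a + 2) (a + 3)

theorem Rot.isDst (D : DG b S l) {n : ZMod 5} (h : Rot n b S bD cD) : IsDst b S l (n + 2) := by
  obtain ⟨b0, b1, b2, b3, b4, s1, s2, s3, s4, s5, e1, e2, e3⟩ := Rot.dst D h
  have f1 : n + 2 + 1 = n + 3 := by rw [add_assoc]; rfl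
  have f2 : n + 2 + 2 = n + 4 := by rw [add_assoc]; rfl
  have f3 : n + 2 + 3 = n := by
    rw [add_assoc]
    have : (2 : ZMod 5) + 3 = 0 := by decide
    rw [this, add_zero]
  have f4 : n + 2 + 4 = n + 1 := by
    rw [add_assoc]
    have : (2 : ZMod 5) + 4 = 1 := by decide
    rw [this]
  unfold IsDst
  rw [f1, f2, f3, f4]
  have s6 : S (n + 3) (n + 4) := by
    have := D.left s5
    rwa [b2] at this
  have s7 : S (n + 4) n := by
    have := D.left s2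
    rwa [b1] at this
  exact ⟨b2, b3, b4, b0, b1, e1, by omega, s1, s6, s7⟩

/-- (T3) horizontal simple cylinders: bottom `i`, top `j` -/
theorem DG.simple_final (D : DG b S l) {i j : ZMod 5} (hi : b i = i) (hj : b j + 1 = j)
    (hS : S i j) :
    (i = j + 2 ∧ ((∃ a, IsDst b S l a) ∨ Hyp b S l)) ∨
    ((i = j + 1 ∨ i = j + 3) ∧ ((∃ s, S s s ∧ b s = s + 2) ∨ (∃ n, Rot n b S bQ1 cQ1) ∨
      (∃ n, Rot n b S bQ2 cQ2) ∨ (∃ n, Rot n b S bQ3 cQ3) ∨ ∃ n, Rot n b S bQ4 cQ4)) := by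
  rcases D.simple hi hj hS with ⟨h1, ⟨n, h⟩ | ⟨n, h⟩ | ⟨n, h⟩ | ⟨n, h⟩⟩ | h
  · exact Or.inl ⟨h1, Or.inl ⟨_, h.isDst D⟩⟩
  · exact Or.inl ⟨h1, Or.inr (h.hyp1 D)⟩
  · exact Or.inl ⟨h1, Or.inr (h.hyp2 D)⟩
  · exact Or.inl ⟨h1, Or.inr (h.hyp3 D)⟩
  · exact Or.inr h

end Pool.Agent.H4G.Six
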