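import Pool.Agent.H4G.Six.Ex.Facts
import Pool.Agent.H4G.Six.Ex.Table4

/-!
# (G7) the abstract diagram of a horizontal decomposition (helper46)
-/

set_option autoImplicit false

namespace Pool.Agent.H4G.Six

open Pool.Agent.H4G

variable {X : Type} {O : PO X} {x : ZMod 5 → X} {b : Equiv.Perm (ZMod 5)} {l h : ZMod 5 → ℕ}

theorem SameCycle.iter {β : Equiv.Perm (ZMod 5)} {i j : ZMod 5} (h : β.SameCycle i j) :
    ∃ n : ℕ, j = (β : ZMod 5 → ZMod 5)^[n] i := by
  obtain ⟨n, hn⟩ := h.exists_nat_pow_eq
  exact ⟨n, by rw [← hn, Equiv.Perm.coe_pow]⟩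

/-- the diagram of the horizontal decomposition -/
theorem HS.dg [Finite X] (H : HS O x b l h) : DG b (fun i j => ∃ t, Up O x h i j t) l where
  left := by
    rintro i j ⟨t, ht⟩
    exact H.up_b ht (Equiv.Perm.sameCycle_apply_right.2 (Equiv.Perm.SameCycle.refl b i))
  right := by
    rintro i j ⟨t, ht⟩
    exact ⟨_, H.upRight ht⟩
  exT := fun i => H.top i
  exB := fun j => H.up_exists j
  topU := by
    rintro i j j' ⟨t, ht⟩ ⟨t', ht'⟩
    exact SameCycle.iter (H.up_top ht ht')
  botU := by
    rintro i i' j ⟨t, ht⟩ ⟨t', ht'⟩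
    exact SameCycle.iter (H.up_bot ht ht')
  lpos := H.lpos
  sum := by
    rintro i j ⟨t, ht⟩
    have h1 := H.sum ht
    unfold wd at h1
    convert h1 using 2
    · ext k
      simp only [Finset.mem_filter, Finset.mem_univ, true_and]
      constructor
      · rintro ⟨t', ht'⟩
        exact H.up_bot ht ht'
      · intro hk
        exact H.up_b ht hk
    · ext k
      simp only [Finset.mem_filter, Finset.mem_univ, true_and]
      constructor
      · rintro ⟨t', ht'⟩
        exact H.up_top ht ht'
      · intro hk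
        exact H.up_same ht hk

end Pool.Agent.H4G.Six
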