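import Pool.Agent.H4G.Six.Ex.Neg
import Pool.Agent.H4G.Six.Fin6

/-!
# (G7, L6) hyperelliptic diagrams have an anti-automorphism (helper5)

The five hyperelliptic diagrams are those with `b (b i + 3) = i + 2` for all `i` in which the
saddle `b i + 3` is on the upper side of the cylinder above `i` and has the length of `i`.
-/

set_option autoImplicit false

namespace Pool.Agent.H4G.Six

open Pool.Agent.H4G

variable {X : Type} {O : PO X} {x : ZMod 5 → X} {b : Equiv.Perm (ZMod 5)} {l h : ZMod 5 → ℕ}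

/-- **A hyperelliptic diagram gives an anti-automorphism.** -/
theorem HS.hyp [Finite X] (hO : O.Trans) (H : HS O x b l h) (hA : ∀ i, b (b i + 3) = i + 2)
    (hB : ∀ i, l (b i + 3) = l i) (hC : ∀ i, ∃ t, Up O x h i (b i + 3) t) :
    ∃ i, O.Anti i := by
  obtain ⟨h', H', k1, k2⟩ := H.neg hO
  have hO' : O.J.J.Trans := trans6_J.2 (trans6_J.2 hO)
  have e0 : ∀ i, b.symm (i + 2) = b i + 3 := fun i => by
    rw [← hA i, Equiv.symm_apply_apply]
  have e32 : ∀ i : ZMod 5, i + 3 + 2 = i := by decide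
  have e31 : ∀ i : ZMod 5, i + 3 - 1 = i + 2 := by decide
  refine HS.anti hO H hO' H' 2 (fun i => ?_) (fun i => ?_) (fun i => ?_) (fun i => ?_)
  · rw [bneg_apply, e0, e31]
  · simp only [e0]
    exact hB i
  · obtain ⟨t, ht⟩ := hC i
    have := k1 _ _ _ ht
    rwa [hA] at this
  · obtain ⟨t, ht⟩ := hC i
    refine ⟨b i + 3, t, ht, ?_⟩
    have := k2 _ _ _ ht
    rw [hA, hB, add_sub_cancel_right] at this
    rw [e32]
    exact this

/-- the same for a connected origami without anti-automorphism -/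
theorem HS.not_hyp [Finite X] (hO : Odd6 O) (H : HS O x b l h) (hA : ∀ i, b (b i + 3) = i + 2)
    (hB : ∀ i, l (b i + 3) = l i) (hC : ∀ i, ∃ t, Up O x h i (b i + 3) t) : False := by
  obtain ⟨i, hi⟩ := H.hyp hO.trans hA hB hC
  exact hO.none i hi

end Pool.Agent.H4G.Six
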