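import Pool.Agent.H4G.Six.Ex.Band

/-!
# (G7, L6) symmetric cylinder diagrams give anti-automorphisms (helper2)

An anti-automorphism turns the zero by `5 π`, so it sends the saddle `i` to the reversed saddle
`τ i = b i + 3`. `anti_of_hs`: if `τ` is an involution (`b (b i + 3) = i + 2`), the saddles `i` and
`τ i` have the same length, and the cylinder above `i` has `τ i` on its upper side, then the half
turns of the cylinders fit together to an anti-automorphism.
-/

set_option autoImplicit false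

namespace Pool.Agent.H4G.Six

open Pool.Agent.H4G

variable {X : Type}

/-- A closed relation with few elements is the graph of an isomorphism. -/
theorem iso_of_rel {X' : Type} [Finite X] [Finite X'] {O : PO X} {O' : PO X'} (hO : O.Trans)
    (hO' : O'.Trans) {R : Set (X × X')} (hne : R.Nonempty)
    (hr : ∀ x ∈ R, (O.prod O').r x ∈ R) (hu : ∀ x ∈ R, (O.prod O').u x ∈ R)
    (h1 : R.ncard ≤ Nat.card X) (h2 : R.ncard ≤ Nat.card X') : ∃ e : X ≃ X', Iso6 O O' e := by
  have p1 := pproj_fst hO hne hr hu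
  have p2 := pproj_snd hO' hne hr hu
  have hs1 : Function.Surjective (fun p : R => p.1.1) := fun x => by
    obtain ⟨y, hy⟩ := p1 x
    exact ⟨⟨(x, y), hy⟩, rfl⟩
  have hs2 : Function.Surjective (fun p : R => p.1.2) := fun y => by
    obtain ⟨x, hx⟩ := p2 y
    exact ⟨⟨(x, y), hx⟩, rfl⟩
  have hb1 := hs1.bijective_of_nat_card_le (by rwa [Nat.card_coe_set_eq])
  have hb2 := hs2.bijective_of_nat_card_le (by rwa [Nat.card_coe_set_eq])
  set e : X ≃ X' := (Equiv.ofBijective _ hb1).symm.trans (Equiv.ofBijective _ hb2) with he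
  have hmem : ∀ x, (x, e x) ∈ R := by
    intro x
    have h3 : (((Equiv.ofBijective _ hb1).symm x) : R).1.1 = x :=
      (Equiv.ofBijective _ hb1).apply_symm_apply x
    have h4 : e x = (((Equiv.ofBijective _ hb1).symm x) : R).1.2 := rfl
    have h5 := ((Equiv.ofBijective _ hb1).symm x).2
    have h6 : (x, e x) = (((Equiv.ofBijective _ hb1).symm x) : R).1 := Prod.ext h3.symm h4
    rw [h6]
    exact h5
  refine ⟨e, fun x => ?_, fun x => ?_⟩
  · exact graph_unique R p1 h1 (hmem _) (hr _ (hmem x))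
  · exact graph_unique R p1 h1 (hmem _) (hu _ (hmem x))

variable {O : PO X} {x : ZMod 5 → X} {b : Equiv.Perm (ZMod 5)} {l h : ZMod 5 → ℕ}

theorem HS.nextz (H : HS O x b l h) (i : ZMod 5) : (O.r ^ (l i : ℤ)) (x i) = x (b i) := by
  rw [natpow_r]; exact H.next i

theorem inv_closed [Finite X] (f : Equiv.Perm X) {S : Set X} (hf : ∀ y ∈ S, f⁻¹ y ∈ S) :
    ∀ y ∈ S, f y ∈ S := by
  intro y hy
  have h1 : ∀ n : ℕ, (f⁻¹ ^ n) y ∈ S := by
    intro n
    induction n with
    | zero => simpa using hy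
    | succ n ih => rw [pow_succ']; exact hf _ ih
  have h2 : f⁻¹ ^ (orderOf f - 1) = f := by
    have h3 : 0 < orderOf f := orderOf_pos f
    have h4 : f ^ (orderOf f - 1) * f = 1 := by
      rw [← pow_succ, Nat.sub_add_cancel h3, pow_orderOf_eq_one]
    rw [inv_pow, eq_comm, eq_inv_iff_mul_eq_one]
    rw [← h4]
    exact (Commute.pow_self f _).eq.symm
  rw [← h2]
  exact h1 _

theorem trans_neg [Finite X] (hO : O.Trans) : (⟨O.r⁻¹, O.u⁻¹⟩ : PO X).Trans :=
  fun S hne hr hu => hO S hne (inv_closed O.r hr) (inv_closed O.u hu)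

section

variable (H : HS O x b l h) (hD : ∀ i, b (b i + 3) = i + 2) (hl : ∀ i, l (b i + 3) = l i)
  {t : ZMod 5 → ℤ} (ht : ∀ i, Up O x h i (b i + 3) (t i))

include hD in
theorem tau_tau (i : ZMod 5) : b (b i + 3) + 3 = i := by
  rw [hD, add_assoc, show (2 : ZMod 5) + 3 = 0 by decide, add_zero]

include H hD ht in
theorem next_top (j : ZMod 5) :
    (O.r ^ (l j : ℤ)) (O.u.symm (x j)) = O.u.symm (x (b j + 1)) := by
  have h1 := ht (b j + 3)
  rw [tau_tau hD] at h1
  have h2 := H.upRight h1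
  unfold Up at h1 h2
  rw [← h1, ← zr_add, add_comm, h2]

include H hD hl ht in
/-- the key identity -/
theorem key_E (i : ZMod 5) :
    (O.r ^ (t (b i) + l (b i) + l i)) (x i) = (O.r ^ (t i)) (x i) := by
  have h1 := ht (b i)
  have h2 := ht i
  unfold Up at h1 h2
  have h3 := next_top H hD ht (b (b i) + 3)
  rw [← h1, hl, hD, show b i + 2 + 1 = b i + 3 by rw [add_assoc]; rfl, ← h2, ← zr_add] at h3
  have hk : h i - 1 < h i := by have := H.hpos i; omega
  have hk' : h (b i) - 1 < h (b i) := by have := H.hpos (b i); omega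
  rw [H.comm _ hk, H.comm _ hk', H.hb, ← H.nextz i, ← zr_add] at h3
  have h4 := (O.u ^ (h i - 1)).injective h3
  rw [← h4]
  congr 2
  ring

include H hD hl ht in
/-- location of a square of the top row, with the position of the reversed saddle -/
theorem locate (i : ZMod 5) (n : ℕ) : ∃ (j : ZMod 5) (s : ℤ), Up O x h i j s ∧ s ≤ t i + n ∧
    t i + n < s + l j ∧ (O.r ^ (l j + s)) (x (b j + 3)) = (O.r ^ (t i + l i)) (x i) := by
  induction n with
  | zero =>
    refine ⟨b i + 3, t i, ht i, by simp, ?_, ?_⟩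
    · have := H.lpos (b i + 3)
      push_cast
      omega
    · rw [tau_tau hD, hl, add_comm]
  | succ n ih =>
    obtain ⟨j, s, h1, h2, h3, h4⟩ := ih
    by_cases hc : t i + ((n + 1 : ℕ) : ℤ) < s + l j
    · exact ⟨j, s, h1, by push_cast; omega, hc, h4⟩
    · refine ⟨b j + 1, s + l j, H.upRight h1, ?_, ?_, ?_⟩
      · push_cast at hc ⊢
        omega
      · have := H.lpos (b j + 1)
        push_cast at hc ⊢
        omega
      · have h5 : b (b (b j + 1) + 3) = b j + 3 := by
          rw [hD, add_assoc]; rfl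
        have h6 := H.nextz (b (b j + 1) + 3)
        rw [h5, hl] at h6
        rw [← h4, ← h6, ← zr_add]
        congr 2
        ring

end

/-- **Symmetric diagrams.** -/
theorem anti_of_hs [Finite X] (hO : O.Trans) (H : HS O x b l h) (hD : ∀ i, b (b i + 3) = i + 2)
    (hl : ∀ i, l (b i + 3) = l i) (hm : ∀ i, ∃ t, Up O x h i (b i + 3) t) :
    ∃ i : Equiv.Perm X, O.Anti i := by
  choose t ht using hm
  set F : ((i : ZMod 5) × (Fin (l i) × Fin (h i))) → X × X := fun s =>
    ((O.r ^ ((s.2.1 : ℕ) : ℤ)) ((O.u ^ (s.2.2 : ℕ)) (x s.1)),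
      (O.r ^ (t s.1 + l s.1 - 1 - ((s.2.1 : ℕ) : ℤ))) ((O.u ^ (h s.1 - 1 - (s.2.2 : ℕ))) (x s.1)))
    with hF
  have mem : ∀ (i : ZMod 5) (m k : ℕ), m < l i → k < h i → ∀ p : X × X,
      p.1 = (O.r ^ (m : ℤ)) ((O.u ^ k) (x i)) →
      p.2 = (O.r ^ (t i + l i - 1 - (m : ℤ))) ((O.u ^ (h i - 1 - k)) (x i)) →
      p ∈ Set.range F := fun i m k h1 h2 p h3 h4 => ⟨⟨i, ⟨m, h1⟩, ⟨k, h2⟩⟩, Prod.ext h3.symm h4.symm⟩
  set O' : PO X := ⟨O.r⁻¹, O.u⁻¹⟩ with hO'
  have card : (Set.range F).ncard ≤ Nat.card X := by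
    have h1 := H.area_le
    have h2 : (Set.range F).ncard ≤ Nat.card ((i : ZMod 5) × (Fin (l i) × Fin (h i))) := by
      rw [← Set.image_univ, ← Set.ncard_univ]
      exact Set.ncard_image_le Set.finite_univ
    rw [Nat.card_eq_fintype_card, Fintype.card_sigma] at h2
    simp only [Fintype.card_prod, Fintype.card_fin] at h2
    exact h2.trans h1
  have hne : (Set.range F).Nonempty :=
    ⟨_, mem 0 0 0 (H.lpos 0) (H.hpos 0) (_, _) rfl rfl⟩
  have hr : ∀ p ∈ Set.range F, (O.prod O').r p ∈ Set.range F := by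
    rintro _ ⟨⟨i, ⟨m, hm⟩, ⟨k, hk⟩⟩, rfl⟩
    by_cases hc : m + 1 < l i
    · refine mem i (m + 1) k hc hk _ ?_ ?_
      · show O.r ((O.r ^ (m : ℤ)) ((O.u ^ k) (x i))) = _
        rw [← zr_succ]
        push_cast
        rfl
      · show O.r.symm ((O.r ^ (t i + l i - 1 - (m : ℤ))) ((O.u ^ (h i - 1 - k)) (x i))) = _
        rw [Equiv.symm_apply_eq, ← zr_succ]
        congr 2
        push_cast
        ring
    · have hml : (m : ℤ) + 1 = l i := by omega
      refine mem (b i) 0 k (H.lpos _) (by rw [H.hb]; exact hk) _ ?_ ?_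
      · show O.r ((O.r ^ (m : ℤ)) ((O.u ^ k) (x i))) = _
        rw [← zr_succ, hml, H.comm i hk, H.nextz]
        simp
      · show O.r.symm ((O.r ^ (t i + l i - 1 - (m : ℤ))) ((O.u ^ (h i - 1 - k)) (x i))) = _
        have hk1 : h i - 1 - k < h i := by have := H.hpos i; omega
        have hk2 : h i - 1 - k < h (b i) := by rw [H.hb]; exact hk1
        rw [Equiv.symm_apply_eq, ← zr_succ, H.hb, H.comm i hk1, H.comm (b i) hk2, ← H.nextz i,
          ← zr_add]
        congr 1
        have e1 : t i + (l i : ℤ) - 1 - (m : ℤ) = t i := by omega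
        rw [e1, ← key_E H hD hl ht i]
        congr 2
        push_cast
        ring
  have hu : ∀ p ∈ Set.range F, (O.prod O').u p ∈ Set.range F := by
    rintro _ ⟨⟨i, ⟨m, hm⟩, ⟨k, hk⟩⟩, rfl⟩
    by_cases hc : k + 1 < h i
    · refine mem i m (k + 1) hm hc _ ?_ ?_
      · show O.u ((O.r ^ (m : ℤ)) ((O.u ^ k) (x i))) = _
        rw [H.comm i hk, H.comm i hc, pow_succ']
        rfl
      · show O.u.symm ((O.r ^ (t i + l i - 1 - (m : ℤ))) ((O.u ^ (h i - 1 - k)) (x i))) = _
        rw [Equiv.symm_apply_eq, H.comm i (by omega), H.comm i (by omega),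
          show h i - 1 - k = (h i - 1 - (k + 1)) + 1 by omega, pow_succ']
        rfl
    · have hkh : k = h i - 1 := by omega
      set N : ℕ := orderOf O.r with hN
      have hNpos : 0 < N := orderOf_pos O.r
      set n : ℕ := (((m : ℤ) - t i) % (N : ℤ)).toNat with hn
      have hn' : (n : ℤ) = ((m : ℤ) - t i) % (N : ℤ) := Int.toNat_of_nonneg
        (Int.emod_nonneg _ (by omega))
      have hpow : O.r ^ (t i + (n : ℤ)) = O.r ^ (m : ℤ) := by
        rw [zpow_add, hn', zpow_mod_orderOf, ← zpow_add]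
        congr 1
        ring
      obtain ⟨j, s, h1, h2, h3, h4⟩ := locate H hD hl ht i n
      obtain ⟨m', hm'⟩ := Int.eq_ofNat_of_zero_le (show 0 ≤ t i + (n : ℤ) - s by omega)
      have hm'l : m' < l j := by omega
      have eM : t i + (n : ℤ) = (m' : ℤ) + s := by omega
      refine mem j m' 0 hm'l (H.hpos j) _ ?_ ?_
      · show O.u ((O.r ^ (m : ℤ)) ((O.u ^ k) (x i))) = _
        have h5 : (O.r ^ s) ((O.u ^ (h i - 1)) (x i)) = O.u.symm (x j) := h1
        rw [← hpow, eM, zr_add, hkh, h5, H.below j hm'l, O.u.apply_symm_apply]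
        simp
      · show O.u.symm ((O.r ^ (t i + l i - 1 - (m : ℤ))) ((O.u ^ (h i - 1 - k)) (x i))) = _
        have h5 : (O.r ^ (t j)) ((O.u ^ (h j - 1)) (x j)) = O.u.symm (x (b j + 3)) := ht j
        obtain ⟨c, hc'⟩ := Int.eq_ofNat_of_zero_le (show 0 ≤ (l j : ℤ) - 1 - m' by omega)
        have e1 : t j + (l j : ℤ) - 1 - (m' : ℤ) = c + t j := by omega
        have e2 : h i - 1 - k = 0 := by omega
        rw [e1, zr_add, Nat.sub_zero, h5, H.below (b j + 3) (by rw [hl]; omega), e2]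
        congr 1
        have e3 : O.r ^ (t i + (l i : ℤ) - 1 - (m : ℤ)) = O.r ^ (-1 - (t i + (n : ℤ)) + (t i + l i)) := by
          rw [show t i + (l i : ℤ) - 1 - (m : ℤ) = -1 + (t i + l i) + -(m : ℤ) by ring, zpow_add,
            zpow_neg, ← hpow, ← zpow_neg, ← zpow_add]
          congr 1
          ring
        rw [e3, zr_add, pow_zero, Equiv.Perm.one_apply, ← h4, ← zr_add]
        congr 2
        omega
  obtain ⟨e, he⟩ := iso_of_rel hO (trans_neg hO) hne hr hu card card
  exact ⟨e, he.r, he.u⟩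

end Pool.Agent.H4G.Six
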