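import Pool.Agent.H4G.Six.Ex.Band
import Pool.Agent.H4G.Six.Recon6

/-!
# (G7, L6) origamis with the same horizontal data are isomorphic (helper5)
-/

set_option autoImplicit false

namespace Pool.Agent.H4G.Six

open Pool.Agent.H4G

variable {X : Type} {O : PO X} {x : ZMod 5 → X} {b : Equiv.Perm (ZMod 5)} {l h : ZMod 5 → ℕ}

/-- moving the base point of a row to the next saddle -/
theorem HS.rowNext (H : HS O x b l h) (i : ZMod 5) {k : ℕ} (hk : k < h i) (m : ℤ) :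
    (O.r ^ m) ((O.u ^ k) (x i)) = (O.r ^ (m - l i)) ((O.u ^ k) (x (b i))) := by
  rw [H.comm i hk, H.comm (b i) (by rw [H.hb]; exact hk)]
  congr 1
  have h1 := H.next i
  rw [← h1, ← natpow_r, ← zr_add, sub_add_cancel]

/-- the previous saddle of the upper side -/
theorem HS.upPrev (H : HS O x b l h) {i j : ZMod 5} {t : ℤ} (hU : Up O x h i (b j + 1) t) :
    Up O x h i j (t - l j) := by
  unfold Up at hU ⊢
  have hl := H.lpos j
  obtain ⟨m, hm⟩ : ∃ m, l j = m + 1 := ⟨l j - 1, by omega⟩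
  have e0 : (O.r ^ (l j : ℤ)) (O.u.symm (x j)) = O.u.symm (x (b j + 1)) := by
    rw [hm]
    have e : ((m + 1 : ℕ) : ℤ) = (m : ℤ) + 1 := by push_cast; ring
    rw [e, zr_succ, H.below j (by omega)]
    have h1 := H.next j
    have h2 := H.rot (b j)
    have e2 : x (b j) = O.r ((O.r ^ (m : ℤ)) (x j)) := by
      rw [← h1, hm, ← zr_succ]
      exact (zpow_natCast O.r (m + 1) ▸ rfl)
    have h3 : x (b j + 1) = O.u (O.r (O.u.symm (O.r.symm (x (b j))))) := h2
    rw [h3, e2, O.r.symm_apply_apply, O.u.symm_apply_apply]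
  have e1 : t = (l j : ℤ) + (t - l j) := by ring
  rw [e1, zr_add, ← e0] at hU
  exact (O.r ^ (l j : ℤ)).injective hU

section two

variable {X' : Type} {O' : PO X'} {x' : ZMod 5 → X'}

/-- every point of the upper side of a cylinder, in two origamis with the same data -/
theorem HS.top_all (H : HS O x b l h) (H' : HS O' x' b l h) {i : ZMod 5}
    (h0 : ∃ j t, Up O x h i j t ∧ Up O' x' h i j t) (m : ℤ) :
    ∃ (j : ZMod 5) (t : ℤ) (c : ℕ), c < l j ∧ m = t + c ∧ Up O x h i j t ∧ Up O' x' h i j t := by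
  obtain ⟨j0, t0, u0, u0'⟩ := h0
  have fw : ∀ n : ℕ, ∃ (j : ZMod 5) (t : ℤ) (c : ℕ), c < l j ∧ t0 + n = t + c ∧
      Up O x h i j t ∧ Up O' x' h i j t := by
    intro n
    induction n with
    | zero => exact ⟨j0, t0, 0, H.lpos j0, by simp, u0, u0'⟩
    | succ n ih =>
      obtain ⟨j, t, c, hc, he, u1, u1'⟩ := ih
      by_cases h1 : c + 1 < l j
      · exact ⟨j, t, c + 1, h1, by push_cast; linarith, u1, u1'⟩
      · refine ⟨b j + 1, t + l j, 0, H.lpos _, ?_, H.upRight u1, H'.upRight u1'⟩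
        have : l j = c + 1 := by omega
        rw [this]; push_cast; linarith
  have bw : ∀ n : ℕ, ∃ (j : ZMod 5) (t : ℤ) (c : ℕ), c < l j ∧ t0 - n = t + c ∧
      Up O x h i j t ∧ Up O' x' h i j t := by
    intro n
    induction n with
    | zero => exact ⟨j0, t0, 0, H.lpos j0, by simp, u0, u0'⟩
    | succ n ih =>
      obtain ⟨j, t, c, hc, he, u1, u1'⟩ := ih
      by_cases h1 : 0 < c
      · exact ⟨j, t, c - 1, by omega, by push_cast [Nat.cast_sub h1]; linarith, u1, u1'⟩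
      · obtain ⟨j', hj'⟩ : ∃ j', b j' + 1 = j := ⟨b.symm (j - 1), by simp⟩
        have hl := H.lpos j'
        subst hj'
        refine ⟨j', t - l j', l j' - 1, by omega, ?_, H.upPrev u1, H'.upPrev u1'⟩
        have : c = 0 := by omega
        subst this
        push_cast [Nat.cast_sub hl]
        push_cast at he
        linarith
  rcases le_total t0 m with h1 | h1
  · obtain ⟨n, hn⟩ := Int.eq_ofNat_of_zero_le (sub_nonneg.2 h1)
    obtain ⟨j, t, c, hc, he, u1, u1'⟩ := fw n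
    exact ⟨j, t, c, hc, by linarith, u1, u1'⟩
  · obtain ⟨n, hn⟩ := Int.eq_ofNat_of_zero_le (sub_nonneg.2 h1)
    obtain ⟨j, t, c, hc, he, u1, u1'⟩ := bw n
    exact ⟨j, t, c, hc, by linarith, u1, u1'⟩

/-- the pairs of squares with the same coordinates -/
def Rg (O : PO X) (O' : PO X') (x : ZMod 5 → X) (x' : ZMod 5 → X') (h : ZMod 5 → ℕ) :
    Set (X × X') :=
  {p | ∃ (i : ZMod 5) (m : ℤ) (k : ℕ), k < h i ∧ p = ((O.r ^ m) ((O.u ^ k) (x i)),
    (O'.r ^ m) ((O'.u ^ k) (x' i)))}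

/-- normal form of the coordinates -/
theorem HS.norm (H : HS O x b l h) (H' : HS O' x' b l h) (i : ZMod 5) (m : ℤ) (k : ℕ)
    (hk : k < h i) : ∃ (i' : ZMod 5) (m' : ℕ), m' < l i' ∧ k < h i' ∧
      (O.r ^ m) ((O.u ^ k) (x i)) = (O.u ^ k) ((O.r ^ m') (x i')) ∧
      (O'.r ^ m) ((O'.u ^ k) (x' i)) = (O'.u ^ k) ((O'.r ^ m') (x' i')) := by
  have fw : ∀ (n : ℕ) (i : ZMod 5), k < h i → ∃ (i' : ZMod 5) (m' : ℕ), m' < l i' ∧ k < h i' ∧
      (O.r ^ (n : ℤ)) ((O.u ^ k) (x i)) = (O.u ^ k) ((O.r ^ m') (x i')) ∧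
      (O'.r ^ (n : ℤ)) ((O'.u ^ k) (x' i)) = (O'.u ^ k) ((O'.r ^ m') (x' i')) := by
    intro n
    induction n using Nat.strong_induction_on with
    | _ n ih =>
      intro i hk
      by_cases hn : n < l i
      · refine ⟨i, n, hn, hk, ?_, ?_⟩
        · rw [H.comm i hk, natpow_r]
        · rw [H'.comm i hk, natpow_r]
      · have hl := H.lpos i
        obtain ⟨i', m', g1, g2, g3, g4⟩ := ih (n - l i) (by omega) (b i) (by rw [H.hb]; exact hk)
        refine ⟨i', m', g1, g2, ?_, ?_⟩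
        · rw [H.rowNext i hk, ← g3]
          congr 2
          push_cast [Nat.cast_sub (not_lt.1 hn)]; ring
        · rw [H'.rowNext i hk, ← g4]
          congr 2
          push_cast [Nat.cast_sub (not_lt.1 hn)]; ring
  have bw : ∀ (n : ℕ) (i : ZMod 5), k < h i → ∃ (i' : ZMod 5) (m' : ℕ), m' < l i' ∧ k < h i' ∧
      (O.r ^ (-(n : ℤ))) ((O.u ^ k) (x i)) = (O.u ^ k) ((O.r ^ m') (x i')) ∧
      (O'.r ^ (-(n : ℤ))) ((O'.u ^ k) (x' i)) = (O'.u ^ k) ((O'.r ^ m') (x' i')) := by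
    intro n
    induction n using Nat.strong_induction_on with
    | _ n ih =>
      intro i hk
      obtain ⟨j, hj⟩ : ∃ j, b j = i := ⟨b.symm i, by simp⟩
      subst hj
      have hk' : k < h j := by rw [← H.hb]; exact hk
      have hl := H.lpos j
      have e1 := H.rowNext j hk' (-(n : ℤ) + l j)
      have e2 := H'.rowNext j hk' (-(n : ℤ) + l j)
      rw [add_sub_cancel_right] at e1 e2
      rw [← e1, ← e2]
      by_cases hn : n ≤ l j
      · have e3 : -(n : ℤ) + l j = ((l j - n : ℕ) : ℤ) := by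
          push_cast [Nat.cast_sub hn]; ring
        rw [e3]
        exact fw _ j hk'
      · have e3 : -(n : ℤ) + l j = -((n - l j : ℕ) : ℤ) := by
          push_cast [Nat.cast_sub (not_le.1 hn).le]; ring
        rw [e3]
        exact ih (n - l j) (by omega) j hk'
  rcases le_total 0 m with h1 | h1
  · obtain ⟨n, rfl⟩ := Int.eq_ofNat_of_zero_le h1
    exact fw n i hk
  · obtain ⟨n, hn⟩ := Int.eq_ofNat_of_zero_le (neg_nonneg.2 h1)
    have : m = -(n : ℤ) := by linarith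
    subst this
    exact bw n i hk

theorem Rg.right : ∀ p ∈ Rg O O' x x' h, (O.prod O').r p ∈ Rg O O' x x' h := by
  rintro p ⟨i, m, k, hk, rfl⟩
  refine ⟨i, m + 1, k, hk, ?_⟩
  rw [zr_succ, zr_succ]
  rfl

theorem HS.rg_up (H : HS O x b l h) (H' : HS O' x' b l h)
    (hup : ∀ i, ∃ j t, Up O x h i j t ∧ Up O' x' h i j t) :
    ∀ p ∈ Rg O O' x x' h, (O.prod O').u p ∈ Rg O O' x x' h := by
  rintro p ⟨i, m, k, hk, rfl⟩
  by_cases h1 : k + 1 < h i
  · refine ⟨i, m, k + 1, h1, ?_⟩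
    have e1 : (O.r ^ m) ((O.u ^ (k + 1)) (x i)) = O.u ((O.r ^ m) ((O.u ^ k) (x i))) := by
      rw [H.comm i h1, H.comm i hk, pow_succ']
      rfl
    have e2 : (O'.r ^ m) ((O'.u ^ (k + 1)) (x' i)) = O'.u ((O'.r ^ m) ((O'.u ^ k) (x' i))) := by
      rw [H'.comm i h1, H'.comm i hk, pow_succ']
      rfl
    rw [e1, e2]
    rfl
  · have hk2 : k = h i - 1 := by omega
    obtain ⟨j, t, c, hc, he, u1, u1'⟩ := H.top_all H' (hup i) m
    refine ⟨j, c, 0, H.hpos j, ?_⟩
    have a1 := H.above u1 hc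
    have a2 := H'.above u1' hc
    rw [toNat_pow (H.hpos i), ← he, ← hk2] at a1 a2
    have e1 : O.u ((O.r ^ m) ((O.u ^ k) (x i))) = (O.r ^ (c : ℤ)) (x j) := by
      rw [a1, O.u.apply_symm_apply]
    have e2 : O'.u ((O'.r ^ m) ((O'.u ^ k) (x' i))) = (O'.r ^ (c : ℤ)) (x' j) := by
      rw [a2, O'.u.apply_symm_apply]
    rw [pow_zero, pow_zero]
    show (O.u ((O.r ^ m) ((O.u ^ k) (x i))), O'.u ((O'.r ^ m) ((O'.u ^ k) (x' i)))) = _
    rw [e1, e2]
    rfl

/-- **Origamis with the same horizontal data are isomorphic.** One common `Up` relation for every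
cylinder is enough. -/
theorem HS.iso (hO : O.Trans) (hO' : O'.Trans) (H : HS O x b l h) (H' : HS O' x' b l h)
    (hup : ∀ i, ∃ j t, Up O x h i j t ∧ Up O' x' h i j t) :
    ∃ e : X ≃ X', Iso6 O O' e ∧ ∀ i, e (x i) = x' i := by
  have hr := Rg.right (O := O) (O' := O') (x := x) (x' := x') (h := h)
  have hu := H.rg_up H' hup
  have hx : ∀ i, (x i, x' i) ∈ Rg O O' x x' h := fun i => ⟨i, 0, 0, H.hpos i, by simp⟩
  have hne : (Rg O O' x x' h).Nonempty := ⟨_, hx 0⟩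
  have p1 := pproj_fst hO hne hr hu
  have p2 := pproj_snd hO' hne hr hu
  have f1 : ∀ {y : X} {z z' : X'}, (y, z) ∈ Rg O O' x x' h → (y, z') ∈ Rg O O' x x' h →
      z = z' := by
    rintro y z z' ⟨i, m, k, hk, e⟩ ⟨i', m', k', hk', e'⟩
    obtain ⟨j, n, g1, g2, g3, g4⟩ := H.norm H' i m k hk
    obtain ⟨j', n', g1', g2', g3', g4'⟩ := H.norm H' i' m' k' hk'
    rw [g3, g4] at e
    rw [g3', g4'] at e'
    obtain ⟨ea, eb⟩ := Prod.mk.inj e
    obtain ⟨ea', eb'⟩ := Prod.mk.inj e'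
    obtain ⟨rfl, rfl, rfl⟩ := H.square_inj g1 g2 g1' g2' (ea.symm.trans ea')
    rw [eb, eb']
  have f2 : ∀ {y y' : X} {z : X'}, (y, z) ∈ Rg O O' x x' h → (y', z) ∈ Rg O O' x x' h →
      y = y' := by
    rintro y y' z ⟨i, m, k, hk, e⟩ ⟨i', m', k', hk', e'⟩
    obtain ⟨j, n, g1, g2, g3, g4⟩ := H.norm H' i m k hk
    obtain ⟨j', n', g1', g2', g3', g4'⟩ := H.norm H' i' m' k' hk'
    rw [g3, g4] at e
    rw [g3', g4'] at e'
    obtain ⟨ea, eb⟩ := Prod.mk.inj e
    obtain ⟨ea', eb'⟩ := Prod.mk.inj e'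
    obtain ⟨rfl, rfl, rfl⟩ := H'.square_inj g1 g2 g1' g2' (eb.symm.trans eb')
    rw [ea, ea']
  choose f hf using p1
  choose g hg using p2
  refine ⟨⟨f, g, fun y => f2 (hg (f y)) (hf y), fun z => f1 (hf (g z)) (hg z)⟩,
    ⟨fun y => ?_, fun y => ?_⟩, fun i => ?_⟩
  · exact f1 (hf (O.r y)) (hr _ (hf y))
  · exact f1 (hf (O.u y)) (hu _ (hf y))
  · exact f1 (hf (x i)) (hx i)

end two

/-! ## The half turn -/

theorem anti_of_iso {e : X ≃ X} (he : Iso6 O O.J.J e) : O.Anti e :=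
  ⟨fun y => he.r y, fun y => he.u y⟩

/-- renaming the saddles by a rotation -/
theorem HS.shiftIdx (H : HS O x b l h) (c : ZMod 5) {b' : Equiv.Perm (ZMod 5)}
    (hb : ∀ i, b' i + c = b (i + c)) :
    HS O (fun i => x (i + c)) b' (fun i => l (i + c)) (fun i => h (i + c)) := by
  refine ⟨fun i => ?_, fun i j hij => ?_, fun y => ?_, fun i => H.lpos _, fun i => ?_,
    fun i => H.reg _, fun i => H.hpos _, fun i => ?_, fun i => H.inner _, fun i => ?_⟩
  · have : i + 1 + c = i + c + 1 := by ring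
    rw [this]; exact H.rot _
  · exact add_right_cancel (H.inj hij)
  · rw [H.sing]
    constructor
    · rintro ⟨i, hi⟩; exact ⟨i - c, by rw [sub_add_cancel]; exact hi⟩
    · rintro ⟨i, hi⟩; exact ⟨i + c, hi⟩
  · rw [H.next, hb]
  · rw [hb, H.hb]
  · obtain ⟨j, t, ht⟩ := H.top (i + c)
    exact ⟨j - c, t, by rw [sub_add_cancel]; exact ht⟩

/-- An origami whose half turn has the same horizontal data, with the saddles renamed, has an
anti-automorphism. -/
theorem HS.anti (hO : O.Trans) (H : HS O x b l h) {x' : ZMod 5 → X}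
    {b' : Equiv.Perm (ZMod 5)} {l' h' : ZMod 5 → ℕ} (hO' : O.J.J.Trans)
    (H' : HS O.J.J x' b' l' h') (c : ZMod 5) (hb : ∀ i, b' (i + c) = b i + c)
    (hl : ∀ i, l' (i + c) = l i) (hh : ∀ i, h' (i + c) = h i)
    (hup : ∀ i, ∃ j t, Up O x h i j t ∧ Up O.J.J x' h' (i + c) (j + c) t) :
    ∃ i, O.Anti i := by
  have H2 := H'.shiftIdx c (b' := b) (fun i => (hb i).symm)
  have e1 : (fun i => l' (i + c)) = l := funext hl
  have e2 : (fun i => h' (i + c)) = h := funext hh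
  rw [e1, e2] at H2
  obtain ⟨e, he, -⟩ := H.iso hO hO' H2 (by
    intro i
    obtain ⟨j, t, h1, h2⟩ := hup i
    refine ⟨j, t, h1, ?_⟩
    unfold Up at h2 ⊢
    rw [hh] at h2
    exact h2)
  exact ⟨e, anti_of_iso he⟩

end Pool.Agent.H4G.Six
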