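import Pool.Agent.H4G.Six.Ex.Iso

/-!
# (G7, L6) the horizontal data of the half turn (helper5)

The saddle `j` of `O` (lower edges of `x j, ..., r ^ (l j - 1) (x j)`) is the saddle `b j` of the
half turn `O.J.J`, which starts at the square `u⁻¹ r⁻¹ x (b j)`.
-/

set_option autoImplicit false

namespace Pool.Agent.H4G.Six

open Pool.Agent.H4G

variable {X : Type} {O : PO X} {x : ZMod 5 → X} {b : Equiv.Perm (ZMod 5)} {l h : ZMod 5 → ℕ}

/-- the squares over the five saddles are all squares -/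
theorem HS.cover (hO : O.Trans) (H : HS O x b l h) (y : X) :
    ∃ (i : ZMod 5) (m : ℤ) (k : ℕ), k < h i ∧ y = (O.r ^ m) ((O.u ^ k) (x i)) := by
  have hr := Rg.right (O := O) (O' := O) (x := x) (x' := x) (h := h)
  have hu := H.rg_up H (fun i => by
    obtain ⟨j, t, ht⟩ := H.top i
    exact ⟨j, t, ht, ht⟩)
  have hne : (Rg O O x x h).Nonempty := ⟨(x 0, x 0), 0, 0, 0, H.hpos 0, by simp⟩
  obtain ⟨z, i, m, k, hk, e⟩ := pproj_fst hO hne hr hu y
  exact ⟨i, m, k, hk, (Prod.mk.inj e).1⟩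

/-- every saddle is on the upper side of a cylinder -/
theorem HS.upExists (hO : O.Trans) (H : HS O x b l h) (j : ZMod 5) : ∃ i t, Up O x h i j t := by
  obtain ⟨i, m, k, hk, e⟩ := H.cover hO (O.u.symm (x j))
  refine ⟨i, m, ?_⟩
  by_cases h1 : k + 1 < h i
  · exfalso
    have h2 : x j = (O.r ^ m) ((O.u ^ (k + 1)) (x i)) := by
      rw [H.comm i h1, pow_succ']
      have h3 : (O.u * O.u ^ k) ((O.r ^ m) (x i)) = O.u ((O.r ^ m) ((O.u ^ k) (x i))) := by
        rw [H.comm i hk]; rfl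
      rw [h3, ← e, O.u.apply_symm_apply]
    exact H.ne_reg (H.inner i m (k + 1) (by omega) h1) h2
  · have : k = h i - 1 := by omega
    subst this
    exact e.symm

/-- the height of the cylinder below a saddle -/
theorem HS.upUnique (H : HS O x b l h) {i i' j : ZMod 5} {t t' : ℤ} (h1 : Up O x h i j t)
    (h2 : Up O x h i' j t') : h i = h i' := by
  have p1 := H.hpos i
  have p2 := H.hpos i'
  obtain ⟨k, m, g1, g2, g3, -⟩ := H.norm H i t (h i - 1) (by omega)
  obtain ⟨k', m', g1', g2', g3', -⟩ := H.norm H i' t' (h i' - 1) (by omega)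
  unfold Up at h1 h2
  rw [g3] at h1
  rw [g3'] at h2
  obtain ⟨-, -, h3⟩ := H.square_inj g1 g2 g1' g2' (h1.trans h2.symm)
  omega

/-- the turned base points -/
def xneg (O : PO X) (x : ZMod 5 → X) (i : ZMod 5) : X := O.u.symm (O.r.symm (x i))

/-- the row permutation of the half turn -/
def bneg (b : Equiv.Perm (ZMod 5)) : Equiv.Perm (ZMod 5) := b.symm.trans (Equiv.subRight 1)

theorem bneg_apply (b : Equiv.Perm (ZMod 5)) (i : ZMod 5) : bneg b i = b.symm i - 1 := rfl

theorem rho_JJ (O : PO X) (y : X) :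
    O.J.J.rho y = O.u.symm (O.r.symm (O.rho (O.r (O.u y)))) := by
  have e1 : O.J.J.rho y = O.u.symm (O.r.symm (O.u (O.r y))) := rfl
  have e2 : O.rho (O.r (O.u y)) = O.u (O.r (O.u.symm (O.r.symm (O.r (O.u y))))) := rfl
  rw [e1, e2, O.r.symm_apply_apply, O.u.symm_apply_apply]

theorem reg_JJ {y : X} (h : O.rho (O.r (O.u y)) = O.r (O.u y)) : O.J.J.rho y = y := by
  rw [rho_JJ, h, O.r.symm_apply_apply, O.u.symm_apply_apply]

theorem r_JJ (O : PO X) (n : ℤ) (y : X) : (O.J.J.r ^ n) y = (O.r ^ (-n)) y := by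
  have : O.J.J.r = O.r⁻¹ := rfl
  rw [this, inv_zpow']

theorem r_JJ' (O : PO X) (n : ℕ) (y : X) : (O.J.J.r ^ n) y = (O.r ^ (-(n : ℤ))) y := by
  rw [← r_JJ, zpow_natCast]

theorem u_JJ' (O : PO X) (n : ℕ) (y : X) : (O.J.J.u ^ n) ((O.u ^ n) y) = y := by
  have : O.J.J.u = O.u⁻¹ := rfl
  rw [this, inv_pow]
  exact (O.u ^ n).symm_apply_apply y

/-- the turned base point, in the coordinates of the cylinder below the saddle -/
theorem HS.xneg_eq (H : HS O x b l h) {k j : ZMod 5} {t : ℤ} (hU : Up O x h k j t) :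
    xneg O x (b j) = (O.r ^ ((l j : ℤ) - 1 + t)) ((O.u ^ (h k - 1)) (x k)) := by
  have hl := H.lpos j
  have e1 : O.r.symm (x (b j)) = (O.r ^ (((l j - 1 : ℕ)) : ℤ)) (x j) := by
    have h1 := H.next j
    have h2 : x (b j) = O.r ((O.r ^ (((l j - 1 : ℕ)) : ℤ)) (x j)) := by
      rw [← h1, ← zr_succ]
      have e : ((l j - 1 : ℕ) : ℤ) + 1 = ((l j : ℕ) : ℤ) := by omega
      rw [e, natpow_r]
    rw [h2, O.r.symm_apply_apply]
  unfold Up at hU
  rw [xneg, e1, ← H.below j (by omega), ← hU, ← zr_add]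
  congr 2
  push_cast [Nat.cast_sub hl]
  ring

/-- going down in a cylinder -/
theorem HS.down (H : HS O x b l h) {k : ZMod 5} {c : ℤ} {n : ℕ} (hn : n < h k) :
    (O.J.J.u ^ n) ((O.r ^ c) ((O.u ^ (h k - 1)) (x k))) =
      (O.r ^ c) ((O.u ^ (h k - 1 - n)) (x k)) := by
  rw [H.comm k (by omega), H.comm k (by omega)]
  have e : h k - 1 = n + (h k - 1 - n) := by omega
  conv_lhs => rw [e]
  rw [pow_add]
  exact u_JJ' O n _

/-- **The horizontal data of the half turn.** -/
theorem HS.neg (hO : O.Trans) (H : HS O x b l h) : ∃ h' : ZMod 5 → ℕ,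
    HS O.J.J (xneg O x) (bneg b) (fun i => l (b.symm i)) h' ∧
    (∀ k j t, Up O x h k j t → h' (b j) = h k) ∧
    (∀ k j t, Up O x h k j t → Up O.J.J (xneg O x) h' (b j) (b k) (t + l j - l k)) := by
  choose κ τ hκ using H.upExists hO
  have key : ∀ k j t, Up O x h k j t → h (κ (b.symm (b j))) = h k := by
    intro k j t hU
    rw [Equiv.symm_apply_apply]
    exact H.upUnique (hκ j) hU
  have hj : ∀ i, ∃ j, i = b j := fun i => ⟨b.symm i, by simp⟩
  refine ⟨fun i => h (κ (b.symm i)), ?_, key, ?_⟩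
  · refine ⟨fun i => ?_, fun i j hij => ?_, fun y => ?_, fun i => H.lpos _, fun i => ?_,
      fun i k hk0 hk => ?_, fun i => H.hpos _, fun i => ?_, fun i a k hk0 hk => ?_, fun i => ?_⟩
    · rw [rho_JJ, xneg, xneg, O.u.apply_symm_apply, O.r.apply_symm_apply, H.rot]
    · exact H.inj (O.r.symm.injective (O.u.symm.injective hij))
    · constructor
      · intro hy
        have h1 : O.rho (O.r (O.u y)) ≠ O.r (O.u y) := fun h1 => hy (reg_JJ h1)
        obtain ⟨i, hi⟩ := (H.sing _).1 h1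
        exact ⟨i, by rw [xneg, ← hi, O.r.symm_apply_apply, O.u.symm_apply_apply]⟩
      · rintro ⟨i, rfl⟩ h1
        rw [rho_JJ, xneg, O.u.apply_symm_apply, O.r.apply_symm_apply] at h1
        exact (H.sing (x i)).2 ⟨i, rfl⟩ (O.r.symm.injective (O.u.symm.injective h1))
    · obtain ⟨j, rfl⟩ := hj i
      simp only [Equiv.symm_apply_apply, bneg_apply]
      rw [r_JJ', H.xneg_eq (hκ j), ← zr_add]
      have e1 : -(l j : ℤ) + ((l j : ℤ) - 1 + τ j) = -1 + τ j := by ring
      rw [e1, zr_add]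
      have e2 := hκ j
      unfold Up at e2
      rw [e2, xneg]
      have e3 : x j = O.u (O.r (O.u.symm (O.r.symm (x (j - 1))))) := by
        have := H.rot (j - 1)
        rw [sub_add_cancel] at this
        exact this
      conv_lhs => rw [e3]
      rw [O.u.symm_apply_apply, zpow_neg_one]
      exact O.r.symm_apply_apply _
    · obtain ⟨j, rfl⟩ := hj i
      simp only [Equiv.symm_apply_apply] at hk
      have hl := H.lpos j
      have e2 := hκ j
      unfold Up at e2
      have e1 : (O.J.J.r ^ k) (xneg O x (b j)) =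
          O.u.symm ((O.r ^ (((l j - 1 - k : ℕ)) : ℤ)) (x j)) := by
        rw [r_JJ', H.xneg_eq (hκ j), ← H.below j (by omega), ← e2, ← zr_add, ← zr_add]
        congr 2
        have : ((l j - 1 - k : ℕ) : ℤ) = (l j : ℤ) - 1 - k := by omega
        rw [this]; ring
      rw [e1]
      apply reg_JJ
      rw [O.u.apply_symm_apply, ← zr_succ]
      have e3 : ((l j - 1 - k : ℕ) : ℤ) + 1 = ((l j - k : ℕ) : ℤ) := by omega
      rw [e3, natpow_r]
      exact H.reg j _ (by omega) (by omega)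
    · obtain ⟨j, rfl⟩ := hj i
      simp only [Equiv.symm_apply_apply, bneg_apply]
      have h1 : Up O x h (κ j) (b (b.symm (j - 1)) + 1) (τ j) := by
        rw [Equiv.apply_symm_apply, sub_add_cancel]; exact hκ j
      exact H.upUnique (hκ _) (H.upPrev h1)
    · obtain ⟨j, rfl⟩ := hj i
      simp only [Equiv.symm_apply_apply] at hk
      rw [H.xneg_eq (hκ j), H.down hk, r_JJ, ← zr_add]
      apply reg_JJ
      have hk1 : h (κ j) - 1 - k < h (κ j) := by omega
      have hk2 : h (κ j) - 1 - k + 1 < h (κ j) := by omega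
      rw [H.comm _ hk1]
      have e1 : ∀ y : X, O.u ((O.u ^ (h (κ j) - 1 - k)) y) = (O.u ^ (h (κ j) - 1 - k + 1)) y := by
        intro y; rw [pow_succ']; rfl
      rw [e1, ← H.comm _ hk2, ← zr_succ]
      exact H.inner _ _ _ (by omega) hk2
    · obtain ⟨j, rfl⟩ := hj i
      simp only [Equiv.symm_apply_apply]
      refine ⟨κ j, (l j : ℤ) + τ j, ?_⟩
      have p := H.hpos (κ j)
      rw [H.xneg_eq (hκ j), H.down (by omega), r_JJ, ← zr_add]
      have e1 : h (κ j) - 1 - (h (κ j) - 1) = 0 := by omega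
      have e2 : -((l j : ℤ) + τ j) + ((l j : ℤ) - 1 + τ j) = -1 := by ring
      rw [e1, e2, pow_zero, zpow_neg_one]
      show O.r.symm (x (κ j)) = O.u (O.u.symm (O.r.symm (x (κ j))))
      rw [O.u.apply_symm_apply]
  · intro k j t hU
    unfold Up
    have e0 := key k j t hU
    simp only
    rw [e0]
    have p := H.hpos k
    have hl := H.lpos k
    rw [H.xneg_eq hU, H.down (by omega), r_JJ, ← zr_add]
    have e1 : h k - 1 - (h k - 1) = 0 := by omega
    have e2 : -(t + (l j : ℤ) - l k) + ((l j : ℤ) - 1 + t) = ((l k - 1 : ℕ) : ℤ) := by omega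
    rw [e1, e2, pow_zero]
    show (O.r ^ (((l k - 1 : ℕ)) : ℤ)) (x k) = O.u (O.u.symm (O.r.symm (x (b k))))
    rw [O.u.apply_symm_apply]
    have h2 : x (b k) = O.r ((O.r ^ (((l k - 1 : ℕ)) : ℤ)) (x k)) := by
      rw [← H.next k, ← zr_succ]
      have e : ((l k - 1 : ℕ) : ℤ) + 1 = ((l k : ℕ) : ℤ) := by omega
      rw [e, natpow_r]
    rw [h2, O.r.symm_apply_apply]

end Pool.Agent.H4G.Six
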