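import Pool.Agent.H4G.Six.Ex.Tower
import Pool.Agent.H4G.Six.Ex.Neg
import Pool.Agent.H4G.Six.Ex.Facts

/-!
# (G7, L5b) level functions, the gcd of the heights, simple cylinders cross `W` (helper75)

* `HS.pot`: a function of the pair (cylinder, level) is a function on the squares;
* `HS.gcd_h`: in a primitive origami the heights have no common divisor;
* `MPath`, `SC.mpath`: a simple cylinder gives a closed monotone path;
* `TQ.low`: in the tower every simple cylinder with a core which is not horizontal has height at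
  least the height of `W`;
* `HS.scHor`: a horizontal simple cylinder; `TQ.scC`.
-/

set_option autoImplicit false

namespace Pool.Agent.H4G.Six

open Pool.Agent.H4G

variable {X : Type} {O : PO X} {x : ZMod 5 → X} {b : Equiv.Perm (ZMod 5)} {l h : ZMod 5 → ℕ}

/-! ## Levels -/

/-- the cylinder and the level of a square are unique -/
theorem HS.level_uniq (H : HS O x b l h) {i i' : ZMod 5} {m m' : ℤ} {k k' : ℕ} (hk : k < h i)
    (hk' : k' < h i') (e : (O.r ^ m) ((O.u ^ k) (x i)) = (O.r ^ m') ((O.u ^ k') (x i'))) :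
    k = k' ∧ b.SameCycle i i' := by
  obtain ⟨i1, m1, g1, g2, g3, -⟩ := H.norm H i m k hk
  obtain ⟨i1', m1', g1', g2', g3', -⟩ := H.norm H i' m' k' hk'
  obtain ⟨-, -, h3⟩ := H.square_inj g1 g2 g1' g2' ((g3.symm.trans e).trans g3')
  subst h3
  refine ⟨rfl, ?_⟩
  rw [H.comm i hk, H.comm i' hk'] at e
  have e1 : (O.r ^ m) (x i) = (O.r ^ m') (x i') := (O.u ^ k).injective e
  refine H.retB.same (k := m - m') ?_
  apply (O.r ^ m').injective
  rw [← zr_add, add_sub_cancel, e1]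

theorem sc_const {β : Equiv.Perm (ZMod 5)} {A : Type} (G : ZMod 5 → A)
    (hG : ∀ j, G (β j) = G j) {i j : ZMod 5} (hs : β.SameCycle i j) : G j = G i := by
  obtain ⟨n, hn⟩ := hs.exists_nat_pow_eq
  rw [← hn]
  clear hn
  induction n with
  | zero => rfl
  | succ n ih => rw [pow_succ', Equiv.Perm.mul_apply, hG, ih]

/-- a function of the pair (cylinder, level) as a function on the squares -/
theorem HS.pot (hO : O.Trans) (H : HS O x b l h) {A : Type} (F : ZMod 5 → ℕ → A)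
    (hF : ∀ i k, F (b i) k = F i k) :
    ∃ Φ : X → A, ∀ i (m : ℤ) k, k < h i → Φ ((O.r ^ m) ((O.u ^ k) (x i))) = F i k := by
  choose ι μ κ hκ he using H.cover hO
  refine ⟨fun y => F (ι y) (κ y), ?_⟩
  intro i m k hk
  obtain ⟨e1, e2⟩ := H.level_uniq hk (hκ _) (he ((O.r ^ m) ((O.u ^ k) (x i))))
  show F _ _ = _
  rw [← e1]
  exact sc_const (fun j => F j k) (fun j => hF j k) e2

/-- one step upwards -/
theorem HS.stepU (H : HS O x b l h) (i : ZMod 5) (m : ℤ) {k : ℕ} (hk : k < h i) :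
    (k + 1 < h i ∧ O.u ((O.r ^ m) ((O.u ^ k) (x i))) = (O.r ^ m) ((O.u ^ (k + 1)) (x i))) ∨
    (k + 1 = h i ∧ ∃ (j : ZMod 5) (t c : ℤ), Up O x h i j t ∧
      O.u ((O.r ^ m) ((O.u ^ k) (x i))) = (O.r ^ c) ((O.u ^ 0) (x j))) := by
  rcases Nat.lt_or_ge (k + 1) (h i) with h1 | h1
  · exact Or.inl ⟨h1, H.strip1 i m k h1⟩
  · right
    have h2 : k + 1 = h i := by omega
    refine ⟨h2, ?_⟩
    obtain ⟨j, t, c, hc, hm, hu, -⟩ := H.top_all H (i := i) (by
      obtain ⟨j, t, ht⟩ := H.top i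
      exact ⟨j, t, ht, ht⟩) m
    refine ⟨j, t, c, hu, ?_⟩
    have h3 := H.cross1 hu (c : ℤ) (by positivity) (by exact_mod_cast hc)
    have e : k = h i - 1 := by omega
    rw [hm, e, add_comm t, h3]
    rfl

/-! ## The gcd of the heights -/

/-- In a primitive origami the heights of the cylinders have no common divisor. -/
theorem HS.gcd_h (hO : O.Trans) (hp : O.Prim) (H : HS O x b l h) {g : ℕ}
    (hg : ∀ i, g ∣ h i) : g = 1 := by
  obtain ⟨Φ, hΦ⟩ := H.pot hO (fun _ k => ((k : ℕ) : ZMod g)) (fun _ _ => rfl)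
  have hr : ∀ y, Φ (O.r y) = Φ y := by
    intro y
    obtain ⟨i, m, k, hk, rfl⟩ := H.cover hO y
    rw [← zr_succ, hΦ i _ k hk, hΦ i _ k hk]
  have hu : ∀ y, Φ (O.u y) = Φ y + 1 := by
    intro y
    obtain ⟨i, m, k, hk, rfl⟩ := H.cover hO y
    rcases H.stepU i m hk with ⟨h1, h2⟩ | ⟨h1, j, t, c, h2, h3⟩
    · rw [h2, hΦ i _ _ h1, hΦ i _ k hk]
      push_cast
      rfl
    · rw [h3, hΦ j _ 0 (H.hpos j), hΦ i _ k hk]
      have : ((k + 1 : ℕ) : ZMod g) = 0 := by
        rw [h1]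
        exact (ZMod.natCast_eq_zero_iff _ _).2 (hg i)
      push_cast at this
      rw [this, Nat.cast_zero]
  have key : ∀ {y : X} {w : Z2} {z : X}, Path6 O y w z → Φ z = Φ y + ((w.2 : ℤ) : ZMod g) := by
    intro y w z hw
    induction hw with
    | refl => simp
    | right _ ih => rw [hr, ih]; simp
    | @left z w _ ih =>
      have := hr (O.r.symm z)
      rw [O.r.apply_symm_apply] at this
      rw [← this, ih]; simp
    | up _ ih => rw [hu, ih]; simp [add_assoc]
    | @down z w _ ih =>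
      have := hu (O.u.symm z)
      rw [O.u.apply_symm_apply] at this
      have e : Φ (O.u.symm z) = Φ z - 1 := by rw [this]; ring
      rw [e, ih]; simp [add_sub_assoc]
  have h1 := key (hp (x 0) (0, 1))
  have h2 : ((1 : ℕ) : ZMod g) = 0 := by
    have : Φ (x 0) + ((1 : ℤ) : ZMod g) = Φ (x 0) + 0 := by rw [add_zero]; exact h1.symm
    have := add_left_cancel this
    simpa using this
  exact Nat.dvd_one.1 ((ZMod.natCast_eq_zero_iff _ _).1 h2)

/-! ## Closed monotone paths -/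

/-- a path with steps to the right, to the left and upwards; the number of steps upwards -/
inductive MPath (O : PO X) (x : X) : ℕ → X → Prop
  | refl : MPath O x 0 x
  | right {n : ℕ} {y : X} : MPath O x n y → MPath O x n (O.r y)
  | left {n : ℕ} {y : X} : MPath O x n y → MPath O x n (O.r.symm y)
  | up {n : ℕ} {y : X} : MPath O x n y → MPath O x (n + 1) (O.u y)

theorem MPath.rz {x : X} {n : ℕ} {y : X} (hp : MPath O x n y) (m : ℤ) :
    MPath O x n ((O.r ^ m) y) := by
  induction m using Int.induction_on with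
  | zero => simpa using hp
  | succ m ih => rw [zr_succ]; exact ih.right
  | pred m ih =>
    have h1 := ih.left
    rw [ps_pz] at h1
    exact h1

/-- a point of a convex set with a given first coordinate -/
theorem interp1 {K : Set V} (hK : Convex ℝ K) {y y' : V} (hy : y ∈ K) (hy' : y' ∈ K) {c : ℝ}
    (h1 : y.1 ≤ c) (h2 : c ≤ y'.1) : ∃ q ∈ K, q.1 = c ∧ ∀ lo hi : ℝ, lo ≤ y.2 → lo ≤ y'.2 →
      y.2 ≤ hi → y'.2 ≤ hi → lo ≤ q.2 ∧ q.2 ≤ hi := by
  rcases eq_or_lt_of_le (h1.trans h2) with h3 | h3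
  · exact ⟨y, hy, by linarith, fun lo hi a1 a2 a3 a4 => ⟨a1, a3⟩⟩
  · have hd : 0 < y'.1 - y.1 := by linarith
    set θ : ℝ := (c - y.1) / (y'.1 - y.1) with hθ
    have t0 : 0 ≤ θ := div_nonneg (by linarith) hd.le
    have t1 : θ ≤ 1 := by rw [hθ, div_le_one hd]; linarith
    have t2 : θ * (y'.1 - y.1) = c - y.1 := by rw [hθ]; field_simp
    refine ⟨(1 - θ) • y + θ • y', hK hy hy' (by linarith) t0 (by ring), ?_, ?_⟩
    · show (1 - θ) * y.1 + θ * y'.1 = c
      linarith
    · intro lo hi a1 a2 a3 a4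
      show lo ≤ (1 - θ) * y.2 + θ * y'.2 ∧ (1 - θ) * y.2 + θ * y'.2 ≤ hi
      have t3 : 0 ≤ 1 - θ := by linarith
      constructor
      · nlinarith [mul_nonneg t3 (sub_nonneg.2 a1), mul_nonneg t0 (sub_nonneg.2 a2)]
      · nlinarith [mul_nonneg t3 (sub_nonneg.2 a3), mul_nonneg t0 (sub_nonneg.2 a4)]

/-- a point of a convex set with a given second coordinate -/
theorem interp2 {K : Set V} (hK : Convex ℝ K) {y y' : V} (hy : y ∈ K) (hy' : y' ∈ K) {c : ℝ}
    (h1 : y.2 ≤ c) (h2 : c ≤ y'.2) : ∃ q ∈ K, q.2 = c := by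
  rcases eq_or_lt_of_le (h1.trans h2) with h3 | h3
  · exact ⟨y, hy, by linarith⟩
  · have hd : 0 < y'.2 - y.2 := by linarith
    set θ : ℝ := (c - y.2) / (y'.2 - y.2) with hθ
    have t0 : 0 ≤ θ := div_nonneg (by linarith) hd.le
    have t1 : θ ≤ 1 := by rw [hθ, div_le_one hd]; linarith
    have t2 : θ * (y'.2 - y.2) = c - y.2 := by rw [hθ]; field_simp
    refine ⟨(1 - θ) • y + θ • y', hK hy hy' (by linarith) t0 (by ring), ?_⟩
    show (1 - θ) * y.2 + θ * y'.2 = c
    linarith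

/-- squares of a row -/
theorem dev_row {K : Set V} (hK : Convex ℝ K) {f : Z2 → X} (hf : Dev O K f) :
    ∀ (n : ℕ) (z : Z2) (y y' : V), y ∈ K → y' ∈ K → Nr y z → Nr y' (z + ((n : ℤ), 0)) →
      f (z + ((n : ℤ), 0)) = (O.r ^ (n : ℤ)) (f z) := by
  intro n
  induction n with
  | zero =>
    intro z y y' _ _ _ _
    have e : z + (((0 : ℕ) : ℤ), 0) = z := by ext <;> simp
    rw [e]; simp
  | succ n ih =>
    intro z y y' hy hy' h1 h2
    have e1 : z + (((n + 1 : ℕ) : ℤ), 0) = z + (1, 0) + ((n : ℤ), 0) := by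
      ext
      · simp only [Prod.fst_add]; push_cast; ring
      · simp
    have e2 : ((z + (((n + 1 : ℕ) : ℤ), 0)).1 : ℝ) = (z.1 : ℝ) + (n + 1) := by
      simp only [Prod.fst_add]; push_cast; ring
    have e3 : ((z + (((n + 1 : ℕ) : ℤ), 0)).2 : ℝ) = (z.2 : ℝ) := by
      simp
    obtain ⟨a1, a2, a3, a4⟩ := h1
    have h2' := h2
    obtain ⟨b1, b2, b3, b4⟩ := h2
    rw [e2] at b1 b2
    rw [e3] at b3 b4
    have hn : (0 : ℝ) ≤ n := Nat.cast_nonneg n
    obtain ⟨q, hq, q1, q2⟩ := interp1 hK hy hy' (c := z.1 + 1) a2 (by linarith)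
    obtain ⟨q3, q4⟩ := q2 z.2 (z.2 + 1) a3 b3 a4 b4
    have n1 : Nr q z := ⟨by linarith, by linarith, q3, q4⟩
    have n2 : Nr q (z + (1, 0)) := by
      refine ⟨?_, ?_, ?_, ?_⟩
      · simp only [Prod.fst_add]; push_cast; linarith
      · simp only [Prod.fst_add]; push_cast; linarith
      · simp only [Prod.snd_add]; push_cast; linarith
      · simp only [Prod.snd_add]; push_cast; linarith
    have d1 := (hf q hq).1 z n1 n2
    rw [e1] at h2' ⊢
    rw [ih (z + (1, 0)) q y' hq hy' n2 h2', d1]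
    push_cast
    rw [zpow_add, zpow_one]
    rfl

theorem dev_mpath {K : Set V} (hK : Convex ℝ K) {f : Z2 → X} (hf : Dev O K f) {z0 : Z2} {y0 : V}
    (hy0 : y0 ∈ K) (h0 : Nr y0 z0) :
    ∀ (n : ℕ) (z : Z2) (y : V), y ∈ K → Nr y z → z.2 = z0.2 + n → MPath O (f z0) n (f z) := by
  have row : ∀ (z z' : Z2) (y y' : V), y ∈ K → y' ∈ K → Nr y z → Nr y' z' → z'.2 = z.2 →
      ∃ m : ℤ, f z' = (O.r ^ m) (f z) := by
    intro z z' y y' hy hy' h1 h2 he
    rcases le_total z.1 z'.1 with h3 | h3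
    · obtain ⟨n, hn⟩ := Int.eq_ofNat_of_zero_le (sub_nonneg.2 h3)
      have e : z' = z + ((n : ℤ), 0) := by
        ext
        · simp only [Prod.fst_add]; linarith
        · simp only [Prod.snd_add]; linarith
      rw [e] at h2 ⊢
      exact ⟨_, dev_row hK hf n z y y' hy hy' h1 h2⟩
    · obtain ⟨n, hn⟩ := Int.eq_ofNat_of_zero_le (sub_nonneg.2 h3)
      have e : z = z' + ((n : ℤ), 0) := by
        ext
        · simp only [Prod.fst_add]; linarith
        · simp only [Prod.snd_add]; linarith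
      rw [e] at h1
      have h4 := dev_row hK hf n z' y' y hy' hy h2 h1
      rw [← e] at h4
      refine ⟨-(n : ℤ), ?_⟩
      rw [h4, ← zr_add]
      simp
  intro n
  induction n with
  | zero =>
    intro z y hy hz he
    obtain ⟨m, hm⟩ := row z0 z y0 y hy0 hy h0 hz (by simpa using he)
    rw [hm]
    exact MPath.refl.rz m
  | succ n ih =>
    intro z y hy hz he
    obtain ⟨a1, a2, a3, a4⟩ := h0
    have hz' := hz
    obtain ⟨b1, b2, b3, b4⟩ := hz
    have hn : (0 : ℝ) ≤ n := Nat.cast_nonneg n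
    have he' : (z.2 : ℝ) = z0.2 + n + 1 := by
      rw [he]; push_cast; ring
    obtain ⟨q, hq, q1⟩ := interp2 hK hy0 hy (c := z.2) (by linarith) b3
    set z1 : Z2 := (⌊q.1⌋, z.2 - 1) with hz1
    have f1 := Int.floor_le q.1
    have f2 := (Int.lt_floor_add_one q.1).le
    have n1 : Nr q z1 := by
      refine ⟨f1, f2, ?_, ?_⟩
      · show ((z.2 - 1 : ℤ) : ℝ) ≤ q.2
        push_cast; linarith
      · show q.2 ≤ ((z.2 - 1 : ℤ) : ℝ) + 1
        push_cast; linarith
    have e1 : z1 + (0, 1) = (⌊q.1⌋, z.2) := by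
      ext
      · simp [hz1]
      · simp [hz1]
    have n2 : Nr q (z1 + (0, 1)) := by
      rw [e1]
      exact ⟨f1, f2, by show ((z.2 : ℤ) : ℝ) ≤ q.2; linarith,
        by show q.2 ≤ ((z.2 : ℤ) : ℝ) + 1; linarith⟩
    have d1 := (hf q hq).2 z1 n1 n2
    have g1 := ih z1 q hq n1 (by
      show z.2 - 1 = z0.2 + n
      rw [he]; push_cast; ring)
    obtain ⟨m, hm⟩ := row (z1 + (0, 1)) z q y hq hy n2 hz' (by rw [e1])
    rw [hm, d1]
    exact g1.up.rz m

/-- the core curve of a simple cylinder through the middle of the cross vector -/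
theorem SC.mid {U w : Z2} {d : ℕ} (hS : SC O U w d) :
    ∃ (f : Z2 → X) (m m' : V) (z0 : Z2), Dev O (segment ℝ m m') f ∧ Nr m z0 ∧
      Nr m' (z0 + U) ∧ f z0 = f (z0 + U) := by
  obtain ⟨hcr, f, hf, hag, -, -⟩ := hS
  have hcr' : (0 : ℝ) < cr U w := by exact_mod_cast hcr
  -- the middle of the cross vector
  set m : V := ((w.1 : ℝ) / 2, (w.2 : ℝ) / 2) with hm
  set m' : V := ((w.1 : ℝ) / 2 + U.1, (w.2 : ℝ) / 2 + U.2) with hm'
  have hsub : ∀ y ∈ segment ℝ m m', y ∈ Pgm U w := by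
    rintro y ⟨α, β, hα, hβ, hαβ, rfl⟩
    have hα' : α = 1 - β := by linarith
    subst hα'
    have e1 : ((1 - β) • m + β • m').1 = (w.1 : ℝ) / 2 + β * U.1 := by
      show (1 - β) * ((w.1 : ℝ) / 2) + β * ((w.1 : ℝ) / 2 + U.1) = _
      ring
    have e2 : ((1 - β) • m + β • m').2 = (w.2 : ℝ) / 2 + β * U.2 := by
      show (1 - β) * ((w.2 : ℝ) / 2) + β * ((w.2 : ℝ) / 2 + U.2) = _
      ring
    have c1 : crx U ((1 - β) • m + β • m') = (cr U w : ℝ) / 2 := by
      unfold crx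
      rw [e1, e2]
      simp only [cr]
      push_cast
      ring
    have c2 : crx w ((1 - β) • m + β • m') = -(β * cr U w) := by
      unfold crx
      rw [e1, e2]
      simp only [cr]
      push_cast
      ring
    have v1 : ∀ z : Z2, crx U (em z) = (cr U z : ℝ) := by
      intro z
      simp only [crx, em, cr]
      push_cast
      ring
    have hne : ∀ z : Z2, (cr U z = 0 ∨ cr U z = cr U w) → (1 - β) • m + β • m' ≠ em z := by
      intro z hz he
      rw [he, v1] at c1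
      rcases hz with hz | hz
      · rw [hz] at c1
        push_cast at c1
        linarith
      · rw [hz] at c1
        linarith
    refine ⟨by rw [c1]; linarith, by rw [c1]; linarith, by rw [c2]; nlinarith,
      by rw [c2]; nlinarith, hne _ (Or.inl ?_), hne _ (Or.inl ?_), hne _ (Or.inr rfl),
      hne _ (Or.inr ?_)⟩
    · simp [cr]
    · simp only [cr]; ring
    · simp only [cr, Prod.fst_add, Prod.snd_add]; ring
  have hf' : Dev O (segment ℝ m m') f := fun y hy => hf y (hsub y hy)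
  set z0 : Z2 := (⌊m.1⌋, ⌊m.2⌋) with hz0
  have n0 : Nr m z0 := ⟨Int.floor_le _, (Int.lt_floor_add_one _).le, Int.floor_le _,
    (Int.lt_floor_add_one _).le⟩
  have n0' : Nr m' (z0 + U) := by
    obtain ⟨a1, a2, a3, a4⟩ := n0
    have e1 : m'.1 = m.1 + U.1 := rfl
    have e2 : m'.2 = m.2 + U.2 := rfl
    refine ⟨?_, ?_, ?_, ?_⟩
    · rw [e1]; simp only [Prod.fst_add]; push_cast; linarith
    · rw [e1]; simp only [Prod.fst_add]; push_cast; linarith
    · rw [e2]; simp only [Prod.snd_add]; push_cast; linarith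
    · rw [e2]; simp only [Prod.snd_add]; push_cast; linarith
  have hz : f z0 = f (z0 + U) := by
    refine hag m ⟨1 / 2, by norm_num, by norm_num, ?_⟩ z0 n0
    ext
    · show (w.1 : ℝ) / 2 = (1 - 1 / 2) * (((0 : Z2).1 : ℤ) : ℝ) + 1 / 2 * w.1
      simp; ring
    · show (w.2 : ℝ) / 2 = (1 - 1 / 2) * (((0 : Z2).2 : ℤ) : ℝ) + 1 / 2 * w.2
      simp; ring
  exact ⟨f, m, m', z0, hf', n0, n0', hz⟩

/-- A horizontal simple cylinder gives a period of a row. -/
theorem SC.hpath {U w : Z2} {d : ℕ} (hS : SC O U w d) (hU : U.2 = 0) :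
    ∃ y : X, U.1 ≠ 0 ∧ (O.r ^ |U.1|) y = y := by
  have hcr := hS.1
  obtain ⟨f, m, m', z0, hf', n0, n0', hz⟩ := hS.mid
  have hK : Convex ℝ (segment ℝ m m') := convex_segment m m'
  have hmK : m ∈ segment ℝ m m' := left_mem_segment ℝ m m'
  have hmK' : m' ∈ segment ℝ m m' := right_mem_segment ℝ m m'
  have hne : U.1 ≠ 0 := by
    intro h0
    simp only [cr, hU, h0] at hcr
    simp at hcr
  rcases lt_or_gt_of_ne hne with h1 | h1
  · obtain ⟨n, hn⟩ := Int.eq_ofNat_of_zero_le (show 0 ≤ -U.1 by omega)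
    refine ⟨f (z0 + U), hne, ?_⟩
    have e : z0 = z0 + U + ((n : ℤ), 0) := by
      ext
      · simp only [Prod.fst_add]; rw [← hn]; ring
      · simp only [Prod.snd_add]; rw [hU]; ring
    have g := dev_row hK hf' n (z0 + U) m' m hmK' hmK n0' (by rw [← e]; exact n0)
    rw [← e, hz] at g
    rw [abs_of_neg h1, hn]
    exact g.symm
  · obtain ⟨n, hn⟩ := Int.eq_ofNat_of_zero_le h1.le
    refine ⟨f z0, hne, ?_⟩
    have e : z0 + U = z0 + ((n : ℤ), 0) := by
      ext
      · simp only [Prod.fst_add]; rw [← hn]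
      · simp only [Prod.snd_add]; rw [hU]
    have g := dev_row hK hf' n z0 m m' hmK hmK' n0 (by rw [← e]; exact n0')
    rw [← e, ← hz] at g
    rw [abs_of_pos h1, hn]
    exact g.symm

/-- A simple cylinder gives a closed monotone path. -/
theorem SC.mpath {U w : Z2} {d : ℕ} (hS : SC O U w d) (hU : U.2 ≠ 0) :
    ∃ (y : X) (n : ℕ), 0 < n ∧ (n : ℤ) = |U.2| ∧ MPath O y n y := by
  obtain ⟨f, m, m', z0, hf', n0, n0', hz⟩ := hS.mid
  have hK : Convex ℝ (segment ℝ m m') := convex_segment m m'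
  have hmK : m ∈ segment ℝ m m' := left_mem_segment ℝ m m'
  have hmK' : m' ∈ segment ℝ m m' := right_mem_segment ℝ m m'
  rcases lt_or_gt_of_ne hU with h1 | h1
  · -- downwards
    obtain ⟨n, hn⟩ := Int.eq_ofNat_of_zero_le (show 0 ≤ -U.2 by omega)
    refine ⟨f (z0 + U), n, by omega, by rw [abs_of_neg h1, hn], ?_⟩
    have g := dev_mpath hK hf' hmK' n0' n z0 m hmK n0 (by
      simp only [Prod.snd_add]; omega)
    rw [hz] at g
    exact g
  · obtain ⟨n, hn⟩ := Int.eq_ofNat_of_zero_le h1.le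
    refine ⟨f z0, n, by omega, by rw [abs_of_pos h1, hn], ?_⟩
    have g := dev_mpath hK hf' hmK n0 n (z0 + U) m' hmK' n0' (by
      simp only [Prod.snd_add]; omega)
    rw [← hz] at g
    exact g

/-! ## The tower -/

namespace TQ

variable {a : ZMod 5}

theorem z5 (d : ZMod 5) : d = 0 ∨ d = 1 ∨ d = 2 ∨ d = 3 ∨ d = 4 := by
  revert d; decide

/-- the cylinder above a saddle: `0` is `W`, `1` is `N`, `2` is `C` -/
def cB (d : ZMod 5) : Fin 3 := if d = 0 then 1 else if d = 2 then 2 else 0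

/-- the cylinder below a saddle -/
def cT (d : ZMod 5) : Fin 3 := if d = 0 ∨ d = 1 then 0 else if d = 4 then 2 else 1

theorem bcases (T : TQ O x b l h a) (d : ZMod 5) :
    b (a + d) = a + (if d = 0 then 0 else if d = 1 then 4 else if d = 2 then 2 else
      if d = 3 then 1 else 3) := by
  obtain rfl | rfl | rfl | rfl | rfl := z5 d
  · rw [add_zero, T.b0]; simp
  · rw [T.b1]; rfl
  · rw [T.b2]; rfl
  · rw [T.b3]; rfl
  · rw [T.b4]; rfl

theorem cB_b (T : TQ O x b l h a) (i : ZMod 5) : cB (b i - a) = cB (i - a) := by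
  obtain ⟨d, rfl⟩ : ∃ d, i = a + d := ⟨i - a, by ring⟩
  rw [T.bcases, add_sub_cancel_left, add_sub_cancel_left]
  revert d
  decide

theorem cT_tp (T : TQ O x b l h a) (i : ZMod 5) : cT (tp b i - a) = cT (i - a) := by
  obtain ⟨d, rfl⟩ : ∃ d, i = a + d := ⟨i - a, by ring⟩
  rw [tp_apply, T.bcases, add_sub_cancel_left, add_assoc, add_sub_cancel_left]
  revert d
  decide

theorem cB_same {d d' : ZMod 5} (hd : cB d = cB d') (T : TQ O x b l h a) :
    b.SameCycle (a + d) (a + d') := by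
  have h4 : b.SameCycle (a + 4) (a + 3) := ⟨1, by rw [zpow_one, T.b4]⟩
  have h3 : b.SameCycle (a + 3) (a + 1) := ⟨1, by rw [zpow_one, T.b3]⟩
  have h1 := h4.trans h3
  have key : ∀ d d' : ZMod 5, cB d = cB d' → (d = d' ∨ ((d = 4 ∨ d = 3 ∨ d = 1) ∧
      (d' = 4 ∨ d' = 3 ∨ d' = 1))) := by decide
  have w : ∀ d : ZMod 5, (d = 4 ∨ d = 3 ∨ d = 1) → b.SameCycle (a + 4) (a + d) := by
    rintro d (rfl | rfl | rfl)
    · exact Equiv.Perm.SameCycle.refl _ _
    · exact h4
    · exact h1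
  rcases key d d' hd with rfl | ⟨g1, g2⟩
  · exact Equiv.Perm.SameCycle.refl _ _
  · exact (w d g1).symm.trans (w d' g2)

/-- the cylinder above `i` is the cylinder below `j` -/
theorem colour (T : TQ O x b l h a) {i j : ZMod 5} {t : ℤ} (hu : Up O x h i j t) :
    cB (i - a) = cT (j - a) := by
  have key : ∀ d : ZMod 5, ∃ e, cB d = cB e ∧ ∃ j0, cT j0 = cB e ∧
      ∃ t, Up O x h (a + e) (a + j0) t := by
    intro d
    have h3 : cB d = 0 ∨ cB d = 1 ∨ cB d = 2 := by
      revert d; decide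
    rcases h3 with h3 | h3 | h3
    · exact ⟨4, by rw [h3]; decide, 0, by decide, by rw [add_zero]; exact T.uW⟩
    · exact ⟨0, by rw [h3]; decide, 2, by decide, by rw [add_zero]; exact T.uN⟩
    · exact ⟨2, by rw [h3]; decide, 4, by decide, T.uC⟩
  obtain ⟨d, rfl⟩ : ∃ d, i = a + d := ⟨i - a, by ring⟩
  obtain ⟨e, he, j0, hj0, t0, ht0⟩ := key d
  obtain ⟨t1, ht1⟩ := T.hs.up_b ht0 (cB_same he.symm T)
  have h4 := T.hs.up_top ht1 hu
  have h5 := sc_const (fun j => cT (j - a)) T.cT_tp h4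
  simp only [add_sub_cancel_left] at h5
  rw [add_sub_cancel_left, he, ← hj0]
  exact h5.symm

/-- the heights by colours -/
def hc (h : ZMod 5 → ℕ) (a : ZMod 5) (c : Fin 3) : ℕ :=
  if c = 0 then h (a + 4) else if c = 1 then h a else h (a + 2)

theorem h_eq (T : TQ O x b l h a) (i : ZMod 5) : h i = hc h a (cB (i - a)) := by
  obtain ⟨d, rfl⟩ : ∃ d, i = a + d := ⟨i - a, by ring⟩
  rw [add_sub_cancel_left]
  obtain rfl | rfl | rfl | rfl | rfl := z5 d
  · rw [add_zero]; rfl
  · rw [T.h1]; rfl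
  · rfl
  · rw [T.h3]; rfl
  · rfl

/-- the base level of a cylinder -/
def bs (h : ZMod 5 → ℕ) (a : ZMod 5) (c : Fin 3) : ℕ :=
  if c = 0 then 0 else if c = 1 then h (a + 4) else h (a + 4) + h a

/-- the two potentials -/
theorem pots (hO : O.Trans) (T : TQ O x b l h a) : ∃ Φ Ψ : X → ℤ,
    (∀ y, Φ (O.r y) = Φ y ∧ Ψ (O.r y) = Ψ y) ∧
    (∀ y, (Φ (O.u y) = Φ y + 1 ∧ Ψ (O.u y) ≤ Ψ y + 1) ∨
      Ψ (O.u y) ≤ Ψ y + 1 - h (a + 4)) := by
  obtain ⟨Φ, hΦ⟩ := T.hs.pot hO (fun i k => ((bs h a (cB (i - a)) + k : ℕ) : ℤ))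
    (fun i k => by rw [T.cB_b])
  obtain ⟨Ψ, hΨ⟩ := T.hs.pot hO
    (fun i k => if cB (i - a) = 0 then (k : ℤ) else (h (a + 4) : ℤ)) (fun i k => by rw [T.cB_b])
  refine ⟨Φ, Ψ, ?_, ?_⟩
  · intro y
    obtain ⟨i, m, k, hk, rfl⟩ := T.hs.cover hO y
    rw [← zr_succ, hΦ i _ k hk, hΦ i _ k hk, hΨ i _ k hk, hΨ i _ k hk]
    exact ⟨rfl, rfl⟩
  · intro y
    obtain ⟨i, m, k, hk, rfl⟩ := T.hs.cover hO y
    rcases T.hs.stepU i m hk with ⟨g1, g2⟩ | ⟨g1, j, t, c, g2, g3⟩
    · left
      rw [g2, hΦ i _ _ g1, hΦ i _ k hk, hΨ i _ _ g1, hΨ i _ k hk]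
      constructor
      · push_cast; ring
      · split_ifs
        · push_cast; exact le_refl _
        · linarith
    · have hcol := T.colour g2
      rw [g3, hΦ j _ 0 (T.hs.hpos j), hΦ i _ k hk, hΨ j _ 0 (T.hs.hpos j), hΨ i _ k hk]
      have hh := T.h_eq i
      obtain ⟨d, rfl⟩ : ∃ d, j = a + d := ⟨j - a, by ring⟩
      rw [add_sub_cancel_left] at hcol ⊢
      rw [hcol] at hh ⊢
      rw [hh] at g1
      obtain rfl | rfl | rfl | rfl | rfl := z5 d
      · left
        have e1 : cT 0 = 0 := by decide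
        have e2 : cB 0 = 1 := by decide
        rw [e1] at g1 ⊢
        rw [e2]
        have g1' : k + 1 = h (a + 4) := g1
        constructor
        · show ((h (a + 4) + 0 : ℕ) : ℤ) = ((0 + k : ℕ) : ℤ) + 1
          rw [← g1']; push_cast; ring
        · show (h (a + 4) : ℤ) ≤ (k : ℤ) + 1
          rw [← g1']; push_cast; exact le_refl _
      · right
        have e1 : cT 1 = 0 := by decide
        have e2 : cB 1 = 0 := by decide
        rw [e1] at g1 ⊢
        rw [e2]
        have g1' : k + 1 = h (a + 4) := g1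
        show ((0 : ℕ) : ℤ) ≤ (k : ℤ) + 1 - h (a + 4)
        rw [← g1']; push_cast; linarith
      · left
        have e1 : cT 2 = 1 := by decide
        have e2 : cB 2 = 2 := by decide
        rw [e1] at g1 ⊢
        rw [e2]
        have g1' : k + 1 = h a := g1
        constructor
        · show ((h (a + 4) + h a + 0 : ℕ) : ℤ) = ((h (a + 4) + k : ℕ) : ℤ) + 1
          rw [← g1']; push_cast; ring
        · show (h (a + 4) : ℤ) ≤ (h (a + 4) : ℤ) + 1
          linarith
      · right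
        have e1 : cT 3 = 1 := by decide
        have e2 : cB 3 = 0 := by decide
        rw [e1, e2]
        show ((0 : ℕ) : ℤ) ≤ (h (a + 4) : ℤ) + 1 - h (a + 4)
        push_cast; linarith
      · right
        have e1 : cT 4 = 2 := by decide
        have e2 : cB 4 = 0 := by decide
        rw [e1, e2]
        show ((0 : ℕ) : ℤ) ≤ (h (a + 4) : ℤ) + 1 - h (a + 4)
        push_cast; linarith

/-- A closed monotone path crosses `W`. -/
theorem low_path (hO : O.Trans) (T : TQ O x b l h a) {y : X} {n : ℕ} (hn : 0 < n)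
    (hp : MPath O y n y) : h (a + 4) ≤ n := by
  obtain ⟨Φ, Ψ, h1, h2⟩ := T.pots hO
  have hl : ∀ y, Φ (O.r.symm y) = Φ y ∧ Ψ (O.r.symm y) = Ψ y := by
    intro y
    have := h1 (O.r.symm y)
    rw [O.r.apply_symm_apply] at this
    exact ⟨this.1.symm, this.2.symm⟩
  have hW : (0 : ℤ) < h (a + 4) := by exact_mod_cast T.hs.hpos (a + 4)
  have key : ∀ {n : ℕ} {z : X}, MPath O y n z → ∃ K : ℕ,
      Ψ z - Ψ y ≤ n - h (a + 4) * K ∧ (K = 0 → Φ z - Φ y = n) := by
    intro n z hz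
    induction hz with
    | refl => exact ⟨0, by simp, by simp⟩
    | @right n z _ ih =>
      obtain ⟨K, k1, k2⟩ := ih
      exact ⟨K, by rw [(h1 z).2]; exact k1, by rw [(h1 z).1]; exact k2⟩
    | @left n z _ ih =>
      obtain ⟨K, k1, k2⟩ := ih
      exact ⟨K, by rw [(hl z).2]; exact k1, by rw [(hl z).1]; exact k2⟩
    | @up n z _ ih =>
      obtain ⟨K, k1, k2⟩ := ih
      rcases h2 z with ⟨g1, g2⟩ | g
      · refine ⟨K, ?_, ?_⟩
        · push_cast; linarith
        · intro hK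
          have := k2 hK
          push_cast; linarith
      · refine ⟨K + 1, ?_, ?_⟩
        · push_cast; nlinarith
        · intro hK
          omega
  obtain ⟨K, k1, k2⟩ := key hp
  rcases Nat.eq_zero_or_pos K with hK | hK
  · have := k2 hK
    omega
  · have hK' : (1 : ℤ) ≤ K := by exact_mod_cast hK
    have : (h (a + 4) : ℤ) ≤ h (a + 4) * K := by nlinarith
    have : (h (a + 4) : ℤ) ≤ n := by linarith
    exact_mod_cast this

/-- **(1.1)** In the tower every simple cylinder with a core which is not horizontal crosses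
`W`. -/
theorem low (hO : O.Trans) (T : TQ O x b l h a) {U w : Z2} {d : ℕ} (hS : SC O U w d)
    (hU : U.2 ≠ 0) : (h (a + 4) : ℤ) ≤ |U.2| := by
  obtain ⟨y, n, n0, hn, hp⟩ := hS.mpath hU
  rw [← hn]
  exact_mod_cast T.low_path hO n0 hp

/-- the widths are at least `κ` -/
theorem wd_ge (T : TQ O x b l h a) (i : ZMod 5) : l (a + 4) ≤ wd b l i := by
  have hle : ∀ {i m : ZMod 5}, b.SameCycle i m → l m ≤ wd b l i := by
    intro i m hs
    unfold wd
    exact Finset.single_le_sum (f := l) (fun _ _ => Nat.zero_le _) (by simpa using hs)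
  obtain ⟨d, rfl⟩ : ∃ d, i = a + d := ⟨i - a, by ring⟩
  have h3 : cB d = cB 4 ∨ cB d = cB 0 ∨ cB d = cB 2 := by
    revert d; decide
  rcases h3 with h3 | h3 | h3
  · exact hle (cB_same h3 T)
  · have := hle (cB_same h3 T)
    rw [add_zero, T.l0] at this
    omega
  · have := hle (cB_same h3 T)
    rw [T.l2] at this
    exact this

/-- a horizontal simple cylinder has circumference at least `κ` -/
theorem low_hor (hO : O.Trans) (T : TQ O x b l h a) {U w : Z2} {d : ℕ} (hS : SC O U w d)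
    (hU : U.2 = 0) : (l (a + 4) : ℤ) ≤ |U.1| := by
  obtain ⟨y, h0, h1⟩ := hS.hpath hU
  obtain ⟨i, m, k, hk, rfl⟩ := T.hs.cover hO y
  have h2 : (O.r ^ |U.1|) (x i) = x i := by
    have h3 : (O.r ^ (m + |U.1|)) ((O.u ^ k) (x i)) = (O.r ^ m) ((O.u ^ k) (x i)) := by
      rw [add_comm m, zr_add]
      exact h1
    rw [zr_add] at h3
    have h4 := (O.r ^ m).injective h3
    rw [T.hs.comm i hk] at h4
    exact (O.u ^ k).injective h4
  have h3 := (T.hs.retB.dvd i |U.1|).1 h2
  have h4 := Int.le_of_dvd (abs_pos.2 h0) h3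
  have h5 : (l (a + 4) : ℤ) ≤ (wd b l i : ℤ) := by exact_mod_cast T.wd_ge i
  linarith

end TQ

/-! ## Horizontal simple cylinders -/

/-- a horizontal simple cylinder -/
theorem HS.scHor (H : HS O x b l h) {i j : ZMod 5} {t : ℤ} (hU : Up O x h i j t) (hi : b i = i)
    (hj : b j + 1 = j) {d : ℕ} (hd : i = j + d) : SC O ((l i : ℤ), 0) (t, (h i : ℤ)) d := by
  have hli := H.lpos i
  have hhi := H.hpos i
  have hli' : (0 : ℝ) < l i := by exact_mod_cast hli
  have hhi' : (0 : ℝ) < h i := by exact_mod_cast hhi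
  have hlj : l i = l j := by
    have g1 := H.upRight hU
    rw [hj] at g1
    have g2 := H.upLeft hU
    rw [hi] at g2
    have d1 := Twr.per1 H hi (Twr.upU H hU g1)
    have d2 : (l j : ℤ) ∣ (l i : ℤ) := by
      have h3 : (O.r ^ (l i : ℤ)) (O.u.symm (x j)) = O.u.symm (x j) := by
        have h4 : (O.r ^ t) ((O.u ^ (h i - 1)) (x i)) = O.u.symm (x j) := hU
        have h5 : (O.r ^ (t - (l i : ℤ))) ((O.u ^ (h i - 1)) (x i)) = O.u.symm (x j) := g2
        conv_lhs => rw [← h5]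
        rw [← zr_add, add_sub_cancel]
        exact h4
      have h6 := H.retT.dvd j (l i : ℤ)
      have h7 : wd (tp b) l j = l j := by
        unfold wd
        have : (Finset.univ.filter (fun m => (tp b).SameCycle j m)) = {j} := by
          ext m
          simp only [Finset.mem_filter, Finset.mem_univ, true_and, Finset.mem_singleton]
          constructor
          · intro hs
            have hg := sc_const (β := tp b) (fun m => decide (m = j)) (fun m => by
              rw [decide_eq_decide, tp_apply]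
              constructor
              · intro hm
                exact b.injective (by rw [eq_comm, ← sub_eq_iff_eq_add] at hj; rw [← hj]; exact eq_sub_of_add_eq hm)
              · rintro rfl
                exact hj) hs
            simpa using hg
          · rintro rfl
            exact Equiv.Perm.SameCycle.refl _ _
        rw [this, Finset.sum_singleton]
      rw [h7] at h6
      exact h6.1 h3
    have e1 : t + (l j : ℤ) - t = l j := by ring
    rw [e1] at d1
    have a1 : l i ∣ l j := by exact_mod_cast d1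
    have a2 : l j ∣ l i := by exact_mod_cast d2
    exact Nat.dvd_antisymm a1 a2
  obtain ⟨hcr, f, hf, hA, hR, hT, hL⟩ := H.parBand hU hlj
  rw [hi] at hR
  have hc0 : (0 : ℝ) < 1 / (2 * l i) := by positivity
  have hc1 : 1 / (2 * (l i : ℝ)) < 1 := by
    rw [div_lt_one (by positivity)]
    have : (1 : ℝ) ≤ l i := by exact_mod_cast hli
    linarith
  have hc2 : 1 / (2 * (l i : ℝ)) * l i = 1 / 2 := by field_simp
  -- the two labels
  have f0 : f 0 = x i := by
    have g := hA (1 / 2, 0) ⟨1 / (2 * l i), hc0, hc1, by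
      ext
      · show (1 : ℝ) / 2 = _
        simp only [Prod.fst_zero]
        push_cast
        rw [hc2]; ring
      · show (0 : ℝ) = _
        simp⟩ 0 (by
      refine ⟨?_, ?_, ?_, ?_⟩
      · simp
      · show (1 : ℝ) / 2 ≤ (((0 : Z2).1 : ℤ) : ℝ) + 1
        simp; norm_num
      · simp
      · simp)
    rw [g]
    simp [Gm]
  have fw : f (t, (h i : ℤ)) = x j := by
    have g := hT (t + 1 / 2, h i) ⟨1 / (2 * l i), hc0, hc1, by
      ext
      · show (t : ℝ) + 1 / 2 = _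
        simp only [Prod.fst_add]
        push_cast
        rw [← hc2]; ring
      · show (h i : ℝ) = _
        simp only [Prod.snd_add]
        push_cast
        ring⟩ (t, (h i : ℤ)) (by
      refine ⟨?_, ?_, ?_, ?_⟩
      · show ((t : ℤ) : ℝ) ≤ t + 1 / 2
        linarith
      · show (t : ℝ) + 1 / 2 ≤ ((t : ℤ) : ℝ) + 1
        linarith
      · show (((h i : ℕ) : ℤ) : ℝ) ≤ h i
        push_cast; exact le_refl _
      · show (h i : ℝ) ≤ (((h i : ℕ) : ℤ) : ℝ) + 1
        push_cast; linarith)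
    rw [g]
    simp [sh, Gm]
  have lab0 : ∀ z, lab O ((l i : ℤ), 0) f z = f z := by
    intro z
    unfold lab
    rw [if_pos ⟨by show (0 : ℤ) < l i; exact_mod_cast hli, le_refl _⟩]
  refine ⟨hcr, f, hf, ?_, ?_, ?_⟩
  · intro y hy z hz
    rw [hL y hy z hz]
    obtain ⟨c, c0, c1, rfl⟩ := hy
    have g := hR (((1 - c) * ((0 : Z2).1 : ℝ) + c * ((t, (h i : ℤ)) : Z2).1,
      (1 - c) * ((0 : Z2).2 : ℝ) + c * ((t, (h i : ℤ)) : Z2).2) + ((l i : ℝ), 0))
      ⟨c, c0, c1, by
        ext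
        · simp only [Prod.fst_add, Prod.fst_zero]
          push_cast
          ring
        · simp only [Prod.snd_add, Prod.snd_zero]
          push_cast
          ring⟩ (z + ((l i : ℤ), 0)) (by
        obtain ⟨a1, a2, a3, a4⟩ := hz
        refine ⟨?_, ?_, ?_, ?_⟩
        · simp only [Prod.fst_add] at a1 ⊢; push_cast at a1 ⊢; linarith
        · simp only [Prod.fst_add] at a2 ⊢; push_cast at a2 ⊢; linarith
        · simp only [Prod.snd_add] at a3 ⊢; push_cast at a3 ⊢; linarith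
        · simp only [Prod.snd_add] at a4 ⊢; push_cast at a4 ⊢; linarith)
    show _ = f (z + ((l i : ℤ), 0))
    rw [g]
    simp [sh]
  · rw [lab0, lab0, f0, fw, hd]
    exact rho_pow H j d
  · rw [lab0, fw]
    exact (H.sing _).2 ⟨j, rfl⟩

/-- the cylinder `C` of the tower -/
theorem TQ.scC {a : ZMod 5} (T : TQ O x b l h a) {c : ℤ} (hc : Up O x h (a + 2) (a + 4) c) :
    SC O ((l (a + 4) : ℤ), 0) (c, (h (a + 2) : ℤ)) 3 := by
  have g := T.hs.scHor hc T.b2 (by rw [T.b4]; exact Twr.e34 a) (d := 3) (Twr.f43 a)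
  rw [T.l2] at g
  exact g

/-- **The minimal pair.** `V0` is horizontal. -/
theorem TQ.young' {a : ZMod 5} (hO : O.Trans) (T : TQ O x b l h a) (h2 : ∀ V w, ¬ SC O V w 2)
    {V0 w0 V2 w2 : Z2} {d0 d2 : ℕ} (s0 : SC O V0 w0 d0) (s2 : SC O V2 w2 d2) (hV0 : V0.2 = 0)
    (hne : cr V0 V2 ≠ 0) (hm : ∀ V w V' w' d d', SC O V w d → SC O V' w' d' → cr V V' ≠ 0 →
      |cr V0 V2| ≤ |cr V V'|) :
    (∀ p, Up O x h (a + 4) a p → ∃ n c, Up O x h a (a + 2) n ∧ Up O x h (a + 2) (a + 4) c ∧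
      p * h a = h (a + 4) * n ∧ c * h (a + 4) = h (a + 2) * p) ∧
    (∃ j : ℕ, 0 < j ∧ (l a + l (a + 1)) * h a = j * (l a * h (a + 4))) ∧
    (∃ i : ℕ, 0 < i ∧ (l a + l (a + 1)) * h (a + 2) = i * (l (a + 4) * h (a + 4))) ∧
    l (a + 3) * h a ≤ l (a + 4) * h (a + 4) ∧ (l (a + 4) : ℤ) * h (a + 4) = |cr V0 V2| := by
  have e : cr V0 V2 = V0.1 * V2.2 := by
    simp only [cr, hV0]
    ring
  have hne2 : V2.2 ≠ 0 := by
    intro h0
    rw [e, h0, mul_zero] at hne
    exact hne rfl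
  have a1 := T.low_hor hO s0 hV0
  have a2 := T.low hO s2 hne2
  have a3 : (l (a + 4) : ℤ) * h (a + 4) ≤ |cr V0 V2| := by
    rw [e, abs_mul]
    exact mul_le_mul a1 a2 (by positivity) (by positivity)
  obtain ⟨c1, c2, c3, c4⟩ := T.young h2 (fun V w V' w' d d' g1 g2 g3 =>
    a3.trans (hm V w V' w' d d' g1 g2 g3))
  refine ⟨c1, c2, c3, c4, le_antisymm a3 ?_⟩
  obtain ⟨p, hp⟩ := T.uW
  obtain ⟨c, hc⟩ := T.uC
  have hl4 : (0 : ℤ) < l (a + 4) := by exact_mod_cast T.hs.lpos (a + 4)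
  have hh4 : (0 : ℤ) < h (a + 4) := by exact_mod_cast T.hs.hpos (a + 4)
  have e4 : cr ((l (a + 4) : ℤ), 0) (p, (h (a + 4) : ℤ)) = (l (a + 4) : ℤ) * h (a + 4) := by
    simp only [cr]
    ring
  have e5 : (0 : ℤ) < (l (a + 4) : ℤ) * h (a + 4) := mul_pos hl4 hh4
  have g := hm _ _ _ _ _ _ (T.scC hc) (T.cylE hp) (by rw [e4]; exact ne_of_gt e5)
  rw [e4, abs_of_pos e5] at g
  exact g

end Pool.Agent.H4G.Six
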