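import Mathlib

/-!
# The table of the horizontal diagrams of `H(4)` (helper98)

`b i` is the saddle after `i` on a bottom boundary, `b i + 1` the saddle after `i` on a top
boundary; the cylinder above the saddle `i` is named by `rho b i` (smallest member of its bottom
cycle), `c j` is the name of the cylinder below the saddle `j`. The table is checked by the kernel
(`decide +kernel` on a Boolean loop), everything else is the soundness of the loop.
-/

set_option autoImplicit false

namespace Pool.Agent.H4G.Six.Tab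

/-! ## Boolean loops -/

/-- the function with five given values -/
def fn {α : Type} (x0 x1 x2 x3 x4 : α) (i : Fin 5) : α :=
  match i with
  | 0 => x0
  | 1 => x1
  | 2 => x2
  | 3 => x3
  | 4 => x4

theorem fn_eta {α : Type} (f : Fin 5 → α) : fn (f 0) (f 1) (f 2) (f 3) (f 4) = f := by
  funext i; fin_cases i <;> rfl

def all5 (f : Fin 5 → Bool) : Bool := f 0 && (f 1 && (f 2 && (f 3 && f 4)))
def ex5 (f : Fin 5 → Bool) : Bool := f 0 || (f 1 || (f 2 || (f 3 || f 4)))
def all2 (f : Bool → Bool) : Bool := f true && f false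

theorem all5_iff (f : Fin 5 → Bool) : all5 f = true ↔ ∀ i, f i = true := by
  unfold all5
  simp only [Bool.and_eq_true]
  constructor
  · rintro ⟨h0, h1, h2, h3, h4⟩ i
    fin_cases i <;> assumption
  · intro h
    exact ⟨h 0, h 1, h 2, h 3, h 4⟩

theorem ex5_iff (f : Fin 5 → Bool) : ex5 f = true ↔ ∃ i, f i = true := by
  unfold ex5
  simp only [Bool.or_eq_true]
  constructor
  · rintro (h | h | h | h | h)
    exacts [⟨0, h⟩, ⟨1, h⟩, ⟨2, h⟩, ⟨3, h⟩, ⟨4, h⟩]
  · rintro ⟨i, h⟩
    fin_cases i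
    · exact Or.inl h
    · exact Or.inr (Or.inl h)
    · exact Or.inr (Or.inr (Or.inl h))
    · exact Or.inr (Or.inr (Or.inr (Or.inl h)))
    · exact Or.inr (Or.inr (Or.inr (Or.inr h)))

theorem all2_iff (f : Bool → Bool) : all2 f = true ↔ ∀ i, f i = true := by
  unfold all2
  simp only [Bool.and_eq_true]
  constructor
  · rintro ⟨h0, h1⟩ i
    cases i <;> assumption
  · intro h
    exact ⟨h _, h _⟩

/-- evaluate `x` first -/
def frc (x : Fin 5) (k : Fin 5 → Bool) : Bool :=
  match x with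
  | 0 => k 0
  | 1 => k 1
  | 2 => k 2
  | 3 => k 3
  | 4 => k 4

theorem frc_eq (x : Fin 5) (k : Fin 5 → Bool) : frc x k = k x := by
  fin_cases x <;> rfl

/-- evaluate all values of `f` first -/
def frc5 (f : Fin 5 → Fin 5) (k : (Fin 5 → Fin 5) → Bool) : Bool :=
  frc (f 0) fun x0 => frc (f 1) fun x1 => frc (f 2) fun x2 => frc (f 3) fun x3 =>
    frc (f 4) fun x4 => k (fn x0 x1 x2 x3 x4)

theorem frc5_eq (f : Fin 5 → Fin 5) (k : (Fin 5 → Fin 5) → Bool) : frc5 f k = k f := by
  unfold frc5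
  simp only [frc_eq, fn_eta]

/-! ## Diagrams -/

/-- the smallest member of the cycle of `i` -/
def rho (b : Fin 5 → Fin 5) (i : Fin 5) : Fin 5 :=
  min i (min (b i) (min (b (b i)) (min (b (b (b i))) (b (b (b (b i)))))))

/-- top order -/
def tp (b : Fin 5 → Fin 5) (i : Fin 5) : Fin 5 := b i + 1

/-- the flow condition for the set `k` of cylinders -/
def flowB (rb c : Fin 5 → Fin 5) (k : Fin 5 → Bool) : Bool :=
  !(all5 fun i => !(k (c i)) || k (rb i)) || (all5 fun i => !(k (rb i)) || k (c i))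

/-- the conditions on `(b, c)`; `rb = rho b`, `rt = rho (tp b)` -/
def vd (rb rt c : Fin 5 → Fin 5) : Bool :=
  (all5 fun i => rb (c i) == c i) &&
  ((all5 fun i => all5 fun j => !(c i == c j) || (rt i == rt j)) &&
  ((all5 fun i => ex5 fun j => c j == rb i) &&
  (all2 fun k0 => all2 fun k1 => all2 fun k2 => all2 fun k3 => all2 fun k4 =>
    flowB rb c (fn k0 k1 k2 k3 k4))))

/-- the value at the place `k` is free only if `k` is the name of a top cycle -/
def slot (rt : Fin 5 → Fin 5) (k : Fin 5) (f : Fin 5 → Bool) : Bool :=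
  bif rt k == k then all5 f else f 0

theorem slot_sound {rt : Fin 5 → Fin 5} {k : Fin 5} {f : Fin 5 → Bool} (h : slot rt k f = true)
    (c : Fin 5 → Fin 5) : f (if rt k = k then c k else 0) = true := by
  unfold slot at h
  by_cases h1 : rt k = k
  · rw [if_pos h1]
    have : (rt k == k) = true := by simpa using h1
    rw [this, cond_true, all5_iff] at h
    exact h _
  · rw [if_neg h1]
    have : (rt k == k) = false := by simpa using h1
    rw [this, cond_false] at h
    exact h

/-- the innermost loop -/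
def coreC (b : Fin 5 → Fin 5) (P : (Fin 5 → Fin 5) → (Fin 5 → Fin 5) → Bool) : Bool :=
  frc5 (rho b) fun rb => frc5 (rho (tp b)) fun rt =>
  slot rt 0 fun d0 => slot rt 1 fun d1 => slot rt 2 fun d2 => slot rt 3 fun d3 =>
    slot rt 4 fun d4 => frc5 (fun j => fn d0 d1 d2 d3 d4 (rt j)) fun c => !(vd rb rt c) || P rb c

/-- the loop over all injective `b` -/
def coreB (P : (Fin 5 → Fin 5) → Bool) : Bool :=
  all5 fun b0 => all5 fun b1 => (b1 == b0) || (all5 fun b2 => (b2 == b0) || ((b2 == b1) ||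
    (all5 fun b3 => (b3 == b0) || ((b3 == b1) || ((b3 == b2) ||
      (all5 fun b4 => (b4 == b0) || ((b4 == b1) || ((b4 == b2) || ((b4 == b3) ||
        P (fn b0 b1 b2 b3 b4))))))))))

theorem coreB_sound {P : (Fin 5 → Fin 5) → Bool} (h : coreB P = true) {b : Fin 5 → Fin 5}
    (hb : Function.Injective b) : P b = true := by
  unfold coreB at h
  rw [all5_iff] at h
  have ne : ∀ i j : Fin 5, i ≠ j → (b i == b j) = false := by
    intro i j hij
    simpa using fun h => hij (hb h)
  have h1 := h (b 0)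
  rw [all5_iff] at h1
  have h2 := h1 (b 1)
  rw [ne 1 0 (by decide), Bool.false_or, all5_iff] at h2
  have h3 := h2 (b 2)
  rw [ne 2 0 (by decide), ne 2 1 (by decide), Bool.false_or, Bool.false_or, all5_iff] at h3
  have h4 := h3 (b 3)
  rw [ne 3 0 (by decide), ne 3 1 (by decide), ne 3 2 (by decide), Bool.false_or, Bool.false_or,
    Bool.false_or, all5_iff] at h4
  have h5 := h4 (b 4)
  rw [ne 4 0 (by decide), ne 4 1 (by decide), ne 4 2 (by decide), ne 4 3 (by decide),
    Bool.false_or, Bool.false_or, Bool.false_or, Bool.false_or, fn_eta] at h5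
  exact h5

/-- facts about `rho` -/
def pRho (b : Fin 5 → Fin 5) : Bool :=
  frc5 (rho b) fun rb => (all5 fun i => rb (b i) == rb i) && ((all5 fun i => rb (rb i) == rb i) &&
    all5 fun i => all5 fun j => !(rb i == rb j) || ((j == i) || ((j == b i) || ((j == b (b i)) ||
      ((j == b (b (b i))) || (j == b (b (b (b i)))))))))

theorem core_rho : coreB pRho = true := by decide +kernel

theorem rho_b {b : Fin 5 → Fin 5} (hb : Function.Injective b) (i : Fin 5) :
    rho b (b i) = rho b i := by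
  have h := coreB_sound core_rho hb
  unfold pRho at h
  rw [frc5_eq, Bool.and_eq_true, all5_iff] at h
  simpa using h.1 i

theorem rho_rho {b : Fin 5 → Fin 5} (hb : Function.Injective b) (i : Fin 5) :
    rho b (rho b i) = rho b i := by
  have h := coreB_sound core_rho hb
  unfold pRho at h
  rw [frc5_eq, Bool.and_eq_true, Bool.and_eq_true, all5_iff, all5_iff] at h
  simpa using h.2.1 i

theorem rho_orbit {b : Fin 5 → Fin 5} (hb : Function.Injective b) {i j : Fin 5}
    (hij : rho b i = rho b j) : ∃ n : ℕ, j = b^[n] i := by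
  have h := coreB_sound core_rho hb
  unfold pRho at h
  rw [frc5_eq, Bool.and_eq_true, Bool.and_eq_true, all5_iff, all5_iff, all5_iff] at h
  have h1 := h.2.2 i
  rw [all5_iff] at h1
  have h2 := h1 j
  have e : (rho b i == rho b j) = true := by simpa using hij
  simp only [e, Bool.not_true, Bool.false_or, Bool.or_eq_true, beq_iff_eq] at h2
  rcases h2 with h | h | h | h | h
  · exact ⟨0, h⟩
  · exact ⟨1, h⟩
  · exact ⟨2, h⟩
  · exact ⟨3, h⟩
  · exact ⟨4, h⟩

theorem rho_iterate {b : Fin 5 → Fin 5} (hb : Function.Injective b) (n : ℕ) (i : Fin 5) :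
    rho b (b^[n] i) = rho b i := by
  induction n with
  | zero => rfl
  | succ n ih => rw [Function.iterate_succ_apply', rho_b hb, ih]

theorem tp_inj {b : Fin 5 → Fin 5} (hb : Function.Injective b) : Function.Injective (tp b) := by
  intro i j h
  exact hb (add_right_cancel h)

theorem coreC_sound {P : (Fin 5 → Fin 5) → (Fin 5 → Fin 5) → Bool} {b : Fin 5 → Fin 5}
    (hb : Function.Injective b) (h : coreC b P = true) {c : Fin 5 → Fin 5}
    (hc : ∀ j, c (rho (tp b) j) = c j) (hv : vd (rho b) (rho (tp b)) c = true) :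
    P (rho b) c = true := by
  unfold coreC at h
  rw [frc5_eq, frc5_eq] at h
  have h0 := slot_sound h c
  have h1 := slot_sound h0 c
  have h2 := slot_sound h1 c
  have h3 := slot_sound h2 c
  have h4 := slot_sound h3 c
  rw [frc5_eq] at h4
  have e : (fun j => fn (if rho (tp b) 0 = 0 then c 0 else 0) (if rho (tp b) 1 = 1 then c 1 else 0)
      (if rho (tp b) 2 = 2 then c 2 else 0) (if rho (tp b) 3 = 3 then c 3 else 0)
      (if rho (tp b) 4 = 4 then c 4 else 0) (rho (tp b) j)) = c := by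
    funext j
    have h5 : fn (if rho (tp b) 0 = 0 then c 0 else 0) (if rho (tp b) 1 = 1 then c 1 else 0)
      (if rho (tp b) 2 = 2 then c 2 else 0) (if rho (tp b) 3 = 3 then c 3 else 0)
      (if rho (tp b) 4 = 4 then c 4 else 0) = fun k => if rho (tp b) k = k then c k else 0 :=
      fn_eta (fun k => if rho (tp b) k = k then c k else 0)
    rw [h5]
    beta_reduce
    rw [if_pos (rho_rho (tp_inj hb) j), hc]
  rw [e, hv] at h4
  simpa using h4

/-! ## The table -/

/-- the diagram `(b, c)` is the rotation by `n` of `(b', c')`; the cylinders are compared by the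
relation `rho b i = c j` -/
def rt (n : Fin 5) (b rb c b' c' : Fin 5 → Fin 5) : Bool :=
  (all5 fun i => b (i + n) == b' i + n) &&
    all5 fun i => all5 fun j => (rb (i + n) == c (j + n)) == (rho b' i == c' j)

/-- the cyclic diagram: cylinders `0 | 2 4`, `1 4 | 3`, `2 3 | 0 1` -/
def bCyc : Fin 5 → Fin 5 := fn 0 4 3 2 1
def cCyc : Fin 5 → Fin 5 := fn 2 2 0 1 0

/-- `D*`: cylinders `0 | 3`, `1 4 | 0 1`, `2 3 | 2 4` -/
def bD : Fin 5 → Fin 5 := fn 0 4 3 2 1
def cD : Fin 5 → Fin 5 := fn 1 1 2 0 2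

/-- hyperelliptic: `0 | 3`, `1 3 2 4 | 0 1 4 2` -/
def bH1 : Fin 5 → Fin 5 := fn 0 3 4 2 1
def cH1 : Fin 5 → Fin 5 := fn 1 1 1 0 1

/-- hyperelliptic: `0 | 3`, `1 | 4`, `2 4 3 | 0 1 2` -/
def bH2 : Fin 5 → Fin 5 := fn 0 1 4 2 3
def cH2 : Fin 5 → Fin 5 := fn 2 2 2 0 1

/-- hyperelliptic: `0 | 3`, `1 4 | 2 4`, `2 3 | 0 1` -/
def bH3 : Fin 5 → Fin 5 := fn 0 4 3 2 1
def cH3 : Fin 5 → Fin 5 := fn 2 2 1 0 1

/-- nested tower: `0 | 2`, `1 2 | 4`, `3 4 | 0 1 3` -/
def bQ1 : Fin 5 → Fin 5 := fn 0 2 1 4 3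
def cQ1 : Fin 5 → Fin 5 := fn 3 3 0 3 1

/-- nested tower: `0 | 2`, `3 | 0 1`, `1 4 2 | 3 4` -/
def bQ2 : Fin 5 → Fin 5 := fn 0 4 1 3 2
def cQ2 : Fin 5 → Fin 5 := fn 3 3 0 1 1

/-- nested tower (`-1` of `Q1`): `3 | 2`, `0 | 3 4`, `1 4 2 | 0 1` -/
def bQ3 : Fin 5 → Fin 5 := fn 0 4 1 3 2
def cQ3 : Fin 5 → Fin 5 := fn 1 1 3 0 0

/-- nested tower (`-1` of `Q2`): `0 | 4`, `3 4 | 2`, `1 2 | 0 1 3` -/
def bQ4 : Fin 5 → Fin 5 := fn 0 2 1 4 3
def cQ4 : Fin 5 → Fin 5 := fn 1 1 3 1 0

/-- the statement checked for every diagram -/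
def pAll (b : Fin 5 → Fin 5) (rb c : Fin 5 → Fin 5) : Bool :=
  ((ex5 fun i => rb i == c i) || ex5 fun n => rt n b rb c bCyc cCyc) &&
  (all5 fun i => !(b i == i) || (all5 fun j => !((b j + 1 == j) && (rb i == c j)) ||
    (((i == j + 2) && ((ex5 fun n => rt n b rb c bD cD) || ((ex5 fun n => rt n b rb c bH1 cH1) ||
      ((ex5 fun n => rt n b rb c bH2 cH2) || (ex5 fun n => rt n b rb c bH3 cH3))))) ||
    (((i == j + 1) || (i == j + 3)) && ((ex5 fun s => (rb s == c s) && (b s == s + 2)) ||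
      ((ex5 fun n => rt n b rb c bQ1 cQ1) || ((ex5 fun n => rt n b rb c bQ2 cQ2) ||
      ((ex5 fun n => rt n b rb c bQ3 cQ3) || (ex5 fun n => rt n b rb c bQ4 cQ4)))))))))

theorem core_all : (coreB fun b => coreC b (pAll b)) = true := by decide +kernel

end Pool.Agent.H4G.Six.Tab
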