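import Pool.Agent.H4G.Six.Ex.Table

/-!
# Abstract diagrams and the table (helper98)

`DG b S l`: `b` the bottom order, `S i j` = the saddle `j` is on the top of the cylinder above the
saddle `i`, `l` the lengths.
-/

set_option autoImplicit false

namespace Pool.Agent.H4G.Six

open Finset
open Tab

open Classical in
/-- an abstract horizontal diagram -/
structure DG (b : Equiv.Perm (ZMod 5)) (S : ZMod 5 → ZMod 5 → Prop) (l : ZMod 5 → ℕ) : Prop where
  left : ∀ {i j}, S i j → S (b i) j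
  right : ∀ {i j}, S i j → S i (b j + 1)
  exT : ∀ i, ∃ j, S i j
  exB : ∀ j, ∃ i, S i j
  topU : ∀ {i j j'}, S i j → S i j' → ∃ n : ℕ, j' = (fun k => b k + 1)^[n] j
  botU : ∀ {i i' j}, S i j → S i' j → ∃ n : ℕ, i' = (b : ZMod 5 → ZMod 5)^[n] i
  lpos : ∀ i, 0 < l i
  sum : ∀ {i j}, S i j → ∑ k with S k j, l k = ∑ k with S i k, l k

/-- `Fin 5` as `ZMod 5` -/
def zz (x : Fin 5) : ZMod 5 := x

theorem beqF {x y : Fin 5} (h : (x == y) = true) : x = y := beq_iff_eq.1 h

theorem zz_add (x y : Fin 5) : zz (x + y) = zz x + zz y := rfl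

/-- `(b, S)` is the rotation by `n` of the diagram `(b', c')` -/
def Rot (n : ZMod 5) (b : Equiv.Perm (ZMod 5)) (S : ZMod 5 → ZMod 5 → Prop)
    (b' c' : Fin 5 → Fin 5) : Prop :=
  (∀ i : Fin 5, b (zz i + n) = zz (b' i) + n) ∧
    ∀ i j : Fin 5, S (zz i + n) (zz j + n) ↔ Tab.rho b' i = c' j

namespace DG

variable {b : Equiv.Perm (ZMod 5)} {S : ZMod 5 → ZMod 5 → Prop} {l : ZMod 5 → ℕ}

/-- `b` as a function on `Fin 5` -/
def bf (b : Equiv.Perm (ZMod 5)) : Fin 5 → Fin 5 := fun i => (b i : ZMod 5)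

theorem bf_inj (b : Equiv.Perm (ZMod 5)) : Function.Injective (bf b) := fun _ _ h => b.injective h

/-- the name of the cylinder below `j` -/
noncomputable def nm (D : DG b S l) (j : Fin 5) : Fin 5 := Tab.rho (bf b) (D.exB j).choose

theorem S_iff (D : DG b S l) (i j : ZMod 5) : S i j ↔ Tab.rho (bf b) i = D.nm j := by
  have h0 := (D.exB j).choose_spec
  set i0 := (D.exB j).choose with hi0
  have e : D.nm j = Tab.rho (bf b) i0 := rfl
  rw [e]
  constructor
  · intro h
    obtain ⟨n, hn⟩ := D.botU h0 h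
    have : i = (bf b)^[n] i0 := hn
    rw [this]
    exact rho_iterate (bf_inj b) n i0
  · intro h
    obtain ⟨n, hn⟩ := rho_orbit (bf_inj b) h.symm
    rw [hn]
    clear hn
    induction n with
    | zero => exact h0
    | succ n ih =>
      rw [Function.iterate_succ_apply']
      exact D.left ih

theorem nm_tp (D : DG b S l) (j : Fin 5) : D.nm (tp (bf b) j) = D.nm j := by
  obtain ⟨i, hi⟩ := D.exB j
  have h1 := (D.S_iff i j).1 hi
  have h2 := (D.S_iff i (b j + 1)).1 (D.right hi)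
  rw [← h1]
  exact h2.symm

theorem nm_rho (D : DG b S l) (j : Fin 5) : D.nm (Tab.rho (tp (bf b)) j) = D.nm j := by
  have h1 : Tab.rho (tp (bf b)) j = Tab.rho (tp (bf b)) (Tab.rho (tp (bf b)) j) :=
    (rho_rho (tp_inj (bf_inj b)) j).symm
  obtain ⟨n, hn⟩ := rho_orbit (tp_inj (bf_inj b)) h1
  rw [hn]
  clear hn h1
  induction n with
  | zero => rfl
  | succ n ih => rw [Function.iterate_succ_apply', nm_tp, ih]

theorem sum_nm (D : DG b S l) (m : Fin 5) :
    ∑ i : Fin 5, (if Tab.rho (bf b) i = m then l i else 0) =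
      ∑ j : Fin 5, (if D.nm j = m then l j else 0) := by
  classical
  by_cases h : ∃ i : Fin 5, Tab.rho (bf b) i = m
  · obtain ⟨i, hi⟩ := h
    obtain ⟨j, hj⟩ := D.exT i
    have h1 := D.sum hj
    have h2 := (D.S_iff i j).1 hj
    rw [Finset.sum_filter, Finset.sum_filter] at h1
    have e1 : ∀ k : ZMod 5, (S k j) = (Tab.rho (bf b) k = m) := by
      intro k
      rw [D.S_iff k j, ← h2, hi]
    have e2 : ∀ k : ZMod 5, (S i k) = (D.nm k = m) := by
      intro k
      rw [D.S_iff i k, hi]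
      exact propext eq_comm
    simp only [e1, e2] at h1
    change (∑ i : ZMod 5, (if Tab.rho (bf b) i = m then l i else 0)) =
      ∑ j : ZMod 5, (if D.nm j = m then l j else 0)
    convert h1
  · have h1 : ∀ i : Fin 5, ¬ Tab.rho (bf b) i = m := fun i hi => h ⟨i, hi⟩
    have h2 : ∀ j : Fin 5, ¬ D.nm j = m := by
      intro j hj
      obtain ⟨i, hi⟩ := D.exB j
      exact h1 i (((D.S_iff i j).1 hi).trans hj)
    simp only [h1, h2, if_false]

theorem sum_k (D : DG b S l) (k : Fin 5 → Bool) :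
    ∑ i : Fin 5, (if k (Tab.rho (bf b) i) = true then l i else 0) =
      ∑ j : Fin 5, (if k (D.nm j) = true then l j else 0) := by
  have key : ∀ f : Fin 5 → Fin 5, ∑ i : Fin 5, (if k (f i) = true then l i else 0) =
      ∑ m : Fin 5, if k m = true then ∑ i : Fin 5, (if f i = m then l i else 0) else 0 := by
    intro f
    have e : ∀ i : Fin 5, (if k (f i) = true then l i else 0) =
        ∑ m : Fin 5, if k m = true then (if f i = m then l i else 0) else 0 := by
      intro i
      rw [Finset.sum_eq_single (f i)]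
      · simp
      · intro m _ hm
        simp [hm.symm]
      · simp
    simp only [e]
    rw [Finset.sum_comm]
    refine Finset.sum_congr rfl fun m _ => ?_
    by_cases hm : k m = true
    · simp [hm]
    · simp [hm]
  rw [key, key]
  refine Finset.sum_congr rfl fun m _ => ?_
  rw [D.sum_nm m]

theorem flow (D : DG b S l) (k : Fin 5 → Bool) : flowB (Tab.rho (bf b)) D.nm k = true := by
  unfold flowB
  rw [Bool.or_eq_true]
  by_cases h : (all5 fun i => !(k (D.nm i)) || k (Tab.rho (bf b) i)) = true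
  · right
    rw [all5_iff]
    intro i
    rw [all5_iff] at h
    by_contra hcon
    have hc : k (Tab.rho (bf b) i) = true ∧ ¬ k (D.nm i) = true := by
      cases h1 : k (Tab.rho (bf b) i) <;> cases h2 : k (D.nm i) <;> simp_all
    have h3 := D.sum_k k
    have h4 : ∑ j : Fin 5, (if k (D.nm j) = true then l j else 0) <
        ∑ i : Fin 5, (if k (Tab.rho (bf b) i) = true then l i else 0) := by
      refine Finset.sum_lt_sum (fun j _ => ?_) ⟨i, Finset.mem_univ _, ?_⟩
      · have h5 := h j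
        by_cases h6 : k (D.nm j) = true
        · have h7 : k (Tab.rho (bf b) j) = true := by simpa [h6] using h5
          rw [if_pos h6, if_pos h7]
        · rw [if_neg h6]; exact Nat.zero_le _
      · rw [if_pos hc.1, if_neg hc.2]
        exact D.lpos i
    omega
  · left
    simpa using h

theorem vd_nm (D : DG b S l) : vd (Tab.rho (bf b)) (Tab.rho (tp (bf b))) D.nm = true := by
  unfold vd
  simp only [Bool.and_eq_true]
  refine ⟨?_, ?_, ?_, ?_⟩
  · rw [all5_iff]
    intro j
    obtain ⟨i, hi⟩ := D.exB j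
    have h1 := (D.S_iff i j).1 hi
    rw [← h1]
    simpa using rho_rho (bf_inj b) i
  · rw [all5_iff]
    intro i
    rw [all5_iff]
    intro j
    by_cases h : D.nm i = D.nm j
    · obtain ⟨i0, hi⟩ := D.exB i
      have h1 := (D.S_iff i0 i).1 hi
      have h2 : S i0 j := (D.S_iff i0 j).2 (h1.trans h)
      obtain ⟨n, hn⟩ := D.topU hi h2
      have h3 : j = (tp (bf b))^[n] i := hn
      rw [h3, rho_iterate (tp_inj (bf_inj b))]
      simp
    · have : (D.nm i == D.nm j) = false := by simpa using h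
      rw [this]; rfl
  · rw [all5_iff]
    intro i
    rw [ex5_iff]
    obtain ⟨j, hj⟩ := D.exT i
    refine ⟨j, ?_⟩
    have h1 := (D.S_iff i j).1 hj
    simpa using h1.symm
  · rw [all2_iff]; intro k0
    rw [all2_iff]; intro k1
    rw [all2_iff]; intro k2
    rw [all2_iff]; intro k3
    rw [all2_iff]; intro k4
    exact D.flow _

theorem pAll (D : DG b S l) : Tab.pAll (bf b) (Tab.rho (bf b)) D.nm = true :=
  coreC_sound (bf_inj b) (coreB_sound core_all (bf_inj b)) D.nm_rho D.vd_nm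

theorem of_rt (D : DG b S l) {n : Fin 5} {b' c' : Fin 5 → Fin 5}
    (h : rt n (bf b) (Tab.rho (bf b)) D.nm b' c' = true) : Rot n b S b' c' := by
  unfold rt at h
  rw [Bool.and_eq_true, all5_iff, all5_iff] at h
  refine ⟨fun i => ?_, fun i j => ?_⟩
  · have h1 := h.1 i
    rw [beq_iff_eq] at h1
    exact h1
  · have h1 := h.2 i
    rw [all5_iff] at h1
    have h2 := h1 j
    rw [beq_iff_eq] at h2
    have h0 : S (zz i + zz n) (zz j + zz n) ↔ Tab.rho (bf b) (i + n) = D.nm (j + n) :=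
      D.S_iff (zz (i + n)) (zz (j + n))
    refine h0.trans ?_
    by_cases h3 : Tab.rho b' i = c' j
    · have e : (Tab.rho b' i == c' j) = true := beq_iff_eq.2 h3
      rw [e] at h2
      exact ⟨fun _ => h3, fun _ => beq_iff_eq.1 h2⟩
    · have e : (Tab.rho b' i == c' j) = false := by simpa using h3
      rw [e] at h2
      have h5 : ¬ Tab.rho (bf b) (i + n) = D.nm (j + n) := by
        intro h6
        rw [beq_iff_eq.2 h6] at h2
        exact absurd h2 (by decide)
      exact ⟨fun h => absurd h h5, fun h => absurd h h3⟩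

/-- (T2) there is a saddle on both sides of the same cylinder, or the diagram is the cyclic one -/
theorem self_or_cyc (D : DG b S l) : (∃ i, S i i) ∨ ∃ n, Rot n b S bCyc cCyc := by
  have h := D.pAll
  unfold Tab.pAll at h
  rw [Bool.and_eq_true, Bool.or_eq_true, ex5_iff, ex5_iff] at h
  rcases h.1 with ⟨i, hi⟩ | ⟨n, hn⟩
  · left
    refine ⟨i, (D.S_iff i i).2 ?_⟩
    simpa using hi
  · exact Or.inr ⟨n, D.of_rt hn⟩

/-- (T3) horizontal simple cylinders -/
theorem simple (D : DG b S l) {i j : ZMod 5} (hi : b i = i) (hj : b j + 1 = j) (hS : S i j) :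
    (i = j + 2 ∧ ((∃ n, Rot n b S bD cD) ∨ (∃ n, Rot n b S bH1 cH1) ∨ (∃ n, Rot n b S bH2 cH2) ∨
      ∃ n, Rot n b S bH3 cH3)) ∨
    ((i = j + 1 ∨ i = j + 3) ∧ ((∃ s, S s s ∧ b s = s + 2) ∨ (∃ n, Rot n b S bQ1 cQ1) ∨
      (∃ n, Rot n b S bQ2 cQ2) ∨ (∃ n, Rot n b S bQ3 cQ3) ∨ ∃ n, Rot n b S bQ4 cQ4)) := by
  have h := D.pAll
  unfold Tab.pAll at h
  rw [Bool.and_eq_true, all5_iff] at h
  have h1 := h.2 i
  have e1 : (bf b i == i) = true := by
    have : bf b i = i := hi
    simpa using this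
  rw [e1, Bool.not_true, Bool.false_or, all5_iff] at h1
  have h2 := h1 j
  have e2 : (bf b j + 1 == j) = true := by
    have : bf b j + 1 = j := hj
    simpa using this
  have e3 : (Tab.rho (bf b) i == D.nm j) = true := by
    have := (D.S_iff i j).1 hS
    simpa using this
  rw [e2, e3, Bool.and_self, Bool.not_true, Bool.false_or, Bool.or_eq_true] at h2
  rcases h2 with h2 | h2
  · left
    rw [Bool.and_eq_true, Bool.or_eq_true, Bool.or_eq_true, Bool.or_eq_true, ex5_iff, ex5_iff,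
      ex5_iff, ex5_iff] at h2
    refine ⟨beqF h2.1, ?_⟩
    rcases h2.2 with ⟨n, h⟩ | ⟨n, h⟩ | ⟨n, h⟩ | ⟨n, h⟩
    · exact Or.inl ⟨n, D.of_rt h⟩
    · exact Or.inr (Or.inl ⟨n, D.of_rt h⟩)
    · exact Or.inr (Or.inr (Or.inl ⟨n, D.of_rt h⟩))
    · exact Or.inr (Or.inr (Or.inr ⟨n, D.of_rt h⟩))
  · right
    rw [Bool.and_eq_true, Bool.or_eq_true, Bool.or_eq_true, Bool.or_eq_true, Bool.or_eq_true,
      Bool.or_eq_true, ex5_iff, ex5_iff, ex5_iff, ex5_iff, ex5_iff] at h2
    refine ⟨?_, ?_⟩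
    · rcases h2.1 with h | h
      · exact Or.inl (beqF h)
      · exact Or.inr (beqF h)
    rcases h2.2 with ⟨s, h⟩ | ⟨n, h⟩ | ⟨n, h⟩ | ⟨n, h⟩ | ⟨n, h⟩
    · rw [Bool.and_eq_true] at h
      exact Or.inl ⟨s, (D.S_iff s s).2 (beqF h.1), beqF h.2⟩
    · exact Or.inr (Or.inl ⟨n, D.of_rt h⟩)
    · exact Or.inr (Or.inr (Or.inl ⟨n, D.of_rt h⟩))
    · exact Or.inr (Or.inr (Or.inr (Or.inl ⟨n, D.of_rt h⟩)))
    · exact Or.inr (Or.inr (Or.inr (Or.inr ⟨n, D.of_rt h⟩)))

/-- the length relations of a rotated diagram -/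
theorem sum_rot (D : DG b S l) {n : ZMod 5} {b' c' : Fin 5 → Fin 5} (h : Rot n b S b' c')
    (i j : Fin 5) (hij : Tab.rho b' i = c' j) :
    ∑ k : Fin 5, (if Tab.rho b' k = c' j then l (zz k + n) else 0) =
      ∑ k : Fin 5, (if Tab.rho b' i = c' k then l (zz k + n) else 0) := by
  classical
  have h1 := D.sum ((h.2 i j).2 hij)
  rw [Finset.sum_filter, Finset.sum_filter] at h1
  have e1 := Equiv.sum_comp (Equiv.addRight n) (fun k => if S k (zz j + n) then l k else 0)
  have e2 := Equiv.sum_comp (Equiv.addRight n) (fun k => if S (zz i + n) k then l k else 0)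
  rw [← e1, ← e2] at h1
  have g1 : ∀ k : Fin 5, (S (zz k + n) (zz j + n)) = (Tab.rho b' k = c' j) :=
    fun k => propext (h.2 k j)
  have g2 : ∀ k : Fin 5, (S (zz i + n) (zz k + n)) = (Tab.rho b' i = c' k) :=
    fun k => propext (h.2 i k)
  have g3 : ∑ k : Fin 5, (if S (zz k + n) (zz j + n) then l (zz k + n) else 0) =
      ∑ k : Fin 5, (if S (zz i + n) (zz k + n) then l (zz k + n) else 0) := h1
  simp only [g1, g2] at g3
  exact g3

end DG

end Pool.Agent.H4G.Six
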