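import Pool.Agent.H4G.Six.Ex.Table2

/-!
# The diagrams of the table, explicitly (helper98)

For every diagram: the values of `b`, the tops of the cylinders, the length relations. Names:
`dst` (the E6 state with `u` horizontal), `cyc` (cyclic), `h1`, `h2`, `h3` (hyperelliptic with a
horizontal simple cylinder), `q1` ... `q4` (nested towers; `-1` exchanges `q1`, `q3` and `q2`, `q4`,
the mirror exchanges `q1`, `q4` and `q2`, `q3`).
-/

set_option autoImplicit false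

namespace Pool.Agent.H4G.Six

open Finset
open Tab

variable {b : Equiv.Perm (ZMod 5)} {S : ZMod 5 → ZMod 5 → Prop} {l : ZMod 5 → ℕ}

theorem zz0 (n : ZMod 5) : zz 0 + n = n := zero_add n
theorem zz1 (n : ZMod 5) : zz 1 + n = n + 1 := add_comm _ _
theorem zz2 (n : ZMod 5) : zz 2 + n = n + 2 := add_comm _ _
theorem zz3 (n : ZMod 5) : zz 3 + n = n + 3 := add_comm _ _
theorem zz4 (n : ZMod 5) : zz 4 + n = n + 4 := add_comm _ _

/-- `k` as an element of `ZMod 5`, added on the right -/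
def pl (n : ZMod 5) (k : Fin 5) : ZMod 5 := match k with
  | 0 => n
  | 1 => n + 1
  | 2 => n + 2
  | 3 => n + 3
  | 4 => n + 4

theorem zz_pl (n : ZMod 5) (k : Fin 5) : zz k + n = pl n k := by
  fin_cases k
  · exact zz0 n
  · exact zz1 n
  · exact zz2 n
  · exact zz3 n
  · exact zz4 n

theorem toN (b : Equiv.Perm (ZMod 5)) {n : ZMod 5} {i k : Fin 5} (h : b (zz i + n) = zz k + n) :
    b (pl n i) = pl n k := by rw [← zz_pl, ← zz_pl]; exact h

theorem toS (S : ZMod 5 → ZMod 5 → Prop) {n : ZMod 5} {i k : Fin 5}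
    (h : S (zz i + n) (zz k + n)) : S (pl n i) (pl n k) := by rw [← zz_pl, ← zz_pl]; exact h

theorem Rot.dst (D : DG b S l) {n : ZMod 5} (h : Rot n b S bD cD) :
    b n = n ∧
    b (n + 1) = n + 4 ∧
    b (n + 2) = n + 3 ∧
    b (n + 3) = n + 2 ∧
    b (n + 4) = n + 1 ∧
    S n (n + 3) ∧
    S (n + 1) n ∧
    S (n + 1) (n + 1) ∧
    S (n + 2) (n + 2) ∧
    S (n + 2) (n + 4) ∧
    l n = l (n + 3) ∧
    l (n + 1) + l (n + 4) = l n + l (n + 1) ∧
    l (n + 2) + l (n + 3) = l (n + 2) + l (n + 4) := by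
  refine ⟨toN b (i := 0) (k := 0) (h.1 0),
    toN b (i := 1) (k := 4) (h.1 1),
    toN b (i := 2) (k := 3) (h.1 2),
    toN b (i := 3) (k := 2) (h.1 3),
    toN b (i := 4) (k := 1) (h.1 4),
    toS S ((h.2 0 3).2 (by decide)),
    toS S ((h.2 1 0).2 (by decide)),
    toS S ((h.2 1 1).2 (by decide)),
    toS S ((h.2 2 2).2 (by decide)),
    toS S ((h.2 2 4).2 (by decide)),
    ?_,
    ?_,
    ?_⟩
  · have g := D.sum_rot h 0 3 (by decide)
    rw [Fin.sum_univ_five, Fin.sum_univ_five] at g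
    simp only [if_pos (show Tab.rho bD 0 = cD 3 by decide),
      if_neg (show ¬ Tab.rho bD 1 = cD 3 by decide),
      if_neg (show ¬ Tab.rho bD 2 = cD 3 by decide),
      if_neg (show ¬ Tab.rho bD 3 = cD 3 by decide),
      if_neg (show ¬ Tab.rho bD 4 = cD 3 by decide),
      if_neg (show ¬ Tab.rho bD 0 = cD 0 by decide),
      if_neg (show ¬ Tab.rho bD 0 = cD 1 by decide),
      if_neg (show ¬ Tab.rho bD 0 = cD 2 by decide),
      if_neg (show ¬ Tab.rho bD 0 = cD 4 by decide), zz0, zz1, zz2, zz3, zz4] at g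
    omega
  · have g := D.sum_rot h 1 0 (by decide)
    rw [Fin.sum_univ_five, Fin.sum_univ_five] at g
    simp only [if_neg (show ¬ Tab.rho bD 0 = cD 0 by decide),
      if_pos (show Tab.rho bD 1 = cD 0 by decide),
      if_neg (show ¬ Tab.rho bD 2 = cD 0 by decide),
      if_neg (show ¬ Tab.rho bD 3 = cD 0 by decide),
      if_pos (show Tab.rho bD 4 = cD 0 by decide),
      if_pos (show Tab.rho bD 1 = cD 1 by decide),
      if_neg (show ¬ Tab.rho bD 1 = cD 2 by decide),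
      if_neg (show ¬ Tab.rho bD 1 = cD 3 by decide),
      if_neg (show ¬ Tab.rho bD 1 = cD 4 by decide), zz0, zz1, zz2, zz3, zz4] at g
    omega
  · have g := D.sum_rot h 2 2 (by decide)
    rw [Fin.sum_univ_five, Fin.sum_univ_five] at g
    simp only [if_neg (show ¬ Tab.rho bD 0 = cD 2 by decide),
      if_neg (show ¬ Tab.rho bD 1 = cD 2 by decide),
      if_pos (show Tab.rho bD 2 = cD 2 by decide),
      if_pos (show Tab.rho bD 3 = cD 2 by decide),
      if_neg (show ¬ Tab.rho bD 4 = cD 2 by decide),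
      if_neg (show ¬ Tab.rho bD 2 = cD 0 by decide),
      if_neg (show ¬ Tab.rho bD 2 = cD 1 by decide),
      if_neg (show ¬ Tab.rho bD 2 = cD 3 by decide),
      if_pos (show Tab.rho bD 2 = cD 4 by decide), zz0, zz1, zz2, zz3, zz4] at g
    omega

theorem Rot.cyc (D : DG b S l) {n : ZMod 5} (h : Rot n b S bCyc cCyc) :
    b n = n ∧
    b (n + 1) = n + 4 ∧
    b (n + 2) = n + 3 ∧
    b (n + 3) = n + 2 ∧
    b (n + 4) = n + 1 ∧
    S n (n + 2) ∧
    S n (n + 4) ∧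
    S (n + 1) (n + 3) ∧
    S (n + 2) n ∧
    S (n + 2) (n + 1) ∧
    l n = l (n + 2) + l (n + 4) ∧
    l (n + 1) + l (n + 4) = l (n + 3) ∧
    l (n + 2) + l (n + 3) = l n + l (n + 1) := by
  refine ⟨toN b (i := 0) (k := 0) (h.1 0),
    toN b (i := 1) (k := 4) (h.1 1),
    toN b (i := 2) (k := 3) (h.1 2),
    toN b (i := 3) (k := 2) (h.1 3),
    toN b (i := 4) (k := 1) (h.1 4),
    toS S ((h.2 0 2).2 (by decide)),
    toS S ((h.2 0 4).2 (by decide)),
    toS S ((h.2 1 3).2 (by decide)),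
    toS S ((h.2 2 0).2 (by decide)),
    toS S ((h.2 2 1).2 (by decide)),
    ?_,
    ?_,
    ?_⟩
  · have g := D.sum_rot h 0 2 (by decide)
    rw [Fin.sum_univ_five, Fin.sum_univ_five] at g
    simp only [if_pos (show Tab.rho bCyc 0 = cCyc 2 by decide),
      if_neg (show ¬ Tab.rho bCyc 1 = cCyc 2 by decide),
      if_neg (show ¬ Tab.rho bCyc 2 = cCyc 2 by decide),
      if_neg (show ¬ Tab.rho bCyc 3 = cCyc 2 by decide),
      if_neg (show ¬ Tab.rho bCyc 4 = cCyc 2 by decide),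
      if_neg (show ¬ Tab.rho bCyc 0 = cCyc 0 by decide),
      if_neg (show ¬ Tab.rho bCyc 0 = cCyc 1 by decide),
      if_neg (show ¬ Tab.rho bCyc 0 = cCyc 3 by decide),
      if_pos (show Tab.rho bCyc 0 = cCyc 4 by decide), zz0, zz1, zz2, zz3, zz4] at g
    omega
  · have g := D.sum_rot h 1 3 (by decide)
    rw [Fin.sum_univ_five, Fin.sum_univ_five] at g
    simp only [if_neg (show ¬ Tab.rho bCyc 0 = cCyc 3 by decide),
      if_pos (show Tab.rho bCyc 1 = cCyc 3 by decide),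
      if_neg (show ¬ Tab.rho bCyc 2 = cCyc 3 by decide),
      if_neg (show ¬ Tab.rho bCyc 3 = cCyc 3 by decide),
      if_pos (show Tab.rho bCyc 4 = cCyc 3 by decide),
      if_neg (show ¬ Tab.rho bCyc 1 = cCyc 0 by decide),
      if_neg (show ¬ Tab.rho bCyc 1 = cCyc 1 by decide),
      if_neg (show ¬ Tab.rho bCyc 1 = cCyc 2 by decide),
      if_neg (show ¬ Tab.rho bCyc 1 = cCyc 4 by decide), zz0, zz1, zz2, zz3, zz4] at g
    omega
  · have g := D.sum_rot h 2 0 (by decide)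
    rw [Fin.sum_univ_five, Fin.sum_univ_five] at g
    simp only [if_neg (show ¬ Tab.rho bCyc 0 = cCyc 0 by decide),
      if_neg (show ¬ Tab.rho bCyc 1 = cCyc 0 by decide),
      if_pos (show Tab.rho bCyc 2 = cCyc 0 by decide),
      if_pos (show Tab.rho bCyc 3 = cCyc 0 by decide),
      if_neg (show ¬ Tab.rho bCyc 4 = cCyc 0 by decide),
      if_pos (show Tab.rho bCyc 2 = cCyc 1 by decide),
      if_neg (show ¬ Tab.rho bCyc 2 = cCyc 2 by decide),
      if_neg (show ¬ Tab.rho bCyc 2 = cCyc 3 by decide),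
      if_neg (show ¬ Tab.rho bCyc 2 = cCyc 4 by decide), zz0, zz1, zz2, zz3, zz4] at g
    omega

theorem Rot.h1 (D : DG b S l) {n : ZMod 5} (h : Rot n b S bH1 cH1) :
    b n = n ∧
    b (n + 1) = n + 3 ∧
    b (n + 2) = n + 4 ∧
    b (n + 3) = n + 2 ∧
    b (n + 4) = n + 1 ∧
    S n (n + 3) ∧
    S (n + 1) n ∧
    S (n + 1) (n + 1) ∧
    S (n + 1) (n + 4) ∧
    S (n + 1) (n + 2) ∧
    l n = l (n + 3) ∧
    l (n + 1) + l (n + 2) + l (n + 3) + l (n + 4) = l n + l (n + 1) + l (n + 2) + l (n + 4) := by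
  refine ⟨toN b (i := 0) (k := 0) (h.1 0),
    toN b (i := 1) (k := 3) (h.1 1),
    toN b (i := 2) (k := 4) (h.1 2),
    toN b (i := 3) (k := 2) (h.1 3),
    toN b (i := 4) (k := 1) (h.1 4),
    toS S ((h.2 0 3).2 (by decide)),
    toS S ((h.2 1 0).2 (by decide)),
    toS S ((h.2 1 1).2 (by decide)),
    toS S ((h.2 1 4).2 (by decide)),
    toS S ((h.2 1 2).2 (by decide)),
    ?_,
    ?_⟩
  · have g := D.sum_rot h 0 3 (by decide)
    rw [Fin.sum_univ_five, Fin.sum_univ_five] at g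
    simp only [if_pos (show Tab.rho bH1 0 = cH1 3 by decide),
      if_neg (show ¬ Tab.rho bH1 1 = cH1 3 by decide),
      if_neg (show ¬ Tab.rho bH1 2 = cH1 3 by decide),
      if_neg (show ¬ Tab.rho bH1 3 = cH1 3 by decide),
      if_neg (show ¬ Tab.rho bH1 4 = cH1 3 by decide),
      if_neg (show ¬ Tab.rho bH1 0 = cH1 0 by decide),
      if_neg (show ¬ Tab.rho bH1 0 = cH1 1 by decide),
      if_neg (show ¬ Tab.rho bH1 0 = cH1 2 by decide),
      if_neg (show ¬ Tab.rho bH1 0 = cH1 4 by decide), zz0, zz1, zz2, zz3, zz4] at g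
    omega
  · have g := D.sum_rot h 1 0 (by decide)
    rw [Fin.sum_univ_five, Fin.sum_univ_five] at g
    simp only [if_neg (show ¬ Tab.rho bH1 0 = cH1 0 by decide),
      if_pos (show Tab.rho bH1 1 = cH1 0 by decide),
      if_pos (show Tab.rho bH1 2 = cH1 0 by decide),
      if_pos (show Tab.rho bH1 3 = cH1 0 by decide),
      if_pos (show Tab.rho bH1 4 = cH1 0 by decide),
      if_pos (show Tab.rho bH1 1 = cH1 1 by decide),
      if_pos (show Tab.rho bH1 1 = cH1 2 by decide),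
      if_neg (show ¬ Tab.rho bH1 1 = cH1 3 by decide),
      if_pos (show Tab.rho bH1 1 = cH1 4 by decide), zz0, zz1, zz2, zz3, zz4] at g
    omega

theorem Rot.h2 (D : DG b S l) {n : ZMod 5} (h : Rot n b S bH2 cH2) :
    b n = n ∧
    b (n + 1) = n + 1 ∧
    b (n + 2) = n + 4 ∧
    b (n + 3) = n + 2 ∧
    b (n + 4) = n + 3 ∧
    S n (n + 3) ∧
    S (n + 1) (n + 4) ∧
    S (n + 2) n ∧
    S (n + 2) (n + 1) ∧
    S (n + 2) (n + 2) ∧
    l n = l (n + 3) ∧
    l (n + 1) = l (n + 4) ∧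
    l (n + 2) + l (n + 3) + l (n + 4) = l n + l (n + 1) + l (n + 2) := by
  refine ⟨toN b (i := 0) (k := 0) (h.1 0),
    toN b (i := 1) (k := 1) (h.1 1),
    toN b (i := 2) (k := 4) (h.1 2),
    toN b (i := 3) (k := 2) (h.1 3),
    toN b (i := 4) (k := 3) (h.1 4),
    toS S ((h.2 0 3).2 (by decide)),
    toS S ((h.2 1 4).2 (by decide)),
    toS S ((h.2 2 0).2 (by decide)),
    toS S ((h.2 2 1).2 (by decide)),
    toS S ((h.2 2 2).2 (by decide)),
    ?_,
    ?_,
    ?_⟩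
  · have g := D.sum_rot h 0 3 (by decide)
    rw [Fin.sum_univ_five, Fin.sum_univ_five] at g
    simp only [if_pos (show Tab.rho bH2 0 = cH2 3 by decide),
      if_neg (show ¬ Tab.rho bH2 1 = cH2 3 by decide),
      if_neg (show ¬ Tab.rho bH2 2 = cH2 3 by decide),
      if_neg (show ¬ Tab.rho bH2 3 = cH2 3 by decide),
      if_neg (show ¬ Tab.rho bH2 4 = cH2 3 by decide),
      if_neg (show ¬ Tab.rho bH2 0 = cH2 0 by decide),
      if_neg (show ¬ Tab.rho bH2 0 = cH2 1 by decide),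
      if_neg (show ¬ Tab.rho bH2 0 = cH2 2 by decide),
      if_neg (show ¬ Tab.rho bH2 0 = cH2 4 by decide), zz0, zz1, zz2, zz3, zz4] at g
    omega
  · have g := D.sum_rot h 1 4 (by decide)
    rw [Fin.sum_univ_five, Fin.sum_univ_five] at g
    simp only [if_neg (show ¬ Tab.rho bH2 0 = cH2 4 by decide),
      if_pos (show Tab.rho bH2 1 = cH2 4 by decide),
      if_neg (show ¬ Tab.rho bH2 2 = cH2 4 by decide),
      if_neg (show ¬ Tab.rho bH2 3 = cH2 4 by decide),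
      if_neg (show ¬ Tab.rho bH2 4 = cH2 4 by decide),
      if_neg (show ¬ Tab.rho bH2 1 = cH2 0 by decide),
      if_neg (show ¬ Tab.rho bH2 1 = cH2 1 by decide),
      if_neg (show ¬ Tab.rho bH2 1 = cH2 2 by decide),
      if_neg (show ¬ Tab.rho bH2 1 = cH2 3 by decide), zz0, zz1, zz2, zz3, zz4] at g
    omega
  · have g := D.sum_rot h 2 0 (by decide)
    rw [Fin.sum_univ_five, Fin.sum_univ_five] at g
    simp only [if_neg (show ¬ Tab.rho bH2 0 = cH2 0 by decide),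
      if_neg (show ¬ Tab.rho bH2 1 = cH2 0 by decide),
      if_pos (show Tab.rho bH2 2 = cH2 0 by decide),
      if_pos (show Tab.rho bH2 3 = cH2 0 by decide),
      if_pos (show Tab.rho bH2 4 = cH2 0 by decide),
      if_pos (show Tab.rho bH2 2 = cH2 1 by decide),
      if_pos (show Tab.rho bH2 2 = cH2 2 by decide),
      if_neg (show ¬ Tab.rho bH2 2 = cH2 3 by decide),
      if_neg (show ¬ Tab.rho bH2 2 = cH2 4 by decide), zz0, zz1, zz2, zz3, zz4] at g
    omega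

theorem Rot.h3 (D : DG b S l) {n : ZMod 5} (h : Rot n b S bH3 cH3) :
    b n = n ∧
    b (n + 1) = n + 4 ∧
    b (n + 2) = n + 3 ∧
    b (n + 3) = n + 2 ∧
    b (n + 4) = n + 1 ∧
    S n (n + 3) ∧
    S (n + 1) (n + 2) ∧
    S (n + 1) (n + 4) ∧
    S (n + 2) n ∧
    S (n + 2) (n + 1) ∧
    l n = l (n + 3) ∧
    l (n + 1) + l (n + 4) = l (n + 2) + l (n + 4) ∧
    l (n + 2) + l (n + 3) = l n + l (n + 1) := by
  refine ⟨toN b (i := 0) (k := 0) (h.1 0),
    toN b (i := 1) (k := 4) (h.1 1),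
    toN b (i := 2) (k := 3) (h.1 2),
    toN b (i := 3) (k := 2) (h.1 3),
    toN b (i := 4) (k := 1) (h.1 4),
    toS S ((h.2 0 3).2 (by decide)),
    toS S ((h.2 1 2).2 (by decide)),
    toS S ((h.2 1 4).2 (by decide)),
    toS S ((h.2 2 0).2 (by decide)),
    toS S ((h.2 2 1).2 (by decide)),
    ?_,
    ?_,
    ?_⟩
  · have g := D.sum_rot h 0 3 (by decide)
    rw [Fin.sum_univ_five, Fin.sum_univ_five] at g
    simp only [if_pos (show Tab.rho bH3 0 = cH3 3 by decide),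
      if_neg (show ¬ Tab.rho bH3 1 = cH3 3 by decide),
      if_neg (show ¬ Tab.rho bH3 2 = cH3 3 by decide),
      if_neg (show ¬ Tab.rho bH3 3 = cH3 3 by decide),
      if_neg (show ¬ Tab.rho bH3 4 = cH3 3 by decide),
      if_neg (show ¬ Tab.rho bH3 0 = cH3 0 by decide),
      if_neg (show ¬ Tab.rho bH3 0 = cH3 1 by decide),
      if_neg (show ¬ Tab.rho bH3 0 = cH3 2 by decide),
      if_neg (show ¬ Tab.rho bH3 0 = cH3 4 by decide), zz0, zz1, zz2, zz3, zz4] at g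
    omega
  · have g := D.sum_rot h 1 2 (by decide)
    rw [Fin.sum_univ_five, Fin.sum_univ_five] at g
    simp only [if_neg (show ¬ Tab.rho bH3 0 = cH3 2 by decide),
      if_pos (show Tab.rho bH3 1 = cH3 2 by decide),
      if_neg (show ¬ Tab.rho bH3 2 = cH3 2 by decide),
      if_neg (show ¬ Tab.rho bH3 3 = cH3 2 by decide),
      if_pos (show Tab.rho bH3 4 = cH3 2 by decide),
      if_neg (show ¬ Tab.rho bH3 1 = cH3 0 by decide),
      if_neg (show ¬ Tab.rho bH3 1 = cH3 1 by decide),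
      if_neg (show ¬ Tab.rho bH3 1 = cH3 3 by decide),
      if_pos (show Tab.rho bH3 1 = cH3 4 by decide), zz0, zz1, zz2, zz3, zz4] at g
    omega
  · have g := D.sum_rot h 2 0 (by decide)
    rw [Fin.sum_univ_five, Fin.sum_univ_five] at g
    simp only [if_neg (show ¬ Tab.rho bH3 0 = cH3 0 by decide),
      if_neg (show ¬ Tab.rho bH3 1 = cH3 0 by decide),
      if_pos (show Tab.rho bH3 2 = cH3 0 by decide),
      if_pos (show Tab.rho bH3 3 = cH3 0 by decide),
      if_neg (show ¬ Tab.rho bH3 4 = cH3 0 by decide),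
      if_pos (show Tab.rho bH3 2 = cH3 1 by decide),
      if_neg (show ¬ Tab.rho bH3 2 = cH3 2 by decide),
      if_neg (show ¬ Tab.rho bH3 2 = cH3 3 by decide),
      if_neg (show ¬ Tab.rho bH3 2 = cH3 4 by decide), zz0, zz1, zz2, zz3, zz4] at g
    omega

theorem Rot.q1 (D : DG b S l) {n : ZMod 5} (h : Rot n b S bQ1 cQ1) :
    b n = n ∧
    b (n + 1) = n + 2 ∧
    b (n + 2) = n + 1 ∧
    b (n + 3) = n + 4 ∧
    b (n + 4) = n + 3 ∧
    S n (n + 2) ∧
    S (n + 1) (n + 4) ∧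
    S (n + 3) n ∧
    S (n + 3) (n + 1) ∧
    S (n + 3) (n + 3) ∧
    l n = l (n + 2) ∧
    l (n + 1) + l (n + 2) = l (n + 4) ∧
    l (n + 3) + l (n + 4) = l n + l (n + 1) + l (n + 3) := by
  refine ⟨toN b (i := 0) (k := 0) (h.1 0),
    toN b (i := 1) (k := 2) (h.1 1),
    toN b (i := 2) (k := 1) (h.1 2),
    toN b (i := 3) (k := 4) (h.1 3),
    toN b (i := 4) (k := 3) (h.1 4),
    toS S ((h.2 0 2).2 (by decide)),
    toS S ((h.2 1 4).2 (by decide)),
    toS S ((h.2 3 0).2 (by decide)),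
    toS S ((h.2 3 1).2 (by decide)),
    toS S ((h.2 3 3).2 (by decide)),
    ?_,
    ?_,
    ?_⟩
  · have g := D.sum_rot h 0 2 (by decide)
    rw [Fin.sum_univ_five, Fin.sum_univ_five] at g
    simp only [if_pos (show Tab.rho bQ1 0 = cQ1 2 by decide),
      if_neg (show ¬ Tab.rho bQ1 1 = cQ1 2 by decide),
      if_neg (show ¬ Tab.rho bQ1 2 = cQ1 2 by decide),
      if_neg (show ¬ Tab.rho bQ1 3 = cQ1 2 by decide),
      if_neg (show ¬ Tab.rho bQ1 4 = cQ1 2 by decide),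
      if_neg (show ¬ Tab.rho bQ1 0 = cQ1 0 by decide),
      if_neg (show ¬ Tab.rho bQ1 0 = cQ1 1 by decide),
      if_neg (show ¬ Tab.rho bQ1 0 = cQ1 3 by decide),
      if_neg (show ¬ Tab.rho bQ1 0 = cQ1 4 by decide), zz0, zz1, zz2, zz3, zz4] at g
    omega
  · have g := D.sum_rot h 1 4 (by decide)
    rw [Fin.sum_univ_five, Fin.sum_univ_five] at g
    simp only [if_neg (show ¬ Tab.rho bQ1 0 = cQ1 4 by decide),
      if_pos (show Tab.rho bQ1 1 = cQ1 4 by decide),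
      if_pos (show Tab.rho bQ1 2 = cQ1 4 by decide),
      if_neg (show ¬ Tab.rho bQ1 3 = cQ1 4 by decide),
      if_neg (show ¬ Tab.rho bQ1 4 = cQ1 4 by decide),
      if_neg (show ¬ Tab.rho bQ1 1 = cQ1 0 by decide),
      if_neg (show ¬ Tab.rho bQ1 1 = cQ1 1 by decide),
      if_neg (show ¬ Tab.rho bQ1 1 = cQ1 2 by decide),
      if_neg (show ¬ Tab.rho bQ1 1 = cQ1 3 by decide), zz0, zz1, zz2, zz3, zz4] at g
    omega
  · have g := D.sum_rot h 3 0 (by decide)
    rw [Fin.sum_univ_five, Fin.sum_univ_five] at g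
    simp only [if_neg (show ¬ Tab.rho bQ1 0 = cQ1 0 by decide),
      if_neg (show ¬ Tab.rho bQ1 1 = cQ1 0 by decide),
      if_neg (show ¬ Tab.rho bQ1 2 = cQ1 0 by decide),
      if_pos (show Tab.rho bQ1 3 = cQ1 0 by decide),
      if_pos (show Tab.rho bQ1 4 = cQ1 0 by decide),
      if_pos (show Tab.rho bQ1 3 = cQ1 1 by decide),
      if_neg (show ¬ Tab.rho bQ1 3 = cQ1 2 by decide),
      if_pos (show Tab.rho bQ1 3 = cQ1 3 by decide),
      if_neg (show ¬ Tab.rho bQ1 3 = cQ1 4 by decide), zz0, zz1, zz2, zz3, zz4] at g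
    omega

theorem Rot.q2 (D : DG b S l) {n : ZMod 5} (h : Rot n b S bQ2 cQ2) :
    b n = n ∧
    b (n + 1) = n + 4 ∧
    b (n + 2) = n + 1 ∧
    b (n + 3) = n + 3 ∧
    b (n + 4) = n + 2 ∧
    S n (n + 2) ∧
    S (n + 3) n ∧
    S (n + 3) (n + 1) ∧
    S (n + 1) (n + 3) ∧
    S (n + 1) (n + 4) ∧
    l n = l (n + 2) ∧
    l (n + 3) = l n + l (n + 1) ∧
    l (n + 1) + l (n + 2) + l (n + 4) = l (n + 3) + l (n + 4) := by
  refine ⟨toN b (i := 0) (k := 0) (h.1 0),
    toN b (i := 1) (k := 4) (h.1 1),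
    toN b (i := 2) (k := 1) (h.1 2),
    toN b (i := 3) (k := 3) (h.1 3),
    toN b (i := 4) (k := 2) (h.1 4),
    toS S ((h.2 0 2).2 (by decide)),
    toS S ((h.2 3 0).2 (by decide)),
    toS S ((h.2 3 1).2 (by decide)),
    toS S ((h.2 1 3).2 (by decide)),
    toS S ((h.2 1 4).2 (by decide)),
    ?_,
    ?_,
    ?_⟩
  · have g := D.sum_rot h 0 2 (by decide)
    rw [Fin.sum_univ_five, Fin.sum_univ_five] at g
    simp only [if_pos (show Tab.rho bQ2 0 = cQ2 2 by decide),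
      if_neg (show ¬ Tab.rho bQ2 1 = cQ2 2 by decide),
      if_neg (show ¬ Tab.rho bQ2 2 = cQ2 2 by decide),
      if_neg (show ¬ Tab.rho bQ2 3 = cQ2 2 by decide),
      if_neg (show ¬ Tab.rho bQ2 4 = cQ2 2 by decide),
      if_neg (show ¬ Tab.rho bQ2 0 = cQ2 0 by decide),
      if_neg (show ¬ Tab.rho bQ2 0 = cQ2 1 by decide),
      if_neg (show ¬ Tab.rho bQ2 0 = cQ2 3 by decide),
      if_neg (show ¬ Tab.rho bQ2 0 = cQ2 4 by decide), zz0, zz1, zz2, zz3, zz4] at g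
    omega
  · have g := D.sum_rot h 3 0 (by decide)
    rw [Fin.sum_univ_five, Fin.sum_univ_five] at g
    simp only [if_neg (show ¬ Tab.rho bQ2 0 = cQ2 0 by decide),
      if_neg (show ¬ Tab.rho bQ2 1 = cQ2 0 by decide),
      if_neg (show ¬ Tab.rho bQ2 2 = cQ2 0 by decide),
      if_pos (show Tab.rho bQ2 3 = cQ2 0 by decide),
      if_neg (show ¬ Tab.rho bQ2 4 = cQ2 0 by decide),
      if_pos (show Tab.rho bQ2 3 = cQ2 1 by decide),
      if_neg (show ¬ Tab.rho bQ2 3 = cQ2 2 by decide),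
      if_neg (show ¬ Tab.rho bQ2 3 = cQ2 3 by decide),
      if_neg (show ¬ Tab.rho bQ2 3 = cQ2 4 by decide), zz0, zz1, zz2, zz3, zz4] at g
    omega
  · have g := D.sum_rot h 1 3 (by decide)
    rw [Fin.sum_univ_five, Fin.sum_univ_five] at g
    simp only [if_neg (show ¬ Tab.rho bQ2 0 = cQ2 3 by decide),
      if_pos (show Tab.rho bQ2 1 = cQ2 3 by decide),
      if_pos (show Tab.rho bQ2 2 = cQ2 3 by decide),
      if_neg (show ¬ Tab.rho bQ2 3 = cQ2 3 by decide),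
      if_pos (show Tab.rho bQ2 4 = cQ2 3 by decide),
      if_neg (show ¬ Tab.rho bQ2 1 = cQ2 0 by decide),
      if_neg (show ¬ Tab.rho bQ2 1 = cQ2 1 by decide),
      if_neg (show ¬ Tab.rho bQ2 1 = cQ2 2 by decide),
      if_pos (show Tab.rho bQ2 1 = cQ2 4 by decide), zz0, zz1, zz2, zz3, zz4] at g
    omega

theorem Rot.q3 (D : DG b S l) {n : ZMod 5} (h : Rot n b S bQ3 cQ3) :
    b n = n ∧
    b (n + 1) = n + 4 ∧
    b (n + 2) = n + 1 ∧
    b (n + 3) = n + 3 ∧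
    b (n + 4) = n + 2 ∧
    S (n + 3) (n + 2) ∧
    S n (n + 3) ∧
    S n (n + 4) ∧
    S (n + 1) n ∧
    S (n + 1) (n + 1) ∧
    l (n + 3) = l (n + 2) ∧
    l n = l (n + 3) + l (n + 4) ∧
    l (n + 1) + l (n + 2) + l (n + 4) = l n + l (n + 1) := by
  refine ⟨toN b (i := 0) (k := 0) (h.1 0),
    toN b (i := 1) (k := 4) (h.1 1),
    toN b (i := 2) (k := 1) (h.1 2),
    toN b (i := 3) (k := 3) (h.1 3),
    toN b (i := 4) (k := 2) (h.1 4),
    toS S ((h.2 3 2).2 (by decide)),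
    toS S ((h.2 0 3).2 (by decide)),
    toS S ((h.2 0 4).2 (by decide)),
    toS S ((h.2 1 0).2 (by decide)),
    toS S ((h.2 1 1).2 (by decide)),
    ?_,
    ?_,
    ?_⟩
  · have g := D.sum_rot h 3 2 (by decide)
    rw [Fin.sum_univ_five, Fin.sum_univ_five] at g
    simp only [if_neg (show ¬ Tab.rho bQ3 0 = cQ3 2 by decide),
      if_neg (show ¬ Tab.rho bQ3 1 = cQ3 2 by decide),
      if_neg (show ¬ Tab.rho bQ3 2 = cQ3 2 by decide),
      if_pos (show Tab.rho bQ3 3 = cQ3 2 by decide),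
      if_neg (show ¬ Tab.rho bQ3 4 = cQ3 2 by decide),
      if_neg (show ¬ Tab.rho bQ3 3 = cQ3 0 by decide),
      if_neg (show ¬ Tab.rho bQ3 3 = cQ3 1 by decide),
      if_neg (show ¬ Tab.rho bQ3 3 = cQ3 3 by decide),
      if_neg (show ¬ Tab.rho bQ3 3 = cQ3 4 by decide), zz0, zz1, zz2, zz3, zz4] at g
    omega
  · have g := D.sum_rot h 0 3 (by decide)
    rw [Fin.sum_univ_five, Fin.sum_univ_five] at g
    simp only [if_pos (show Tab.rho bQ3 0 = cQ3 3 by decide),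
      if_neg (show ¬ Tab.rho bQ3 1 = cQ3 3 by decide),
      if_neg (show ¬ Tab.rho bQ3 2 = cQ3 3 by decide),
      if_neg (show ¬ Tab.rho bQ3 3 = cQ3 3 by decide),
      if_neg (show ¬ Tab.rho bQ3 4 = cQ3 3 by decide),
      if_neg (show ¬ Tab.rho bQ3 0 = cQ3 0 by decide),
      if_neg (show ¬ Tab.rho bQ3 0 = cQ3 1 by decide),
      if_neg (show ¬ Tab.rho bQ3 0 = cQ3 2 by decide),
      if_pos (show Tab.rho bQ3 0 = cQ3 4 by decide), zz0, zz1, zz2, zz3, zz4] at g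
    omega
  · have g := D.sum_rot h 1 0 (by decide)
    rw [Fin.sum_univ_five, Fin.sum_univ_five] at g
    simp only [if_neg (show ¬ Tab.rho bQ3 0 = cQ3 0 by decide),
      if_pos (show Tab.rho bQ3 1 = cQ3 0 by decide),
      if_pos (show Tab.rho bQ3 2 = cQ3 0 by decide),
      if_neg (show ¬ Tab.rho bQ3 3 = cQ3 0 by decide),
      if_pos (show Tab.rho bQ3 4 = cQ3 0 by decide),
      if_pos (show Tab.rho bQ3 1 = cQ3 1 by decide),
      if_neg (show ¬ Tab.rho bQ3 1 = cQ3 2 by decide),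
      if_neg (show ¬ Tab.rho bQ3 1 = cQ3 3 by decide),
      if_neg (show ¬ Tab.rho bQ3 1 = cQ3 4 by decide), zz0, zz1, zz2, zz3, zz4] at g
    omega

theorem Rot.q4 (D : DG b S l) {n : ZMod 5} (h : Rot n b S bQ4 cQ4) :
    b n = n ∧
    b (n + 1) = n + 2 ∧
    b (n + 2) = n + 1 ∧
    b (n + 3) = n + 4 ∧
    b (n + 4) = n + 3 ∧
    S n (n + 4) ∧
    S (n + 3) (n + 2) ∧
    S (n + 1) n ∧
    S (n + 1) (n + 1) ∧
    S (n + 1) (n + 3) ∧
    l n = l (n + 4) ∧
    l (n + 3) + l (n + 4) = l (n + 2) ∧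
    l (n + 1) + l (n + 2) = l n + l (n + 1) + l (n + 3) := by
  refine ⟨toN b (i := 0) (k := 0) (h.1 0),
    toN b (i := 1) (k := 2) (h.1 1),
    toN b (i := 2) (k := 1) (h.1 2),
    toN b (i := 3) (k := 4) (h.1 3),
    toN b (i := 4) (k := 3) (h.1 4),
    toS S ((h.2 0 4).2 (by decide)),
    toS S ((h.2 3 2).2 (by decide)),
    toS S ((h.2 1 0).2 (by decide)),
    toS S ((h.2 1 1).2 (by decide)),
    toS S ((h.2 1 3).2 (by decide)),
    ?_,
    ?_,
    ?_⟩
  · have g := D.sum_rot h 0 4 (by decide)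
    rw [Fin.sum_univ_five, Fin.sum_univ_five] at g
    simp only [if_pos (show Tab.rho bQ4 0 = cQ4 4 by decide),
      if_neg (show ¬ Tab.rho bQ4 1 = cQ4 4 by decide),
      if_neg (show ¬ Tab.rho bQ4 2 = cQ4 4 by decide),
      if_neg (show ¬ Tab.rho bQ4 3 = cQ4 4 by decide),
      if_neg (show ¬ Tab.rho bQ4 4 = cQ4 4 by decide),
      if_neg (show ¬ Tab.rho bQ4 0 = cQ4 0 by decide),
      if_neg (show ¬ Tab.rho bQ4 0 = cQ4 1 by decide),
      if_neg (show ¬ Tab.rho bQ4 0 = cQ4 2 by decide),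
      if_neg (show ¬ Tab.rho bQ4 0 = cQ4 3 by decide), zz0, zz1, zz2, zz3, zz4] at g
    omega
  · have g := D.sum_rot h 3 2 (by decide)
    rw [Fin.sum_univ_five, Fin.sum_univ_five] at g
    simp only [if_neg (show ¬ Tab.rho bQ4 0 = cQ4 2 by decide),
      if_neg (show ¬ Tab.rho bQ4 1 = cQ4 2 by decide),
      if_neg (show ¬ Tab.rho bQ4 2 = cQ4 2 by decide),
      if_pos (show Tab.rho bQ4 3 = cQ4 2 by decide),
      if_pos (show Tab.rho bQ4 4 = cQ4 2 by decide),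
      if_neg (show ¬ Tab.rho bQ4 3 = cQ4 0 by decide),
      if_neg (show ¬ Tab.rho bQ4 3 = cQ4 1 by decide),
      if_neg (show ¬ Tab.rho bQ4 3 = cQ4 3 by decide),
      if_neg (show ¬ Tab.rho bQ4 3 = cQ4 4 by decide), zz0, zz1, zz2, zz3, zz4] at g
    omega
  · have g := D.sum_rot h 1 0 (by decide)
    rw [Fin.sum_univ_five, Fin.sum_univ_five] at g
    simp only [if_neg (show ¬ Tab.rho bQ4 0 = cQ4 0 by decide),
      if_pos (show Tab.rho bQ4 1 = cQ4 0 by decide),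
      if_pos (show Tab.rho bQ4 2 = cQ4 0 by decide),
      if_neg (show ¬ Tab.rho bQ4 3 = cQ4 0 by decide),
      if_neg (show ¬ Tab.rho bQ4 4 = cQ4 0 by decide),
      if_pos (show Tab.rho bQ4 1 = cQ4 1 by decide),
      if_neg (show ¬ Tab.rho bQ4 1 = cQ4 2 by decide),
      if_pos (show Tab.rho bQ4 1 = cQ4 3 by decide),
      if_neg (show ¬ Tab.rho bQ4 1 = cQ4 4 by decide), zz0, zz1, zz2, zz3, zz4] at g
    omega

end Pool.Agent.H4G.Six
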