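import Pool.Agent.H4G.Six.Ex.Tower
import Pool.Agent.H4G.Six.Ex.Neg
import Pool.Agent.H4G.Six.Ex.Mir
import Pool.Agent.H4G.Six.Ex.HSdg
import Pool.Agent.H4G.Six.Ex.Table4
import Pool.Agent.H4G.Six.Ex.HypAnti

/-!
# (G7) the four towers are one tower (helper98)

The tables `q1`, `q3`, `q4` become the tower `TQ` by the half turn and by the mirror.
-/

set_option autoImplicit false

namespace Pool.Agent.H4G.Six

open Pool.Agent.H4G

variable {X : Type} {O : PO X} {x : ZMod 5 → X} {b : Equiv.Perm (ZMod 5)} {l h : ZMod 5 → ℕ}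

/-- the part of the table `q4` which is used -/
structure Q4 (O : PO X) (x : ZMod 5 → X) (b : Equiv.Perm (ZMod 5)) (l h : ZMod 5 → ℕ)
    (n : ZMod 5) : Prop where
  hs : HS O x b l h
  b0 : b n = n
  b1 : b (n + 1) = n + 2
  b2 : b (n + 2) = n + 1
  b3 : b (n + 3) = n + 4
  b4 : b (n + 4) = n + 3
  s04 : ∃ t, Up O x h n (n + 4) t
  s32 : ∃ t, Up O x h (n + 3) (n + 2) t
  s10 : ∃ t, Up O x h (n + 1) n t
  k0 : l n = l (n + 4)
  k2 : l (n + 3) + l (n + 4) = l (n + 2)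

private theorem m1 : ∀ n : ZMod 5, -(n + 1) = -n + 4 := by decide
private theorem m2 : ∀ n : ZMod 5, -(n + 2) = -n + 3 := by decide
private theorem m3 : ∀ n : ZMod 5, -(n + 3) = -n + 2 := by decide
private theorem m4 : ∀ n : ZMod 5, -(n + 4) = -n + 1 := by decide

theorem bneg_of {b : Equiv.Perm (ZMod 5)} {i j k : ZMod 5} (h : b i = j) (hk : i - 1 = k) :
    bneg b j = k := by
  rw [bneg_apply, ← h, Equiv.symm_apply_apply, hk]

theorem symm_of {b : Equiv.Perm (ZMod 5)} {i j : ZMod 5} (h : b i = j) : b.symm j = i := by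
  rw [← h, Equiv.symm_apply_apply]

/-- the half turn of `q4` is the tower -/
theorem Q4.neg [Finite X] (hO : O.Trans) {n : ZMod 5} (Q : Q4 O x b l h n) :
    ∃ x' b' l' h' a, TQ O.J.J x' b' l' h' a := by
  obtain ⟨h', H', -, hu⟩ := Q.hs.neg hO
  have g : ∀ k j, (∃ t, Up O x h k j t) → ∃ t, Up O.J.J (xneg O x) h' (b j) (b k) t :=
    fun k j ⟨t, ht⟩ => ⟨_, hu k j t ht⟩
  have hl : ∀ k j, (∃ t, Up O x h k j t) → ∃ t, Up O x h (b k) j t :=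
    fun k j ⟨t, ht⟩ => ⟨_, Q.hs.upLeft ht⟩
  have e1 : ∀ n : ZMod 5, n + 1 + 1 = n + 2 := by decide
  have e2 : ∀ n : ZMod 5, n + 1 + 2 = n + 3 := by decide
  have e3 : ∀ n : ZMod 5, n + 1 + 3 = n + 4 := by decide
  have e4 : ∀ n : ZMod 5, n + 1 + 4 = n := by decide
  have f1 : ∀ n : ZMod 5, n + 2 - 1 = n + 1 := by decide
  have f2 : ∀ n : ZMod 5, n + 1 - 1 = n := by decide
  have f3 : ∀ n : ZMod 5, n + 4 - 1 = n + 3 := by decide
  have f4 : ∀ n : ZMod 5, n + 3 - 1 = n + 2 := by decide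
  have f5 : ∀ n : ZMod 5, n - 1 = n + 4 := by decide
  refine ⟨xneg O x, bneg b, fun i => l (b.symm i), h', n + 1, ⟨H', ?_, ?_, ?_, ?_, ?_, ?_, ?_, ?_,
    ?_, ?_⟩⟩
  · exact bneg_of Q.b2 (f1 n)
  · rw [e1, e4]; exact bneg_of Q.b1 (f2 n)
  · rw [e2]; exact bneg_of Q.b4 (f3 n)
  · rw [e3, e1]; exact bneg_of Q.b3 (f4 n)
  · rw [e4, e3]; exact bneg_of Q.b0 (f5 n)
  · rw [e4]
    have h1 := hl _ _ Q.s10
    rw [Q.b1] at h1
    have h2 := g _ _ h1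
    rwa [Q.b0, Q.b2] at h2
  · rw [e2]
    have h1 := hl _ _ Q.s32
    rw [Q.b3] at h1
    have h2 := g _ _ h1
    rwa [Q.b2, Q.b4] at h2
  · rw [e2, e4]
    have h2 := g _ _ Q.s04
    rwa [Q.b4, Q.b0] at h2
  · simp only [e3, e4]
    rw [symm_of Q.b2, symm_of Q.b3, symm_of Q.b0, ← Q.k2, Q.k0]
  · simp only [e2, e4]
    rw [symm_of Q.b4, symm_of Q.b0, Q.k0]

theorem mb_of {b : Equiv.Perm (ZMod 5)} {i j : ZMod 5} (h : b i = j) : mb b (-j) = -i := by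
  rw [mb_apply, neg_neg, ← h, Equiv.symm_apply_apply]

/-- the mirror image of `q1` is `q4` -/
theorem q1_M (H : HS O x b l h) {n : ZMod 5} (b0 : b n = n) (b1 : b (n + 1) = n + 2)
    (b2 : b (n + 2) = n + 1) (b3 : b (n + 3) = n + 4) (b4 : b (n + 4) = n + 3)
    (s02 : ∃ t, Up O x h n (n + 2) t) (s14 : ∃ t, Up O x h (n + 1) (n + 4) t)
    (s30 : ∃ t, Up O x h (n + 3) n t) (k0 : l n = l (n + 2))
    (k4 : l (n + 1) + l (n + 2) = l (n + 4)) :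
    Q4 O.M (mx O x) (mb b) (fun i => l (b.symm (-i))) (fun i => h (-i)) (-n) := by
  have g : ∀ i j, (∃ t, Up O x h i j t) →
      ∃ t, Up O.M (mx O x) (fun i => h (-i)) (-i) (-(b j)) t :=
    fun i j ⟨t, ht⟩ => ⟨_, Up.M H ht⟩
  have hl : ∀ k j, (∃ t, Up O x h k j t) → ∃ t, Up O x h (b k) j t :=
    fun k j ⟨t, ht⟩ => ⟨_, H.upLeft ht⟩
  refine ⟨H.M, mb_of b0, ?_, ?_, ?_, ?_, ?_, ?_, ?_, ?_, ?_⟩
  · rw [← m4, ← m3]; exact mb_of b3
  · rw [← m4, ← m3]; exact mb_of b4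
  · rw [← m1, ← m2]; exact mb_of b1
  · rw [← m1, ← m2]; exact mb_of b2
  · have h1 := g _ _ s02
    rwa [b2, m1] at h1
  · have h1 := hl _ _ s14
    rw [b1] at h1
    have h2 := g _ _ h1
    rwa [b4, m2, m3] at h2
  · have h1 := hl _ _ s30
    rw [b3] at h1
    have h2 := g _ _ h1
    rwa [b0, m4] at h2
  · simp only [← m1, neg_neg]
    rw [symm_of b0, symm_of b2, k0]
  · simp only [← m1, ← m2, ← m3, neg_neg]
    rw [symm_of b1, symm_of b2, symm_of b4, k4]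

/-- the mirror image of `q3` is the tower -/
theorem q3_M (H : HS O x b l h) {n : ZMod 5} (b0 : b n = n) (b1 : b (n + 1) = n + 4)
    (b2 : b (n + 2) = n + 1) (b3 : b (n + 3) = n + 3) (b4 : b (n + 4) = n + 2)
    (s32 : ∃ t, Up O x h (n + 3) (n + 2) t) (s03 : ∃ t, Up O x h n (n + 3) t)
    (s10 : ∃ t, Up O x h (n + 1) n t) (k3 : l (n + 3) = l (n + 2))
    (k0 : l n = l (n + 3) + l (n + 4)) :
    TQ O.M (mx O x) (mb b) (fun i => l (b.symm (-i))) (fun i => h (-i)) (-n) := by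
  have g : ∀ i j, (∃ t, Up O x h i j t) →
      ∃ t, Up O.M (mx O x) (fun i => h (-i)) (-i) (-(b j)) t :=
    fun i j ⟨t, ht⟩ => ⟨_, Up.M H ht⟩
  refine ⟨H.M, mb_of b0, ?_, ?_, ?_, ?_, ?_, ?_, ?_, ?_, ?_⟩
  · rw [← m4, ← m1]; exact mb_of b1
  · rw [← m3]; exact mb_of b3
  · rw [← m2, ← m4]; exact mb_of b4
  · rw [← m1, ← m2]; exact mb_of b2
  · have h1 := g _ _ s10
    rwa [b0, m1] at h1
  · have h1 := g _ _ s03
    rwa [b3, m3] at h1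
  · have h1 := g _ _ s32
    rwa [b2, m3, m1] at h1
  · simp only [← m2, ← m1, neg_neg]
    rw [symm_of b0, symm_of b4, symm_of b2, k0, k3, add_comm]
  · simp only [← m3, ← m1, neg_neg]
    rw [symm_of b3, symm_of b2, k3]

theorem PO.M_trans [Finite X] (hO : O.Trans) : O.M.Trans :=
  fun S hne hr hu => hO S hne (inv_closed O.r hr) hu

/-- **All four towers.** -/
theorem HS.toQ [Finite X] (hO : O.Trans) (H : HS O x b l h)
    (hq : (∃ n, Rot n b (fun i j => ∃ t, Up O x h i j t) Tab.bQ1 Tab.cQ1) ∨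
      (∃ n, Rot n b (fun i j => ∃ t, Up O x h i j t) Tab.bQ2 Tab.cQ2) ∨
      (∃ n, Rot n b (fun i j => ∃ t, Up O x h i j t) Tab.bQ3 Tab.cQ3) ∨
      ∃ n, Rot n b (fun i j => ∃ t, Up O x h i j t) Tab.bQ4 Tab.cQ4) :
    ∃ O' : PO X, (O' = O ∨ O' = O.J.J ∨ O' = O.M ∨ O' = O.M.J.J) ∧
      ∃ x' b' l' h' a, TQ O' x' b' l' h' a := by
  have D := H.dg
  rcases hq with ⟨n, h1⟩ | ⟨n, h1⟩ | ⟨n, h1⟩ | ⟨n, h1⟩
  · obtain ⟨b0, b1, b2, b3, b4, s0, s1, s3, -, -, k0, k4, -⟩ := Rot.q1 D h1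
    exact ⟨O.M.J.J, Or.inr (Or.inr (Or.inr rfl)),
      (q1_M H b0 b1 b2 b3 b4 s0 s1 s3 k0 k4).neg (PO.M_trans hO)⟩
  · obtain ⟨b0, b1, b2, b3, b4, s0, s3, -, s13, -, k0, k3, -⟩ := Rot.q2 D h1
    exact ⟨O, Or.inl rfl, _, _, _, _, _, TQ.of_q2 H b0 b1 b2 b3 b4 s0 s3 s13 k0 k3⟩
  · obtain ⟨b0, b1, b2, b3, b4, s32, s03, -, s10, -, k3, k0, -⟩ := Rot.q3 D h1
    exact ⟨O.M, Or.inr (Or.inr (Or.inl rfl)), _, _, _, _, _,
      q3_M H b0 b1 b2 b3 b4 s32 s03 s10 k3 k0⟩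
  · obtain ⟨b0, b1, b2, b3, b4, s04, s32, s10, -, -, k0, k2, -⟩ := Rot.q4 D h1
    exact ⟨O.J.J, Or.inr (Or.inl rfl),
      (⟨H, b0, b1, b2, b3, b4, s04, s32, s10, k0, k2⟩ : Q4 O x b l h n).neg hO⟩

end Pool.Agent.H4G.Six
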