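import Pool.Agent.H4G.Six.Ex.Cross2
import Pool.Agent.H4G.Six.Ex.Dstar

/-!
# (G7, L5b) the nested tower Q (helper75)

Three horizontal cylinders: `W` with the lower side `a + 4, a + 3, a + 1` and the upper side
`a, a + 1`; `N` with the lower side `a` and the upper side `a + 2, a + 3`; `C` with the lower side
`a + 2` and the upper side `a + 4` (letters of the paper: `2 = a`, `3 = a + 1`, `j = a + 2`,
`1' = a + 3`, `j' = a + 4`; `κ = l (a + 4) = l (a + 2)`, `λ = l (a + 3)`, `μ = l (a + 1)`).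
The offsets `p` (from `j'` to `2` across `W`), `n` (from `2` to `j` across `N`), `c` (from `j` to
`j'` across `C`). Crossing cylinders:
* `E`: the word `W` at `3`, core `p`, always simple, angle `3`;
* (A): the word `W N`, left end `1'`, right end `2`, angle `2`, if `- λ H < p × n < 0`;
* (B): the word `W N`, both ends at `1'`, angle `3`, if `0 < p × n < κ H`;
* (C): the word `W N C`, left end `j'`, right end `j`, angle `3`, if `p × n = 0`,
  `0 < c × p < κ hW`.
-/

set_option autoImplicit false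

namespace Pool.Agent.H4G.Six

open Pool.Agent.H4G

variable {X : Type} {O : PO X} {x : ZMod 5 → X} {b : Equiv.Perm (ZMod 5)} {l h : ZMod 5 → ℕ}

/-- the nested tower Q, number `q2` of the table (with `a = n + 3`) -/
structure TQ (O : PO X) (x : ZMod 5 → X) (b : Equiv.Perm (ZMod 5)) (l h : ZMod 5 → ℕ)
    (a : ZMod 5) : Prop where
  hs : HS O x b l h
  b0 : b a = a
  b1 : b (a + 1) = a + 4
  b2 : b (a + 2) = a + 2
  b3 : b (a + 3) = a + 1
  b4 : b (a + 4) = a + 3
  uW : ∃ t, Up O x h (a + 4) a t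
  uN : ∃ t, Up O x h a (a + 2) t
  uC : ∃ t, Up O x h (a + 2) (a + 4) t
  l0 : l a = l (a + 3) + l (a + 4)
  l2 : l (a + 2) = l (a + 4)

namespace Twr

/-- all multiples -/
theorem allk {P : ℤ → Prop} {w : ℤ} (h1 : ∀ t, P t → P (t + w)) (h2 : ∀ t, P t → P (t - w))
    {t : ℤ} (ht : P t) (k : ℤ) : P (t + k * w) := by
  induction k using Int.induction_on with
  | zero => simpa using ht
  | succ n ih =>
    have h3 := h1 _ ih
    rw [show t + ((n : ℤ) + 1) * w = t + (n : ℤ) * w + w by ring]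
    exact h3
  | pred n ih =>
    have h3 := h2 _ ih
    rw [show t + (-(n : ℤ) - 1) * w = t + -(n : ℤ) * w - w by ring]
    exact h3

theorem e14 (a : ZMod 5) : a + 4 + 1 = a := by
  have : (4 : ZMod 5) + 1 = 0 := by decide
  rw [add_assoc, this, add_zero]

theorem e34 (a : ZMod 5) : a + 3 + 1 = a + 4 := by
  have : (3 : ZMod 5) + 1 = 4 := by decide
  rw [add_assoc, this]

theorem e23 (a : ZMod 5) : a + 2 + 1 = a + 3 := by
  have : (2 : ZMod 5) + 1 = 3 := by decide
  rw [add_assoc, this]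

theorem e12 (a : ZMod 5) : a + 1 + 1 = a + 2 := by
  have : (1 : ZMod 5) + 1 = 2 := by decide
  rw [add_assoc, this]

theorem f32 (a : ZMod 5) : a = a + 3 + ((2 : ℕ) : ZMod 5) := by
  have : (3 : ZMod 5) + ((2 : ℕ) : ZMod 5) = 0 := by decide
  rw [add_assoc, this, add_zero]

theorem f33 (a : ZMod 5) : a + 1 = a + 3 + ((3 : ℕ) : ZMod 5) := by
  have : (3 : ZMod 5) + ((3 : ℕ) : ZMod 5) = 1 := by decide
  rw [add_assoc, this]

theorem f43 (a : ZMod 5) : a + 2 = a + 4 + ((3 : ℕ) : ZMod 5) := by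
  have : (4 : ZMod 5) + ((3 : ℕ) : ZMod 5) = 2 := by decide
  rw [add_assoc, this]

theorem f13 (a : ZMod 5) : a + 4 = a + 1 + ((3 : ℕ) : ZMod 5) := by
  have : (1 : ZMod 5) + ((3 : ℕ) : ZMod 5) = 4 := by decide
  rw [add_assoc, this]

end Twr

open Twr

namespace TQ

/-- from the diagram `q2` of the table -/
theorem of_q2 (H : HS O x b l h) {n : ZMod 5} (b0 : b n = n) (b1 : b (n + 1) = n + 4)
    (b2 : b (n + 2) = n + 1) (b3 : b (n + 3) = n + 3) (b4 : b (n + 4) = n + 2)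
    (s02 : ∃ t, Up O x h n (n + 2) t) (s30 : ∃ t, Up O x h (n + 3) n t)
    (s13 : ∃ t, Up O x h (n + 1) (n + 3) t) (k0 : l n = l (n + 2))
    (k3 : l (n + 3) = l n + l (n + 1)) : TQ O x b l h (n + 3) := by
  have e1 : n + 3 + 1 = n + 4 := e34 n
  have e2 : n + 3 + 2 = n := by
    have : (3 : ZMod 5) + 2 = 0 := by decide
    rw [add_assoc, this, add_zero]
  have e3 : n + 3 + 3 = n + 1 := by
    have : (3 : ZMod 5) + 3 = 1 := by decide
    rw [add_assoc, this]
  have e4 : n + 3 + 4 = n + 2 := by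
    have : (3 : ZMod 5) + 4 = 2 := by decide
    rw [add_assoc, this]
  obtain ⟨t, ht⟩ := s13
  have g1 := H.upLeft ht
  rw [b1] at g1
  have g2 := H.upLeft g1
  rw [b4] at g2
  exact ⟨H, b3, by rw [e1, e4, b4], by rw [e2, b0], by rw [e3, e1, b1], by rw [e4, e3, b2],
    ⟨_, by rw [e4]; exact g2⟩, by rw [e2]; exact s30, by rw [e2, e4]; exact s02,
    by rw [e3, e4, k3, k0, add_comm], by rw [e2, e4, k0]⟩

variable {a : ZMod 5}

theorem h3 (T : TQ O x b l h a) : h (a + 3) = h (a + 4) := by rw [← T.b4, T.hs.hb]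

theorem h1 (T : TQ O x b l h a) : h (a + 1) = h (a + 4) := by rw [← T.b3, T.hs.hb, T.h3]

/-! ## Offsets -/

theorem W_add (T : TQ O x b l h a) (t : ℤ) (ht : Up O x h (a + 4) a t) :
    Up O x h (a + 4) a (t + ((l a : ℤ) + l (a + 1))) := by
  have g1 := T.hs.upRight ht
  rw [T.b0] at g1
  have g2 := T.hs.upRight g1
  rw [T.b1, e14] at g2
  rw [← add_assoc]
  exact g2

theorem W_sub (T : TQ O x b l h a) (t : ℤ) (ht : Up O x h (a + 4) a t) :
    Up O x h (a + 4) a (t - ((l a : ℤ) + l (a + 1))) := by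
  have g1 := T.hs.upLeft ht
  rw [T.b4] at g1
  have g2 := T.hs.upLeft g1
  rw [T.b3] at g2
  have g3 := T.hs.upLeft g2
  rw [T.b1] at g3
  have e := T.l0
  rw [show t - ((l a : ℤ) + l (a + 1)) = t - l (a + 4) - l (a + 3) - l (a + 1) by
    rw [e]; push_cast; ring]
  exact g3

/-- the offsets of `W` -/
theorem W_all (T : TQ O x b l h a) {t : ℤ} (ht : Up O x h (a + 4) a t) (k : ℤ) :
    Up O x h (a + 4) a (t + k * ((l a : ℤ) + l (a + 1))) := allk T.W_add T.W_sub ht k

theorem N_add (T : TQ O x b l h a) (t : ℤ) (ht : Up O x h a (a + 2) t) :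
    Up O x h a (a + 2) (t + (l a : ℤ)) := by
  have g1 := T.hs.upRight ht
  rw [T.b2, e23] at g1
  have g2 := T.hs.upRight g1
  rw [T.b3, e12] at g2
  have e := T.l0
  have e' := T.l2
  rw [show t + (l a : ℤ) = t + l (a + 2) + l (a + 3) by rw [e, e']; push_cast; ring]
  exact g2

theorem N_sub (T : TQ O x b l h a) (t : ℤ) (ht : Up O x h a (a + 2) t) :
    Up O x h a (a + 2) (t - (l a : ℤ)) := by
  have g1 := T.hs.upLeft ht
  rw [T.b0] at g1
  exact g1

/-- the offsets of `N` -/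
theorem N_all (T : TQ O x b l h a) {t : ℤ} (ht : Up O x h a (a + 2) t) (k : ℤ) :
    Up O x h a (a + 2) (t + k * (l a : ℤ)) := allk T.N_add T.N_sub ht k

theorem C_add (T : TQ O x b l h a) (t : ℤ) (ht : Up O x h (a + 2) (a + 4) t) :
    Up O x h (a + 2) (a + 4) (t + (l (a + 4) : ℤ)) := by
  have g1 := T.hs.upRight ht
  rw [T.b4, e34] at g1
  exact g1

theorem C_sub (T : TQ O x b l h a) (t : ℤ) (ht : Up O x h (a + 2) (a + 4) t) :
    Up O x h (a + 2) (a + 4) (t - (l (a + 4) : ℤ)) := by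
  have g1 := T.hs.upLeft ht
  rw [T.b2, T.l2] at g1
  exact g1

/-- the offsets of `C` -/
theorem C_all (T : TQ O x b l h a) {t : ℤ} (ht : Up O x h (a + 2) (a + 4) t) (k : ℤ) :
    Up O x h (a + 2) (a + 4) (t + k * (l (a + 4) : ℤ)) := allk T.C_add T.C_sub ht k

/-- from `3` to `3` across `W` -/
theorem up33 (T : TQ O x b l h a) {t : ℤ} (ht : Up O x h (a + 4) a t) :
    Up O x h (a + 1) (a + 1) t := by
  have g1 := T.hs.upRight ht
  rw [T.b0] at g1
  have g2 := T.hs.upLeft g1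
  rw [T.b4] at g2
  have g3 := T.hs.upLeft g2
  rw [T.b3] at g3
  have e := T.l0
  rw [show t + (l a : ℤ) - l (a + 4) - l (a + 3) = t by rw [e]; push_cast; ring] at g3
  exact g3

/-- from `1'` to `2` across `W` -/
theorem up12 (T : TQ O x b l h a) {t : ℤ} (ht : Up O x h (a + 4) a t) :
    Up O x h (a + 3) a (t - l (a + 4)) := by
  have g1 := T.hs.upLeft ht
  rw [T.b4] at g1
  exact g1

/-- from `2` to `1'` across `N` -/
theorem up21 (T : TQ O x b l h a) {t : ℤ} (ht : Up O x h a (a + 2) t) :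
    Up O x h a (a + 3) (t + l (a + 4)) := by
  have g1 := T.hs.upRight ht
  rw [T.b2, e23, T.l2] at g1
  exact g1

/-! ## The crossing cylinders -/

/-- the crossing cylinder `E` -/
theorem cylE (T : TQ O x b l h a) {p : ℤ} (hp : Up O x h (a + 4) a p) :
    SC O (p, (h (a + 4) : ℤ)) (-(l (a + 1) : ℤ), 0) 3 := by
  have g := cross1 T.hs (T.up33 hp) (a := 3) (by rw [T.b1]; exact f13 a)
  rw [T.h1] at g
  exact g

/-- (A) -/
theorem cylA (T : TQ O x b l h a) {p n : ℤ} (hp : Up O x h (a + 4) a p)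
    (hn : Up O x h a (a + 2) n)
    (w0 : -((l (a + 3) : ℤ) * (h (a + 4) + h a)) < p * h a - h (a + 4) * n)
    (w1 : p * h a - h (a + 4) * n < 0) :
    SC O (p + n, (h (a + 4) : ℤ) + h a) (-p - l (a + 3), -(h (a + 4) : ℤ)) 2 := by
  have hl4 : (0 : ℤ) < l (a + 4) := by exact_mod_cast T.hs.lpos (a + 4)
  have hh4 : (0 : ℤ) < h (a + 4) := by exact_mod_cast T.hs.hpos (a + 4)
  have hh0 : (0 : ℤ) < h a := by exact_mod_cast T.hs.hpos a
  have e := T.l0
  have e3 := T.h3
  have g := cross2_01 T.hs (T.up12 hp) (T.up21 hn) (S := (h (a + 4) : ℤ) + h a)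
    (D := p * h a - h (a + 4) * n - l (a + 4) * (h (a + 4) + h a))
    (by rw [e3]) (by rw [e3]; ring)
    (by nlinarith [mul_pos hl4 hh4, mul_pos hl4 hh0])
    (by rw [e]; push_cast; nlinarith) (by rw [e]; push_cast; nlinarith) (a := 2)
    (by rw [T.b0]; exact f32 a)
  have e4 : p - (l (a + 4) : ℤ) + (n + l (a + 4)) = p + n := by ring
  have e5 : -(p - (l (a + 4) : ℤ)) - l a = -p - l (a + 3) := by rw [e]; push_cast; ring
  rw [e4, e5, e3] at g
  exact g

/-- (B) -/
theorem cylB (T : TQ O x b l h a) {p n : ℤ} (hp : Up O x h (a + 4) a p)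
    (hn : Up O x h a (a + 2) n) (w0 : 0 < p * h a - h (a + 4) * n)
    (w1 : p * h a - h (a + 4) * n < (l (a + 4) : ℤ) * (h (a + 4) + h a)) :
    SC O (p + n, (h (a + 4) : ℤ) + h a) (-(l (a + 3) : ℤ), 0) 3 := by
  have e := T.l0
  have e3 := T.h3
  have g := cross2_00 T.hs (T.up12 hp) (T.up21 hn) (S := (h (a + 4) : ℤ) + h a)
    (D := p * h a - h (a + 4) * n - l (a + 4) * (h (a + 4) + h a))
    (by rw [e3]) (by rw [e3]; ring) (by linarith) (by rw [e]; push_cast; nlinarith) (a := 3)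
    (by rw [T.b3]; exact f33 a)
  have e4 : p - (l (a + 4) : ℤ) + (n + l (a + 4)) = p + n := by ring
  rw [e4] at g
  exact g

/-- the area between `E` and (B) -/
theorem cr_B (p n w k : ℤ) : cr (p, w) (p + n, w + k) = p * k - w * n := by
  simp only [cr]
  ring

/-- (C) -/
theorem cylC (T : TQ O x b l h a) {p n c : ℤ} (hp : Up O x h (a + 4) a p)
    (hn : Up O x h a (a + 2) n) (hc : Up O x h (a + 2) (a + 4) c)
    (hpn : p * h a = h (a + 4) * n) (w0 : 0 < c * h (a + 4) - h (a + 2) * p)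
    (w1 : c * h (a + 4) - h (a + 2) * p < (l (a + 4) : ℤ) * h (a + 4)) :
    SC O (p + n + c, (h (a + 4) : ℤ) + h a + h (a + 2))
      (-(p + n) - l (a + 4), -((h (a + 4) : ℤ) + h a)) 3 := by
  have hl4 : (0 : ℤ) < l (a + 4) := by exact_mod_cast T.hs.lpos (a + 4)
  have hl3 : (0 : ℤ) < l (a + 3) := by exact_mod_cast T.hs.lpos (a + 3)
  have hh4 : (0 : ℤ) < h (a + 4) := by exact_mod_cast T.hs.hpos (a + 4)
  have hh0 : (0 : ℤ) < h a := by exact_mod_cast T.hs.hpos a
  have hh2 : (0 : ℤ) < h (a + 2) := by exact_mod_cast T.hs.hpos (a + 2)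
  have e := T.l0
  have e2 := T.l2
  set π : ℤ := c * h (a + 4) - h (a + 2) * p with hπ
  -- `E` of the lemma, times `hW`
  have hE : (h (a + 4) : ℤ) * ((p + n) * h (a + 2) - (h (a + 4) + h a) * c) =
      -((h (a + 4) + h a) * π) := by
    rw [hπ]
    linear_combination (-(h (a + 2) : ℤ)) * hpn
  have hD : p * (h a + h (a + 2)) - h (a + 4) * (n + c) = -π := by
    rw [hπ]
    linear_combination hpn
  have hEneg : (p + n) * h (a + 2) - ((h (a + 4) : ℤ) + h a) * c < 0 := by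
    by_contra hcon
    have h1 := mul_nonneg hh4.le (not_lt.1 hcon)
    rw [hE] at h1
    nlinarith [mul_pos (add_pos hh4 hh0) w0]
  have hEle : (p + n) * h (a + 2) - ((h (a + 4) : ℤ) + h a) * c < -π := by
    by_contra hcon
    have h1 := mul_le_mul_of_nonneg_left (not_lt.1 hcon) hh4.le
    rw [hE] at h1
    nlinarith [mul_pos hh0 w0]
  have hEw : -(l (a + 4) * ((h (a + 4) : ℤ) + h a)) <
      (p + n) * h (a + 2) - ((h (a + 4) : ℤ) + h a) * c := by
    by_contra hcon
    have h1 := mul_le_mul_of_nonneg_left (not_lt.1 hcon) hh4.le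
    rw [hE] at h1
    nlinarith [mul_lt_mul_of_pos_left w1 (add_pos hh4 hh0)]
  have g := cross3_02 T.hs hp hn hc (S := (h (a + 4) : ℤ) + h a + h (a + 2))
    (D := -π) (E := (p + n) * h (a + 2) - ((h (a + 4) : ℤ) + h a) * c)
    rfl hD.symm rfl (by linarith) hEneg (by rw [e2]; linarith)
    (by
      rw [e2, e]
      push_cast
      have h1 : 0 < ((h (a + 4) : ℤ) + h a + h (a + 2)) * l (a + 3) := by positivity
      nlinarith)
    (by
      rw [e2]
      nlinarith [mul_pos hh2 hl4]) (a := 3) (by rw [T.b2]; exact f43 a)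
  rw [e2] at g
  exact g

/-- the area between `E` and (C) -/
theorem cr_C {p n c w k m : ℤ} (hpn : p * k = w * n) :
    cr (p, w) (p + n + c, w + k + m) = -(c * w - m * p) := by
  simp only [cr]
  linear_combination hpn

/-! ## Periods of the offsets -/

/-- the period of a row with one saddle -/
theorem _root_.Pool.Agent.H4G.Six.Twr.per1 (H : HS O x b l h) {i : ZMod 5} (hb : b i = i) {m : ℤ}
    (hm : (O.r ^ m) (x i) = x i) : (l i : ℤ) ∣ m := by
  have hl := H.lpos i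
  have hl' : (0 : ℤ) < l i := by exact_mod_cast hl
  have h0 : (O.r ^ (l i : ℤ)) (x i) = x i := by
    rw [zpow_natCast, H.next, hb]
  have h1 : ∀ k : ℤ, (O.r ^ (k * (l i : ℤ))) (x i) = x i := by
    intro k
    induction k using Int.induction_on with
    | zero => simp
    | succ n ih =>
      rw [show ((n : ℤ) + 1) * (l i : ℤ) = (n : ℤ) * l i + l i by ring, zr_add, h0, ih]
    | pred n ih =>
      have h2 : (O.r ^ (-(n : ℤ) * (l i : ℤ))) (x i) =
          (O.r ^ ((-(n : ℤ) - 1) * (l i : ℤ))) ((O.r ^ (l i : ℤ)) (x i)) := by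
        rw [← zr_add]
        congr 2
        ring
      rw [h0, ih] at h2
      exact h2.symm
  by_contra hcon
  have h3 := Int.emod_nonneg m (ne_of_gt hl')
  have h4 := Int.emod_lt_of_pos m hl'
  have h5 : m % (l i : ℤ) ≠ 0 := fun h => hcon (Int.dvd_of_emod_eq_zero h)
  obtain ⟨s, hs⟩ := Int.eq_ofNat_of_zero_le h3
  have h6 : (O.r ^ s) (x i) = x i := by
    rw [← zpow_natCast, show ((s : ℕ) : ℤ) = m % (l i : ℤ) from hs.symm]
    have h7 := Int.emod_add_mul_ediv m (l i : ℤ)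
    rw [show m % (l i : ℤ) = m + (-(m / (l i : ℤ))) * (l i : ℤ) by linarith, zr_add, h1, hm]
  have h8 := H.reg i s (by omega) (by omega)
  rw [h6] at h8
  exact H.ne_reg h8 rfl

theorem _root_.Pool.Agent.H4G.Six.Twr.upU (H : HS O x b l h) {i j : ZMod 5} {t t' : ℤ}
    (h1 : Up O x h i j t) (h2 : Up O x h i j t') : (O.r ^ (t' - t)) (x i) = x i := by
  have hk : h i - 1 < h i := by
    have := H.hpos i
    omega
  have h3 : (O.r ^ (t' - t)) ((O.u ^ (h i - 1)) (x i)) = (O.u ^ (h i - 1)) (x i) := by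
    apply (O.r ^ t).injective
    rw [← zr_add, add_sub_cancel]
    exact h2.trans h1.symm
  rw [H.comm i hk] at h3
  exact (O.u ^ (h i - 1)).injective h3

theorem N_per (T : TQ O x b l h a) {n n' : ℤ} (hn : Up O x h a (a + 2) n)
    (hn' : Up O x h a (a + 2) n') : (l a : ℤ) ∣ n' - n :=
  Twr.per1 T.hs T.b0 (Twr.upU T.hs hn hn')

theorem C_per (T : TQ O x b l h a) {c c' : ℤ} (hc : Up O x h (a + 2) (a + 4) c)
    (hc' : Up O x h (a + 2) (a + 4) c') : (l (a + 4) : ℤ) ∣ c' - c := by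
  have h1 := Twr.per1 T.hs T.b2 (Twr.upU T.hs hc hc')
  rw [T.l2] at h1
  exact h1

/-! ## The minimal pair -/

/-- an integer multiple of `w` in the window -/
theorem _root_.Pool.Agent.H4G.Six.Twr.win {w : ℤ} (hw : 0 < w) (z r : ℤ) :
    ∃ k : ℤ, r ≤ z + k * w ∧ z + k * w < r + w := by
  refine ⟨-((z - r) / w), ?_, ?_⟩
  · have h1 := Int.emod_nonneg (z - r) (ne_of_gt hw)
    have h2 := Int.emod_add_mul_ediv (z - r) w
    nlinarith
  · have h1 := Int.emod_lt_of_pos (z - r) hw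
    have h2 := Int.emod_add_mul_ediv (z - r) w
    nlinarith

/-- Without cylinder of angle `2` (that is, of angles `(1, 1)`) every offset of `N` satisfies:
`p × n` is not in `(- λ H, 0)`. -/
theorem no_win (T : TQ O x b l h a) (h2 : ∀ V w, ¬ SC O V w 2) {p n : ℤ}
    (hp : Up O x h (a + 4) a p) (hn : Up O x h a (a + 2) n)
    (w1 : p * h a - h (a + 4) * n < 0) :
    p * h a - h (a + 4) * n ≤ -((l (a + 3) : ℤ) * (h (a + 4) + h a)) := by
  by_contra hcon
  exact h2 _ _ (T.cylA hp hn (not_le.1 hcon) w1)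

/-- **The minimal pair argument, `N`.** If `κ hW` is the least area of a pair of simple cylinders
and there is no cylinder of angle `2`, then every offset `p` of `W` is parallel to an offset `n` of
`N`. -/
theorem par_N (T : TQ O x b l h a) (h2 : ∀ V w, ¬ SC O V w 2)
    (hm : ∀ V w V' w' d d', SC O V w d → SC O V' w' d' → cr V V' ≠ 0 →
      (l (a + 4) : ℤ) * h (a + 4) ≤ |cr V V'|) {p : ℤ} (hp : Up O x h (a + 4) a p) :
    ∃ n, Up O x h a (a + 2) n ∧ p * h a = h (a + 4) * n := by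
  have hl4 : (0 : ℤ) < l (a + 4) := by exact_mod_cast T.hs.lpos (a + 4)
  have hl3 : (0 : ℤ) < l (a + 3) := by exact_mod_cast T.hs.lpos (a + 3)
  have hh4 : (0 : ℤ) < h (a + 4) := by exact_mod_cast T.hs.hpos (a + 4)
  have hh0 : (0 : ℤ) < h a := by exact_mod_cast T.hs.hpos a
  have e : (l a : ℤ) = l (a + 3) + l (a + 4) := by exact_mod_cast T.l0
  obtain ⟨n0, hn0⟩ := T.uN
  -- the window `[- λ hW, κ hW)` has length `l a * hW`
  obtain ⟨k, k1, k2⟩ := Twr.win (w := (l a : ℤ) * h (a + 4)) (by rw [e]; positivity)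
    (p * h a - h (a + 4) * n0) (-((l (a + 3) : ℤ) * h (a + 4)))
  have hn := T.N_all hn0 (-k)
  set n : ℤ := n0 + -k * (l a : ℤ) with hnd
  have e1 : p * h a - h (a + 4) * n = p * h a - h (a + 4) * n0 + k * ((l a : ℤ) * h (a + 4)) := by
    rw [hnd]; ring
  rw [← e1] at k1 k2
  have k2' : p * h a - h (a + 4) * n < l (a + 4) * h (a + 4) := by
    rw [e] at k2
    linarith
  refine ⟨n, hn, ?_⟩
  rcases lt_trichotomy (p * h a - h (a + 4) * n) 0 with c | c | c
  · exfalso
    have := T.no_win h2 hp hn c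
    nlinarith [mul_pos hl3 hh0]
  · linarith
  · exfalso
    have g := T.cylB hp hn c (by nlinarith [mul_pos hl4 hh0])
    have g1 := hm _ _ _ _ _ _ (T.cylE hp) g (by rw [cr_B]; exact ne_of_gt c)
    rw [cr_B, abs_of_pos c] at g1
    linarith

/-- **The minimal pair argument, `C`.** -/
theorem par_C (T : TQ O x b l h a)
    (hm : ∀ V w V' w' d d', SC O V w d → SC O V' w' d' → cr V V' ≠ 0 →
      (l (a + 4) : ℤ) * h (a + 4) ≤ |cr V V'|) {p n : ℤ} (hp : Up O x h (a + 4) a p)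
    (hn : Up O x h a (a + 2) n) (hpn : p * h a = h (a + 4) * n) :
    ∃ c, Up O x h (a + 2) (a + 4) c ∧ c * h (a + 4) = h (a + 2) * p := by
  have hl4 : (0 : ℤ) < l (a + 4) := by exact_mod_cast T.hs.lpos (a + 4)
  have hh4 : (0 : ℤ) < h (a + 4) := by exact_mod_cast T.hs.hpos (a + 4)
  obtain ⟨c0, hc0⟩ := T.uC
  obtain ⟨k, k1, k2⟩ := Twr.win (w := (l (a + 4) : ℤ) * h (a + 4)) (by positivity)
    (c0 * h (a + 4) - h (a + 2) * p) 0
  have hc := T.C_all hc0 k
  set c : ℤ := c0 + k * (l (a + 4) : ℤ) with hcd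
  have e1 : c * h (a + 4) - h (a + 2) * p =
      c0 * h (a + 4) - h (a + 2) * p + k * ((l (a + 4) : ℤ) * h (a + 4)) := by
    rw [hcd]; ring
  rw [← e1] at k1 k2
  rw [zero_add] at k2
  refine ⟨c, hc, ?_⟩
  rcases k1.lt_or_eq with c1 | c1
  · exfalso
    have g := T.cylC hp hn hc hpn c1 k2
    have g1 := hm _ _ _ _ _ _ (T.cylE hp) g (by
      rw [cr_C hpn]
      exact neg_ne_zero.2 (ne_of_gt c1))
    rw [cr_C hpn, abs_neg, abs_of_pos c1] at g1
    linarith
  · linarith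

/-- **The Young surface.** In a minimal pair without cylinder of angle `2` every offset `p` of `W`
has parallel offsets `n`, `c` of `N`, `C`; the widths satisfy `w3 hN = j w1 hW`, `w3 hC = i κ hW`
(`w1 = κ + λ = l a`, `w3 = w1 + μ`), and `λ hN ≤ κ hW`. -/
theorem young (T : TQ O x b l h a) (h2 : ∀ V w, ¬ SC O V w 2)
    (hm : ∀ V w V' w' d d', SC O V w d → SC O V' w' d' → cr V V' ≠ 0 →
      (l (a + 4) : ℤ) * h (a + 4) ≤ |cr V V'|) :
    (∀ p, Up O x h (a + 4) a p → ∃ n c, Up O x h a (a + 2) n ∧ Up O x h (a + 2) (a + 4) c ∧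
      p * h a = h (a + 4) * n ∧ c * h (a + 4) = h (a + 2) * p) ∧
    (∃ j : ℕ, 0 < j ∧ (l a + l (a + 1)) * h a = j * (l a * h (a + 4))) ∧
    (∃ i : ℕ, 0 < i ∧ (l a + l (a + 1)) * h (a + 2) = i * (l (a + 4) * h (a + 4))) ∧
    l (a + 3) * h a ≤ l (a + 4) * h (a + 4) := by
  have hl4 : (0 : ℤ) < l (a + 4) := by exact_mod_cast T.hs.lpos (a + 4)
  have hl1 : (0 : ℤ) < l (a + 1) := by exact_mod_cast T.hs.lpos (a + 1)
  have hla : (0 : ℤ) < l a := by exact_mod_cast T.hs.lpos a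
  have hh4 : (0 : ℤ) < h (a + 4) := by exact_mod_cast T.hs.hpos (a + 4)
  have hh0 : (0 : ℤ) < h a := by exact_mod_cast T.hs.hpos a
  have hh2 : (0 : ℤ) < h (a + 2) := by exact_mod_cast T.hs.hpos (a + 2)
  have e : (l a : ℤ) = l (a + 3) + l (a + 4) := by exact_mod_cast T.l0
  have key : ∀ p, Up O x h (a + 4) a p → ∃ n c, Up O x h a (a + 2) n ∧
      Up O x h (a + 2) (a + 4) c ∧ p * h a = h (a + 4) * n ∧
      c * h (a + 4) = h (a + 2) * p := by
    intro p hp
    obtain ⟨n, hn, e1⟩ := T.par_N h2 hm hp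
    obtain ⟨c, hc, e2⟩ := T.par_C hm hp hn e1
    exact ⟨n, c, hn, hc, e1, e2⟩
  obtain ⟨p, hp⟩ := T.uW
  obtain ⟨n, c, hn, hc, e1, e2⟩ := key p hp
  obtain ⟨n', c', hn', hc', e1', e2'⟩ := key _ (T.W_add p hp)
  obtain ⟨j, hj⟩ := T.N_per hn hn'
  obtain ⟨i, hi⟩ := T.C_per hc hc'
  have f1 : ((l a : ℤ) + l (a + 1)) * h a = j * (l a * h (a + 4)) := by
    have : h (a + 4) * (n' - n) = ((l a : ℤ) + l (a + 1)) * h a := by
      linear_combination e1 - e1'
    rw [← this, hj]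
    ring
  have f2 : ((l a : ℤ) + l (a + 1)) * h (a + 2) = i * (l (a + 4) * h (a + 4)) := by
    have : h (a + 4) * (c' - c) = ((l a : ℤ) + l (a + 1)) * h (a + 2) := by
      linear_combination e2' - e2
    rw [← this, hi]
    ring
  have j0 : 0 < j := by
    have : 0 < j * ((l a : ℤ) * h (a + 4)) := by rw [← f1]; positivity
    exact pos_of_mul_pos_left this (by positivity)
  have i0 : 0 < i := by
    have : 0 < i * ((l (a + 4) : ℤ) * h (a + 4)) := by rw [← f2]; positivity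
    exact pos_of_mul_pos_left this (by positivity)
  refine ⟨key, ⟨j.toNat, by omega, ?_⟩, ⟨i.toNat, by omega, ?_⟩, ?_⟩
  · have : ((j.toNat : ℕ) : ℤ) = j := Int.toNat_of_nonneg j0.le
    zify
    rw [this]
    exact f1
  · have : ((i.toNat : ℕ) : ℤ) = i := Int.toNat_of_nonneg i0.le
    zify
    rw [this]
    exact f2
  · have g := T.no_win h2 hp (T.N_add n hn) (by nlinarith [mul_pos hh4 hla])
    zify
    rw [e] at g
    nlinarith

end TQ

end Pool.Agent.H4G.Six
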