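import Mathlib

/-!
# Young surfaces: the arithmetic relations and the window `(Um)` (helper79, page of helper31)
-/

set_option autoImplicit false

namespace Pool.Agent.H4G.Six

/-- the arithmetic relations of a minimal Young surface with columns `a, b, c` and rows
`d, e, f` -/
structure YR (a b c d e f J I J' I' : ℤ) : Prop where
  a0 : 0 < a
  b0 : 0 < b
  c0 : 0 < c
  d0 : 0 < d
  e0 : 0 < e
  f0 : 0 < f
  J0 : 1 ≤ J
  I0 : 1 ≤ I
  J0' : 1 ≤ J'
  I0' : 1 ≤ I'
  re : (a + b + c) * e = J * ((a + b) * d)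
  rf : (a + b + c) * f = I * (a * d)
  rb : (d + e + f) * b = J' * ((d + e) * a)
  rc : (d + e + f) * c = I' * (a * d)
  le : b * e ≤ a * d

theorem YR.tr {a b c d e f J I J' I' : ℤ} (h : YR a b c d e f J I J' I') :
    YR d e f a b c J' I' J I where
  a0 := h.d0
  b0 := h.e0
  c0 := h.f0
  d0 := h.a0
  e0 := h.b0
  f0 := h.c0
  J0 := h.J0'
  I0 := h.I0'
  J0' := h.J0
  I0' := h.I0
  re := h.rb
  rf := by rw [h.rc, mul_comm a d]
  rb := h.re
  rc := by rw [h.rf, mul_comm a d]
  le := by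
    have := h.le
    linarith [mul_comm e b, mul_comm d a]

/-- the window `(Um)` -/
def WUm (a b c d e f : ℤ) : Prop :=
  ∃ (m : ℕ) (k : ℤ), 2 ≤ m ∧ f * (a + b + c + k * a) < k * a * (e + f + m * d) ∧
    k * a * (e + f + m * d) < (e + f) * (a + b + c + k * a) ∧
    e * (a + b + c + k * a) < a * (e + f + m * d) ∧
    a * (e + f + m * d) < (d + e) * (a + b + c + k * a) ∧
    (k * a + (a + b)) * (e + f + m * d) < (d + e + f) * (a + b + c + k * a)

end Pool.Agent.H4G.Six
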