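import Pool.Agent.H4G.Six.Ex.YoungT
import Pool.Agent.H4G.Six.Ex.Mir

/-!
# (G7) simple cylinders of the transposed origami (helper2)
-/

set_option autoImplicit false

namespace Pool.Agent.H4G.Six

open Pool.Agent.H4G

variable {X : Type}

theorem PO.J4 (O : PO X) : O.J.J.J.J = O := by
  cases O
  simp [PO.J]

theorem PO.tp_M (O : PO X) : O.tp.M = O.J := rfl

theorem PO.tp_tp (O : PO X) : O.tp.tp = O := rfl

/-- simple cylinders of the transposed origami; `hJ` is `SC.J` -/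
theorem SC.of_tp' (hJ : ∀ (O : PO X) (V w : Z2) (a : ℕ), SC O V w a → SC O.J (shJ V) (shJ w) a)
    {O : PO X} {V w : Z2} {a : ℕ} (h : SC O.tp V w a) : ∃ V' w', SC O V' w' a := by
  have h1 := h.M
  rw [PO.tp_M] at h1
  have h2 := hJ _ _ _ _ (hJ _ _ _ _ (hJ _ _ _ _ h1))
  rw [PO.J4] at h2
  exact ⟨_, _, h2⟩

end Pool.Agent.H4G.Six
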