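import Pool.Agent.H4G.Six.Ex.Cross5
import Pool.Agent.H4G.Six.Ex.Tower
import Pool.Agent.H4G.Six.Ex.YTDefs

/-!
# (G7) Young surfaces: the windows (helper31)

The horizontal cylinder decomposition of the Young surface `YT O a b c d e f` (letters: `j = n`,
`1' = n + 1`, `j' = n + 2`, `2 = n + 3`, `3 = n + 4`): wide cylinder (height `d`), bottom
`j' 1' 3`, top `2 3`; medium cylinder (height `e`), bottom `2`, top `j 1'`; small cylinder (height
`f`), bottom `j`, top `j'`; lengths `a, b, a, a + b, c`.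

Four families of simple cylinders of angles `(1, 1)`: `YT.n5`, `YT.w1`, `YT.lb`, `YT.um`.
-/

set_option autoImplicit false

namespace Pool.Agent.H4G.Six

open Pool.Agent.H4G

variable {X : Type} {O : PO X} {x : ZMod 5 → X} {B : Equiv.Perm (ZMod 5)} {l h : ZMod 5 → ℕ}
  {n : ZMod 5} {a b c d e f : ℕ}

namespace YTx

theorem apos (Y : YTx O x B l h n a b c d e f) : 0 < a := by rw [← Y.l0]; exact Y.H.lpos _
theorem bpos (Y : YTx O x B l h n a b c d e f) : 0 < b := by rw [← Y.l1]; exact Y.H.lpos _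
theorem cpos (Y : YTx O x B l h n a b c d e f) : 0 < c := by rw [← Y.l4]; exact Y.H.lpos _
theorem dpos (Y : YTx O x B l h n a b c d e f) : 0 < d := by rw [← Y.h1]; exact Y.H.hpos _
theorem epos (Y : YTx O x B l h n a b c d e f) : 0 < e := by rw [← Y.h3]; exact Y.H.hpos _
theorem fpos (Y : YTx O x B l h n a b c d e f) : 0 < f := by rw [← Y.h0]; exact Y.H.hpos _

theorem s3 (n : ZMod 5) : n = n + 3 + ((2 : ℕ) : ZMod 5) := by
  have : (3 : ZMod 5) + ((2 : ℕ) : ZMod 5) = 0 := by decide
  rw [add_assoc, this, add_zero]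

theorem s1 (n : ZMod 5) : n + 3 = n + 1 + ((2 : ℕ) : ZMod 5) := by
  have : (1 : ZMod 5) + ((2 : ℕ) : ZMod 5) = 3 := by decide
  rw [add_assoc, this]

/-- `j' → 3` -/
theorem u24 (Y : YTx O x B l h n a b c d e f) : Up O x h (n + 2) (n + 4) (a + b) := by
  have g := Y.H.upRight Y.up2
  rw [Y.B3, Twr.e34, Y.l3] at g
  simpa using g

/-- `3 → 3` -/
theorem u44 (Y : YTx O x B l h n a b c d e f) : Up O x h (n + 4) (n + 4) 0 := by
  have g := Y.H.upLeft (Y.H.upLeft Y.u24)
  rw [Y.B2, Y.B1, Y.l1, Y.l2] at g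
  rwa [show (a : ℤ) + b - a - b = 0 by ring] at g

/-- `3 → 2` -/
theorem u43 (Y : YTx O x B l h n a b c d e f) : Up O x h (n + 4) (n + 3) c := by
  have g := Y.H.upRight Y.u44
  rw [Y.B4, Twr.e23, Y.l4] at g
  simpa using g

/-- `1' → 2` -/
theorem u13 (Y : YTx O x B l h n a b c d e f) : Up O x h (n + 1) (n + 3) (-a) := by
  have g := Y.H.upLeft Y.up2
  rw [Y.B2, Y.l2] at g
  simpa using g

/-- `2 → 1'` -/
theorem u31 (Y : YTx O x B l h n a b c d e f) : Up O x h (n + 3) (n + 1) a := by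
  have g := Y.H.upRight Y.up3
  rw [Y.B0, Y.l0] at g
  simpa using g

/-- `2 → j` -/
theorem u30 (Y : YTx O x B l h n a b c d e f) (k : ℤ) :
    Up O x h (n + 3) n (k * (a + b)) := by
  have g := Twr.allk (P := fun t => Up O x h (n + 3) n t) (w := (a : ℤ) + b) (fun t ht => by
    have g1 := Y.H.upRight (Y.H.upRight ht)
    rw [Y.B0, Y.B1, Twr.e14, Y.l0, Y.l1] at g1
    rw [← add_assoc]
    exact g1) (fun t ht => by
    have g1 := Y.H.upLeft ht
    rw [Y.B3, Y.l3] at g1
    push_cast at g1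
    exact g1) Y.up3 k
  simpa using g

/-- `2 → 1'` -/
theorem u31k (Y : YTx O x B l h n a b c d e f) (k : ℤ) :
    Up O x h (n + 3) (n + 1) (a + k * (a + b)) := by
  have g := Y.H.upRight (Y.u30 k)
  rw [Y.B0, Y.l0] at g
  rwa [show k * ((a : ℤ) + b) + a = a + k * (a + b) by ring] at g

/-- `j → j'` -/
theorem u02 (Y : YTx O x B l h n a b c d e f) (k : ℤ) : Up O x h n (n + 2) (k * a) := by
  have g := Twr.allk (P := fun t => Up O x h n (n + 2) t) (w := (a : ℤ)) (fun t ht => by
    have g1 := Y.H.upRight ht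
    rw [Y.B2, Twr.e12, Y.l2] at g1
    exact g1) (fun t ht => by
    have g1 := Y.H.upLeft ht
    rw [Y.B0, Y.l0] at g1
    exact g1) Y.up0 k
  simpa using g

end YTx

theorem YT.pos (Y : YT O a b c d e f) : 0 < a ∧ 0 < b ∧ 0 < c ∧ 0 < d ∧ 0 < e ∧ 0 < f := by
  obtain ⟨x, B, l, h, n, Y⟩ := Y
  exact ⟨Y.apos, Y.bpos, Y.cpos, Y.dpos, Y.epos, Y.fpos⟩

/-- The word `2 1' 2 j j'` to the left. -/
theorem YT.n5 (Y : YT O a b c d e f) (k : ℤ) {E T : ℤ} (hE : E = a + b + k * a)
    (hT : T = d + e + f + (d + e)) (h0 : 0 < E) (h1 : E * (d + e) < b * T)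
    (h2 : b * T < E * (d + 2 * e)) (h3 : 2 * (E * (d + e)) < (a + b) * T) :
    ∃ V w, SC O V w 2 := by
  obtain ⟨x, B, l, h, n, Y⟩ := Y
  have ha : (0 : ℤ) < a := by exact_mod_cast Y.apos
  have hb : (0 : ℤ) < b := by exact_mod_cast Y.bpos
  have hd : (0 : ℤ) < d := by exact_mod_cast Y.dpos
  have he : (0 : ℤ) < e := by exact_mod_cast Y.epos
  have hf : (0 : ℤ) < f := by exact_mod_cast Y.fpos
  have q1 : 0 < E * d := mul_pos h0 hd
  have q2 : 0 < E * e := mul_pos h0 he
  have hTp : 0 < T := by rw [hT]; positivity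
  have q3 : 0 < a * T := mul_pos ha hTp
  have q4 : 0 < b * T := mul_pos hb hTp
  have v0 := Y.u31k (-1)
  rw [show (a : ℤ) + -1 * (a + b) = -b by ring] at v0
  have v3 := Y.u02 (-k)
  have key := cross5_03 Y.H v0 Y.u13 Y.up3 v3 Y.up2 (S := T) (D1 := -(b * T) + E * e)
    (D2 := -((a + b) * T) + E * (d + e)) (D3 := -((a + b) * T) + E * (d + 2 * e))
    (D4 := -(E * d)) (by rw [Y.h3, Y.h1, Y.h0, Y.h2, hT]; ring)
    (by rw [Y.h3, Y.h1, Y.h0, Y.h2, hT, hE]; ring) (by rw [Y.h3, Y.h1, Y.h0, Y.h2, hT, hE]; ring)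
    (by rw [Y.h3, Y.h1, Y.h0, Y.h2, hT, hE]; ring) (by rw [Y.h3, Y.h1, Y.h0, Y.h2, hE]; ring)
    (by linarith) (by linarith) (by linarith) (by linarith)
    (by rw [Y.l0, Y.l3]; push_cast; linarith)
    (by rw [Y.l0, Y.l1]; linarith)
    (by rw [Y.l0, Y.l3]; push_cast; linarith)
    (by rw [Y.l0, Y.l2]; linarith)
    (by rw [Y.l0]; linarith) (a := 2) (by rw [Y.B0]; exact YTx.s3 n)
  exact ⟨_, _, key⟩

/-- The word `1' 2 j j' 2`. -/
theorem YT.w1 (Y : YT O a b c d e f) (k : ℤ) {E T : ℤ} (hE : E = a + b + k * a)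
    (hT : T = d + e + f + (d + e)) (h0 : 0 < E) (h1 : E * d < b * T) (h2 : b * T < E * (d + e))
    (h3 : E * (d + e) < a * T) : ∃ V w, SC O V w 2 := by
  obtain ⟨x, B, l, h, n, Y⟩ := Y
  have ha : (0 : ℤ) < a := by exact_mod_cast Y.apos
  have hb : (0 : ℤ) < b := by exact_mod_cast Y.bpos
  have hd : (0 : ℤ) < d := by exact_mod_cast Y.dpos
  have he : (0 : ℤ) < e := by exact_mod_cast Y.epos
  have hf : (0 : ℤ) < f := by exact_mod_cast Y.fpos
  have q1 : 0 < E * d := mul_pos h0 hd
  have q2 : 0 < E * e := mul_pos h0 he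
  have hTp : 0 < T := by rw [hT]; positivity
  have q3 : 0 < a * T := mul_pos ha hTp
  have q4 : 0 < b * T := mul_pos hb hTp
  have v1 := Y.u30 1
  rw [one_mul] at v1
  have key := cross5_01 Y.H Y.u13 v1 (Y.u02 k) Y.up2 Y.u31 (S := T) (D1 := -(a * T) - E * d)
    (D2 := b * T - E * (d + e)) (D3 := E * (d + e) - a * T) (D4 := E * e - a * T)
    (by rw [Y.h3, Y.h1, Y.h0, Y.h2, hT]; ring)
    (by rw [Y.h3, Y.h1, Y.h0, Y.h2, hT, hE]; ring) (by rw [Y.h3, Y.h1, Y.h0, Y.h2, hT, hE]; ring)
    (by rw [Y.h3, Y.h1, Y.h0, Y.h2, hT, hE]; ring) (by rw [Y.h3, Y.h1, Y.h0, Y.h2, hT, hE]; ring)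
    (by linarith) (by linarith) (by linarith) (by linarith)
    (by rw [Y.l1, Y.l3]; push_cast; linarith)
    (by rw [Y.l0, Y.l3]; push_cast; linarith)
    (by rw [Y.l2, Y.l3]; push_cast; linarith)
    (by rw [Y.l3]; push_cast; linarith)
    (by rw [Y.l3]; push_cast; linarith) (a := 2) (by rw [Y.B3]; exact YTx.s1 n)
  exact ⟨_, _, key⟩

/-- The word `2 j j'` to the left. -/
theorem YT.lb (Y : YT O a b c d e f) (k : ℤ) {E T : ℤ} (hE : E = a + b + k * a)
    (hT : T = d + e + f) (h0 : 0 < E) (h1 : b * T < E * e) (h2 : E * (d + e) < (a + b) * T) :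
    ∃ V w, SC O V w 2 := by
  obtain ⟨x, B, l, h, n, Y⟩ := Y
  have ha : (0 : ℤ) < a := by exact_mod_cast Y.apos
  have hb : (0 : ℤ) < b := by exact_mod_cast Y.bpos
  have hd : (0 : ℤ) < d := by exact_mod_cast Y.dpos
  have he : (0 : ℤ) < e := by exact_mod_cast Y.epos
  have hf : (0 : ℤ) < f := by exact_mod_cast Y.fpos
  have q1 : 0 < E * d := mul_pos h0 hd
  have q2 : 0 < E * e := mul_pos h0 he
  have hTp : 0 < T := by rw [hT]; positivity
  have q3 : 0 < a * T := mul_pos ha hTp
  have q4 : 0 < b * T := mul_pos hb hTp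
  have v0 := Y.u30 (-1)
  have v1 := Y.u02 (-k)
  have key := cross3_01 Y.H v0 v1 Y.up2 (S := T) (D := -((a + b) * T) + E * e) (E := -(E * d))
    (by rw [Y.h3, Y.h0, Y.h2, hT]; ring)
    (by rw [Y.h3, Y.h0, Y.h2, hT, hE]; ring) (by rw [Y.h3, Y.h0, Y.h2, hE]; ring)
    (by linarith) (by linarith)
    (by rw [Y.l0, Y.l3]; push_cast; linarith)
    (by rw [Y.l0, Y.l2]; linarith)
    (by rw [Y.l0]; linarith) (a := 2) (by rw [Y.B0]; exact YTx.s3 n)
  exact ⟨_, _, key⟩

/-- the letters of `YT.um` -/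
def ums (n : ZMod 5) (i : ℕ) : ZMod 5 :=
  if i = 0 then n + 3 else if i = 1 then n else if i = 2 then n + 2 else n + 4

/-- the points of `YT.um` -/
def ump (ka w X e f d : ℤ) (m i : ℕ) : Z2 :=
  if i = 0 then 0 else if i = 1 then (0, e) else if i = 2 then (ka, e + f) else
  if i = m + 2 then (ka + X, e + f + m * d) else (ka + w, e + f + ((i : ℤ) - 2) * d)

/-- The word `2 j j' 3 ... 3`. -/
theorem YT.um (Y : YT O a b c d e f) (k : ℤ) (m : ℕ) (hm : 2 ≤ m) {S T : ℤ}
    (hS : S = a + b + c + k * a) (hT : T = e + f + m * d) (h0 : 0 < S)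
    (h1 : f * S < k * a * T) (h2 : k * a * T < (e + f) * S) (h3 : e * S < a * T)
    (h4 : a * T < (d + e) * S) (h5 : (k * a + (a + b)) * T < (d + e + f) * S) :
    ∃ V w, SC O V w 2 := by
  obtain ⟨x, B, l, h, n, Y⟩ := Y
  have ha : (0 : ℤ) < a := by exact_mod_cast Y.apos
  have hb : (0 : ℤ) < b := by exact_mod_cast Y.bpos
  have hd : (0 : ℤ) < d := by exact_mod_cast Y.dpos
  have he : (0 : ℤ) < e := by exact_mod_cast Y.epos
  have hf : (0 : ℤ) < f := by exact_mod_cast Y.fpos
  have hTp : 0 < T := by rw [hT]; positivity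
  have q1 : 0 < d * S := mul_pos hd h0
  have q2 : 0 < e * S := mul_pos he h0
  have q3 : 0 < a * T := mul_pos ha hTp
  have q4 : 0 < b * T := mul_pos hb hTp
  have hz : ∀ i : ℕ, 3 ≤ i → i ≠ m + 2 →
      ump (k * a) (a + b) (a + b + c) e f d m i =
        ((k * a + (a + b) : ℤ), (e : ℤ) + f + ((i : ℤ) - 2) * d) := by
    intro i h1 h2
    unfold ump
    rw [if_neg (by omega), if_neg (by omega), if_neg (by omega), if_neg h2]
  have hs : ∀ i : ℕ, 3 ≤ i → ums n i = n + 4 := by
    intro i h1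
    unfold ums
    rw [if_neg (by omega), if_neg (by omega), if_neg (by omega)]
  have hlast : ump (k * a) (a + b) (a + b + c) e f d m (m + 2) =
      (k * a + ((a : ℤ) + b + c), (e : ℤ) + f + m * d) := by
    unfold ump
    rw [if_neg (by omega), if_neg (by omega), if_neg (by omega), if_pos rfl]
  have key := crossing' Y.H (m + 2) (by omega) (ums n)
    (ump (k * a) (a + b) (a + b + c) e f d m) (U := (S, T)) rfl
    (by rw [hlast, hS, hT]; ext <;> simp; ring)
    (fun i hi => by
      rcases Nat.lt_or_ge i 3 with g | g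
      · interval_cases i
        · refine ⟨0, ?_, ?_⟩
          · rw [show (0 + 1) % (m + 2) = 1 from Nat.mod_eq_of_lt (by omega)]
            exact Y.up3
          · show ump (k * a) (a + b) (a + b + c) e f d m 1 = _
            rw [show h (ums n 0) = e from Y.h3]
            ext <;> simp [ump]
        · refine ⟨k * a, ?_, ?_⟩
          · rw [show (1 + 1) % (m + 2) = 2 from Nat.mod_eq_of_lt (by omega)]
            exact Y.u02 k
          · show ump (k * a) (a + b) (a + b + c) e f d m 2 = _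
            rw [show h (ums n 1) = f from Y.h0]
            ext <;> simp [ump]
        · refine ⟨a + b, ?_, ?_⟩
          · rw [show (2 + 1) % (m + 2) = 3 from Nat.mod_eq_of_lt (by omega)]
            exact Y.u24
          · show ump (k * a) (a + b) (a + b + c) e f d m 3 = _
            rw [show h (ums n 2) = d from Y.h2, hz 3 le_rfl (by omega)]
            ext
            · simp [ump]
            · simp only [ump]; simp; try ring
      · rcases Nat.lt_or_ge (i + 1) (m + 2) with g' | g'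
        · refine ⟨0, ?_, ?_⟩
          · rw [Nat.mod_eq_of_lt g', hs i g, hs (i + 1) (by omega)]
            exact Y.u44
          · rw [hs i g, Y.h4, hz i g (by omega), hz (i + 1) (by omega) (by omega)]
            ext
            · simp
            · simp; ring
        · have hi' : i + 1 = m + 2 := by omega
          refine ⟨c, ?_, ?_⟩
          · rw [hi', Nat.mod_self, hs i g]
            exact Y.u43
          · rw [hs i g, Y.h4, hz i g (by omega), hi', hlast]
            have : (i : ℤ) = m + 1 := by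
              have : ((i + 1 : ℕ) : ℤ) = ((m + 2 : ℕ) : ℤ) := by rw [hi']
              push_cast at this
              linarith
            ext
            · simp; ring
            · simp [this]; ring) 0 1 (by omega) (by omega)
    (fun i hi hne => by
      have e0 : cr (ump (k * a) (a + b) (a + b + c) e f d m 0) (S, T) = 0 := by
        simp [ump, cr]
      rw [e0]
      rcases Nat.lt_or_ge i 3 with g | g
      · interval_cases i
        · exact absurd rfl hne
        · simp only [ump, cr]; simp; linarith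
        · simp only [ump, cr]; simp; linarith
      · rw [hz i g (by omega)]
        simp only [cr]
        have h6 : (3 : ℤ) ≤ i := by exact_mod_cast g
        nlinarith [mul_nonneg (sub_nonneg.2 h6) q1.le])
    (fun i hi hne => by
      have e1 : cr (ump (k * a) (a + b) (a + b + c) e f d m 1) (S, T) = -(e * S) := by
        simp [ump, cr]
      rw [e1, show l (ums n 1) = a from Y.l0]
      rcases Nat.lt_or_ge i 3 with g | g
      · interval_cases i
        · rw [show l (ums n 0) = a + b from Y.l3]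
          simp only [ump, cr]; push_cast; simp; linarith
        · exact absurd rfl hne
        · rw [show l (ums n 2) = a from Y.l2]
          simp only [ump, cr]; simp; linarith
      · rw [hz i g (by omega), hs i g, Y.l4]
        simp only [cr]
        have h6 : (i : ℤ) ≤ m + 1 := by
          have : i ≤ m + 1 := by omega
          exact_mod_cast this
        have h7 := mul_nonneg (sub_nonneg.2 h6) q1.le
        have h8 : (e : ℤ) + f = T - m * d := by rw [hT]; ring
        have h9 : k * a = S - a - b - c := by rw [hS]; ring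
        rw [h9, h8]
        nlinarith [h4, h7])
    (by
      have e0 : cr (ump (k * a) (a + b) (a + b + c) e f d m 0) (S, T) = 0 := by
        simp [ump, cr]
      have e1 : cr (ump (k * a) (a + b) (a + b + c) e f d m 1) (S, T) = -(e * S) := by
        simp [ump, cr]
      rw [e0, e1, show l (ums n 1) = a from Y.l0]
      simp only
      linarith) 2 (by
        rw [show ums n 1 = n from rfl, show ums n 0 = n + 3 from rfl, Y.B0]
        exact YTx.s3 n)
  exact ⟨_, _, key⟩

end Pool.Agent.H4G.Six
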